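import Pool.Agent.H91.LK.Defs
import Pool.Agent.H25.Arith.Links
import Pool.Agent.H25.Arith.HH
import Pool.Agent.H25.Arith.Disc

/-!
# B3: reduction to a nondegenerate number

PROOF. Choose `f₁ ∈ ℤ[X]` of minimal degree among all `g ∈ ℤ[X]` with `0 < lm g ≤ lm f` (`f` itself qualifies). `lm` is
additive on products and `≥ 0` (`Polynomial.one_le_mahlerMeasure_of_ne_zero`), `lm f₁ < log 2`, so: the leading coefficient
is `± 1` (`leadingCoeff_le_mahlerMeasure`), and some irreducible factor `g` of `f₁` has `lm g > 0`; by minimality it has the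
degree of `f₁`; `g = ±` monic irreducible (with leading coefficient `± 1`), and `g ≠ ± X`. `K` = the splitting field of `g` over `ℚ`
(or the normal closure), `σ : K → ℂ` any embedding, `α ∈ K` a root, `g = ± minpoly ℤ α`, `n = #(orb α) = natDegree g`
(`orb_card`), `S = ∑_{x ∈ orb α} log⁺ ‖σ x‖ = lm g` (`hh_mahler`, `HH.lean`, `OrbSum.lean`).
(a) `x^m ≠ y^m` for different `x, y ∈ orb α`, `m ≥ 1`: for `a ∈ orb α` let `Φ(a) = ∏_{x ∈ orb α, x^m = a^m} x`. Then
`g (Φ a) = Φ (g a)` for `g` in the Galois group, so `orb (Φ α) = Φ(orb α)`, `Φ(a)` depends only on `a^m`; if the `m`-th power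
is not injective on `orb α` then `#(orb (Φ α)) ≤ #{a^m} < n`. All elements of a block `{x : x^m = a^m}` have the same absolute
value, so `log⁺ ‖σ Φ(a)‖ = ∑_{x in the block} log⁺ ‖σ x‖`, and
`∑_{b ∈ orb (Φ α)} log⁺ ‖σ b‖ ≤ ∑_{blocks} … = S`, and it is `> 0` as some `‖σ x‖ > 1`. So the minimal polynomial of `Φ α` has smaller
degree and `0 < lm ≤ lm f₁`: contradiction.
(b) `x^p ≠ y^q` for `x, y ∈ orb α`, `p ≠ q`, `p, q ≥ 1`: otherwise (Galois group) the sets `{x^p : x ∈ orb α}` and `{y^q : y ∈ orb α}` meet, so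
they are equal (both are `orb` of an element), and the maximum `h` of `‖σ x‖` over `orb α` satisfies `h^p = h^q`, so `h = 1` (`h > 1` as `S > 0`),
contradiction.
-/

set_option autoImplicit false

namespace H91.LK

open Polynomial H25.Arith

theorem nd_lm_eq (f : ℤ[X]) :
    lm f = Real.log (f.map (Int.castRingHom ℂ)).mahlerMeasure := by
  unfold lm
  exact logMahlerMeasure_eq_log_MahlerMeasure

theorem nd_lm_nonneg (f : ℤ[X]) : 0 ≤ lm f := by
  rw [nd_lm_eq]
  rcases eq_or_ne f 0 with rfl | h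
  · simp
  · exact Real.log_nonneg (one_le_mahlerMeasure_of_ne_zero h)

theorem nd_map_ne {f : ℤ[X]} (h : f ≠ 0) : f.map (Int.castRingHom ℂ) ≠ 0 :=
  (Polynomial.map_ne_zero_iff (RingHom.injective_int (Int.castRingHom ℂ))).2 h

theorem nd_lm_mul {f g : ℤ[X]} (hf : f ≠ 0) (hg : g ≠ 0) : lm (f * g) = lm f + lm g := by
  unfold lm
  rw [Polynomial.map_mul]
  exact logMahlerMeasure_mul_eq_add_logMahlerMeasure (mul_ne_zero (nd_map_ne hf) (nd_map_ne hg))

theorem nd_ne_zero {f : ℤ[X]} (h : 0 < lm f) : f ≠ 0 := by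
  rintro rfl
  rw [nd_lm_eq] at h
  simp at h

theorem nd_lc {f : ℤ[X]} (h0 : f ≠ 0) (h : lm f < Real.log 2) : |f.leadingCoeff| = 1 := by
  have h1 := leadingCoeff_le_mahlerMeasure (f.map (Int.castRingHom ℂ))
  rw [leadingCoeff_map_of_injective (RingHom.injective_int (Int.castRingHom ℂ))] at h1
  have h2 : (f.map (Int.castRingHom ℂ)).mahlerMeasure < 2 := by
    rw [nd_lm_eq] at h
    have h3 : 1 ≤ (f.map (Int.castRingHom ℂ)).mahlerMeasure := one_le_mahlerMeasure_of_ne_zero h0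
    exact (Real.log_lt_log_iff (by linarith) (by norm_num)).1 h
  have h4 : (|f.leadingCoeff| : ℝ) < 2 := by
    have h5 : ‖(Int.castRingHom ℂ) f.leadingCoeff‖ = |(f.leadingCoeff : ℝ)| := by
      simp
    rw [h5] at h1
    exact lt_of_le_of_lt h1 h2
  have h6 : |f.leadingCoeff| < 2 := by exact_mod_cast h4
  have h7 : 0 < |f.leadingCoeff| := abs_pos.2 (leadingCoeff_ne_zero.2 h0)
  omega

/-- the logarithmic Mahler measure of the minimal polynomial as a sum over the conjugates -/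
theorem nd_lm_minpoly {K : Type} [Field K] [NumberField K] [IsGalois ℚ K] (σ : K →+* ℂ) (x : K)
    (hx : IsIntegral ℤ x) : lm (minpoly ℤ x) = ∑ y ∈ orb x, Real.posLog ‖σ y‖ := by
  rw [nd_lm_eq, ← hh_mahler σ x hx]
  have h1 := orb_sum x (fun y => Real.log (max 1 ‖σ y‖))
  have hc : (Fintype.card (K ≃ₐ[ℚ] K) : ℝ) ≠ 0 := by
    exact_mod_cast Fintype.card_ne_zero
  unfold hh
  rw [← mul_div_assoc, h1, mul_div_cancel_left₀ _ hc]
  refine Finset.sum_congr rfl fun y _ => ?_
  rw [Real.posLog_eq_log_max_one (norm_nonneg _)]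

theorem nd_card {K : Type} [Field K] [NumberField K] [IsGalois ℚ K] (x : K)
    (hx : IsIntegral ℤ x) : (minpoly ℤ x).natDegree = (orb x).card := by
  rw [orb_card, minpoly.isIntegrallyClosed_eq_field_fractions' ℚ hx,
    natDegree_map_eq_of_injective (RingHom.injective_int _)]

theorem nd_root_aux (p : ℚ[X]) (hdeg : p.degree ≠ 0) (K : Type) [Field K] [CharZero K]
    [A : Algebra ℚ K] (hs : IsSplittingField ℚ K p) :
    ∃ (K : Type) (_ : Field K) (_ : NumberField K) (_ : IsGalois ℚ K) (α : K),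
      eval₂ (algebraMap ℚ K) α p = 0 := by
  obtain rfl : A = DivisionRing.toRatAlgebra := Subsingleton.elim _ _
  have hfd : FiniteDimensional ℚ K := IsSplittingField.finiteDimensional K p
  have : NumberField K := { to_finiteDimensional := hfd, to_charZero := inferInstance }
  have hn : Normal ℚ K := Normal.of_isSplittingField p
  have hg : IsGalois ℚ K := { to_isSeparable := inferInstance, to_normal := hn }
  have hsp : (p.map (algebraMap ℚ K)).Splits := IsSplittingField.splits K p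
  obtain ⟨α, hα⟩ := hsp.exists_eval_eq_zero (by simpa using hdeg)
  exact ⟨K, inferInstance, this, hg, α, by rwa [Polynomial.eval_map] at hα⟩

theorem nd_root (f : ℤ[X]) (hf : f.natDegree ≠ 0) :
    ∃ (K : Type) (_ : Field K) (_ : NumberField K) (_ : IsGalois ℚ K) (α : K), aeval α f = 0 := by
  have hdeg : (f.map (Int.castRingHom ℚ)).degree ≠ 0 := by
    intro h
    apply hf
    have h2 : (f.map (Int.castRingHom ℚ)).natDegree = 0 :=
      Polynomial.natDegree_eq_of_degree_eq_some h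
    rwa [Polynomial.natDegree_map_eq_of_injective (Int.cast_injective (α := ℚ))] at h2
  obtain ⟨K, i1, i2, i3, α, hα⟩ := nd_root_aux (f.map (Int.castRingHom ℚ)) hdeg
    (f.map (Int.castRingHom ℚ)).SplittingField
    (Polynomial.IsSplittingField.splittingField (f.map (Int.castRingHom ℚ)))
  refine ⟨K, i1, i2, i3, α, ?_⟩
  rw [Polynomial.eval₂_map] at hα
  have e : (algebraMap ℚ K).comp (Int.castRingHom ℚ) = algebraMap ℤ K := Subsingleton.elim _ _
  rw [e] at hα
  exact hα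

/-- a polynomial of minimal degree with `0 < lm ≤ lm f` is irreducible -/
theorem nd_irreducible {f f1 : ℤ[X]} (h2 : lm f < Real.log 2) (h1 : 0 < lm f1)
    (h1f : lm f1 ≤ lm f)
    (hmin : ∀ g : ℤ[X], 0 < lm g → lm g ≤ lm f → f1.natDegree ≤ g.natDegree) :
    Irreducible f1 := by
  have hne : f1 ≠ 0 := nd_ne_zero h1
  have key : ∀ a b : ℤ[X], f1 = a * b → 0 < lm a → IsUnit b := by
    intro a b hab ha
    have ha0 : a ≠ 0 := nd_ne_zero ha
    have hb0 : b ≠ 0 := by
      rintro rfl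
      exact hne (by rw [hab, mul_zero])
    have hm : lm f1 = lm a + lm b := by rw [hab]; exact nd_lm_mul ha0 hb0
    have hb := nd_lm_nonneg b
    have hd := hmin a ha (by linarith)
    have hd2 : f1.natDegree = a.natDegree + b.natDegree := by
      rw [hab]; exact natDegree_mul ha0 hb0
    have hb1 : b.natDegree = 0 := by omega
    have hlc := nd_lc hb0 (by linarith [nd_lm_nonneg a])
    rw [eq_C_of_natDegree_eq_zero hb1] at hlc ⊢
    rw [leadingCoeff_C] at hlc
    rw [isUnit_C]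
    exact Int.isUnit_iff_abs_eq.2 hlc
  refine ⟨?_, ?_⟩
  · intro hu
    have : (1 : ℤ[X]) ≠ 0 := one_ne_zero
    obtain ⟨c, hc, hc2⟩ := Polynomial.isUnit_iff.1 hu
    have hc3 : |c| = 1 := Int.isUnit_iff_abs_eq.1 hc
    rw [nd_lm_eq, ← hc2] at h1
    rw [Polynomial.map_C, mahlerMeasure_const] at h1
    have h5 : ‖(Int.castRingHom ℂ) c‖ = |(c : ℝ)| := by simp
    rw [h5] at h1
    have h6 : |(c : ℝ)| = 1 := by exact_mod_cast hc3
    rw [h6, Real.log_one] at h1
    exact lt_irrefl _ h1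
  · intro a b hab
    have ha0 : a ≠ 0 := by
      rintro rfl
      exact hne (by rw [hab, zero_mul])
    have hb0 : b ≠ 0 := by
      rintro rfl
      exact hne (by rw [hab, mul_zero])
    have hm : lm f1 = lm a + lm b := by rw [hab]; exact nd_lm_mul ha0 hb0
    rcases lt_or_ge 0 (lm a) with ha | ha
    · exact Or.inr (key a b hab ha)
    · have hb : 0 < lm b := by linarith
      exact Or.inl (key b a (by rw [hab, mul_comm]) hb)

theorem nd_sum_image_le {A B : Type} [DecidableEq A] [DecidableEq B] (I : Finset A) (F : A → B)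
    (h : B → ℝ) (hh : ∀ b, 0 ≤ h b) : ∑ b ∈ I.image F, h b ≤ ∑ c ∈ I, h (F c) := by
  rw [← Finset.sum_fiberwise_of_maps_to (g := F) (t := I.image F)
    (fun x hx => Finset.mem_image_of_mem F hx) (fun c => h (F c))]
  refine Finset.sum_le_sum fun b hb => ?_
  obtain ⟨c, hc, rfl⟩ := Finset.mem_image.1 hb
  exact Finset.single_le_sum (f := fun c => h (F c)) (fun c _ => hh _)
    (Finset.mem_filter.2 ⟨hc, rfl⟩)

section Block

variable {K : Type} [Field K] [NumberField K] [IsGalois ℚ K]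

open Classical in
/-- the product of the conjugates with a given `m`-th power -/
noncomputable def ndP (α : K) (m : ℕ) (c : K) : K := ∏ x ∈ (orb α).filter (fun x => x ^ m = c), x

theorem nd_ndP_map (α : K) (m : ℕ) (c : K) (g : K ≃ₐ[ℚ] K) :
    g (ndP α m c) = ndP α m (g c) := by
  classical
  unfold ndP
  rw [map_prod]
  refine Finset.prod_nbij (fun y => g y) ?_ ?_ ?_ ?_
  · intro y hy
    rw [Finset.mem_filter] at hy ⊢
    exact ⟨Disc.map_mem_orb hy.1 g, by rw [← map_pow, hy.2]⟩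
  · intro y _ z _ h
    exact g.injective h
  · intro y hy
    rw [Finset.mem_coe, Finset.mem_filter] at hy
    refine ⟨g.symm y, ?_, by simp⟩
    rw [Finset.mem_coe, Finset.mem_filter]
    refine ⟨Disc.map_mem_orb hy.1 g.symm, ?_⟩
    rw [← map_pow, hy.2]
    simp
  · intro y _
    rfl

theorem nd_self_mem (α : K) : α ∈ orb α := Disc.mem_orb.2 ⟨1, rfl⟩

theorem nd_block (σ : K →+* ℂ) (α : K) (hα : IsIntegral ℤ α) (hS : 0 < ∑ x ∈ orb α,
    Real.posLog ‖σ x‖) (m : ℕ) (hm : 0 < m) (x0 y0 : K) (hx0 : x0 ∈ orb α) (hy0 : y0 ∈ orb α)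
    (hxy : x0 ^ m = y0 ^ m) (hne : x0 ≠ y0) :
    ∃ β : K, IsIntegral ℤ β ∧ (orb β).card < (orb α).card ∧
      0 < ∑ x ∈ orb β, Real.posLog ‖σ x‖ ∧
      ∑ x ∈ orb β, Real.posLog ‖σ x‖ ≤ ∑ x ∈ orb α, Real.posLog ‖σ x‖ := by
  classical
  let I : Finset K := (orb α).image (fun x => x ^ m)
  have hsub : orb (ndP α m (α ^ m)) ⊆ I.image (fun c => ndP α m c) := by
    intro b hb
    obtain ⟨g, rfl⟩ := Disc.mem_orb.1 hb
    rw [nd_ndP_map, Finset.mem_image]
    refine ⟨g (α ^ m), ?_, rfl⟩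
    rw [Finset.mem_image]
    exact ⟨g α, Disc.map_mem_orb (nd_self_mem α) g, (map_pow g α m).symm⟩
  have hmem : ∀ x ∈ orb α, ndP α m (x ^ m) ∈ orb (ndP α m (α ^ m)) := by
    intro x hx
    obtain ⟨g, rfl⟩ := Disc.mem_orb.1 hx
    refine Disc.mem_orb.2 ⟨g, ?_⟩
    rw [nd_ndP_map, map_pow]
  have hcard : I.card < (orb α).card := by
    refine lt_of_le_of_ne Finset.card_image_le ?_
    intro h
    exact hne (Finset.card_image_iff.1 h hx0 hy0 hxy)
  refine ⟨ndP α m (α ^ m), ?_, ?_, ?_, ?_⟩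
  · unfold ndP
    refine IsIntegral.prod _ fun x hx => ?_
    exact Disc.orb_integral hα (Finset.mem_filter.1 hx).1
  · exact lt_of_le_of_lt ((Finset.card_le_card hsub).trans Finset.card_image_le) hcard
  · -- positivity
    obtain ⟨x, hx, hpos⟩ : ∃ x ∈ orb α, 0 < Real.posLog ‖σ x‖ := by
      by_contra hcon
      push Not at hcon
      exact absurd hS (not_lt.2 (Finset.sum_nonpos hcon))
    have hx1 : 1 < ‖σ x‖ := by
      by_contra hle
      push Not at hle
      have : Real.posLog ‖σ x‖ = 0 := (Real.posLog_eq_zero_iff _).2 (by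
        rw [abs_of_nonneg (norm_nonneg _)]; exact hle)
      linarith
    have hnorm : ∀ y ∈ (orb α).filter (fun y => y ^ m = x ^ m), ‖σ y‖ = ‖σ x‖ := by
      intro y hy
      have h1 : ‖σ y‖ ^ m = ‖σ x‖ ^ m := by
        rw [← norm_pow, ← norm_pow, ← map_pow, ← map_pow, (Finset.mem_filter.1 hy).2]
      exact (pow_left_inj₀ (norm_nonneg _) (norm_nonneg _) hm.ne').1 h1
    have hval : ‖σ (ndP α m (x ^ m))‖ =
        ‖σ x‖ ^ ((orb α).filter (fun y => y ^ m = x ^ m)).card := by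
      unfold ndP
      rw [map_prod, norm_prod, Finset.prod_congr rfl hnorm, Finset.prod_const]
    have hc : ((orb α).filter (fun y => y ^ m = x ^ m)).card ≠ 0 :=
      Finset.card_ne_zero_of_mem (Finset.mem_filter.2 ⟨hx, rfl⟩)
    have h1 : 1 < ‖σ (ndP α m (x ^ m))‖ := by
      rw [hval]
      exact one_lt_pow₀ hx1 hc
    have h2 : 0 < Real.posLog ‖σ (ndP α m (x ^ m))‖ := by
      rw [Real.posLog_eq_log (by rw [abs_of_nonneg (norm_nonneg _)]; exact h1.le)]
      exact Real.log_pos h1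
    exact lt_of_lt_of_le h2 (Finset.single_le_sum
      (f := fun b => Real.posLog ‖σ b‖) (fun b _ => Real.posLog_nonneg) (hmem x hx))
  · calc ∑ b ∈ orb (ndP α m (α ^ m)), Real.posLog ‖σ b‖
        ≤ ∑ b ∈ I.image (fun c => ndP α m c), Real.posLog ‖σ b‖ :=
          Finset.sum_le_sum_of_subset_of_nonneg hsub fun b _ _ => Real.posLog_nonneg
      _ ≤ ∑ c ∈ I, Real.posLog ‖σ (ndP α m c)‖ := by
          exact nd_sum_image_le I (fun c => ndP α m c) (fun b => Real.posLog ‖σ b‖)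
            fun b => Real.posLog_nonneg
      _ ≤ ∑ c ∈ I, ∑ x ∈ (orb α).filter (fun x => x ^ m = c), Real.posLog ‖σ x‖ := by
          refine Finset.sum_le_sum fun c _ => ?_
          unfold ndP
          rw [map_prod, norm_prod]
          exact Real.posLog_prod _ _
      _ = ∑ x ∈ orb α, Real.posLog ‖σ x‖ :=
          Finset.sum_fiberwise_of_maps_to (fun x hx => Finset.mem_image_of_mem _ hx) _

theorem nd_exp (σ : K →+* ℂ) (α : K) (hS : 0 < ∑ x ∈ orb α, Real.posLog ‖σ x‖) (p q : ℕ)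
    (x y : K) (hx : x ∈ orb α) (hy : y ∈ orb α) (hxy : x ^ p = y ^ q) : p = q := by
  classical
  obtain ⟨z, hz, hmax⟩ := Finset.exists_max_image (orb α) (fun x => ‖σ x‖) ⟨α, nd_self_mem α⟩
  have hz1 : 1 < ‖σ z‖ := by
    by_contra hle
    push Not at hle
    have h0 : ∑ x ∈ orb α, Real.posLog ‖σ x‖ = 0 := by
      refine Finset.sum_eq_zero fun x hx => ?_
      refine (Real.posLog_eq_zero_iff _).2 ?_
      rw [abs_of_nonneg (norm_nonneg _)]
      exact (hmax x hx).trans hle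
    linarith
  have tr : ∀ u ∈ orb α, ∃ g : K ≃ₐ[ℚ] K, g u = z := by
    intro u hu
    obtain ⟨g1, rfl⟩ := Disc.mem_orb.1 hu
    obtain ⟨g2, h2⟩ := Disc.mem_orb.1 hz
    refine ⟨g1.symm.trans g2, ?_⟩
    simp [h2]
  have le1 : ∀ (p q : ℕ) (x y : K), x ∈ orb α → y ∈ orb α → x ^ p = y ^ q →
      ‖σ z‖ ^ p ≤ ‖σ z‖ ^ q := by
    intro p q x y hx hy hxy
    obtain ⟨g, hg⟩ := tr x hx
    have h1 : z ^ p = (g y) ^ q := by
      rw [← hg, ← map_pow, ← map_pow, hxy]
    calc ‖σ z‖ ^ p = ‖σ (g y)‖ ^ q := by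
          rw [← norm_pow, ← norm_pow, ← map_pow, ← map_pow, h1]
      _ ≤ ‖σ z‖ ^ q := pow_le_pow_left₀ (norm_nonneg _) (hmax _ (Disc.map_mem_orb hy g)) q
  have h1 := le1 p q x y hx hy hxy
  have h2 := le1 q p y x hy hx hxy.symm
  exact le_antisymm ((pow_le_pow_iff_right₀ hz1).1 h1) ((pow_le_pow_iff_right₀ hz1).1 h2)

end Block

theorem nondegenerate (f : ℤ[X]) (h0 : 0 < lm f) (h2 : lm f < Real.log 2) :
    ∃ (K : Type) (_ : Field K) (_ : NumberField K) (_ : IsGalois ℚ K) (σ : K →+* ℂ) (α : K),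
      IsIntegral ℤ α ∧ 1 ≤ (orb α).card ∧ (orb α).card ≤ f.natDegree ∧
      ∑ x ∈ orb α, Real.posLog ‖σ x‖ ≤ lm f ∧
      (∀ m : ℕ, 0 < m → ∀ x ∈ orb α, ∀ y ∈ orb α, x ^ m = y ^ m → x = y) ∧
      ∀ p q : ℕ, 0 < p → 0 < q → p ≠ q → ∀ x ∈ orb α, ∀ y ∈ orb α, x ^ p ≠ y ^ q := by
  classical
  have hex : ∃ n : ℕ, ∃ g : ℤ[X], g.natDegree = n ∧ 0 < lm g ∧ lm g ≤ lm f :=
    ⟨f.natDegree, f, rfl, h0, le_rfl⟩
  obtain ⟨f1, hd, h1, h1f⟩ := Nat.find_spec hex
  have hmin : ∀ g : ℤ[X], 0 < lm g → lm g ≤ lm f → f1.natDegree ≤ g.natDegree := by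
    intro g hg hgf
    rw [hd]
    exact Nat.find_min' hex ⟨g, rfl, hg, hgf⟩
  have hirr := nd_irreducible h2 h1 h1f hmin
  have hne : f1 ≠ 0 := hirr.ne_zero
  have hlc := nd_lc hne (by linarith)
  have hdeg : f1.natDegree ≠ 0 := by
    intro hz
    apply hirr.not_isUnit
    rw [eq_C_of_natDegree_eq_zero hz] at hlc ⊢
    rw [leadingCoeff_C] at hlc
    rw [isUnit_C]
    exact Int.isUnit_iff_abs_eq.2 hlc
  obtain ⟨K, i1, i2, i3, α, hα⟩ := nd_root f1 hdeg
  -- the monic multiple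
  have hu : IsUnit f1.leadingCoeff := Int.isUnit_iff_abs_eq.2 hlc
  have hsq : f1.leadingCoeff * f1.leadingCoeff = 1 := by
    rcases Int.isUnit_iff.1 hu with h | h <;> rw [h] <;> norm_num
  set g : ℤ[X] := C f1.leadingCoeff * f1 with hgdef
  have hgm : g.Monic := by
    unfold Monic
    rw [hgdef, leadingCoeff_mul, leadingCoeff_C, hsq]
  have hassoc : Associated g f1 := by
    rw [hgdef]
    refine ⟨(isUnit_C.2 hu).unit, ?_⟩
    rw [IsUnit.unit_spec, mul_comm, ← mul_assoc, ← C_mul, hsq, C_1, one_mul]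
  have hgirr : Irreducible g := hassoc.symm.irreducible hirr
  have hgα : aeval α g = 0 := by
    rw [hgdef, map_mul, hα, mul_zero]
  have hint : IsIntegral ℤ α := ⟨g, hgm, by rw [← aeval_def]; exact hgα⟩
  have hmp : minpoly ℤ α = g := by
    have hdvd : minpoly ℤ α ∣ g := minpoly.isIntegrallyClosed_dvd hint hgα
    have has : Associated (minpoly ℤ α) g :=
      ((minpoly.irreducible hint).associated_of_dvd hgirr hdvd)
    exact eq_of_monic_of_associated (minpoly.monic hint) hgm has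
  obtain ⟨σ⟩ : Nonempty (K →+* ℂ) := inferInstance
  have hgdeg : g.natDegree = f1.natDegree := by
    rw [hgdef, natDegree_mul (C_ne_zero.2 hu.ne_zero) hne, natDegree_C, zero_add]
  have hglm : lm g = lm f1 := by
    rw [hgdef, nd_lm_mul (C_ne_zero.2 hu.ne_zero) hne]
    have : lm (C f1.leadingCoeff) = 0 := by
      rw [nd_lm_eq, Polynomial.map_C, mahlerMeasure_const]
      have h5 : ‖(Int.castRingHom ℂ) f1.leadingCoeff‖ = |(f1.leadingCoeff : ℝ)| := by simp
      rw [h5]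
      have h6 : |(f1.leadingCoeff : ℝ)| = 1 := by exact_mod_cast hlc
      rw [h6, Real.log_one]
    rw [this, zero_add]
  have hcard : (orb α).card = f1.natDegree := by
    rw [← nd_card α hint, hmp, hgdeg]
  have hsum : ∑ x ∈ orb α, Real.posLog ‖σ x‖ = lm f1 := by
    rw [← nd_lm_minpoly σ α hint, hmp, hglm]
  refine ⟨K, i1, i2, i3, σ, α, hint, one_le_orb α, ?_, ?_, ?_, ?_⟩
  · rw [hcard]
    exact hmin f h0 le_rfl
  · rw [hsum]
    exact h1f
  · intro m hm x hx y hy hxy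
    by_contra hxne
    obtain ⟨β, hβ, hc, hp, hle⟩ := nd_block σ α hint (by rw [hsum]; exact h1) m hm x y hx hy hxy hxne
    have h5 := hmin (minpoly ℤ β) (by rw [nd_lm_minpoly σ β hβ]; exact hp)
      (by rw [nd_lm_minpoly σ β hβ]; linarith)
    rw [nd_card β hβ] at h5
    omega
  · intro p q _ _ hpq x hx y hy hxy
    exact hpq (nd_exp σ α (by rw [hsum]; exact h1) p q x y hx hy hxy)

end H91.LK
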