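import Mathlib
import Pool.Agent.H61.Sparse.Defs

/-!
# A polynomial lower bound for the Mahler measure in terms of the number of monomials

Definitions of the project LK (Lehmer, `k` monomials). Paper proof: team-store `h91_lk.md`.
-/

set_option autoImplicit false

namespace H91.LK

open Polynomial

/-- the polynomial `∑ a_i X ^ (e_i)` -/
noncomputable def sp {k : ℕ} (a : Fin k → ℤ) (e : Fin k → ℕ) : ℤ[X] := ∑ i, monomial (e i) (a i)

/-- the same polynomial over `ℂ` -/
noncomputable def cp {k : ℕ} (a : Fin k → ℤ) (e : Fin k → ℕ) : ℂ[X] :=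
  (sp a e).map (Int.castRingHom ℂ)

/-- the logarithm of the Mahler measure -/
noncomputable def lm (f : ℤ[X]) : ℝ := (f.map (Int.castRingHom ℂ)).logMahlerMeasure

/-- the exponent vectors `n`, `m` satisfy the same linear relations of size at most `2 J` -/
def SameRel {k : ℕ} (J : ℕ) (n m : Fin k → ℕ) : Prop :=
  ∀ c : Fin k → ℤ, ∑ i, c i = 0 → ∑ i, |c i| ≤ 2 * (J : ℤ) →
    (∑ i, c i * (n i : ℤ) = 0 ↔ ∑ i, c i * (m i : ℤ) = 0)

/-- Kronecker substitution: the variable `x_i` of `ℤ[x_0, …, x_{r-1}]` becomes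
`X ^ (K ^ (r - 1 - i))` -/
noncomputable def kr (K r : ℕ) : MvPolynomial (Fin r) ℤ →+* ℤ[X] :=
  MvPolynomial.eval₂Hom (C : ℤ →+* ℤ[X]) fun i => X ^ K ^ (r - 1 - (i : ℕ))

end H91.LK
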