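import Pool.Agent.H91.LK.Defs

/-!
# Stage 2 of the project LK: an absolute bound for generic sparse polynomials

THEOREM. Let `f = ∑ a_i X^(n_i)` have `k` terms and let `V` be the space of all `x ∈ ℚ^k` with `∑ c_i x_i = 0` for every
short relation `c` of the exponents (`∑ c = 0`, `∑ |c| ≤ 2 J`, `∑ c_i n_i = 0`). If `k < 2 ^ (dim V - 1)` then
`M(f) ≥ √((1 + √5)/2) - error(J)`, `√((1 + √5)/2) = 1.2720… > 1.17628… = M(L)`.

PROOF. (G1) Let `w ∈ V` be an integer vector, `T` and `B` the parts of `f` where `w` is maximal, minimal. By the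
comparison of moments and Jensen's inequality in the second variable of `F(x, y) = ∑ a_i x^(n_i) y^(w_i)`:
`mean of max (log |T|) (log |B|) ≤ log M(f) + error`. (G2) If `|T| ≠ |B|` somewhere on the circle, then this mean is
`≥ (1/2) log ((1+√5)/2)`: `T T* - B B*` is a nonzero integer Laurent polynomial. (G3) choose `w` such that `T` is a facet. If
`|T| = |B|` on the circle then (G4) `B` has the same dimension as `T` and `log M(T) = log M(B)`, one of them has at most `k/2`
terms: induction on the dimension (G5).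
-/

set_option autoImplicit false

namespace H91.LK

open Polynomial

/-- the part `∑_{i ∈ I} a_i X ^ (n_i)` -/
noncomputable def fp {k : ℕ} (a : Fin k → ℤ) (n : Fin k → ℕ) (I : Finset (Fin k)) : ℤ[X] :=
  ∑ i ∈ I, monomial (n i) (a i)

/-- all vectors of `V` satisfy the short relations of `n` -/
def Kills {k : ℕ} (J : ℕ) (n : Fin k → ℕ) (V : Submodule ℚ (Fin k → ℚ)) : Prop :=
  ∀ c : Fin k → ℤ, ∑ i, c i = 0 → ∑ i, |c i| ≤ 2 * (J : ℤ) → ∑ i, c i * (n i : ℤ) = 0 →
    ∀ x ∈ V, ∑ i, (c i : ℚ) * x i = 0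

/-- the vectors which vanish on `I` -/
def ZZ {k : ℕ} (I : Finset (Fin k)) : Submodule ℚ (Fin k → ℚ) where
  carrier := {x | ∀ i ∈ I, x i = 0}
  add_mem' := by
    intro x y hx hy i hi
    simp [hx i hi, hy i hi]
  zero_mem' := by
    intro i _
    rfl
  smul_mem' := by
    intro c x hx i hi
    simp [hx i hi]

/-- the error term -/
noncomputable def Er (t J : ℕ) (L η : ℝ) : ℝ :=
  Pool.Agent.H61.Sparse.GG t η + L ^ 2 / η ^ 2 * Real.exp (-(J * η ^ 2 / (2 * L ^ 2)))

end H91.LK
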