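import Pool.Agent.H91.LK.F1
import Pool.Agent.H91.LK.G0

/-!
# F2: choice of the parameters

PROOF. Put `u = k/ε ≥ 4`, `k = t + 1`. `L = 2 (t+1) exp (2t (1 + log (1 + 26 t))) ≤ u^(8k)` (`coeff_bound`,
`lm f < log 2`), `η = (ε/(8 t (1 + 26 t)))^(2t) ≥ u^(-12k)`, so that `GG t η = ε/4`; `J = ⌈u^(C₁ k)⌉`, `C₁ ≥ 82`, so
`J η²/(2 L²) ≥ u^((C₁ - 40) k)/2` and the second error is at most `2 u^((80 - C₁) k) ≤ ε/4`;
`X = 100 k J B`, `K = X^14`, `D = B K^(min R k)`: `hK1`, `hK2` hold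
(`log₂ D + 2 ≤ (14 (k+1) + 2) X ≤ X²`), `log X = O(k² log u)`, so `log (D + 1) ≤ 28 R log X = O(R k² log u)`.
-/

set_option autoImplicit false

namespace H91.LK

open Polynomial Pool.Agent.H61.Sparse

/-- the bound `L` for the coefficients -/
theorem F2_L (t : ℕ) (u : ℝ) (hu : 4 ≤ u) (hk : 2 * ((t : ℝ) + 1) ≤ u) :
    2 * ((t : ℝ) + 1) * Real.exp (2 * t * (1 + Real.log (1 + 26 * t))) ≤ u ^ (8 * (t + 1)) := by
  have ht0 : (0 : ℝ) ≤ t := Nat.cast_nonneg t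
  have hx : (0 : ℝ) < 1 + 26 * t := by positivity
  have h1 : Real.exp (2 * t * (1 + Real.log (1 + 26 * t))) =
      (Real.exp 1 * (1 + 26 * t)) ^ (2 * t) := by
    rw [← Real.exp_log hx, ← Real.exp_add, ← Real.exp_nat_mul, Real.exp_log hx]
    push_cast
    ring_nf
  have h2 : Real.exp 1 * (1 + 26 * t) ≤ u ^ 4 := by
    have he : Real.exp 1 ≤ 3 := by
      have := Real.exp_one_lt_d9
      linarith
    have h3 : Real.exp 1 * (1 + 26 * t) ≤ 3 * (1 + 26 * t) :=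
      mul_le_mul_of_nonneg_right he hx.le
    have h4 : (64 : ℝ) ≤ u ^ 3 := by
      have := pow_le_pow_left₀ (by norm_num : (0 : ℝ) ≤ 4) hu 3
      norm_num at this
      exact this
    have h5 : u ^ 4 = u ^ 3 * u := by ring
    have h6 : 64 * u ≤ u ^ 3 * u := mul_le_mul_of_nonneg_right h4 (by linarith)
    rw [h5]
    linarith
  rw [h1]
  have h7 : (Real.exp 1 * (1 + 26 * t)) ^ (2 * t) ≤ (u ^ 4) ^ (2 * t) :=
    pow_le_pow_left₀ (by positivity) h2 _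
  calc 2 * ((t : ℝ) + 1) * (Real.exp 1 * (1 + 26 * t)) ^ (2 * t) ≤ u * (u ^ 4) ^ (2 * t) :=
        mul_le_mul hk h7 (by positivity) (by linarith)
    _ = u ^ (8 * t + 1) := by
        rw [← pow_mul, pow_succ, mul_comm, show 4 * (2 * t) = 8 * t by ring]
    _ ≤ u ^ (8 * (t + 1)) := pow_le_pow_right₀ (by linarith) (by omega)

/-- the number `1/η` -/
theorem F2_eta (t : ℕ) (ε u : ℝ) (hε : 0 < ε) (hu : 4 ≤ u) (hk : 2 * ((t : ℝ) + 1) ≤ u)
    (hu' : u = ((t : ℝ) + 1) / ε) :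
    ((8 * t * (1 + 26 * t)) / ε) ^ (2 * t) ≤ u ^ (12 * (t + 1)) := by
  have ht0 : (0 : ℝ) ≤ t := Nat.cast_nonneg t
  have h1 : (8 * t * (1 + 26 * t)) / ε ≤ u ^ 6 := by
    have h2 : (8 * (t : ℝ) * (1 + 26 * t)) / ε ≤ 208 * ((t : ℝ) + 1) * u := by
      rw [hu', div_le_iff₀ hε]
      have h3 : 208 * ((t : ℝ) + 1) * (((t : ℝ) + 1) / ε) * ε = 208 * ((t : ℝ) + 1) ^ 2 := by
        field_simp
      rw [h3]
      nlinarith
    have h4 : (256 : ℝ) ≤ u ^ 4 := by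
      have := pow_le_pow_left₀ (by norm_num : (0 : ℝ) ≤ 4) hu 4
      norm_num at this
      exact this
    have h5 : 208 * ((t : ℝ) + 1) * u ≤ 104 * u ^ 2 := by nlinarith
    have h6 : 104 * u ^ 2 ≤ u ^ 4 * u ^ 2 :=
      mul_le_mul_of_nonneg_right (by linarith) (by positivity)
    calc _ ≤ _ := h2
      _ ≤ _ := h5
      _ ≤ _ := h6
      _ = u ^ 6 := by ring
  calc _ ≤ (u ^ 6) ^ (2 * t) := pow_le_pow_left₀ (by positivity) h1 _
    _ = u ^ (12 * t) := by rw [← pow_mul]; congr 1; ring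
    _ ≤ u ^ (12 * (t + 1)) := pow_le_pow_right₀ (by linarith) (by omega)

/-- the first error term -/
theorem F2_GG (t : ℕ) (ht : 0 < t) (ε : ℝ) (hε : 0 < ε) :
    GG t ((ε / (8 * t * (1 + 26 * t))) ^ (2 * t)) = ε / 4 := by
  have ht0 : (0 : ℝ) < t := by exact_mod_cast ht
  unfold GG
  have h1 : (1 : ℝ) / (2 * (t : ℝ)) = (((2 * t : ℕ)) : ℝ)⁻¹ := by
    push_cast
    rw [one_div]
  rw [h1, Real.pow_rpow_inv_natCast (by positivity) (by omega)]
  field_simp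
  ring

/-- the second error term -/
theorem F2_err (t C₁ J : ℕ) (hC : 82 ≤ C₁) (ε u L η : ℝ) (hε : 0 < ε) (hu : 4 ≤ u)
    (hu' : u = ((t : ℝ) + 1) / ε) (ht : 0 < t) (hL : 0 < L) (hη : 0 < η)
    (hL2 : L ≤ u ^ (8 * (t + 1))) (hη2 : η⁻¹ ≤ u ^ (12 * (t + 1)))
    (hJ : u ^ (C₁ * (t + 1)) ≤ (J : ℝ)) :
    L ^ 2 / η ^ 2 * Real.exp (-(J * η ^ 2 / (2 * L ^ 2))) ≤ ε / 4 := by
  have hu0 : 0 < u := by linarith
  have ht0 : (1 : ℝ) ≤ t := by exact_mod_cast ht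
  set Y : ℝ := L ^ 2 / η ^ 2 with hY
  have hY0 : 0 < Y := by positivity
  have hYu : Y ≤ u ^ (40 * (t + 1)) := by
    have h1 : Y = L ^ 2 * (η⁻¹) ^ 2 := by rw [hY, inv_pow, div_eq_mul_inv]
    have h2 : L ^ 2 ≤ (u ^ (8 * (t + 1))) ^ 2 := pow_le_pow_left₀ hL.le hL2 2
    have h3 : (η⁻¹) ^ 2 ≤ (u ^ (12 * (t + 1))) ^ 2 := pow_le_pow_left₀ (by positivity) hη2 2
    rw [h1]
    calc _ ≤ (u ^ (8 * (t + 1))) ^ 2 * (u ^ (12 * (t + 1))) ^ 2 :=
          mul_le_mul h2 h3 (by positivity) (by positivity)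
      _ = u ^ (40 * (t + 1)) := by rw [← pow_mul, ← pow_mul, ← pow_add]; congr 1; ring
  have hx : (J : ℝ) * η ^ 2 / (2 * L ^ 2) = J / (2 * Y) := by
    rw [hY]
    field_simp
  rw [hx]
  have hJ0 : 0 < (J : ℝ) := lt_of_lt_of_le (by positivity) hJ
  have h5 : Real.exp (-(J / (2 * Y))) ≤ 2 * Y / J := by
    rw [Real.exp_neg, inv_le_comm₀ (Real.exp_pos _) (by positivity), inv_div]
    have := Real.add_one_le_exp ((J : ℝ) / (2 * Y))
    linarith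
  have h6 : Y * Real.exp (-(J / (2 * Y))) ≤ 2 * Y ^ 2 / J := by
    calc _ ≤ Y * (2 * Y / J) := mul_le_mul_of_nonneg_left h5 hY0.le
      _ = 2 * Y ^ 2 / J := by ring
  refine h6.trans ?_
  rw [div_le_iff₀ hJ0]
  have h7 : Y ^ 2 ≤ u ^ (80 * (t + 1)) := by
    calc Y ^ 2 ≤ (u ^ (40 * (t + 1))) ^ 2 := pow_le_pow_left₀ hY0.le hYu 2
      _ = u ^ (80 * (t + 1)) := by rw [← pow_mul]; congr 1; ring
  have h8 : u ^ (80 * (t + 1)) * u ^ 2 ≤ (J : ℝ) := by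
    refine le_trans ?_ hJ
    rw [← pow_add]
    refine pow_le_pow_right₀ (by linarith) ?_
    nlinarith
  have h9 : ε = ((t : ℝ) + 1) / u := by
    rw [hu']
    field_simp
  have h10 : 2 / u ≤ ε := by
    rw [h9]
    exact div_le_div_of_nonneg_right (by linarith) hu0.le
  have h11 : 2 * u ^ (80 * (t + 1)) ≤ ε / 4 * (u ^ (80 * (t + 1)) * u ^ 2) := by
    have h12 : 2 / u / 4 * (u ^ (80 * (t + 1)) * u ^ 2) = u / 2 * u ^ (80 * (t + 1)) := by
      field_simp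
      ring
    have h13 : 2 / u / 4 * (u ^ (80 * (t + 1)) * u ^ 2) ≤ ε / 4 * (u ^ (80 * (t + 1)) * u ^ 2) :=
      mul_le_mul_of_nonneg_right (by linarith) (by positivity)
    have h14 : 2 * u ^ (80 * (t + 1)) ≤ u / 2 * u ^ (80 * (t + 1)) :=
      mul_le_mul_of_nonneg_right (by linarith) (by positivity)
    linarith
  have h15 : ε / 4 * (u ^ (80 * (t + 1)) * u ^ 2) ≤ ε / 4 * J :=
    mul_le_mul_of_nonneg_left h8 (by positivity)
  linarith

/-- the size of `K` -/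
theorem F2_K (t J B R' : ℕ) (hJ : 1 ≤ J) (hB : 1 ≤ B) (hR : R' ≤ t + 1) :
    4 * (t + 1) * (100 * (Nat.log 2 (B * ((100 * (t + 1) * J * B) ^ 14) ^ R') + 2) ^ 2) ^ 2 * B ^ 2
      + B + 2 ≤ (100 * (t + 1) * J * B) ^ 14 := by
  obtain ⟨X, hX⟩ : ∃ X, X = 100 * (t + 1) * J * B := ⟨_, rfl⟩
  rw [← hX]
  have hJB : 1 ≤ J * B := Nat.mul_pos hJ hB
  have hX1 : 100 * (t + 1) ≤ X := by
    rw [hX, Nat.mul_assoc]
    exact Nat.le_mul_of_pos_right _ hJB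
  have hXB : B ≤ X := by
    rw [hX]
    exact Nat.le_mul_of_pos_left _ (by positivity)
  have hX0 : 0 < X := by omega
  have hlog : Nat.log 2 (B * (X ^ 14) ^ R') + 2 ≤ X ^ 2 := by
    have h1 : B * (X ^ 14) ^ R' ≤ X ^ (14 * (t + 1) + 1) := by
      calc B * (X ^ 14) ^ R' ≤ X * (X ^ 14) ^ (t + 1) :=
            Nat.mul_le_mul hXB (Nat.pow_le_pow_right (pow_pos hX0 14) hR)
        _ = X ^ (14 * (t + 1) + 1) := by rw [← pow_mul, pow_succ, mul_comm]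
    have h2 : X < 2 ^ X := Nat.lt_two_pow_self
    have h3 : B * (X ^ 14) ^ R' < 2 ^ (X * (14 * (t + 1) + 1)) := by
      refine lt_of_le_of_lt h1 ?_
      rw [pow_mul]
      exact Nat.pow_lt_pow_left h2 (by omega)
    have h4 : Nat.log 2 (B * (X ^ 14) ^ R') < X * (14 * (t + 1) + 1) :=
      Nat.log_lt_of_lt_pow' (Nat.mul_pos hX0 (by omega)).ne' h3
    have h5 : X * (14 * (t + 1) + 1) + 1 ≤ X ^ 2 := by
      rw [pow_two]
      nlinarith
    omega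
  have h6 : (100 * (Nat.log 2 (B * (X ^ 14) ^ R') + 2) ^ 2) ^ 2 ≤ (100 * (X ^ 2) ^ 2) ^ 2 :=
    Nat.pow_le_pow_left (Nat.mul_le_mul_left _ (Nat.pow_le_pow_left hlog 2)) 2
  have h7 : B ^ 2 ≤ X ^ 2 := Nat.pow_le_pow_left hXB 2
  have hX100 : 100 ≤ X := by omega
  have h8 : 4 * (t + 1) ≤ X := by omega
  calc 4 * (t + 1) * (100 * (Nat.log 2 (B * (X ^ 14) ^ R') + 2) ^ 2) ^ 2 * B ^ 2 + B + 2
      ≤ X * (100 * (X ^ 2) ^ 2) ^ 2 * X ^ 2 + X + X := by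
        have := Nat.mul_le_mul (Nat.mul_le_mul h8 h6) h7
        omega
    _ = 10000 * X ^ 11 + 2 * X := by ring
    _ ≤ X ^ 2 * X ^ 11 + X ^ 11 * X ^ 1 := by
        have h9 : 10000 ≤ X ^ 2 := by nlinarith
        have h10 : 10000 * X ^ 11 ≤ X ^ 2 * X ^ 11 := Nat.mul_le_mul_right _ h9
        have h11 : 2 ≤ X ^ 11 := le_trans (by omega : 2 ≤ X) (Nat.le_self_pow (by norm_num) X)
        have h12 : 2 * X ≤ X ^ 11 * X ^ 1 := by
          rw [pow_one]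
          exact Nat.mul_le_mul_right _ h11
        omega
    _ ≤ X ^ 14 := by
        have h13 : X ^ 2 * X ^ 11 + X ^ 11 * X ^ 1 ≤ 2 * X ^ 13 := by
          have h14 : X ^ 11 * X ^ 1 ≤ X ^ 13 := by
            rw [← pow_add]
            exact Nat.pow_le_pow_right (by omega) (by omega)
          have h15 : X ^ 2 * X ^ 11 = X ^ 13 := by rw [← pow_add]
          omega
        have h16 : X ^ 14 = X * X ^ 13 := by rw [pow_succ, mul_comm]
        rw [h16]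
        exact h13.trans (Nat.mul_le_mul_right _ (by omega))

/-- the logarithm of `X` -/
theorem F2_logX (t C₁ J B : ℕ) (u : ℝ) (hu : 4 ≤ u) (hk : 2 * ((t : ℝ) + 1) ≤ u) (ht : 0 < t)
    (hJ1 : 1 ≤ J) (hJ : (J : ℝ) ≤ u ^ (C₁ * (t + 1)) + 1)
    (hB : B = 2 * ((t + 1).factorial * (2 * J) ^ (t + 1))) :
    Real.log ((100 * (t + 1) * J * B : ℕ) : ℝ) ≤
      (4 + 2 * C₁) * ((t : ℝ) + 1) ^ 2 * Real.log u := by
  have hu0 : 0 < u := by linarith
  have hu1 : 1 ≤ u := by linarith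
  have ht0 : (1 : ℝ) ≤ t := by exact_mod_cast ht
  have hJ0 : (0 : ℝ) < J := by exact_mod_cast hJ1
  have hJu : (J : ℝ) ≤ u ^ (C₁ * (t + 1) + 1) := by
    have h1 : (1 : ℝ) ≤ u ^ (C₁ * (t + 1)) := one_le_pow₀ hu1
    rw [pow_succ]
    nlinarith
  have hk' : ((t : ℝ) + 1) ≤ u := by linarith
  have hBu : (B : ℝ) ≤ 2 * ((u ^ (t + 1)) * ((2 * J) ^ (t + 1) : ℝ)) := by
    rw [hB]
    push_cast
    have h2 : ((t + 1).factorial : ℝ) ≤ u ^ (t + 1) := by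
      have h3 : ((t + 1).factorial : ℝ) ≤ ((t : ℝ) + 1) ^ (t + 1) := by
        exact_mod_cast Nat.factorial_le_pow (t + 1)
      exact h3.trans (pow_le_pow_left₀ (by positivity) hk' _)
    gcongr
  have hXu : ((100 * (t + 1) * J * B : ℕ) : ℝ) ≤
      u ^ (5 + 2 * (t + 1) + (t + 2) * (C₁ * (t + 1) + 1)) := by
    push_cast
    have h256 : (256 : ℝ) ≤ u ^ 4 := by
      have := pow_le_pow_left₀ (by norm_num : (0 : ℝ) ≤ 4) hu 4
      norm_num at this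
      exact this
    have h2J : ((2 * J) ^ (t + 1) : ℝ) ≤ (u * u ^ (C₁ * (t + 1) + 1)) ^ (t + 1) := by
      apply pow_le_pow_left₀ (by positivity)
      exact mul_le_mul (by linarith) hJu (by positivity) (by positivity)
    calc (100 : ℝ) * (t + 1) * J * B
        ≤ 100 * u * u ^ (C₁ * (t + 1) + 1) *
          (2 * ((u ^ (t + 1)) * (u * u ^ (C₁ * (t + 1) + 1)) ^ (t + 1))) := by
          apply mul_le_mul _ _ (by positivity) (by positivity)
          · apply mul_le_mul _ hJu (by positivity) (by positivity)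
            exact mul_le_mul_of_nonneg_left hk' (by norm_num)
          · refine hBu.trans ?_
            gcongr
      _ = 200 * (u * u ^ (C₁ * (t + 1) + 1) *
          ((u ^ (t + 1)) * (u * u ^ (C₁ * (t + 1) + 1)) ^ (t + 1))) := by ring
      _ ≤ u ^ 4 * (u * u ^ (C₁ * (t + 1) + 1) *
          ((u ^ (t + 1)) * (u * u ^ (C₁ * (t + 1) + 1)) ^ (t + 1))) :=
          mul_le_mul_of_nonneg_right (by linarith) (by positivity)
      _ = u ^ (5 + 2 * (t + 1) + (t + 2) * (C₁ * (t + 1) + 1)) := by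
          rw [mul_pow, ← pow_mul]
          have h3 : ∀ a b c d e : ℕ, u ^ a * (u * u ^ b * (u ^ c * (u ^ d * u ^ e))) =
              u ^ (a + 1 + b + c + d + e) := by
            intro a b c d e
            simp only [pow_add, pow_one]
            ring
          rw [h3]
          congr 1
          ring
  have hXpos : (0 : ℝ) < ((100 * (t + 1) * J * B : ℕ) : ℝ) := by
    have hB1 : 0 < B := by
      rw [hB]
      positivity
    have : 0 < 100 * (t + 1) * J * B := by positivity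
    exact_mod_cast this
  have hlog := Real.log_le_log hXpos hXu
  rw [Real.log_pow] at hlog
  refine hlog.trans ?_
  apply mul_le_mul_of_nonneg_right _ (Real.log_nonneg hu1)
  push_cast
  have hC0 : (0 : ℝ) ≤ C₁ := Nat.cast_nonneg _
  have hmul : (0 : ℝ) ≤ C₁ * ((t : ℝ) + 1) * t := by positivity
  nlinarith

theorem model_R_explicit (C₁ : ℕ) (hC₁ : 82 ≤ C₁) : ∀ (k R : ℕ), 2 ≤ k → 1 ≤ R →
    ∀ (a : Fin k → ℤ), (∀ i, a i ≠ 0) → ∀ n : Fin k → ℕ, Function.Injective n →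
    0 < lm (sp a n) → lm (sp a n) < Real.log 2 → ∀ ε : ℝ, 0 < ε → ε ≤ 1 / 2 →
    (∀ V : Submodule ℚ (Fin k → ℚ), Kills ⌈((k : ℝ) / ε) ^ (C₁ * k)⌉₊ n V →
      Module.finrank ℚ V ≤ R) →
    ∃ m : Fin k → ℕ, Function.Injective m ∧ 0 < lm (sp a m) ∧
      |lm (sp a m) - lm (sp a n)| ≤ ε ∧
      Real.log ((sp a m).natDegree + 1) ≤ 28 * (4 + 2 * C₁) * R * k ^ 2 * Real.log (k / ε) := by
  intro k R hk2 hR1 a ha n hn h0 h2 ε hε hε2 hV
  obtain ⟨t, rfl⟩ : ∃ t, k = t + 1 := ⟨k - 1, by omega⟩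
  have ht : 0 < t := by omega
  have ht0 : (1 : ℝ) ≤ t := by exact_mod_cast ht
  have hcast : ((t + 1 : ℕ) : ℝ) = (t : ℝ) + 1 := by push_cast; ring
  rw [hcast] at hV ⊢
  obtain ⟨u, hu'⟩ : ∃ u : ℝ, u = ((t : ℝ) + 1) / ε := ⟨_, rfl⟩
  rw [← hu'] at hV ⊢
  have hk : 2 * ((t : ℝ) + 1) ≤ u := by
    rw [hu', le_div_iff₀ hε]
    nlinarith
  have hu : 4 ≤ u := by linarith
  have hu0 : 0 < u := by linarith
  -- the parameters
  obtain ⟨J, hJdef⟩ : ∃ J : ℕ, J = ⌈u ^ (C₁ * (t + 1))⌉₊ := ⟨_, rfl⟩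
  rw [← hJdef] at hV
  have hJge : u ^ (C₁ * (t + 1)) ≤ (J : ℝ) := by rw [hJdef]; exact Nat.le_ceil _
  have hJle : (J : ℝ) ≤ u ^ (C₁ * (t + 1)) + 1 := by
    rw [hJdef]
    exact (Nat.ceil_lt_add_one (by positivity)).le
  have hJ1 : 1 ≤ J := by
    have h3 : (1 : ℝ) ≤ J := le_trans (one_le_pow₀ (by linarith)) hJge
    exact_mod_cast h3
  obtain ⟨L, hL⟩ : ∃ L : ℝ, L = 2 * ((t : ℝ) + 1) * Real.exp (2 * t * (1 + Real.log (1 + 26 * t))) :=
    ⟨_, rfl⟩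
  obtain ⟨η, hη⟩ : ∃ η : ℝ, η = (ε / (8 * t * (1 + 26 * t))) ^ (2 * t) := ⟨_, rfl⟩
  obtain ⟨B, hB⟩ : ∃ B : ℕ, B = 2 * ((t + 1).factorial * (2 * J) ^ (t + 1)) := ⟨_, rfl⟩
  have hB1 : 1 ≤ B := by
    have : 0 < B := by rw [hB]; positivity
    omega
  have hL1 : 1 ≤ L := by
    rw [hL]
    have h3 : (1 : ℝ) ≤ Real.exp (2 * t * (1 + Real.log (1 + 26 * t))) := by
      apply Real.one_le_exp
      have : 0 ≤ Real.log (1 + 26 * t) := Real.log_nonneg (by linarith)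
      positivity
    nlinarith
  have hw0 : 0 < ε / (8 * t * (1 + 26 * t)) := by positivity
  have hw1 : ε / (8 * t * (1 + 26 * t)) ≤ 1 := by
    rw [div_le_one (by positivity)]
    nlinarith
  have hη0 : 0 < η := by rw [hη]; positivity
  have hη1 : η ≤ 1 := by rw [hη]; exact pow_le_one₀ hw0.le hw1
  have hηinv : η⁻¹ ≤ u ^ (12 * (t + 1)) := by
    rw [hη, ← inv_pow, inv_div]
    exact F2_eta t ε u hε hu hk hu'
  have hsum : ∑ i, |(a i : ℝ)| ≤ L := by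
    have hsupp := F1_support a ha n hn
    have hcard : (sp a n).support.card ≤ t + 1 := by
      rw [hsupp]
      exact Finset.card_image_le.trans (by simp)
    have h3 : ∀ i, |(a i : ℝ)| ≤ 2 * Real.exp (2 * t * (1 + Real.log (1 + 26 * t))) := by
      intro i
      have h4 := coeff_bound t ht (sp a n) hcard (n i)
      rw [F1_coeff a n hn i, Real.exp_add] at h4
      refine h4.trans (mul_le_mul_of_nonneg_right ?_ (Real.exp_pos _).le)
      rw [← Real.exp_log (by norm_num : (0 : ℝ) < 2)]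
      exact Real.exp_le_exp.2 h2.le
    refine (Finset.sum_le_sum fun i _ => h3 i).trans ?_
    rw [Finset.sum_const, Finset.card_univ, Fintype.card_fin, nsmul_eq_mul, hL, hcast]
    linarith
  obtain ⟨R', hR'⟩ : ∃ R' : ℕ, R' = min R (t + 1) := ⟨_, rfl⟩
  have hR'1 : 1 ≤ R' := by omega
  have hR't : R' ≤ t + 1 := by omega
  have hR'R : R' ≤ R := by omega
  have hfin : ∀ V : Submodule ℚ (Fin (t + 1) → ℚ), Kills J n V → Module.finrank ℚ V ≤ R' := by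
    intro V hVk
    rw [hR']
    refine le_min (hV V hVk) ?_
    simpa using Submodule.finrank_le V
  obtain ⟨X, hX⟩ : ∃ X : ℕ, X = 100 * (t + 1) * J * B := ⟨_, rfl⟩
  have hX8 : 8 * J * B ≤ X := by
    rw [hX]
    have : 8 * (J * B) ≤ 100 * (t + 1) * (J * B) := Nat.mul_le_mul_right _ (by omega)
    calc 8 * J * B = 8 * (J * B) := by ring
      _ ≤ 100 * (t + 1) * (J * B) := this
      _ = _ := by ring
  have hX0 : 1 ≤ X := le_trans (by have := Nat.mul_pos hJ1 hB1; nlinarith) hX8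
  have hXK : X ≤ X ^ 14 := Nat.le_self_pow (by norm_num) X
  have hK2 := F2_K t J B R' hJ1 hB1 hR't
  rw [← hX] at hK2
  obtain ⟨m, hmi, -, hdeg, hpos, hle1, hle2⟩ := model_sp t ht a ha n hn h0 h2 J hJ1 L η hL1 hsum
    hη0 hη1 B (X ^ 14) (B * (X ^ 14) ^ R') R' hB (hX8.trans hXK) hfin le_rfl hK2
  have herr := F2_err t C₁ J hC₁ ε u L η hε hu hu' ht (by linarith) hη0
    (by rw [hL]; exact F2_L t u hu hk) hηinv hJge
  have hGG : GG t η = ε / 4 := by rw [hη]; exact F2_GG t ht ε hε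
  refine ⟨m, hmi, hpos, ?_, ?_⟩
  · rw [abs_le]
    constructor <;> linarith
  · have h3 : (sp a m).natDegree + 1 ≤ (X ^ 14) ^ (2 * R') := by
      have h4 : B + 1 ≤ X ^ 14 := by omega
      calc (sp a m).natDegree + 1 ≤ B * (X ^ 14) ^ R' + 1 := Nat.add_le_add_right hdeg 1
        _ ≤ B * (X ^ 14) ^ R' + (X ^ 14) ^ R' := by
            have : 0 < (X ^ 14) ^ R' := by positivity
            omega
        _ = (B + 1) * (X ^ 14) ^ R' := by ring
        _ ≤ (X ^ 14) ^ 1 * (X ^ 14) ^ R' := by rw [pow_one]; exact Nat.mul_le_mul_right _ h4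
        _ = (X ^ 14) ^ (1 + R') := by rw [← pow_add]
        _ ≤ (X ^ 14) ^ (2 * R') := Nat.pow_le_pow_right (by positivity) (by omega)
    have h5 : Real.log ((sp a m).natDegree + 1) ≤ 28 * R' * Real.log X := by
      have h6 : (((sp a m).natDegree : ℝ) + 1) ≤ (X : ℝ) ^ (14 * (2 * R')) := by
        rw [pow_mul]
        exact_mod_cast h3
      have h7 := Real.log_le_log (by positivity) h6
      rw [Real.log_pow] at h7
      push_cast at h7
      linarith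
    have h8 := F2_logX t C₁ J B u hu hk ht hJ1 hJle hB
    rw [← hX] at h8
    have hlogu : 0 ≤ Real.log u := Real.log_nonneg (by linarith)
    have hRR : (R' : ℝ) ≤ R := by exact_mod_cast hR'R
    calc Real.log ((sp a m).natDegree + 1) ≤ 28 * R' * Real.log X := h5
      _ ≤ 28 * R' * ((4 + 2 * C₁) * ((t : ℝ) + 1) ^ 2 * Real.log u) :=
          mul_le_mul_of_nonneg_left h8 (by positivity)
      _ ≤ 28 * R * ((4 + 2 * C₁) * ((t : ℝ) + 1) ^ 2 * Real.log u) := by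
          apply mul_le_mul_of_nonneg_right _ (by positivity)
          linarith
      _ = 28 * (4 + 2 * C₁) * R * ((t : ℝ) + 1) ^ 2 * Real.log u := by ring

theorem model_R : ∃ C₀ : ℕ, ∀ C₁ : ℕ, C₀ ≤ C₁ → ∃ C : ℝ, 0 < C ∧ ∀ (k R : ℕ), 2 ≤ k → 1 ≤ R →
    ∀ (a : Fin k → ℤ), (∀ i, a i ≠ 0) → ∀ n : Fin k → ℕ, Function.Injective n →
    0 < lm (sp a n) → lm (sp a n) < Real.log 2 → ∀ ε : ℝ, 0 < ε → ε ≤ 1 / 2 →
    (∀ V : Submodule ℚ (Fin k → ℚ), Kills ⌈((k : ℝ) / ε) ^ (C₁ * k)⌉₊ n V →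
      Module.finrank ℚ V ≤ R) →
    ∃ m : Fin k → ℕ, Function.Injective m ∧ 0 < lm (sp a m) ∧
      |lm (sp a m) - lm (sp a n)| ≤ ε ∧
      Real.log ((sp a m).natDegree + 1) ≤ C * R * k ^ 2 * Real.log (k / ε) :=
  ⟨82, fun C₁ hC₁ => ⟨28 * (4 + 2 * C₁), by positivity, model_R_explicit C₁ hC₁⟩⟩

theorem model : ∃ C : ℝ, 0 < C ∧ ∀ (f : ℤ[X]) (k : ℕ), f.support.card = k → 2 ≤ k → 0 < lm f →
    lm f < Real.log 2 → ∀ ε : ℝ, 0 < ε → ε ≤ 1 / 2 →
    ∃ g : ℤ[X], 0 < lm g ∧ g.support.card = k ∧ |lm g - lm f| ≤ ε ∧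
      Real.log (g.natDegree + 1) ≤ C * k ^ 3 * Real.log (k / ε) := by
  obtain ⟨C₀, hC₀⟩ := model_R
  obtain ⟨C, hC, h⟩ := hC₀ C₀ le_rfl
  refine ⟨C, hC, ?_⟩
  intro f k hfk hk h0 h2 ε hε hε2
  obtain ⟨t, rfl⟩ : ∃ t, k = t + 1 := ⟨k - 1, by omega⟩
  obtain ⟨a, n, hn, ha, hfa, -⟩ := F1_enum f hfk
  rw [hfa] at h0 h2 ⊢
  obtain ⟨m, hmi, hpos, habs, hlog⟩ := h (t + 1) (t + 1) hk (by omega) a ha n hn h0 h2 ε hε hε2
    (fun V _ => by simpa using Submodule.finrank_le V)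
  refine ⟨sp a m, hpos, ?_, habs, ?_⟩
  · rw [F1_support a ha m hmi, Finset.card_image_of_injective _ hmi, Finset.card_univ,
      Fintype.card_fin]
  · refine hlog.trans (le_of_eq ?_)
    ring

end H91.LK
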