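import Pool.Agent.H91.LK.F3a
import Pool.Agent.H91.LK.F2

/-!
# F5: the final bound with an explicit constant

`log M(f) ≥ 10^(-36) (k log k)^(-6)` for `f ∈ ℤ[X]` with `k ≥ 2` nonzero coefficients and `M(f) > 1`.
(The constants: `15 / 3000001^2` from `dobrowolski_explicit`, `28 (4 + 2 C₁)` with `C₁ = 264` from `model_R_explicit`, `generic_264`.)
-/

set_option autoImplicit false

namespace H91.LK

open Polynomial

theorem F5_num : ∃ s : ℝ, 2 ≤ s ∧ Real.exp (-s) = 1 / 10 ^ 36 ∧ ∀ W L : ℝ, 0 < W → 0 < L →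
    L ^ 3 ≤ (2 + 39 * (28 * (4 + 2 * (264 : ℕ)))) ^ 3 * W * (1 + s) ^ 3 →
    2 * (Real.exp (-s) / W) ≤ 15 / 3000001 ^ 2 / L ^ 3 := by
  have hl1 : Real.log 10 ≤ 2.31 := by
    rw [Real.log_le_iff_le_exp (by norm_num)]
    have h1 : Real.exp 2.31 = Real.exp 1 ^ 2 * Real.exp 0.31 := by
      rw [← Real.exp_nat_mul, ← Real.exp_add]
      norm_num
    have h2 : (1 : ℝ) + 0.31 + 0.31 ^ 2 / 2 ≤ Real.exp 0.31 := Real.quadratic_le_exp_of_nonneg (by norm_num)
    have h3 := Real.exp_one_gt_d9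
    have h4 : (2.7182818283 : ℝ) ^ 2 ≤ Real.exp 1 ^ 2 := by
      gcongr
    rw [h1]
    calc (10 : ℝ) ≤ 2.7182818283 ^ 2 * (1 + 0.31 + 0.31 ^ 2 / 2) := by norm_num
      _ ≤ Real.exp 1 ^ 2 * Real.exp 0.31 := mul_le_mul h4 h2 (by norm_num) (by positivity)
  have hl0 : 1 ≤ Real.log 10 := by
    rw [Real.le_log_iff_exp_le (by norm_num)]
    have := Real.exp_one_lt_d9
    linarith
  refine ⟨36 * Real.log 10, by linarith, ?_, ?_⟩
  · rw [Real.exp_neg, mul_comm, Real.exp_mul, Real.exp_log (by norm_num)]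
    norm_num
  · intro W L hW hL h
    have he : Real.exp (-(36 * Real.log 10)) = 1 / 10 ^ 36 := by
      rw [Real.exp_neg, mul_comm, Real.exp_mul, Real.exp_log (by norm_num)]
      norm_num
    rw [he, le_div_iff₀ (by positivity)]
    have h1 : (1 + 36 * Real.log 10) ^ 3 ≤ 85 ^ 3 := by
      apply pow_le_pow_left₀ (by linarith)
      linarith
    have h2 : L ^ 3 ≤ (2 + 39 * (28 * (4 + 2 * (264 : ℕ)))) ^ 3 * W * 85 ^ 3 :=
      h.trans (mul_le_mul_of_nonneg_left h1 (by positivity))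
    have h3 : 2 * (1 / 10 ^ 36 / W) * L ^ 3 ≤
        2 * (1 / 10 ^ 36 / W) * ((2 + 39 * (28 * (4 + 2 * (264 : ℕ)))) ^ 3 * W * 85 ^ 3) :=
      mul_le_mul_of_nonneg_left h2 (by positivity)
    have h4 : 2 * (1 / 10 ^ 36 / W) * ((2 + 39 * (28 * (4 + 2 * (264 : ℕ)))) ^ 3 * W * 85 ^ 3) =
        2 * (1 / 10 ^ 36) * ((2 + 39 * (28 * (4 + 2 * (264 : ℕ)))) ^ 3 * 85 ^ 3) := by
      field_simp
    rw [h4] at h3
    refine h3.trans ?_
    norm_num

theorem main6_explicit (f : ℤ[X]) (hf : 0 < lm f) (hk2 : 2 ≤ f.support.card) :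
    1 / 10 ^ 36 / ((f.support.card : ℝ) * Real.log f.support.card) ^ 6 ≤ lm f := by
  have hG := @generic_264
  have hM := model_R_explicit 264 (by norm_num)
  set C : ℝ := 28 * (4 + 2 * (264 : ℕ)) with hCdef
  have hC : 0 < C := by
    rw [hCdef]
    positivity
  have hd := dobrowolski_explicit
  obtain ⟨s, hs, hs36, hnum⟩ := F5_num
  rw [← hs36]
  have hc5 := F3a_c s hs
  obtain ⟨k, a, n, ha, hn, hsp, hkdef⟩ := F3a_sp' f
  rw [hkdef] at hk2 ⊢
  have hK : (2 : ℝ) ≤ k := by exact_mod_cast hk2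
  have hK0 : (0 : ℝ) < k := by linarith
  have hlog2 : (0.6931 : ℝ) ≤ Real.log 2 := by
    have := Real.log_two_gt_d9
    linarith
  have hLk2 : Real.log 2 ≤ Real.log k := Real.log_le_log (by norm_num) hK
  have hLk : (0.6931 : ℝ) ≤ Real.log k := by linarith
  have hLk0 : 0 < Real.log (k : ℝ) := by linarith
  have hkL : 1 ≤ (k : ℝ) * Real.log k := by nlinarith
  have hkL0 : 0 < (k : ℝ) * Real.log k := by linarith
  have hsmall : Real.exp (-s) / ((k : ℝ) * Real.log k) ^ 6 ≤ 1 / 5 := by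
    rw [div_le_iff₀ (by positivity)]
    have : (1 : ℝ) ≤ ((k : ℝ) * Real.log k) ^ 6 := one_le_pow₀ hkL
    linarith
  by_cases hl : Real.log (127 / 100) ≤ lm f
  · have := F3a_log127
    linarith
  push Not at hl
  set ε : ℝ := Real.exp (-s) / ((k : ℝ) * Real.log k) ^ 6 with hε
  have hε0 : 0 < ε := by positivity
  have hε1 : ε ≤ 1 := by linarith
  rw [← hsp] at hf hl ⊢
  have hJ : k ^ (264 * k) ≤ ⌈((k : ℝ) / ε) ^ (264 * k)⌉₊ := by
    have h1 : ((k ^ (264 * k) : ℕ) : ℝ) ≤ ((k : ℝ) / ε) ^ (264 * k) := by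
      push_cast
      have h2 : (k : ℝ) ≤ (k : ℝ) / ε := by
        rw [le_div_iff₀ hε0]
        nlinarith
      calc (k : ℝ) ^ (264 * k) ≤ (k : ℝ) ^ (264 * k) :=
            pow_le_pow_right₀ (by linarith) le_rfl
        _ ≤ ((k : ℝ) / ε) ^ (264 * k) := pow_le_pow_left₀ hK0.le h2 _
    exact_mod_cast h1.trans (Nat.le_ceil _)
  set R := 1 + Nat.log 2 k with hR
  obtain ⟨m, hm, hm0, hmε, hmd⟩ := hM k R hk2 (by omega) a ha n hn hf
    (lt_trans hl F3a_log127_lt) ε hε0 (by linarith)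
    (fun V hV => F3a_rank 264 hG k hk2 a ha n hn _ hJ hl V hV)
  have hRle : (R : ℝ) ≤ 3 * Real.log k := by
    have h1 : 2 ^ Nat.log 2 k ≤ k := Nat.pow_log_le_self 2 (by omega)
    have h2 : (2 : ℝ) ^ Nat.log 2 k ≤ k := by exact_mod_cast h1
    have h3 : (Nat.log 2 k : ℝ) * Real.log 2 ≤ Real.log k := by
      have := Real.log_le_log (by positivity) h2
      rwa [Real.log_pow] at this
    have h4 : (0 : ℝ) ≤ (Nat.log 2 k : ℝ) := Nat.cast_nonneg _
    rw [hR]
    push_cast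
    nlinarith
  have hlogL : Real.log (Real.log k) ≤ Real.log k := by
    have := Real.log_le_sub_one_of_pos hLk0
    linarith
  have hlogε : Real.log (k / ε) = Real.log k + 6 * (Real.log k + Real.log (Real.log k)) + s := by
    rw [hε, Real.log_div hK0.ne' (by positivity), Real.log_div (by positivity) (by positivity),
      Real.log_exp, Real.log_pow, Real.log_mul hK0.ne' hLk0.ne']
    push_cast
    ring
  have hlogε2 : Real.log (k / ε) ≤ 13 * Real.log k * (1 + s) := by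
    rw [hlogε]
    nlinarith
  have hlogε0 : 0 ≤ 13 * Real.log k * (1 + s) := by positivity
  set A : ℝ := (2 + 39 * C) * ((k : ℝ) * Real.log k) ^ 2 * (1 + s) with hA
  apply F3a_step (15 / 3000001 ^ 2) hd (sp a n) (sp a m) ε A hm0 hmε
  · have h1 : C * (R : ℝ) * (k : ℝ) ^ 2 * Real.log (k / ε)
        ≤ C * (3 * Real.log k) * (k : ℝ) ^ 2 * (13 * Real.log k * (1 + s)) := by
      calc C * (R : ℝ) * (k : ℝ) ^ 2 * Real.log (k / ε)
          ≤ C * (R : ℝ) * (k : ℝ) ^ 2 * (13 * Real.log k * (1 + s)) :=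
            mul_le_mul_of_nonneg_left hlogε2 (by positivity)
        _ ≤ C * (3 * Real.log k) * (k : ℝ) ^ 2 * (13 * Real.log k * (1 + s)) := by
            apply mul_le_mul_of_nonneg_right _ hlogε0
            apply mul_le_mul_of_nonneg_right _ (by positivity)
            exact mul_le_mul_of_nonneg_left hRle hC.le
    have h2 : (2 : ℝ) ≤ 2 * ((k : ℝ) * Real.log k) ^ 2 * (1 + s) := by
      have h3 : 1 ≤ ((k : ℝ) * Real.log k) ^ 2 := one_le_pow₀ hkL
      nlinarith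
    rw [hA]
    calc Real.log ((sp a m).natDegree + 1) + 2
        ≤ C * (3 * Real.log k) * (k : ℝ) ^ 2 * (13 * Real.log k * (1 + s))
          + 2 * ((k : ℝ) * Real.log k) ^ 2 * (1 + s) := add_le_add (hmd.trans h1) h2
      _ = (2 + 39 * C) * ((k : ℝ) * Real.log k) ^ 2 * (1 + s) := by ring
  · intro L hL0 hL
    apply hnum (((k : ℝ) * Real.log k) ^ 6) L (by positivity) hL0
    calc L ^ 3 ≤ A ^ 3 := pow_le_pow_left₀ hL0.le hL 3
      _ = (2 + 39 * C) ^ 3 * ((k : ℝ) * Real.log k) ^ 6 * (1 + s) ^ 3 := by rw [hA]; ring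

end H91.LK
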