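import Pool.Agent.H91.LK.G7

/-!
# G8: the faces of a sparse polynomial, final form

The statements of G7 for `f ∈ ℤ[X]` itself: the indices are the elements of `f.support`.
-/

set_option autoImplicit false

namespace H91.LK

open Polynomial

/-- `c` is a linear relation of size at most `J` between the exponents of `f` -/
def IsRel (f : ℤ[X]) (J : ℕ) (c : ℕ → ℤ) : Prop :=
  (∀ i, i ∉ f.support → c i = 0) ∧ ∑ i ∈ f.support, c i = 0 ∧
    ∑ i ∈ f.support, |c i| ≤ (J : ℤ) ∧ ∑ i ∈ f.support, c i * (i : ℤ) = 0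

/-- `w` satisfies all relations of size at most `J` between the exponents of `f` -/
def IsDir (f : ℤ[X]) (J : ℕ) (w : ℕ → ℤ) : Prop :=
  ∀ c : ℕ → ℤ, IsRel f J c → ∑ i ∈ f.support, c i * w i = 0

/-- the part of `f` where `w` is maximal -/
noncomputable def facePoly (f : ℤ[X]) (w : ℕ → ℤ) : ℤ[X] :=
  ∑ i ∈ f.support.filter fun i => ∀ j ∈ f.support, w j ≤ w i, monomial i (f.coeff i)

/-- the space spanned by the relations -/
noncomputable def relSpan (f : ℤ[X]) (J : ℕ) : Submodule ℚ (ℕ → ℚ) :=
  Submodule.span ℚ {x | ∃ c : ℕ → ℤ, IsRel f J c ∧ ∀ i, x i = c i}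

/-- the exponents -/
noncomputable def expo (f : ℤ[X]) : Fin f.support.card ↪o ℕ := f.support.orderEmbOfFin rfl

theorem expo_mem (f : ℤ[X]) (i : Fin f.support.card) : expo f i ∈ f.support :=
  Finset.orderEmbOfFin_mem _ rfl i

theorem expo_surj (f : ℤ[X]) {m : ℕ} (hm : m ∈ f.support) : ∃ i, expo f i = m := by
  have h : (m : ℕ) ∈ Set.range (f.support.orderEmbOfFin rfl) := by
    rw [Finset.range_orderEmbOfFin]
    exact hm
  exact h

theorem sum_expo {M : Type*} [AddCommMonoid M] (f : ℤ[X]) (g : ℕ → M) :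
    ∑ i, g (expo f i) = ∑ m ∈ f.support, g m := by
  refine Finset.sum_bij (fun i _ => expo f i) (fun i _ => expo_mem f i) ?_ ?_ ?_
  · intro i _ j _ h
    exact (expo f).injective h
  · intro m hm
    obtain ⟨i, hi⟩ := expo_surj f hm
    exact ⟨i, Finset.mem_univ i, hi⟩
  · intro i _
    rfl

/-- the coefficients -/
noncomputable def cf (f : ℤ[X]) (i : Fin f.support.card) : ℤ := f.coeff (expo f i)

theorem sp_expo (f : ℤ[X]) : sp (cf f) (expo f) = f := by
  unfold sp cf
  rw [sum_expo f fun m => monomial m (f.coeff m)]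
  exact (Polynomial.as_sum_support f).symm

theorem cf_ne (f : ℤ[X]) (i : Fin f.support.card) : cf f i ≠ 0 :=
  mem_support_iff.1 (expo_mem f i)

/-- the extension by zero of a vector -/
noncomputable def extz (f : ℤ[X]) (c : Fin f.support.card → ℤ) : ℕ → ℤ := by
  classical
  exact fun m => if h : ∃ i, expo f i = m then c h.choose else 0

theorem extz_expo (f : ℤ[X]) (c : Fin f.support.card → ℤ) (i : Fin f.support.card) :
    extz f c (expo f i) = c i := by
  classical
  have h : ∃ j, expo f j = expo f i := ⟨i, rfl⟩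
  unfold extz
  rw [dif_pos h]
  congr 1
  exact (expo f).injective h.choose_spec

theorem extz_rel (f : ℤ[X]) (J : ℕ) (c : Fin f.support.card → ℤ) (h0 : ∑ i, c i = 0)
    (h1 : ∑ i, |c i| ≤ (J : ℤ)) (h2 : ∑ i, c i * ((expo f i : ℕ) : ℤ) = 0) :
    IsRel f J (extz f c) := by
  classical
  refine ⟨?_, ?_, ?_, ?_⟩
  · intro m hm
    unfold extz
    rw [dif_neg]
    rintro ⟨i, rfl⟩
    exact hm (expo_mem f i)
  · rw [← sum_expo f (extz f c)]
    simp_rw [extz_expo]
    exact h0
  · rw [← sum_expo f fun m => |extz f c m|]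
    simp_rw [extz_expo]
    exact h1
  · rw [← sum_expo f fun m => extz f c m * (m : ℤ)]
    simp_rw [extz_expo]
    exact h2

/-- all vectors which satisfy the short relations -/
noncomputable def VV (f : ℤ[X]) (J : ℕ) : Submodule ℚ (Fin f.support.card → ℚ) where
  carrier := {x | ∀ c : Fin f.support.card → ℤ, ∑ i, c i = 0 → ∑ i, |c i| ≤ 2 * (J : ℤ) →
    ∑ i, c i * ((expo f i : ℕ) : ℤ) = 0 → ∑ i, (c i : ℚ) * x i = 0}
  add_mem' := by
    intro x y hx hy c h0 h1 h2
    simp only [Pi.add_apply, mul_add, Finset.sum_add_distrib, hx c h0 h1 h2, hy c h0 h1 h2,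
      add_zero]
  zero_mem' := by
    intro c _ _ _
    simp
  smul_mem' := by
    intro q x hx c h0 h1 h2
    have h3 := hx c h0 h1 h2
    simp only [Pi.smul_apply, smul_eq_mul]
    calc ∑ i, (c i : ℚ) * (q * x i) = q * ∑ i, (c i : ℚ) * x i := by
          rw [Finset.mul_sum]
          exact Finset.sum_congr rfl fun i _ => by ring
      _ = 0 := by rw [h3, mul_zero]

theorem VV_kills (f : ℤ[X]) (J : ℕ) : Kills J (fun i => expo f i) (VV f J) :=
  fun c h0 h1 h2 _ hx => hx c h0 h1 h2

theorem two_mul_le (k : ℕ) (hk : 2 ≤ k) : 2 * k ^ (264 * k) ≤ k ^ (265 * k) := by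
  calc 2 * k ^ (264 * k) ≤ k * k ^ (264 * k) := Nat.mul_le_mul_right _ hk
    _ = k ^ (264 * k + 1) := by rw [pow_succ]; ring
    _ ≤ k ^ (265 * k) := Nat.pow_le_pow_right (by omega) (by omega)

/-- FACES -/
theorem faces_265 (f : ℤ[X]) (hk : 2 ≤ f.support.card) (h128 : lm f < Real.log (128 / 100))
    (J : ℕ) (hJ : f.support.card ^ (265 * f.support.card) ≤ J) (w : ℕ → ℤ) (hw : IsDir f J w) :
    lm (facePoly f w) ≤ lm f + 1 / 10000 ∧
    ∃ (s : ℕ) (e : ℤ), (e = 1 ∨ e = -1) ∧ ∀ i ∈ (facePoly f w).support,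
      i ≤ s ∧ (facePoly f w).coeff (s - i) = e * (facePoly f w).coeff i := by
  classical
  have h2J := two_mul_le f.support.card hk
  set w' : Fin f.support.card → ℚ := fun i => (w (expo f i) : ℚ) with hw'
  have hwV : w' ∈ VV f (f.support.card ^ (264 * f.support.card)) := by
    intro c h0 h1 h2
    have h3 := hw (extz f c) (extz_rel f J c h0 (h1.trans (by exact_mod_cast h2J.trans hJ)) h2)
    rw [← sum_expo f fun m => extz f c m * w m] at h3
    simp_rw [extz_expo] at h3
    have h4 : ((∑ i, c i * w (expo f i) : ℤ) : ℚ) = 0 := by rw [h3, Int.cast_zero]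
    push_cast at h4
    exact h4
  have h5 := faces_264 f.support.card hk (cf f) (cf_ne f) (fun i => expo f i) (expo f).injective
    (f.support.card ^ (264 * f.support.card)) le_rfl (VV f (f.support.card ^ (264 * f.support.card))) (VV_kills f _)
    (by
      have : sp (cf f) (fun i => expo f i) = f := sp_expo f
      rw [this]
      exact h128) w' hwV
  have hsp : sp (cf f) (fun i => expo f i) = f := sp_expo f
  rw [hsp] at h5
  -- the face as a part of `f`
  have hmem : ∀ i, i ∈ face w' ↔ ∀ j ∈ f.support, w j ≤ w (expo f i) := by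
    intro i
    rw [mem_face]
    constructor
    · intro h m hm
      obtain ⟨j, rfl⟩ := expo_surj f hm
      have h9 : (w (expo f j) : ℚ) ≤ w (expo f i) := h j
      exact_mod_cast h9
    · intro h j
      have h9 : (w (expo f j) : ℚ) ≤ w (expo f i) := by exact_mod_cast h _ (expo_mem f j)
      exact h9
  have hfp : fp (cf f) (fun i => expo f i) (face w') = facePoly f w := by
    unfold fp facePoly
    refine Finset.sum_bij (fun i _ => expo f i) ?_ ?_ ?_ ?_
    · intro i hi
      exact Finset.mem_filter.2 ⟨expo_mem f i, (hmem i).1 hi⟩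
    · intro i _ j _ h
      exact (expo f).injective h
    · intro m hm
      obtain ⟨hm1, hm2⟩ := Finset.mem_filter.1 hm
      obtain ⟨i, rfl⟩ := expo_surj f hm1
      exact ⟨i, (hmem i).2 hm2, rfl⟩
    · intro i _
      rfl
  rw [hfp] at h5
  obtain ⟨h6, s, e, he, h7⟩ := h5
  refine ⟨h6, s, e, he, ?_⟩
  have hco : ∀ i ∈ face w', (facePoly f w).coeff (expo f i) = cf f i := by
    intro i hi
    rw [← hfp]
    exact G1_coeff (cf f) (fun i => expo f i) (expo f).injective (face w') hi
  intro m hm
  have hm' : ∃ i ∈ face w', expo f i = m := by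
    by_contra hcon
    push Not at hcon
    apply mem_support_iff.1 hm
    rw [← hfp]
    unfold fp
    rw [finsetSum_coeff]
    refine Finset.sum_eq_zero fun i hi => ?_
    rw [coeff_monomial, if_neg (hcon i hi)]
  obtain ⟨i, hi, rfl⟩ := hm'
  obtain ⟨j, hj, hij, haj⟩ := h7 i hi
  have hij' : expo f i + expo f j = s := hij
  refine ⟨by omega, ?_⟩
  have h8 : s - expo f i = expo f j := by omega
  rw [h8, hco j hj, hco i hi]
  exact haj

/-- the number of terms and the number of independent relations -/
theorem rank_265 (f : ℤ[X]) (hk : 2 ≤ f.support.card) (h128 : lm f < Real.log (128 / 100))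
    (J : ℕ) (hJ : f.support.card ^ (265 * f.support.card) ≤ J) :
    2 ^ (f.support.card - 1 - Module.finrank ℚ (relSpan f J)) ≤ f.support.card := by
  classical
  have h2J := two_mul_le f.support.card hk
  set φ : (ℕ → ℚ) →ₗ[ℚ] (Fin f.support.card → ℚ) := LinearMap.funLeft ℚ ℚ fun i => expo f i with hφ
  set S : Submodule ℚ (Fin f.support.card → ℚ) := (relSpan f J).map φ with hS
  set V : Submodule ℚ (Fin f.support.card → ℚ) := LinearMap.ker (G6_perp S) with hV
  have hmem : ∀ x : Fin f.support.card → ℚ, x ∈ V ↔ ∀ s ∈ S, ∑ i, s i * x i = 0 := by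
    intro x
    rw [hV, LinearMap.mem_ker]
    constructor
    · intro h s hs
      have := LinearMap.congr_fun h ⟨s, hs⟩
      simpa [G6_perp] using this
    · intro h
      ext s
      have := h s s.2
      simpa [G6_perp] using this
  have hfin : Module.Finite ℚ (relSpan f J) := by
    have hle : relSpan f J ≤ Submodule.span ℚ
        ((f.support.image fun m => (Pi.single m (1 : ℚ) : ℕ → ℚ) : Finset (ℕ → ℚ)) :
          Set (ℕ → ℚ)) := by
      unfold relSpan
      rw [Submodule.span_le]
      rintro x ⟨c, hc, hx⟩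
      have h1 : x = ∑ m ∈ f.support, (c m : ℚ) • (Pi.single m (1 : ℚ) : ℕ → ℚ) := by
        funext i
        rw [hx i, Finset.sum_apply]
        simp only [Pi.smul_apply, Pi.single_apply, smul_eq_mul, mul_ite, mul_one, mul_zero,
          Finset.sum_ite_eq]
        split_ifs with hi
        · rfl
        · rw [hc.1 i hi, Int.cast_zero]
      rw [h1]
      refine Submodule.sum_mem _ fun m hm => Submodule.smul_mem _ _ (Submodule.subset_span ?_)
      exact Finset.mem_coe.2 (Finset.mem_image_of_mem _ hm)
    have := Module.Finite.span_finset ℚ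
      (f.support.image fun m => (Pi.single m (1 : ℚ) : ℕ → ℚ))
    exact Submodule.finiteDimensional_of_le hle
  have hrank : Module.finrank ℚ S ≤ Module.finrank ℚ (relSpan f J) :=
    Submodule.finrank_map_le φ _
  have hone : (fun _ => (1 : ℚ)) ∈ V := by
    rw [hmem]
    intro s hs
    rw [hS, Submodule.mem_map] at hs
    obtain ⟨y, hy, rfl⟩ := hs
    unfold relSpan at hy
    have hlin : ∀ y ∈ Submodule.span ℚ {x : ℕ → ℚ | ∃ c : ℕ → ℤ, IsRel f J c ∧ ∀ i, x i = c i},
        ∑ m ∈ f.support, y m = 0 := by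
      intro y hy
      induction hy using Submodule.span_induction with
      | mem x hx =>
        obtain ⟨c, hc, hxc⟩ := hx
        have h0 : ((∑ m ∈ f.support, c m : ℤ) : ℚ) = 0 := by rw [hc.2.1, Int.cast_zero]
        push_cast at h0
        simp_rw [hxc]
        exact h0
      | zero => simp
      | add x y _ _ hx hy =>
        simp only [Pi.add_apply, Finset.sum_add_distrib, hx, hy, add_zero]
      | smul r x _ hx =>
        simp only [Pi.smul_apply, smul_eq_mul, ← Finset.mul_sum, hx, mul_zero]
    have h1 := hlin y hy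
    rw [← sum_expo f y] at h1
    simpa [hφ, LinearMap.funLeft_apply] using h1
  have hkills : Kills (f.support.card ^ (264 * f.support.card)) (fun i => expo f i) V := by
    intro c h0 h1 h2 x hx
    rw [hmem] at hx
    apply hx
    rw [hS, Submodule.mem_map]
    refine ⟨fun m => (extz f c m : ℚ), ?_, ?_⟩
    · unfold relSpan
      apply Submodule.subset_span
      exact ⟨extz f c, extz_rel f J c h0 (h1.trans (by exact_mod_cast h2J.trans hJ)) h2,
        fun i => rfl⟩
    · funext i
      rw [hφ, LinearMap.funLeft_apply, extz_expo]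
  have hdim := dim_264 f.support.card hk (cf f) (cf_ne f) (fun i => expo f i) (expo f).injective
    (f.support.card ^ (264 * f.support.card)) le_rfl V hone hkills
    (by
      have : sp (cf f) (fun i => expo f i) = f := sp_expo f
      rw [this]
      exact h128)
  have hperp : f.support.card - Module.finrank ℚ S ≤ Module.finrank ℚ V := G6_perp_finrank S
  refine (Nat.pow_le_pow_right (by norm_num) ?_).trans hdim
  omega

end H91.LK
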