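import Pool.Agent.H91.LK.Defs
import Pool.Agent.H61.Sparse.Compare

/-!
# C1: the coefficients of a sparse polynomial are bounded in terms of its Mahler measure

PROOF. As `Pool.Agent.H61.Sparse.log_coeff_le` (copy its proof), but with the constant `R = (1 + 26 t)^(-2t)`
in place of `1`: for `P₁ = P / c_j`, `log ‖P₁‖ + log (1 + R/‖P₁‖) = log (‖P₁‖ + R) ≥ log R`, so
`0 - log ‖c_j‖ + logM(P) = logM(P₁) ≥ log R - GG t R`, `log R = - 2 t log (1 + 26 t)`,
`GG t R = 2 t (1 + 26 t) R^(1/(2t)) = 2 t`.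
-/

set_option autoImplicit false

namespace H91.LK

open Polynomial Pool.Agent.H61.Sparse

theorem C1_log_coeff_le (t : ℕ) (ht : 0 < t) (P : ℂ[X]) (hP : P.support.card ≤ t + 1) (j : ℕ)
    (hj : P.coeff j ≠ 0) {R : ℝ} (hR : 0 < R) :
    Real.log ‖P.coeff j‖ ≤ P.logMahlerMeasure + GG t R - Real.log R := by
  have hP0 : P ≠ 0 := by
    rintro rfl
    simp at hj
  have hc : (P.coeff j)⁻¹ ≠ 0 := inv_ne_zero hj
  set P₁ : ℂ[X] := C (P.coeff j)⁻¹ * P with hP₁
  have hP₁0 : P₁ ≠ 0 := mul_ne_zero (by simpa using hj) hP0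
  have hcard : P₁.support.card ≤ t + 1 := by
    apply le_trans (Finset.card_le_card _) hP
    intro i hi
    rw [mem_support_iff] at hi ⊢
    rw [hP₁, coeff_C_mul] at hi
    exact right_ne_zero_of_mul hi
  have hj1 : 1 ≤ ‖P₁.coeff j‖ := by
    rw [hP₁, coeff_C_mul, inv_mul_cancel₀ hj, norm_one]
  obtain ⟨hi, hle⟩ := log_int t ht P₁ hcard j hj1 hR.le
  have h1 : Real.log R ≤
      Real.circleAverage (fun z => Real.log ‖P₁.eval z‖ + Real.log (1 + R / ‖P₁.eval z‖)) 0 1 := by
    have h0 : Real.circleAverage (fun _ : ℂ => Real.log R) 0 1 = Real.log R :=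
      Real.circleAverage_const (Real.log R) 0 1
    rw [← h0]
    apply avg_mono_off P₁ hP₁0 (circleIntegrable_const (Real.log R) 0 1)
      ((circleIntegrable_log_eval P₁).add hi)
    intro z hz hne
    have hp : 0 < ‖P₁.eval z‖ := norm_pos_iff.2 hne
    rw [Pi.add_apply, ← Real.log_mul hp.ne' (by positivity)]
    apply Real.log_le_log hR
    rw [mul_add, mul_one, mul_div_cancel₀ _ hp.ne']
    linarith
  rw [Real.circleAverage_fun_add (circleIntegrable_log_eval P₁) hi] at h1
  have h2 : P₁.logMahlerMeasure = Real.log ‖(P.coeff j)⁻¹‖ + P.logMahlerMeasure :=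
    logMahlerMeasure_C_mul hc hP0
  rw [logMahlerMeasure_def P₁] at h2
  rw [norm_inv, Real.log_inv] at h2
  linarith

theorem coeff_bound (t : ℕ) (ht : 0 < t) (f : ℤ[X]) (hf : f.support.card ≤ t + 1) (j : ℕ) :
    |(f.coeff j : ℝ)| ≤ Real.exp (lm f + 2 * t * (1 + Real.log (1 + 26 * t))) := by
  have ht' : (0 : ℝ) < t := by exact_mod_cast ht
  by_cases h0 : f.coeff j = 0
  · rw [h0]
    simp only [Int.cast_zero, abs_zero]
    exact (Real.exp_pos _).le
  · have hinj : Function.Injective (Int.castRingHom ℂ) := RingHom.injective_int _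
    have hs : (f.map (Int.castRingHom ℂ)).support = f.support := support_map_of_injective _ hinj
    have hc : (f.map (Int.castRingHom ℂ)).coeff j = ((f.coeff j : ℤ) : ℂ) := by simp
    set b : ℝ := 1 + 26 * t with hb
    have hb0 : 0 < b := by positivity
    have hR : 0 < b ^ (-(2 * (t : ℝ))) := Real.rpow_pos_of_pos hb0 _
    have h1 := C1_log_coeff_le t ht (f.map (Int.castRingHom ℂ)) (by rw [hs]; exact hf) j
      (by rw [hc]; exact_mod_cast h0) hR
    rw [hc, Complex.norm_intCast, Real.log_rpow hb0] at h1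
    have h2 : GG t (b ^ (-(2 * (t : ℝ)))) = 2 * t := by
      unfold GG
      rw [← Real.rpow_mul hb0.le, ← hb]
      have h3 : -(2 * (t : ℝ)) * (1 / (2 * (t : ℝ))) = -1 := by
        field_simp
      rw [h3, Real.rpow_neg_one, mul_assoc, mul_inv_cancel₀ hb0.ne', mul_one]
    rw [h2] at h1
    have h4 : 0 < |(f.coeff j : ℝ)| := by
      rw [abs_pos]
      exact_mod_cast h0
    rw [← Real.log_le_iff_le_exp h4]
    unfold lm
    linarith

end H91.LK
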