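import Pool.Agent.H91.LK.G5
import Pool.Agent.H91.LK.C1

/-!
# G6: the absolute bound for generic sparse polynomials

PROOF. Let `k = t + 1 ≥ 2`. If `lm (sp a n) ≥ log 2` clear. Otherwise `coeff_bound`: `∑ |a_i| ≤ L := 2 k exp (2t (1 + log (1 + 26 t)))`. Put
`η = (10^(-4)/(k · 2t (1 + 26 t)))^(2t)`, so `GG t η = 10^(-4)/k`, and let `J ≥ (2 L²/η²) log (10^4 k L²/η²)`, e.g. `J = k^(C k)` for a large
absolute constant `C` (`log L`, `log (1/η)` are `O(k log k)`, `k ≥ 2`), so `Er t J L η ≤ 2·10^(-4)/k` and `r Er ≤ 2·10^(-4)` for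
`r ≤ k` (take `r = finrank V - 1 ≤ k - 1`; if `hkr` holds). `log φ/2 - 2·10^(-4) ≥ log 1.27` (`φ/1.6129 = 1.00317…`, `exp (4·10^(-4)) < 1.0005`).
-/

set_option autoImplicit false

namespace H91.LK

open Polynomial

theorem G6_L (k t : ℕ) (hk : 2 ≤ k) (ht : t + 1 = k) :
    2 * (k : ℝ) * Real.exp (2 * (t : ℝ) * (1 + Real.log (1 + 26 * t))) ≤ (k : ℝ) ^ (16 * k) := by
  have hK : (2 : ℝ) ≤ k := by exact_mod_cast hk
  have hT : (t : ℝ) ≤ k := by
    have : t ≤ k := by omega
    exact_mod_cast this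
  have hT0 : (0 : ℝ) ≤ t := Nat.cast_nonneg t
  have h1 : Real.exp (2 * (t : ℝ) * (1 + Real.log (1 + 26 * t)))
      = (Real.exp 1 * (1 + 26 * t)) ^ (2 * t) := by
    have h2 : Real.exp 1 * (1 + 26 * (t : ℝ)) = Real.exp (1 + Real.log (1 + 26 * t)) := by
      rw [Real.exp_add, Real.exp_log (by positivity)]
    rw [h2, ← Real.exp_nat_mul]
    push_cast
    ring_nf
  have h3 : Real.exp 1 * (1 + 26 * (t : ℝ)) ≤ (k : ℝ) ^ 8 := by
    have he : Real.exp 1 ≤ 3 := by
      have := Real.exp_one_lt_d9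
      linarith
    have h4 : (1 : ℝ) + 26 * t ≤ 27 * k := by linarith
    have h5 : (128 : ℝ) ≤ (k : ℝ) ^ 7 := by
      calc (128 : ℝ) = 2 ^ 7 := by norm_num
        _ ≤ (k : ℝ) ^ 7 := pow_le_pow_left₀ (by norm_num) hK 7
    calc Real.exp 1 * (1 + 26 * (t : ℝ)) ≤ 3 * (27 * k) :=
          mul_le_mul he h4 (by positivity) (by norm_num)
      _ ≤ (k : ℝ) ^ 7 * k := by
          nlinarith
      _ = (k : ℝ) ^ 8 := by ring
  have h6 : (Real.exp 1 * (1 + 26 * (t : ℝ))) ^ (2 * t) ≤ ((k : ℝ) ^ 8) ^ (2 * t) :=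
    pow_le_pow_left₀ (by positivity) h3 _
  rw [h1]
  calc 2 * (k : ℝ) * (Real.exp 1 * (1 + 26 * (t : ℝ))) ^ (2 * t)
      ≤ (k : ℝ) * k * ((k : ℝ) ^ 8) ^ (2 * t) := by
        apply mul_le_mul _ h6 (by positivity) (by positivity)
        exact mul_le_mul_of_nonneg_right hK (by positivity)
    _ = (k : ℝ) ^ (2 + 8 * (2 * t)) := by
        rw [pow_add, pow_mul]; ring
    _ ≤ (k : ℝ) ^ (16 * k) := by
        apply pow_le_pow_right₀ (by linarith)
        omega

theorem G6_eta (k t : ℕ) (hk : 2 ≤ k) (ht : t + 1 = k) :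
    (10000 * (k : ℝ) * (2 * t * (1 + 26 * t))) ^ (2 * t) ≤ (k : ℝ) ^ (46 * k) := by
  have hK : (2 : ℝ) ≤ k := by exact_mod_cast hk
  have hT : (t : ℝ) ≤ k := by
    have : t ≤ k := by omega
    exact_mod_cast this
  have hT0 : (0 : ℝ) ≤ t := Nat.cast_nonneg t
  have h3 : 10000 * (k : ℝ) * (2 * t * (1 + 26 * t)) ≤ (k : ℝ) ^ 23 := by
    have h4 : (1 : ℝ) + 26 * t ≤ 27 * k := by linarith
    have h5 : (540000 : ℝ) ≤ (k : ℝ) ^ 20 := by
      calc (540000 : ℝ) ≤ 2 ^ 20 := by norm_num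
        _ ≤ (k : ℝ) ^ 20 := pow_le_pow_left₀ (by norm_num) hK 20
    have h6 : 2 * (t : ℝ) * (1 + 26 * t) ≤ 2 * k * (27 * k) :=
      mul_le_mul (by linarith) h4 (by positivity) (by positivity)
    calc 10000 * (k : ℝ) * (2 * t * (1 + 26 * t)) ≤ 10000 * (k : ℝ) * (2 * k * (27 * k)) :=
          mul_le_mul_of_nonneg_left h6 (by positivity)
      _ = 540000 * (k : ℝ) ^ 3 := by ring
      _ ≤ (k : ℝ) ^ 20 * (k : ℝ) ^ 3 := mul_le_mul_of_nonneg_right h5 (by positivity)
      _ = (k : ℝ) ^ 23 := by ring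
  calc (10000 * (k : ℝ) * (2 * t * (1 + 26 * t))) ^ (2 * t) ≤ ((k : ℝ) ^ 23) ^ (2 * t) :=
        pow_le_pow_left₀ (by positivity) h3 _
    _ = (k : ℝ) ^ (23 * (2 * t)) := (pow_mul (k : ℝ) 23 (2 * t)).symm
    _ ≤ (k : ℝ) ^ (46 * k) := by
        apply pow_le_pow_right₀ (by linarith)
        omega

theorem G6_num (k t : ℕ) (hk : 2 ≤ k) (ht : t + 1 = k) : ∃ L η : ℝ, 1 ≤ L ∧ 0 < η ∧ η ≤ 1 ∧
    (k : ℝ) * Real.exp (Real.log (127 / 100) + 2 * t * (1 + Real.log (1 + 26 * t))) ≤ L ∧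
    ∀ J : ℕ, k ^ (264 * k) ≤ J → Er t J L η ≤ 2 / (10000 * (k : ℝ)) := by
  have hK : (2 : ℝ) ≤ k := by exact_mod_cast hk
  have hK0 : (0 : ℝ) < k := by linarith
  have ht1 : 1 ≤ t := by omega
  have hT1 : (1 : ℝ) ≤ t := by exact_mod_cast ht1
  have hL := G6_L k t hk ht
  have hE := G6_eta k t hk ht
  have hy : 0 ≤ 2 * (t : ℝ) * (1 + Real.log (1 + 26 * t)) := by
    have : 0 ≤ Real.log (1 + 26 * (t : ℝ)) := Real.log_nonneg (by linarith)
    positivity
  set y : ℝ := 2 * (t : ℝ) * (1 + Real.log (1 + 26 * t)) with hydef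
  set z : ℝ := 10000 * (k : ℝ) * (2 * t * (1 + 26 * t)) with hzdef
  have hz1 : 1 ≤ z := by
    have h1 : (1 : ℝ) ≤ 2 * t * (1 + 26 * t) := by nlinarith
    have h2 : (1 : ℝ) ≤ 10000 * (k : ℝ) := by linarith
    rw [hzdef]
    exact one_le_mul_of_one_le_of_one_le h2 h1
  have hz0 : 0 < z := by linarith
  have hexp1 : 1 ≤ Real.exp y := Real.one_le_exp hy
  refine ⟨2 * k * Real.exp y, (1 / z) ^ (2 * t), ?_, by positivity, ?_, ?_, ?_⟩
  · nlinarith
  · apply pow_le_one₀ (by positivity)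
    rw [div_le_one hz0]
    exact hz1
  · rw [Real.exp_add, Real.exp_log (by norm_num)]
    have h0 : 0 < Real.exp y := Real.exp_pos y
    have : (k : ℝ) * (127 / 100 * Real.exp y) = 127 / 100 * (k * Real.exp y) := by ring
    rw [this]
    have h2 : 2 * (k : ℝ) * Real.exp y = 2 * (k * Real.exp y) := by ring
    rw [h2]
    apply mul_le_mul_of_nonneg_right (by norm_num) (by positivity)
  · intro J hJ
    have hJR : (k : ℝ) ^ (264 * k) ≤ J := by exact_mod_cast hJ
    unfold Er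
    have hGG : Pool.Agent.H61.Sparse.GG t ((1 / z) ^ (2 * t)) = 1 / (10000 * (k : ℝ)) := by
      unfold Pool.Agent.H61.Sparse.GG
      have h1 : ((1 / z) ^ (2 * t)) ^ (1 / (2 * (t : ℝ))) = 1 / z := by
        rw [← Real.rpow_natCast, ← Real.rpow_mul (by positivity)]
        have : ((2 * t : ℕ) : ℝ) * (1 / (2 * (t : ℝ))) = 1 := by
          push_cast
          field_simp
        rw [this, Real.rpow_one]
      rw [h1, hzdef]
      field_simp
    rw [hGG]
    set L : ℝ := 2 * k * Real.exp y with hLdef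
    set η : ℝ := (1 / z) ^ (2 * t) with hηdef
    have hL0 : 0 < L := by positivity
    have hη0 : 0 < η := by positivity
    have hηinv : 1 / η ≤ (k : ℝ) ^ (46 * k) := by
      have : 1 / η = z ^ (2 * t) := by
        rw [hηdef, one_div_pow]
        simp
      rw [this]
      exact hE
    set x : ℝ := L ^ 2 / η ^ 2 with hxdef
    have hx0 : 0 < x := by positivity
    have hxle : x ≤ (k : ℝ) ^ (124 * k) := by
      have h1 : x = L ^ 2 * (1 / η) ^ 2 := by
        rw [hxdef]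
        field_simp
      rw [h1]
      calc L ^ 2 * (1 / η) ^ 2 ≤ ((k : ℝ) ^ (16 * k)) ^ 2 * ((k : ℝ) ^ (46 * k)) ^ 2 := by
            apply mul_le_mul
            · exact pow_le_pow_left₀ hL0.le hL 2
            · exact pow_le_pow_left₀ (by positivity) hηinv 2
            · positivity
            · positivity
        _ = (k : ℝ) ^ (124 * k) := by
            rw [← pow_mul, ← pow_mul, ← pow_add]
            congr 1
            ring
    have hJ0 : (0 : ℝ) < J := lt_of_lt_of_le (by positivity) hJR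
    have hkey : 20000 * (k : ℝ) * x ^ 2 ≤ J := by
      calc 20000 * (k : ℝ) * x ^ 2 ≤ (k : ℝ) ^ 16 * ((k : ℝ) ^ (124 * k)) ^ 2 := by
            apply mul_le_mul
            · have : (20000 : ℝ) ≤ (k : ℝ) ^ 15 := by
                calc (20000 : ℝ) ≤ 2 ^ 15 := by norm_num
                  _ ≤ (k : ℝ) ^ 15 := pow_le_pow_left₀ (by norm_num) hK 15
              calc 20000 * (k : ℝ) ≤ (k : ℝ) ^ 15 * k :=
                    mul_le_mul_of_nonneg_right this hK0.le
                _ = (k : ℝ) ^ 16 := by ring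
            · exact pow_le_pow_left₀ hx0.le hxle 2
            · positivity
            · positivity
        _ = (k : ℝ) ^ (16 + 124 * k * 2) := by rw [← pow_mul, ← pow_add]
        _ ≤ (k : ℝ) ^ (264 * k) := by
            apply pow_le_pow_right₀ (by linarith)
            omega
        _ ≤ J := hJR
    have hu : (J : ℝ) * η ^ 2 / (2 * L ^ 2) = J / (2 * x) := by
      rw [hxdef]
      field_simp
    rw [hu]
    have hexp : Real.exp (-((J : ℝ) / (2 * x))) ≤ 2 * x / J := by
      rw [Real.exp_neg]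
      have h1 : (J : ℝ) / (2 * x) ≤ Real.exp ((J : ℝ) / (2 * x)) := by
        have := Real.add_one_le_exp ((J : ℝ) / (2 * x))
        linarith
      have h2 : 0 < (J : ℝ) / (2 * x) := by positivity
      calc (Real.exp ((J : ℝ) / (2 * x)))⁻¹ ≤ ((J : ℝ) / (2 * x))⁻¹ := inv_anti₀ h2 h1
        _ = 2 * x / J := by rw [inv_div]
    have h3 : x * Real.exp (-((J : ℝ) / (2 * x))) ≤ 1 / (10000 * (k : ℝ)) := by
      calc x * Real.exp (-((J : ℝ) / (2 * x))) ≤ x * (2 * x / J) :=
            mul_le_mul_of_nonneg_left hexp hx0.le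
        _ = 2 * x ^ 2 / J := by ring
        _ ≤ 1 / (10000 * (k : ℝ)) := by
            rw [div_le_div_iff₀ hJ0 (by positivity)]
            linarith
    have h4 : (2 : ℝ) / (10000 * (k : ℝ)) = 1 / (10000 * (k : ℝ)) + 1 / (10000 * (k : ℝ)) := by
      ring
    rw [h4]
    linarith

theorem G6_card {k : ℕ} (a : Fin k → ℤ) (n : Fin k → ℕ) : (sp a n).support.card ≤ k := by
  classical
  have h : (sp a n).support ⊆ Finset.univ.image n := by
    intro m hm
    rw [Polynomial.mem_support_iff] at hm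
    by_contra hne
    apply hm
    unfold sp
    rw [Polynomial.finsetSum_coeff]
    apply Finset.sum_eq_zero
    intro i _
    rw [Polynomial.coeff_monomial, if_neg]
    intro h
    exact hne (Finset.mem_image.2 ⟨i, Finset.mem_univ i, h⟩)
  calc (sp a n).support.card ≤ (Finset.univ.image n).card := Finset.card_le_card h
    _ ≤ (Finset.univ : Finset (Fin k)).card := Finset.card_image_le
    _ = k := by simp

theorem G6_coeff {k : ℕ} (a : Fin k → ℤ) (n : Fin k → ℕ) (hn : Function.Injective n) (i : Fin k) :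
    (sp a n).coeff (n i) = a i := by
  unfold sp
  rw [Polynomial.finsetSum_coeff, Finset.sum_eq_single i]
  · rw [Polynomial.coeff_monomial, if_pos rfl]
  · intro j _ hj
    rw [Polynomial.coeff_monomial, if_neg]
    intro h
    exact hj (hn h)
  · intro h
    exact absurd (Finset.mem_univ i) h

theorem G6_gold : Real.log (127 / 100) + 2 / 10000 ≤ Real.log ((1 + √5) / 2) / 2 := by
  have h5 : (2.236 : ℝ) ≤ √5 := by
    apply Real.le_sqrt_of_sq_le
    norm_num
  have h1 : Real.log (1618 / 1000) ≤ Real.log ((1 + √5) / 2) := by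
    apply Real.log_le_log (by norm_num)
    linarith
  have h2 : Real.log (1618 / 1000) = 2 * Real.log (127 / 100) + Real.log (16180 / 16129) := by
    have h3 : 2 * Real.log (127 / 100) = Real.log ((127 / 100) ^ 2) := by
      rw [Real.log_pow]
      norm_num
    rw [h3, ← Real.log_mul (by norm_num) (by norm_num)]
    norm_num
  have h4 : 1 - (16180 / 16129 : ℝ)⁻¹ ≤ Real.log (16180 / 16129) :=
    Real.one_sub_inv_le_log_of_pos (by norm_num)
  norm_num at h4
  linarith

theorem generic_264 (k : ℕ) (hk : 2 ≤ k) (a : Fin k → ℤ) (ha : ∀ i, a i ≠ 0)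
    (n : Fin k → ℕ) (hn : Function.Injective n) (J : ℕ) (hJ : k ^ (264 * k) ≤ J)
    (V : Submodule ℚ (Fin k → ℚ)) (h1 : (fun _ => (1 : ℚ)) ∈ V) (hV : Kills J n V)
    (hkV : k < 2 ^ (Module.finrank ℚ V - 1)) : Real.log (127 / 100) ≤ lm (sp a n) := by
  by_contra hlt
  push Not at hlt
  obtain ⟨t, ht⟩ : ∃ t, t + 1 = k := ⟨k - 1, by omega⟩
  have ht0 : 0 < t := by omega
  obtain ⟨L, η, hL1, hη0, hη1, hLk, hEr⟩ := G6_num k t hk ht
  have hK : (2 : ℝ) ≤ k := by exact_mod_cast hk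
  have hsum : ∑ i, |(a i : ℝ)| ≤ L := by
    have hi : ∀ i : Fin k, |(a i : ℝ)| ≤
        Real.exp (Real.log (127 / 100) + 2 * t * (1 + Real.log (1 + 26 * t))) := by
      intro i
      have hcard : (sp a n).support.card ≤ t + 1 := by
        rw [ht]
        exact G6_card a n
      have h := coeff_bound t ht0 (sp a n) hcard (n i)
      rw [G6_coeff a n hn i] at h
      refine h.trans (Real.exp_le_exp.2 ?_)
      linarith
    calc ∑ i, |(a i : ℝ)| ≤ ∑ _i : Fin k,
          Real.exp (Real.log (127 / 100) + 2 * t * (1 + Real.log (1 + 26 * t))) :=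
          Finset.sum_le_sum fun i _ => hi i
      _ = (k : ℝ) * Real.exp (Real.log (127 / 100) + 2 * t * (1 + Real.log (1 + 26 * t))) := by
          simp
      _ ≤ L := hLk
  have hJ2 : 2 ≤ J := by
    refine le_trans ?_ hJ
    calc 2 ≤ k := hk
      _ = k ^ 1 := (pow_one k).symm
      _ ≤ k ^ (264 * k) := Nat.pow_le_pow_right (by omega) (by omega)
  have hfr : 1 ≤ Module.finrank ℚ V := by
    by_contra h0
    have h00 : Module.finrank ℚ V = 0 := by omega
    rw [h00] at hkV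
    norm_num at hkV
    omega
  have hrk : Module.finrank ℚ V - 1 ≤ k := by
    have h2 : Module.finrank ℚ V ≤ Module.finrank ℚ (Fin k → ℚ) := Submodule.finrank_le V
    rw [Module.finrank_fin_fun] at h2
    omega
  have hmain := generic_raw hJ2 t ht0 (le_of_eq ht.symm) a ha n hn V h1 hV L η hL1 hsum hη0 hη1
    (Module.finrank ℚ V - 1) (by omega) hkV
  have hE := hEr J hJ
  have hr : ((Module.finrank ℚ V - 1 : ℕ) : ℝ) ≤ k := by exact_mod_cast hrk
  have hb : ((Module.finrank ℚ V - 1 : ℕ) : ℝ) * Er t J L η ≤ 2 / 10000 := by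
    calc ((Module.finrank ℚ V - 1 : ℕ) : ℝ) * Er t J L η
        ≤ ((Module.finrank ℚ V - 1 : ℕ) : ℝ) * (2 / (10000 * (k : ℝ))) :=
          mul_le_mul_of_nonneg_left hE (Nat.cast_nonneg _)
      _ ≤ (k : ℝ) * (2 / (10000 * (k : ℝ))) :=
          mul_le_mul_of_nonneg_right hr (by positivity)
      _ = 2 / 10000 := by
          field_simp
  have hg := G6_gold
  linarith

theorem generic : ∃ C : ℕ, ∀ (k : ℕ), 2 ≤ k → ∀ (a : Fin k → ℤ), (∀ i, a i ≠ 0) →
    ∀ (n : Fin k → ℕ), Function.Injective n →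
    ∀ (J : ℕ), k ^ (C * k) ≤ J →
    ∀ (V : Submodule ℚ (Fin k → ℚ)), (fun _ => (1 : ℚ)) ∈ V → Kills J n V →
    k < 2 ^ (Module.finrank ℚ V - 1) → Real.log (127 / 100) ≤ lm (sp a n) :=
  ⟨264, fun k hk a ha n hn J hJ V h1 hV hkV => generic_264 k hk a ha n hn J hJ V h1 hV hkV⟩

/-- vectors orthogonal to `S` -/
noncomputable def G6_perp {k : ℕ} (S : Submodule ℚ (Fin k → ℚ)) :
    (Fin k → ℚ) →ₗ[ℚ] (S →ₗ[ℚ] ℚ) where
  toFun x := { toFun := fun s => ∑ i, (s : Fin k → ℚ) i * x i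
               map_add' := by
                 intro s s'
                 simp [add_mul, Finset.sum_add_distrib]
               map_smul' := by
                 intro c s
                 simp [Finset.mul_sum, mul_assoc] }
  map_add' := by
    intro x y
    ext s
    simp [mul_add, Finset.sum_add_distrib]
  map_smul' := by
    intro c x
    ext s
    simp [Finset.mul_sum, mul_left_comm]

theorem G6_perp_finrank {k : ℕ} (S : Submodule ℚ (Fin k → ℚ)) :
    k - Module.finrank ℚ S ≤ Module.finrank ℚ (LinearMap.ker (G6_perp S)) := by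
  have h1 := LinearMap.finrank_range_add_finrank_ker (G6_perp S)
  rw [Module.finrank_fin_fun] at h1
  have h2 : Module.finrank ℚ (LinearMap.range (G6_perp S)) ≤ Module.finrank ℚ (S →ₗ[ℚ] ℚ) :=
    Submodule.finrank_le _
  have h3 : Module.finrank ℚ (S →ₗ[ℚ] ℚ) = Module.finrank ℚ S := Subspace.dual_finrank_eq
  omega

/-- the same in terms of the number of independent short relations -/
theorem generic_rel_265 (k : ℕ) (hk : 2 ≤ k) (a : Fin k → ℤ) (ha : ∀ i, a i ≠ 0)
    (n : Fin k → ℕ) (hn : Function.Injective n)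
    (hkS : k < 2 ^ (k - 1 - Module.finrank ℚ (Submodule.span ℚ {x : Fin k → ℚ | ∃ c : Fin k → ℤ,
      (∀ i, x i = c i) ∧ ∑ i, c i = 0 ∧ ∑ i, |c i| ≤ (k : ℤ) ^ (265 * k) ∧
      ∑ i, c i * (n i : ℤ) = 0}))) : Real.log (127 / 100) ≤ lm (sp a n) := by
  set S : Submodule ℚ (Fin k → ℚ) := Submodule.span ℚ {x : Fin k → ℚ | ∃ c : Fin k → ℤ,
      (∀ i, x i = c i) ∧ ∑ i, c i = 0 ∧ ∑ i, |c i| ≤ (k : ℤ) ^ (265 * k) ∧
      ∑ i, c i * (n i : ℤ) = 0} with hS
  have hmem : ∀ x : Fin k → ℚ, x ∈ LinearMap.ker (G6_perp S) ↔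
      ∀ s ∈ S, ∑ i, s i * x i = 0 := by
    intro x
    rw [LinearMap.mem_ker]
    constructor
    · intro h s hs
      have := LinearMap.congr_fun h ⟨s, hs⟩
      simpa [G6_perp] using this
    · intro h
      ext s
      have := h s s.2
      simpa [G6_perp] using this
  apply generic_264 k hk a ha n hn (k ^ (264 * k)) le_rfl (LinearMap.ker (G6_perp S))
  · rw [hmem]
    intro s hs
    rw [hS] at hs
    induction hs using Submodule.span_induction with
    | mem x hx =>
      obtain ⟨c, hc, h0, _, _⟩ := hx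
      have h0' : ((∑ i, c i : ℤ) : ℚ) = 0 := by rw [h0]; simp
      push_cast at h0'
      simp only [mul_one, hc]
      exact h0'
    | zero => simp
    | add x y _ _ hx hy =>
      simp only [Pi.add_apply, add_mul, Finset.sum_add_distrib, hx, hy, add_zero]
    | smul r x _ hx =>
      simp only [Pi.smul_apply, smul_eq_mul, mul_assoc, ← Finset.mul_sum]
      rw [hx, mul_zero]
  · intro c h0 hc hn0 x hx
    rw [hmem] at hx
    have hcS : (fun i => (c i : ℚ)) ∈ S := by
      rw [hS]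
      apply Submodule.subset_span
      refine ⟨c, fun i => rfl, h0, ?_, hn0⟩
      refine hc.trans ?_
      push_cast
      calc 2 * (k : ℤ) ^ (264 * k) ≤ (k : ℤ) * (k : ℤ) ^ (264 * k) := by
            apply mul_le_mul_of_nonneg_right _ (by positivity)
            exact_mod_cast hk
        _ = (k : ℤ) ^ (264 * k + 1) := by rw [pow_succ]; ring
        _ ≤ (k : ℤ) ^ (265 * k) := by
            apply pow_le_pow_right₀ (by exact_mod_cast (by omega : 1 ≤ k))
            omega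
    exact hx _ hcS
  · refine lt_of_lt_of_le hkS (Nat.pow_le_pow_right (by norm_num) ?_)
    have := G6_perp_finrank S
    omega

theorem generic_rel : ∃ C : ℕ, ∀ (k : ℕ), 2 ≤ k → ∀ (a : Fin k → ℤ), (∀ i, a i ≠ 0) →
    ∀ (n : Fin k → ℕ), Function.Injective n →
    k < 2 ^ (k - 1 - Module.finrank ℚ (Submodule.span ℚ {x : Fin k → ℚ | ∃ c : Fin k → ℤ,
      (∀ i, x i = c i) ∧ ∑ i, c i = 0 ∧ ∑ i, |c i| ≤ (k : ℤ) ^ (C * k) ∧
      ∑ i, c i * (n i : ℤ) = 0})) → Real.log (127 / 100) ≤ lm (sp a n) :=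
  ⟨265, fun k hk a ha n hn h => generic_rel_265 k hk a ha n hn h⟩

end H91.LK
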