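import Mathlib

/-!
# A2: polynomial approximation of `log (u + η^2)` from above

PROOF. `Λ = L^2 + η^2 ≤ 2 L^2`, `w = (L^2 - u)/Λ ∈ [0, q]`, `q = L^2/Λ = 1 - η^2/Λ < 1`,
`log (u + η^2) = log Λ + log (1 - w) = log Λ - ∑_{j ≥ 1} w^j/j`. Let
`p = C (log Λ) - ∑_{j = 1}^J C (1/j) ((C (L^2) - X) * C (1/Λ))^j`. The difference
`p(u) - log (u + η^2) = ∑_{j > J} w^j/j` is between `0` and `∑_{j > J} q^j = q^(J+1)/(1-q)`,
`1 - q = η^2/Λ ≥ η^2/(2L^2)`, `q^(J+1) ≤ q^J ≤ exp (-J η^2/Λ) ≤ exp (-J η^2/(2L^2))`.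
(Mathlib: `Real.abs_log_sub_add_sum_range_le`, `Real.hasSum_pow_div_log_of_abs_lt_one`.)
-/

set_option autoImplicit false

namespace H91.LK

open Polynomial

theorem log_taylor (L η : ℝ) (hL : 1 ≤ L) (hη : 0 < η) (hη1 : η ≤ 1) (J : ℕ) :
    ∃ p : ℝ[X], p.natDegree ≤ J ∧ ∀ u : ℝ, 0 ≤ u → u ≤ L ^ 2 →
      Real.log (u + η ^ 2) ≤ p.eval u ∧
      p.eval u ≤ Real.log (u + η ^ 2) +
        2 * L ^ 2 / η ^ 2 * Real.exp (-(J * η ^ 2 / (2 * L ^ 2))) := by
  have hL2 : (1 : ℝ) ≤ L ^ 2 := by nlinarith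
  have hη2 : 0 < η ^ 2 := by positivity
  have hη21 : η ^ 2 ≤ 1 := by nlinarith
  obtain ⟨Lam, hLam⟩ : ∃ Lam : ℝ, Lam = L ^ 2 + η ^ 2 := ⟨_, rfl⟩
  have hLam0 : 0 < Lam := by rw [hLam]; linarith
  have hLam2 : Lam ≤ 2 * L ^ 2 := by rw [hLam]; linarith
  refine ⟨C (Real.log Lam) -
    ∑ i ∈ Finset.range J, C (1 / ((i : ℝ) + 1)) * ((C (L ^ 2) - X) * C (1 / Lam)) ^ (i + 1),
    ?_, ?_⟩
  · refine (natDegree_sub_le _ _).trans (max_le ?_ ?_)
    · rw [natDegree_C]; exact Nat.zero_le _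
    · refine natDegree_sum_le_of_forall_le _ _ ?_
      intro i hi
      have hi' : i + 1 ≤ J := by
        have := Finset.mem_range.mp hi
        omega
      refine (natDegree_C_mul_le _ _).trans ?_
      refine (natDegree_pow_le).trans ?_
      have h1 : ((C (L ^ 2) - X) * C (1 / Lam) : ℝ[X]).natDegree ≤ 1 := by
        refine (natDegree_mul_C_le _ _).trans ?_
        refine (natDegree_sub_le _ _).trans (max_le ?_ ?_)
        · rw [natDegree_C]; exact Nat.zero_le _
        · exact natDegree_X_le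
      calc (i + 1) * ((C (L ^ 2) - X) * C (1 / Lam) : ℝ[X]).natDegree ≤ (i + 1) * 1 :=
            Nat.mul_le_mul_left _ h1
        _ ≤ J := by omega
  · intro u hu0 huL
    obtain ⟨w, hw⟩ : ∃ w : ℝ, w = (L ^ 2 - u) / Lam := ⟨_, rfl⟩
    have hw0 : 0 ≤ w := by rw [hw]; exact div_nonneg (by linarith) hLam0.le
    obtain ⟨q, hq⟩ : ∃ q : ℝ, q = L ^ 2 / Lam := ⟨_, rfl⟩
    have hq0 : 0 ≤ q := by rw [hq]; positivity
    have hwq : w ≤ q := by
      rw [hw, hq]
      exact div_le_div_of_nonneg_right (by linarith) hLam0.le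
    have h1q : 1 - q = η ^ 2 / Lam := by
      rw [hq]
      field_simp
      rw [hLam]
      ring
    have hq1 : 0 < 1 - q := by rw [h1q]; positivity
    have hw1 : w < 1 := by linarith
    have habs : |w| < 1 := by rw [abs_of_nonneg hw0]; exact hw1
    have h1w : 1 - w = (u + η ^ 2) / Lam := by
      rw [hw]
      field_simp
      rw [hLam]
      ring
    have hu : 0 < u + η ^ 2 := by linarith
    have hlog : Real.log (1 - w) = Real.log (u + η ^ 2) - Real.log Lam := by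
      rw [h1w, Real.log_div hu.ne' hLam0.ne']
    have heval : (C (Real.log Lam) -
        ∑ i ∈ Finset.range J, C (1 / ((i : ℝ) + 1)) *
          ((C (L ^ 2) - X) * C (1 / Lam)) ^ (i + 1) : ℝ[X]).eval u =
        Real.log Lam - ∑ i ∈ Finset.range J, w ^ (i + 1) / ((i : ℝ) + 1) := by
      rw [eval_sub, eval_C, eval_finsetSum]
      congr 1
      refine Finset.sum_congr rfl fun i _ => ?_
      rw [eval_mul, eval_C, eval_pow, eval_mul, eval_sub, eval_C, eval_X, eval_C, hw]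
      ring
    rw [heval]
    constructor
    · have hs := Real.hasSum_pow_div_log_of_abs_lt_one habs
      have h2 : ∑ i ∈ Finset.range J, w ^ (i + 1) / ((i : ℝ) + 1) ≤ -Real.log (1 - w) := by
        refine sum_le_hasSum _ ?_ hs
        intro i _
        positivity
      rw [hlog] at h2
      linarith
    · have h3 := Real.abs_log_sub_add_sum_range_le habs J
      rw [abs_of_nonneg hw0] at h3
      have h4 := (abs_le.mp h3).1
      rw [hlog] at h4
      have h5 : w ^ (J + 1) / (1 - w) ≤ q ^ (J + 1) / (1 - q) := by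
        refine div_le_div₀ (by positivity) (pow_le_pow_left₀ hw0 hwq _) hq1 (by linarith)
      have hq' : q ≤ Real.exp (-(η ^ 2 / Lam)) := by
        have := Real.add_one_le_exp (-(η ^ 2 / Lam))
        linarith
      have h6 : q ^ (J + 1) ≤ Real.exp (-(J * η ^ 2 / (2 * L ^ 2))) := by
        calc q ^ (J + 1) ≤ q ^ J := pow_le_pow_of_le_one hq0 (by linarith) (Nat.le_succ J)
          _ ≤ (Real.exp (-(η ^ 2 / Lam))) ^ J := pow_le_pow_left₀ hq0 hq' _
          _ = Real.exp (J * -(η ^ 2 / Lam)) := by rw [← Real.exp_nat_mul]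
          _ ≤ Real.exp (-(J * η ^ 2 / (2 * L ^ 2))) := by
            apply Real.exp_le_exp.mpr
            have h7 : η ^ 2 / (2 * L ^ 2) ≤ η ^ 2 / Lam :=
              div_le_div_of_nonneg_left hη2.le hLam0 hLam2
            have h8 : (J : ℝ) * (η ^ 2 / (2 * L ^ 2)) ≤ J * (η ^ 2 / Lam) :=
              mul_le_mul_of_nonneg_left h7 (Nat.cast_nonneg J)
            have h9 : (J : ℝ) * η ^ 2 / (2 * L ^ 2) = J * (η ^ 2 / (2 * L ^ 2)) := by ring
            rw [h9]
            linarith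
      have h10 : q ^ (J + 1) / (1 - q) ≤
          2 * L ^ 2 / η ^ 2 * Real.exp (-(J * η ^ 2 / (2 * L ^ 2))) := by
        rw [h1q, div_eq_mul_inv, inv_div, mul_comm]
        refine mul_le_mul ?_ h6 (by positivity) (by positivity)
        exact div_le_div_of_nonneg_right hLam2 hη2.le
      linarith

end H91.LK
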