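import Pool.Agent.H91.LK.A1
import Pool.Agent.H91.LK.A2
import Pool.Agent.H61.Sparse.Compare

/-!
# A3: comparison of Mahler measures

PROOF. Write `E` for `Real.circleAverage · 0 1`, `u_n(z) = ‖(cp a n).eval z‖^2 ∈ [0, L^2]` on the circle. Let `p`
be the polynomial of `log_taylor`. By `moment` (linear combination of the powers `u^j`, `j ≤ J`)
`E p(u_n) = E p(u_m)`. So
`2 lm (sp a m) = E log u_m ≤ E log (u_m + η^2) ≤ E p(u_m) = E p(u_n) ≤ E log (u_n + η^2) + tail`,
and `log (u_n + η^2) = log u_n + log (1 + η^2/u_n) ≤ 2 log ‖f_n‖ + 2 log (1 + η/‖f_n‖)` off the zeros of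
`f_n` (`(1 + x^2) ≤ (1 + x)^2`, `x ≥ 0`); the last term has mean `≤ 2 GG t η` by
`Pool.Agent.H61.Sparse.log_int` (some coefficient of `cp a n` is a nonzero integer since `n` is injective and
`a i ≠ 0`). Tools: `Pool.Agent.H61.Sparse.avg_mono_off` (the zeros on the circle are harmless),
`circleIntegrable_log_eval`, `finite_circle_zeros`.
-/

set_option autoImplicit false

namespace H91.LK

open Polynomial Pool.Agent.H61.Sparse

/-- coefficients of `cp` -/
theorem A3_coeff {k : ℕ} (a : Fin k → ℤ) (n : Fin k → ℕ) (hn : Function.Injective n)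
    (i : Fin k) : (cp a n).coeff (n i) = (a i : ℂ) := by
  unfold cp sp
  rw [coeff_map, finsetSum_coeff, Finset.sum_eq_single i]
  · simp
  · intro j _ hj
    rw [coeff_monomial, if_neg]
    exact fun h => hj (hn h)
  · intro h
    exact absurd (Finset.mem_univ i) h

theorem A3_ne {k : ℕ} (hk0 : 0 < k) (a : Fin k → ℤ) (ha : ∀ i, a i ≠ 0) (n : Fin k → ℕ)
    (hn : Function.Injective n) : cp a n ≠ 0 := by
  intro h
  have h1 := A3_coeff a n hn ⟨0, hk0⟩
  rw [h, coeff_zero] at h1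
  exact ha ⟨0, hk0⟩ (by exact_mod_cast h1.symm)

theorem A3_card {k t : ℕ} (hk : k ≤ t + 1) (a : Fin k → ℤ) (n : Fin k → ℕ) :
    (cp a n).support.card ≤ t + 1 := by
  refine le_trans ?_ hk
  have h1 : (cp a n).support ⊆ Finset.univ.image n := by
    intro e he
    rw [mem_support_iff] at he
    by_contra hcon
    apply he
    unfold cp sp
    rw [coeff_map, finsetSum_coeff, Finset.sum_eq_zero]
    · simp
    · intro j _
      rw [coeff_monomial, if_neg]
      intro h
      exact hcon (Finset.mem_image.2 ⟨j, Finset.mem_univ j, h⟩)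
  calc (cp a n).support.card ≤ (Finset.univ.image n).card := Finset.card_le_card h1
    _ ≤ (Finset.univ : Finset (Fin k)).card := Finset.card_image_le
    _ = k := by simp

theorem A3_norm {k : ℕ} (a : Fin k → ℤ) (n : Fin k → ℕ) (z : ℂ) (hz : ‖z‖ = 1) :
    ‖(cp a n).eval z‖ ≤ ∑ i, |(a i : ℝ)| := by
  unfold cp sp
  rw [Polynomial.map_sum, eval_finsetSum]
  refine (norm_sum_le _ _).trans (Finset.sum_le_sum ?_)
  intro i _
  rw [map_monomial, eval_monomial, norm_mul, norm_pow, hz, one_pow, mul_one]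
  simp

/-- the mean of a polynomial in `‖f‖ ^ 2` -/
theorem A3_poly (f : ℂ[X]) (p : ℝ[X]) (J : ℕ) (hp : p.natDegree ≤ J) :
    Real.circleAverage (fun z => p.eval (‖f.eval z‖ ^ 2)) 0 1 =
      ∑ j ∈ Finset.range (J + 1),
        p.coeff j * Real.circleAverage (fun z => (‖f.eval z‖ ^ 2) ^ j) 0 1 := by
  have h1 : (fun z : ℂ => p.eval (‖f.eval z‖ ^ 2)) =
      fun z => ∑ j ∈ Finset.range (J + 1), p.coeff j * (‖f.eval z‖ ^ 2) ^ j := by
    funext z
    rw [eval_eq_sum_range' (Nat.lt_succ_of_le hp)]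
  have hc : ∀ j, Continuous fun z : ℂ => p.coeff j * (‖f.eval z‖ ^ 2) ^ j := by
    intro j
    have hf : Continuous fun z : ℂ => f.eval z := f.continuous
    fun_prop
  rw [h1, Real.circleAverage_fun_sum]
  · refine Finset.sum_congr rfl fun j _ => ?_
    have h2 := Real.circleAverage_fun_smul (a := p.coeff j) (c := (0 : ℂ)) (R := (1 : ℝ))
      (f := fun z : ℂ => (‖f.eval z‖ ^ 2) ^ j)
    simpa only [smul_eq_mul] using h2
  · intro j _
    exact ((hc j).comp (continuous_circleMap 0 1)).intervalIntegrable _ _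

theorem A3_int (f : ℂ[X]) (p : ℝ[X]) :
    CircleIntegrable (fun z => p.eval (‖f.eval z‖ ^ 2)) 0 1 := by
  have hf : Continuous fun z : ℂ => f.eval z := f.continuous
  have hc : Continuous fun z : ℂ => p.eval (‖f.eval z‖ ^ 2) :=
    p.continuous.comp ((hf.norm).pow 2)
  exact (hc.comp (continuous_circleMap 0 1)).intervalIntegrable _ _

theorem compare {k : ℕ} (t : ℕ) (ht : 0 < t) (hk : k ≤ t + 1) (hk0 : 0 < k)
    (a : Fin k → ℤ) (ha : ∀ i, a i ≠ 0) (n m : Fin k → ℕ) (hn : Function.Injective n)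
    (hm : Function.Injective m) (J : ℕ) (h : SameRel J n m) (L η : ℝ) (hL1 : 1 ≤ L)
    (hL : ∑ i, |(a i : ℝ)| ≤ L) (hη : 0 < η) (hη1 : η ≤ 1) :
    lm (sp a m) ≤ lm (sp a n) + GG t η +
      L ^ 2 / η ^ 2 * Real.exp (-(J * η ^ 2 / (2 * L ^ 2))) := by
  obtain ⟨p, hpd, hp⟩ := log_taylor L η hL1 hη hη1 J
  set c : ℝ := 2 * L ^ 2 / η ^ 2 * Real.exp (-(J * η ^ 2 / (2 * L ^ 2))) with hc
  have hcp : ∀ b : Fin k → ℕ, lm (sp a b) =
      Real.circleAverage (fun z => Real.log ‖(cp a b).eval z‖) 0 1 := fun b => rfl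
  have hu : ∀ (b : Fin k → ℕ) (z : ℂ), ‖z‖ = 1 →
      ‖(cp a b).eval z‖ ^ 2 ≤ L ^ 2 := by
    intro b z hz
    exact pow_le_pow_left₀ (norm_nonneg _) ((A3_norm a b z hz).trans hL) 2
  -- equality of the means of `p`
  have hE : Real.circleAverage (fun z => p.eval (‖(cp a n).eval z‖ ^ 2)) 0 1 =
      Real.circleAverage (fun z => p.eval (‖(cp a m).eval z‖ ^ 2)) 0 1 := by
    rw [A3_poly _ p J hpd, A3_poly _ p J hpd]
    refine Finset.sum_congr rfl fun j hj => ?_
    rw [moment a n m h j (Nat.lt_succ_iff.1 (Finset.mem_range.1 hj))]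
  -- the lower bound for the mean of `p(u_m)`
  have h2avg : ∀ b : Fin k → ℕ, Real.circleAverage (fun z => 2 * Real.log ‖(cp a b).eval z‖) 0 1 =
      2 * lm (sp a b) := by
    intro b
    rw [hcp b]
    have h2 := Real.circleAverage_fun_smul (a := (2 : ℝ)) (c := (0 : ℂ)) (R := (1 : ℝ))
      (f := fun z : ℂ => Real.log ‖(cp a b).eval z‖)
    simpa only [smul_eq_mul] using h2
  have hint2 : ∀ b : Fin k → ℕ, CircleIntegrable (fun z => 2 * Real.log ‖(cp a b).eval z‖) 0 1 := by
    intro b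
    exact (circleIntegrable_log_eval (cp a b)).const_mul 2
  have hlow : 2 * lm (sp a m) ≤
      Real.circleAverage (fun z => p.eval (‖(cp a m).eval z‖ ^ 2)) 0 1 := by
    rw [← h2avg m]
    apply avg_mono_off (cp a m) (A3_ne hk0 a ha m hm) (hint2 m) (A3_int _ p)
    intro z hz hne
    have hpos : 0 < ‖(cp a m).eval z‖ := norm_pos_iff.2 hne
    have h3 := (hp (‖(cp a m).eval z‖ ^ 2) (by positivity) (hu m z hz)).1
    refine le_trans ?_ h3
    have h4 : 2 * Real.log ‖(cp a m).eval z‖ = Real.log (‖(cp a m).eval z‖ ^ 2) := by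
      rw [Real.log_pow]
      push_cast
      ring
    rw [h4]
    apply Real.log_le_log (by positivity)
    nlinarith [sq_nonneg η]
  -- the upper bound for the mean of `p(u_n)`
  have hcoef : 1 ≤ ‖(cp a n).coeff (n ⟨0, hk0⟩)‖ := by
    rw [A3_coeff a n hn]
    have h5 : (1 : ℝ) ≤ |(a ⟨0, hk0⟩ : ℝ)| := by
      have h6 := Int.one_le_abs (ha ⟨0, hk0⟩)
      exact_mod_cast h6
    simpa using h5
  obtain ⟨hi, hle⟩ := log_int t ht (cp a n) (A3_card hk a n) (n ⟨0, hk0⟩) hcoef hη.le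
  have hup : Real.circleAverage (fun z => p.eval (‖(cp a n).eval z‖ ^ 2)) 0 1 ≤
      2 * lm (sp a n) + 2 * GG t η + c := by
    have hi2 : CircleIntegrable (fun z => 2 * Real.log (1 + η / ‖(cp a n).eval z‖)) 0 1 :=
      hi.const_mul 2
    have hi3 : CircleIntegrable (fun _ : ℂ => c) 0 1 := circleIntegrable_const c 0 1
    have h6 : Real.circleAverage (fun z => p.eval (‖(cp a n).eval z‖ ^ 2)) 0 1 ≤
        Real.circleAverage (fun z => (2 * Real.log ‖(cp a n).eval z‖ +
          2 * Real.log (1 + η / ‖(cp a n).eval z‖)) + c) 0 1 := by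
      apply avg_mono_off (cp a n) (A3_ne hk0 a ha n hn) (A3_int _ p)
        (((hint2 n).add hi2).add hi3)
      intro z hz hne
      have hpos : 0 < ‖(cp a n).eval z‖ := norm_pos_iff.2 hne
      have h3 := (hp (‖(cp a n).eval z‖ ^ 2) (by positivity) (hu n z hz)).2
      refine le_trans h3 ?_
      have h7 : Real.log (‖(cp a n).eval z‖ ^ 2 + η ^ 2) ≤
          2 * Real.log ‖(cp a n).eval z‖ + 2 * Real.log (1 + η / ‖(cp a n).eval z‖) := by
        have h8 : 2 * Real.log ‖(cp a n).eval z‖ +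
            2 * Real.log (1 + η / ‖(cp a n).eval z‖) =
            Real.log ((‖(cp a n).eval z‖ + η) ^ 2) := by
          rw [Real.log_pow, ← mul_add, ← Real.log_mul hpos.ne' (by positivity), mul_add,
            mul_one, mul_div_cancel₀ _ hpos.ne']
          push_cast
          ring
        rw [h8]
        apply Real.log_le_log (by positivity)
        nlinarith
      show Real.log (‖(cp a n).eval z‖ ^ 2 + η ^ 2) + c ≤
        (2 * Real.log ‖(cp a n).eval z‖ + 2 * Real.log (1 + η / ‖(cp a n).eval z‖)) + c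
      linarith
    have h12 := Real.circleAverage_fun_add (c := (0 : ℂ)) (R := (1 : ℝ))
      (f₁ := fun z : ℂ => 2 * Real.log ‖(cp a n).eval z‖ +
        2 * Real.log (1 + η / ‖(cp a n).eval z‖)) (f₂ := fun _ : ℂ => c)
      ((hint2 n).add hi2) hi3
    have h13 := Real.circleAverage_fun_add (c := (0 : ℂ)) (R := (1 : ℝ)) (hint2 n) hi2
    rw [h12, h13, h2avg n, Real.circleAverage_const] at h6
    have h10 : Real.circleAverage (fun z => 2 * Real.log (1 + η / ‖(cp a n).eval z‖)) 0 1 =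
        2 * Real.circleAverage (fun z => Real.log (1 + η / ‖(cp a n).eval z‖)) 0 1 := by
      have h2 := Real.circleAverage_fun_smul (a := (2 : ℝ)) (c := (0 : ℂ)) (R := (1 : ℝ))
        (f := fun z : ℂ => Real.log (1 + η / ‖(cp a n).eval z‖))
      simpa only [smul_eq_mul] using h2
    rw [h10] at h6
    linarith
  have h11 : c = 2 * (L ^ 2 / η ^ 2 * Real.exp (-(J * η ^ 2 / (2 * L ^ 2)))) := by
    rw [hc]
    ring
  rw [hE] at hup
  rw [h11] at hup
  linarith

end H91.LK
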