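import Pool.Agent.H91.LK.G1a
import Pool.Agent.H91.LK.A2
import Pool.Agent.H91.LK.A3
import Pool.Agent.H61.Sparse.Compare

/-!
# G1: comparison with the extreme parts

PROOF. `T`, `B` = the parts of `f = fp a n I` where `w i = W`, `w i = 0`. For `|x| = 1` let `F_x(Y) = ∑_{i ∈ I} a_i x^(n_i) Y^(w_i) ∈ ℂ[Y]`, of
degree `≤ W`, with coefficients `T(x)` at `Y^W` and `B(x)` at `Y^0`. If `T(x) ≠ 0` and `B(x) ≠ 0` then `log |T(x)|` and `log |B(x)|` are
`≤ logM(F_x)` (`Polynomial.leadingCoeff_le_mahlerMeasure`, `Polynomial.norm_coeff_le_choose_mul_mahlerMeasure` with index `0`), and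
`2 logM(F_x) = E_y log |F_x(y)|^2 ≤ E_y log (|F_x(y)|^2 + η^2) ≤ E_y p(|F_x(y)|^2)` with `p` from `log_taylor` (`|F_x(y)| ≤ L`). So, off the
finitely many zeros of `T B` on the circle (`T, B ≠ 0`: `n` injective, `a_i ≠ 0`; `Pool.Agent.H61.Sparse.avg_mono_off`),
`2 E_x max (..) ≤ E_x E_y p(|F|^2) = E_z p(|f(z)|^2)` (`moment_two`, linear combination) `≤ E_z log (|f|^2 + η^2) + tail`
`≤ 2 lm f + 2 GG t η + tail` as in A3 (`log_int`).
-/

set_option autoImplicit false

namespace H91.LK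

open Polynomial Pool.Agent.H61.Sparse

theorem G1_eval {k : ℕ} (a : Fin k → ℤ) (n : Fin k → ℕ) (I : Finset (Fin k)) (z : ℂ) :
    ((fp a n I).map (Int.castRingHom ℂ)).eval z = ∑ i ∈ I, (a i : ℂ) * z ^ n i := by
  unfold fp
  rw [Polynomial.map_sum, eval_finsetSum]
  refine Finset.sum_congr rfl fun i _ => ?_
  rw [map_monomial, eval_monomial]
  simp

theorem G1_aeval {k : ℕ} (a : Fin k → ℤ) (n : Fin k → ℕ) (I : Finset (Fin k)) (z : ℂ) :
    aeval z (fp a n I) = ∑ i ∈ I, (a i : ℂ) * z ^ n i := by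
  rw [← G1_eval]
  simp [aeval_def, eval_map, algebraMap_int_eq]

theorem G1_coeff {k : ℕ} (a : Fin k → ℤ) (n : Fin k → ℕ) (hn : Function.Injective n)
    (I : Finset (Fin k)) {i : Fin k} (hi : i ∈ I) : (fp a n I).coeff (n i) = a i := by
  unfold fp
  rw [finsetSum_coeff, Finset.sum_eq_single i]
  · simp
  · intro j _ hj
    rw [coeff_monomial, if_neg]
    exact fun h => hj (hn h)
  · intro h
    exact absurd hi h

theorem G1_ne {k : ℕ} (a : Fin k → ℤ) (ha : ∀ i, a i ≠ 0) (n : Fin k → ℕ)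
    (hn : Function.Injective n) (I : Finset (Fin k)) (hI : I.Nonempty) : fp a n I ≠ 0 := by
  obtain ⟨i, hi⟩ := hI
  intro h
  have h1 := G1_coeff a n hn I hi
  rw [h, coeff_zero] at h1
  exact ha i h1.symm

theorem G1_card {k : ℕ} (a : Fin k → ℤ) (n : Fin k → ℕ) (I : Finset (Fin k)) :
    ((fp a n I).map (Int.castRingHom ℂ)).support.card ≤ I.card := by
  have h1 : ((fp a n I).map (Int.castRingHom ℂ)).support ⊆ I.image n := by
    intro e he
    rw [mem_support_iff] at he
    by_contra hcon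
    apply he
    unfold fp
    rw [coeff_map, finsetSum_coeff, Finset.sum_eq_zero]
    · simp
    · intro j hj
      rw [coeff_monomial, if_neg]
      intro h
      exact hcon (Finset.mem_image.2 ⟨j, hj, h⟩)
  exact (Finset.card_le_card h1).trans Finset.card_image_le

theorem G1_norm {k : ℕ} (a : Fin k → ℤ) (I : Finset (Fin k)) (e : Fin k → ℂ)
    (he : ∀ i, ‖e i‖ = 1) : ‖∑ i ∈ I, (a i : ℂ) * e i‖ ≤ ∑ i, |(a i : ℝ)| := by
  refine (norm_sum_le _ _).trans ?_
  refine (Finset.sum_le_sum_of_subset_of_nonneg (Finset.subset_univ I)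
    fun i _ _ => norm_nonneg _).trans (Finset.sum_le_sum ?_)
  intro i _
  rw [norm_mul, he i, mul_one]
  simp

/-- the polynomial in the second variable -/
noncomputable def G1_F {k : ℕ} (a : Fin k → ℤ) (n w : Fin k → ℕ) (I : Finset (Fin k)) (x : ℂ) :
    ℂ[X] := ∑ i ∈ I, monomial (w i) ((a i : ℂ) * x ^ n i)

theorem G1_F_eval {k : ℕ} (a : Fin k → ℤ) (n w : Fin k → ℕ) (I : Finset (Fin k)) (x y : ℂ) :
    (G1_F a n w I x).eval y = ∑ i ∈ I, (a i : ℂ) * x ^ n i * y ^ w i := by
  unfold G1_F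
  rw [eval_finsetSum]
  refine Finset.sum_congr rfl fun i _ => ?_
  rw [eval_monomial]

theorem G1_F_coeff {k : ℕ} (a : Fin k → ℤ) (n w : Fin k → ℕ) (I : Finset (Fin k)) (x : ℂ)
    (v : ℕ) : (G1_F a n w I x).coeff v = aeval x (fp a n (I.filter fun i => w i = v)) := by
  unfold G1_F
  rw [finsetSum_coeff, G1_aeval, Finset.sum_filter]
  refine Finset.sum_congr rfl fun i _ => ?_
  rw [coeff_monomial]

theorem G1_F_deg {k : ℕ} (a : Fin k → ℤ) (n w : Fin k → ℕ) (I : Finset (Fin k)) (x : ℂ)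
    (W : ℕ) (hW : ∀ i ∈ I, w i ≤ W) : (G1_F a n w I x).natDegree ≤ W := by
  unfold G1_F
  refine natDegree_sum_le_of_forall_le _ _ ?_
  intro i hi
  exact (natDegree_monomial_le _).trans (hW i hi)

/-- Jensen in the second variable -/
theorem G1_jensen {k : ℕ} (a : Fin k → ℤ) (n w : Fin k → ℕ) (I : Finset (Fin k)) (x : ℂ)
    (W : ℕ) (hW : ∀ i ∈ I, w i ≤ W)
    (hT : aeval x (fp a n (I.filter fun i => w i = W)) ≠ 0)
    (hB : aeval x (fp a n (I.filter fun i => w i = 0)) ≠ 0) :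
    max (Real.log ‖aeval x (fp a n (I.filter fun i => w i = W))‖)
      (Real.log ‖aeval x (fp a n (I.filter fun i => w i = 0))‖) ≤
      (G1_F a n w I x).logMahlerMeasure := by
  rw [logMahlerMeasure_eq_log_MahlerMeasure]
  have hdeg : (G1_F a n w I x).natDegree = W := by
    apply le_antisymm (G1_F_deg a n w I x W hW)
    apply le_natDegree_of_ne_zero
    rw [G1_F_coeff]
    exact hT
  apply max_le
  · apply Real.log_le_log (norm_pos_iff.2 hT)
    rw [← G1_F_coeff, ← hdeg]
    exact leadingCoeff_le_mahlerMeasure _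
  · apply Real.log_le_log (norm_pos_iff.2 hB)
    rw [← G1_F_coeff]
    have := norm_coeff_le_choose_mul_mahlerMeasure 0 (G1_F a n w I x)
    simpa using this

theorem extreme {k J : ℕ} (t : ℕ) (ht : 0 < t) (a : Fin k → ℤ) (ha : ∀ i, a i ≠ 0)
    (n w : Fin k → ℕ) (hn : Function.Injective n) (I : Finset (Fin k)) (hI : I.card ≤ t + 1)
    (hw : ∀ c : Fin k → ℤ, (∀ i, i ∉ I → c i = 0) → ∑ i, c i = 0 → ∑ i, |c i| ≤ 2 * (J : ℤ) →
      ∑ i, c i * (n i : ℤ) = 0 → ∑ i, c i * (w i : ℤ) = 0)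
    (W : ℕ) (hW : ∀ i ∈ I, w i ≤ W) (hT : ∃ i ∈ I, w i = W) (hB : ∃ i ∈ I, w i = 0)
    (L η : ℝ) (hL1 : 1 ≤ L) (hL : ∑ i, |(a i : ℝ)| ≤ L) (hη : 0 < η) (hη1 : η ≤ 1) :
    Real.circleAverage (fun z : ℂ =>
      max (Real.log ‖aeval z (fp a n (I.filter fun i => w i = W))‖)
        (Real.log ‖aeval z (fp a n (I.filter fun i => w i = 0))‖)) 0 1 ≤
      lm (fp a n I) + Er t J L η := by
  obtain ⟨p, hpd, hp⟩ := log_taylor L η hL1 hη hη1 J
  set c : ℝ := 2 * L ^ 2 / η ^ 2 * Real.exp (-(J * η ^ 2 / (2 * L ^ 2))) with hc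
  set T : ℤ[X] := fp a n (I.filter fun i => w i = W) with hTdef
  set B : ℤ[X] := fp a n (I.filter fun i => w i = 0) with hBdef
  set f : ℂ[X] := (fp a n I).map (Int.castRingHom ℂ) with hf
  have hT0 : T ≠ 0 := by
    obtain ⟨i, hi, hi'⟩ := hT
    exact G1_ne a ha n hn _ ⟨i, Finset.mem_filter.2 ⟨hi, hi'⟩⟩
  have hB0 : B ≠ 0 := by
    obtain ⟨i, hi, hi'⟩ := hB
    exact G1_ne a ha n hn _ ⟨i, Finset.mem_filter.2 ⟨hi, hi'⟩⟩
  have hmap : ∀ Q : ℤ[X], Q ≠ 0 → Q.map (Int.castRingHom ℂ) ≠ 0 := fun Q hQ =>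
    (Polynomial.map_ne_zero_iff (RingHom.injective_int _)).2 hQ
  have hev : ∀ (Q : ℤ[X]) (z : ℂ), (Q.map (Int.castRingHom ℂ)).eval z = aeval z Q := by
    intro Q z
    simp [aeval_def, eval_map, algebraMap_int_eq]
  have hint : ∀ Q : ℤ[X], CircleIntegrable (fun z : ℂ => Real.log ‖aeval z Q‖) 0 1 := by
    intro Q
    have := circleIntegrable_log_eval (Q.map (Int.castRingHom ℂ))
    simpa only [hev] using this
  obtain ⟨i0, hi0, _⟩ := hT
  have hI0 : I.Nonempty := ⟨i0, hi0⟩
  have hf0 : f ≠ 0 := hmap _ (G1_ne a ha n hn I hI0)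
  -- the left hand side
  set M : ℂ → ℝ := fun z => max (Real.log ‖aeval z T‖) (Real.log ‖aeval z B‖) with hM
  have hMint : CircleIntegrable M 0 1 := by
    have h : M = fun z => (1 / 2 : ℝ) • ((Real.log ‖aeval z T‖ + Real.log ‖aeval z B‖) +
        |Real.log ‖aeval z T‖ - Real.log ‖aeval z B‖|) := by
      funext z
      rw [smul_eq_mul, hM]
      show max (Real.log ‖aeval z T‖) (Real.log ‖aeval z B‖) = _
      rcases le_total (Real.log ‖aeval z T‖) (Real.log ‖aeval z B‖) with h | h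
      · rw [max_eq_right h, abs_of_nonpos (by linarith)]; ring
      · rw [max_eq_left h, abs_of_nonneg (by linarith)]; ring
    rw [h]
    exact (((hint T).add (hint B)).add ((hint T).sub (hint B)).abs).const_smul
  -- the function `G`
  set G : ℂ → ℝ := fun x => Real.circleAverage
    (fun y : ℂ => p.eval (‖(G1_F a n w I x).eval y‖ ^ 2)) 0 1 with hG
  have hGsum : G = fun x => ∑ j ∈ Finset.range (J + 1), p.coeff j * Real.circleAverage
      (fun y : ℂ => (‖∑ i ∈ I, (a i : ℂ) * x ^ n i * y ^ w i‖ ^ 2) ^ j) 0 1 := by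
    funext x
    rw [hG]
    show Real.circleAverage (fun y : ℂ => p.eval (‖(G1_F a n w I x).eval y‖ ^ 2)) 0 1 = _
    rw [A3_poly _ p J hpd]
    simp only [G1_F_eval]
  have hmom := fun j (hj : j ∈ Finset.range (J + 1)) =>
    moment_two a n w I hw j (Nat.lt_succ_iff.1 (Finset.mem_range.1 hj))
  have hGi : ∀ j ∈ Finset.range (J + 1), CircleIntegrable
      (fun x : ℂ => p.coeff j * Real.circleAverage
        (fun y : ℂ => (‖∑ i ∈ I, (a i : ℂ) * x ^ n i * y ^ w i‖ ^ 2) ^ j) 0 1) 0 1 := by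
    intro j hj
    exact (hmom j hj).1.const_mul _
  have hGint : CircleIntegrable G 0 1 := by
    rw [hGsum]
    have := CircleIntegrable.sum (Finset.range (J + 1)) hGi
    convert this using 1
    funext x
    rw [Finset.sum_apply]
  have hGavg : Real.circleAverage G 0 1 =
      Real.circleAverage (fun z => p.eval (‖f.eval z‖ ^ 2)) 0 1 := by
    rw [A3_poly _ p J hpd, hGsum, Real.circleAverage_fun_sum hGi]
    refine Finset.sum_congr rfl fun j hj => ?_
    have h2 := Real.circleAverage_fun_smul (a := p.coeff j) (c := (0 : ℂ)) (R := (1 : ℝ))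
      (f := fun x : ℂ => Real.circleAverage
        (fun y : ℂ => (‖∑ i ∈ I, (a i : ℂ) * x ^ n i * y ^ w i‖ ^ 2) ^ j) 0 1)
    simp only [smul_eq_mul] at h2
    rw [h2, (hmom j hj).2]
    simp only [hf, G1_eval]
  -- step 1
  have hMint2 : CircleIntegrable (fun z => 2 * M z) 0 1 := hMint.const_mul 2
  have h1 : Real.circleAverage (fun z => 2 * M z) 0 1 ≤ Real.circleAverage G 0 1 := by
    apply avg_mono_off ((T * B).map (Int.castRingHom ℂ)) (hmap _ (mul_ne_zero hT0 hB0))
      hMint2 hGint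
    intro x hx hne
    rw [hev, map_mul, mul_ne_zero_iff] at hne
    have hj := G1_jensen a n w I x W hW hne.1 hne.2
    have hFne : G1_F a n w I x ≠ 0 := by
      intro h0
      apply hne.1
      rw [hTdef, ← G1_F_coeff, h0, coeff_zero]
    have h2 : 2 * (G1_F a n w I x).logMahlerMeasure ≤ G x := by
      have h3 : Real.circleAverage (fun y => 2 * Real.log ‖(G1_F a n w I x).eval y‖) 0 1 =
          2 * (G1_F a n w I x).logMahlerMeasure := by
        rw [logMahlerMeasure_def]
        have h2 := Real.circleAverage_fun_smul (a := (2 : ℝ)) (c := (0 : ℂ)) (R := (1 : ℝ))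
          (f := fun z : ℂ => Real.log ‖(G1_F a n w I x).eval z‖)
        simpa only [smul_eq_mul] using h2
      have h3i : CircleIntegrable (fun y => 2 * Real.log ‖(G1_F a n w I x).eval y‖) 0 1 :=
        (circleIntegrable_log_eval (G1_F a n w I x)).const_mul 2
      rw [← h3]
      apply avg_mono_off (G1_F a n w I x) hFne h3i (A3_int _ p)
      intro y hy hne'
      have hpos : 0 < ‖(G1_F a n w I x).eval y‖ := norm_pos_iff.2 hne'
      have hle : ‖(G1_F a n w I x).eval y‖ ≤ L := by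
        rw [G1_F_eval]
        simp only [mul_assoc]
        refine (G1_norm a I (fun i => x ^ n i * y ^ w i) ?_).trans hL
        intro i
        rw [norm_mul, norm_pow, norm_pow, hx, hy, one_pow, one_pow, one_mul]
      have h4 := (hp (‖(G1_F a n w I x).eval y‖ ^ 2) (by positivity)
        (pow_le_pow_left₀ (norm_nonneg _) hle 2)).1
      refine le_trans ?_ h4
      have h5 : 2 * Real.log ‖(G1_F a n w I x).eval y‖ =
          Real.log (‖(G1_F a n w I x).eval y‖ ^ 2) := by
        rw [Real.log_pow]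
        push_cast
        ring
      rw [h5]
      apply Real.log_le_log (by positivity)
      nlinarith [sq_nonneg η]
    show 2 * M x ≤ G x
    have h6 : M x ≤ (G1_F a n w I x).logMahlerMeasure := hj
    linarith
  have h1' : Real.circleAverage (fun z => 2 * M z) 0 1 = 2 * Real.circleAverage M 0 1 := by
    have h2 := Real.circleAverage_fun_smul (a := (2 : ℝ)) (c := (0 : ℂ)) (R := (1 : ℝ)) (f := M)
    simpa only [smul_eq_mul] using h2
  rw [h1', hGavg] at h1
  -- step 2, as in A3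
  have hcoef : 1 ≤ ‖f.coeff (n i0)‖ := by
    rw [hf, coeff_map, G1_coeff a n hn I hi0]
    have h5 : (1 : ℝ) ≤ |(a i0 : ℝ)| := by
      have h6 := Int.one_le_abs (ha i0)
      exact_mod_cast h6
    simpa using h5
  obtain ⟨hi, hle⟩ := log_int t ht f ((G1_card a n I).trans hI) (n i0) hcoef hη.le
  have hint2 : CircleIntegrable (fun z => 2 * Real.log ‖f.eval z‖) 0 1 :=
    (circleIntegrable_log_eval f).const_mul 2
  have h2avg : Real.circleAverage (fun z => 2 * Real.log ‖f.eval z‖) 0 1 =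
      2 * lm (fp a n I) := by
    have h2 := Real.circleAverage_fun_smul (a := (2 : ℝ)) (c := (0 : ℂ)) (R := (1 : ℝ))
      (f := fun z : ℂ => Real.log ‖f.eval z‖)
    simp only [smul_eq_mul] at h2
    rw [h2]
    rfl
  have hup : Real.circleAverage (fun z => p.eval (‖f.eval z‖ ^ 2)) 0 1 ≤
      2 * lm (fp a n I) + 2 * GG t η + c := by
    have hi2 : CircleIntegrable (fun z => 2 * Real.log (1 + η / ‖f.eval z‖)) 0 1 :=
      hi.const_mul 2
    have hi3 : CircleIntegrable (fun _ : ℂ => c) 0 1 := circleIntegrable_const c 0 1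
    have h6 : Real.circleAverage (fun z => p.eval (‖f.eval z‖ ^ 2)) 0 1 ≤
        Real.circleAverage (fun z => (2 * Real.log ‖f.eval z‖ +
          2 * Real.log (1 + η / ‖f.eval z‖)) + c) 0 1 := by
      apply avg_mono_off f hf0 (A3_int _ p) ((hint2.add hi2).add hi3)
      intro z hz hne
      have hpos : 0 < ‖f.eval z‖ := norm_pos_iff.2 hne
      have hle' : ‖f.eval z‖ ≤ L := by
        rw [hf, G1_eval]
        refine (G1_norm a I (fun i => z ^ n i) ?_).trans hL
        intro i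
        rw [norm_pow, hz, one_pow]
      have h3 := (hp (‖f.eval z‖ ^ 2) (by positivity)
        (pow_le_pow_left₀ (norm_nonneg _) hle' 2)).2
      refine le_trans h3 ?_
      have h7 : Real.log (‖f.eval z‖ ^ 2 + η ^ 2) ≤
          2 * Real.log ‖f.eval z‖ + 2 * Real.log (1 + η / ‖f.eval z‖) := by
        have h8 : 2 * Real.log ‖f.eval z‖ + 2 * Real.log (1 + η / ‖f.eval z‖) =
            Real.log ((‖f.eval z‖ + η) ^ 2) := by
          rw [Real.log_pow, ← mul_add, ← Real.log_mul hpos.ne' (by positivity), mul_add,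
            mul_one, mul_div_cancel₀ _ hpos.ne']
          push_cast
          ring
        rw [h8]
        apply Real.log_le_log (by positivity)
        nlinarith
      show Real.log (‖f.eval z‖ ^ 2 + η ^ 2) + c ≤
        (2 * Real.log ‖f.eval z‖ + 2 * Real.log (1 + η / ‖f.eval z‖)) + c
      linarith
    have h12 := Real.circleAverage_fun_add (c := (0 : ℂ)) (R := (1 : ℝ))
      (f₁ := fun z : ℂ => 2 * Real.log ‖f.eval z‖ +
        2 * Real.log (1 + η / ‖f.eval z‖)) (f₂ := fun _ : ℂ => c)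
      (hint2.add hi2) hi3
    have h13 := Real.circleAverage_fun_add (c := (0 : ℂ)) (R := (1 : ℝ)) hint2 hi2
    rw [h12, h13, h2avg, Real.circleAverage_const] at h6
    have h10 : Real.circleAverage (fun z => 2 * Real.log (1 + η / ‖f.eval z‖)) 0 1 =
        2 * Real.circleAverage (fun z => Real.log (1 + η / ‖f.eval z‖)) 0 1 := by
      have h2 := Real.circleAverage_fun_smul (a := (2 : ℝ)) (c := (0 : ℂ)) (R := (1 : ℝ))
        (f := fun z : ℂ => Real.log (1 + η / ‖f.eval z‖))
      simpa only [smul_eq_mul] using h2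
    rw [h10] at h6
    linarith
  have h11 : c = 2 * (L ^ 2 / η ^ 2 * Real.exp (-(J * η ^ 2 / (2 * L ^ 2)))) := by
    rw [hc]
    ring
  rw [h11] at hup
  unfold Er
  show Real.circleAverage M 0 1 ≤ _
  linarith

end H91.LK
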