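import Pool.Agent.H25.Arith.HH
import Pool.Agent.H25.Arith.Disc
import Pool.Agent.H25.Arith.Links

/-!
# B2: integrality

`K` Galois number field, `σ : K → ℂ`, `α` an algebraic integer, `orb α` its set of conjugates.
PROOF. Each of the products
`∏_{x, y} (x^p - y^q)`, `∏_{x ≠ y} (x^p - y^p)` over `x, y ∈ orb α` is fixed by the Galois group (`map_mem_orb`, the group
permutes `orb α`: `Finset.prod_bij`/`Finset.prod_equiv`), integral and not zero, so a nonzero rational integer
(`H25.Arith.Disc.exists_int`), of absolute value `≥ 1`; the norm of its image under `σ` is the product of the norms.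
For `q = 1`: let `f = minpoly ℤ α`, `f(Y) = ∏_{y ∈ orb α} (Y - y)` in `K[Y]` (`H25.Arith.links_prod`, file Links.lean), so
`∏_y (x^p - y) = f(x^p)`, and `f(X^p) = f(X)^p + p h(X)` with `h ∈ ℤ[X]` (compare `simple_congr_expand` in
Pool/Agent/H25/Arith/SimpleCongr.lean), so `f(x^p) = p h(x)`; `∏_x h(x)` is a nonzero rational integer as before.
-/

set_option autoImplicit false

namespace H91.LK

open H25.Arith H25.Arith.Disc

variable {K : Type} [Field K] [NumberField K] [IsGalois ℚ K]

/-- a nonzero algebraic integer fixed by the Galois group has absolute value at least one -/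
theorem log_norm_nonneg (σ : K →+* ℂ) (z : K) (hz : IsIntegral ℤ z) (h0 : z ≠ 0)
    (hf : ∀ g : K ≃ₐ[ℚ] K, g z = z) : 0 ≤ Real.log ‖σ z‖ := by
  obtain ⟨m, hm⟩ := exists_int z hz hf
  have hm0 : m ≠ 0 := by
    rintro rfl
    exact h0 (by rw [← hm, Int.cast_zero])
  have h1 : σ z = (m : ℂ) := by rw [← hm, map_intCast]
  rw [h1, Complex.norm_intCast]
  apply Real.log_nonneg
  exact_mod_cast Int.one_le_abs hm0

omit [IsGalois ℚ K] in
/-- the group permutes the conjugates -/
theorem prod_orb_map (g : K ≃ₐ[ℚ] K) (α : K) (F : K → K) :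
    ∏ x ∈ orb α, F (g x) = ∏ x ∈ orb α, F x := by
  refine Finset.prod_nbij (fun y => g y) ?_ ?_ ?_ ?_
  · intro y hy
    exact map_mem_orb hy g
  · intro y _ z _ h
    exact g.injective h
  · intro y hy
    refine ⟨g.symm y, map_mem_orb hy g.symm, ?_⟩
    simp
  · intro y _
    rfl

/-- sums of logarithms over pairs of conjugates -/
theorem log_pairs_nonneg (σ : K →+* ℂ) (α : K) (F : K → K → K)
    (hF : ∀ x ∈ orb α, ∀ y ∈ orb α, IsIntegral ℤ (F x y))
    (hg : ∀ (g : K ≃ₐ[ℚ] K) (x y : K), g (F x y) = F (g x) (g y))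
    (h0 : ∀ x ∈ orb α, ∀ y ∈ orb α, F x y ≠ 0) :
    0 ≤ ∑ x ∈ orb α, ∑ y ∈ orb α, Real.log ‖σ (F x y)‖ := by
  have h1 : ∑ x ∈ orb α, ∑ y ∈ orb α, Real.log ‖σ (F x y)‖ =
      Real.log ‖σ (∏ x ∈ orb α, ∏ y ∈ orb α, F x y)‖ := by
    rw [map_prod, norm_prod, Real.log_prod]
    · refine Finset.sum_congr rfl fun x hx => ?_
      rw [map_prod, norm_prod, Real.log_prod]
      intro y hy
      rw [norm_ne_zero_iff, map_ne_zero]
      exact h0 x hx y hy
    · intro x hx
      rw [norm_ne_zero_iff, map_ne_zero]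
      exact Finset.prod_ne_zero_iff.2 fun y hy => h0 x hx y hy
  rw [h1]
  apply log_norm_nonneg
  · exact IsIntegral.prod _ fun x hx => IsIntegral.prod _ fun y hy => hF x hx y hy
  · exact Finset.prod_ne_zero_iff.2 fun x hx => Finset.prod_ne_zero_iff.2 fun y hy => h0 x hx y hy
  · intro g
    rw [map_prod]
    simp_rw [map_prod, hg]
    rw [← prod_orb_map g α fun x => ∏ y ∈ orb α, F x y]
    refine Finset.prod_congr rfl fun x _ => ?_
    exact prod_orb_map g α fun y => F (g x) y

/-- different exponents -/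
theorem log_res_nonneg (σ : K →+* ℂ) (α : K) (hα : IsIntegral ℤ α) (p q : ℕ)
    (h : ∀ x ∈ orb α, ∀ y ∈ orb α, x ^ p ≠ y ^ q) :
    0 ≤ ∑ x ∈ orb α, ∑ y ∈ orb α, Real.log ‖σ x ^ p - σ y ^ q‖ := by
  have h1 := log_pairs_nonneg σ α (fun x y => x ^ p - y ^ q)
    (fun x hx y hy => ((orb_integral hα hx).pow p).sub ((orb_integral hα hy).pow q))
    (fun g x y => by simp) (fun x hx y hy => sub_ne_zero.2 (h x hx y hy))
  simpa using h1

open Classical in
/-- the discriminant -/
theorem log_disc_nonneg (σ : K →+* ℂ) (α : K) (hα : IsIntegral ℤ α) (p : ℕ)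
    (h : ∀ x ∈ orb α, ∀ y ∈ orb α, x ^ p = y ^ p → x = y) :
    0 ≤ ∑ x ∈ orb α, ∑ y ∈ (orb α).erase x, Real.log ‖σ x ^ p - σ y ^ p‖ := by
  have h1 := log_pairs_nonneg σ α (fun x y => if x = y then 1 else x ^ p - y ^ p)
    (fun x hx y hy => by
      split_ifs with hxy
      · exact isIntegral_one
      · exact ((orb_integral hα hx).pow p).sub ((orb_integral hα hy).pow p))
    (fun g x y => by
      by_cases hxy : x = y
      · subst hxy
        simp
      · have h2 : ¬ g x = g y := fun h3 => hxy (g.injective h3)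
        simp [hxy])
    (fun x hx y hy => by
      split_ifs with hxy
      · exact one_ne_zero
      · exact sub_ne_zero.2 fun h2 => hxy (h x hx y hy h2))
  refine h1.trans (le_of_eq ?_)
  refine Finset.sum_congr rfl fun x hx => ?_
  rw [← Finset.add_sum_erase _ _ hx]
  simp only [if_true, map_one, norm_one, Real.log_one, zero_add]
  refine Finset.sum_congr rfl fun y hy => ?_
  rw [if_neg (Finset.ne_of_mem_erase hy).symm, map_sub, map_pow, map_pow]

/-- `f (X ^ p) = f (X) ^ p + p h (X)` -/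
theorem exists_expand (f : Polynomial ℤ) (p : ℕ) (hp : p.Prime) :
    ∃ h : Polynomial ℤ, Polynomial.expand ℤ p f = f ^ p + Polynomial.C (p : ℤ) * h := by
  have : Fact p.Prime := ⟨hp⟩
  have h1 : (Polynomial.expand ℤ p f - f ^ p).map (Int.castRingHom (ZMod p)) = 0 := by
    rw [Polynomial.map_sub, Polynomial.map_expand, ZMod.expand_card, Polynomial.map_pow, sub_self]
  have h2 : Polynomial.C (p : ℤ) ∣ Polynomial.expand ℤ p f - f ^ p := by
    rw [Polynomial.C_dvd_iff_dvd_coeff]
    intro i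
    have h3 := congrArg (fun r => Polynomial.coeff r i) h1
    simp only [Polynomial.coeff_map, Polynomial.coeff_zero, eq_intCast] at h3
    exact (ZMod.intCast_zmod_eq_zero_iff_dvd _ _).1 h3
  obtain ⟨h, hh⟩ := h2
  exact ⟨h, by rw [← hh]; ring⟩

/-- Dobrowolski's congruence -/
theorem log_res_prime (σ : K →+* ℂ) (α : K) (hα : IsIntegral ℤ α) (p : ℕ) (hp : p.Prime)
    (h : ∀ x ∈ orb α, ∀ y ∈ orb α, x ^ p ≠ y) :
    (orb α).card * Real.log p ≤ ∑ x ∈ orb α, ∑ y ∈ orb α, Real.log ‖σ x ^ p - σ y‖ := by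
  obtain ⟨h₁, hh⟩ := exists_expand (minpoly ℤ α) p hp
  -- the minimal polynomial as a product
  have hprod : ∀ t : K, Polynomial.aeval t (minpoly ℤ α) = ∏ y ∈ orb α, (t - y) := by
    intro t
    have h2 := links_prod α
    rw [minpoly.isIntegrallyClosed_eq_field_fractions' ℚ hα] at h2
    have h3 := congrArg (Polynomial.eval t) h2
    rw [Polynomial.map_map, Polynomial.eval_map, Polynomial.eval_prod] at h3
    rw [Polynomial.aeval_def]
    rw [show algebraMap ℤ K = (algebraMap ℚ K).comp (algebraMap ℤ ℚ) from RingHom.ext_int _ _, h3]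
    refine Finset.prod_congr rfl fun y _ => ?_
    simp
  have hroot : ∀ x ∈ orb α, Polynomial.aeval x (minpoly ℤ α) = 0 := by
    intro x hx
    rw [hprod]
    exact Finset.prod_eq_zero hx (sub_self x)
  have hval : ∀ x ∈ orb α, ∏ y ∈ orb α, (x ^ p - y) = (p : K) * Polynomial.aeval x h₁ := by
    intro x hx
    rw [← hprod, ← Polynomial.expand_aeval, hh, map_add, map_pow, hroot x hx, zero_pow hp.ne_zero,
      zero_add, map_mul, Polynomial.aeval_C]
    simp
  have hne : ∀ x ∈ orb α, ∏ y ∈ orb α, (x ^ p - y) ≠ 0 := fun x hx =>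
    Finset.prod_ne_zero_iff.2 fun y hy => sub_ne_zero.2 (h x hx y hy)
  have hpK : (p : K) ≠ 0 := Nat.cast_ne_zero.2 hp.ne_zero
  have hne' : ∀ x ∈ orb α, Polynomial.aeval x h₁ ≠ 0 := by
    intro x hx h3
    apply hne x hx
    rw [hval x hx, h3, mul_zero]
  have h4 : ∀ x ∈ orb α, ∑ y ∈ orb α, Real.log ‖σ x ^ p - σ y‖ =
      Real.log p + Real.log ‖σ (Polynomial.aeval x h₁)‖ := by
    intro x hx
    have h5 : ∑ y ∈ orb α, Real.log ‖σ x ^ p - σ y‖ =
        Real.log ‖σ (∏ y ∈ orb α, (x ^ p - y))‖ := by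
      rw [map_prod, norm_prod, Real.log_prod]
      · refine Finset.sum_congr rfl fun y _ => ?_
        rw [map_sub, map_pow]
      · intro y hy
        rw [norm_ne_zero_iff, map_ne_zero]
        exact sub_ne_zero.2 (h x hx y hy)
    rw [h5, hval x hx, map_mul, norm_mul, map_natCast, Complex.norm_natCast, Real.log_mul]
    · exact Nat.cast_ne_zero.2 hp.ne_zero
    · rw [norm_ne_zero_iff, map_ne_zero]
      exact hne' x hx
  rw [Finset.sum_congr rfl h4, Finset.sum_add_distrib, Finset.sum_const, nsmul_eq_mul]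
  have h6 : ∑ x ∈ orb α, Real.log ‖σ (Polynomial.aeval x h₁)‖ =
      Real.log ‖σ (∏ x ∈ orb α, Polynomial.aeval x h₁)‖ := by
    rw [map_prod, norm_prod, Real.log_prod]
    intro x hx
    rw [norm_ne_zero_iff, map_ne_zero]
    exact hne' x hx
  have h7 : 0 ≤ Real.log ‖σ (∏ x ∈ orb α, Polynomial.aeval x h₁)‖ := by
    apply log_norm_nonneg
    · refine IsIntegral.prod _ fun x hx => ?_
      have hx' := orb_integral hα hx
      rw [Polynomial.aeval_eq_sum_range]
      exact IsIntegral.sum _ fun i _ => (hx'.pow i).smul _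
    · exact Finset.prod_ne_zero_iff.2 hne'
    · intro g
      rw [map_prod]
      rw [← prod_orb_map g α fun x => Polynomial.aeval x h₁]
      refine Finset.prod_congr rfl fun x _ => ?_
      exact (Polynomial.aeval_algHom_apply (g.toAlgHom.restrictScalars ℤ) x h₁).symm
  rw [h6]
  linarith

end H91.LK
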