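import Pool.Agent.H91.LK.B1
import Pool.Agent.H91.LK.B2

/-!
# B4: the inequality of Dobrowolski, raw form

PROOF. Index set `ι = orb α × (Fin T ⊕ Q)`, centres `σ x` (`T` times each) and `σ x ^ p`, `p ∈ 𝒫` (once each); `N = n (T + s)`,
`n = #(orb α)`, `s = #𝒫`. All the centres are distinct apart from the `T` copies (`hinj`, `hne`; `σ` is injective). `energy` with
`ε = 1/N`: the left side is the sum over ordered pairs:
* pairs of copies of the same `σ x`: `n T (T-1) log ε ≥ - n T² log N`;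
* `(σ x, i)`, `(σ y, j)` with `x ≠ y`: `T²` times `log_disc_nonneg` with `p = 1`, `≥ 0`;
* `(σ x, i)` and `σ y ^ p`, both orders: `≥ 2 T ∑_{p ∈ 𝒫} n log p` (`log_res_prime`);
* `σ x ^ p`, `σ y ^ p`, `x ≠ y`: `≥ 0` (`log_disc_nonneg`); `σ x ^ p`, `σ y ^ q`, `p ≠ q`: `≥ 0` (`log_res_nonneg`).
The right side is `2 N log N + 2 N (T S + ∑_p p S + N ε)`, `S = ∑_{x ∈ orb α} log⁺ ‖σ x‖`. Divide by `n`.
-/

set_option autoImplicit false

namespace H91.LK

open H25.Arith

variable {K : Type} [Field K] [NumberField K] [IsGalois ℚ K]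

theorem sum_erase_ite {ι : Type*} [Fintype ι] [DecidableEq ι] (g : ι → ι → ℝ) :
    ∑ a, ∑ b ∈ Finset.univ.erase a, g a b = ∑ a, ∑ b, if a = b then 0 else g a b := by
  refine Finset.sum_congr rfl fun a _ => ?_
  rw [← Finset.add_sum_erase Finset.univ _ (Finset.mem_univ a), if_pos rfl, zero_add]
  exact Finset.sum_congr rfl fun b hb => by rw [if_neg (Finset.ne_of_mem_erase hb).symm]

/-- the four-fold sum -/
theorem sum_prod_swap {O J : Type*} [Fintype O] [Fintype J] (g : O × J → O × J → ℝ) :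
    ∑ a, ∑ b, g a b = ∑ i, ∑ j, ∑ x, ∑ y, g (x, i) (y, j) := by
  rw [Fintype.sum_prod_type_right]
  refine Finset.sum_congr rfl fun i _ => ?_
  rw [Finset.sum_comm]
  rw [Fintype.sum_prod_type_right]
  refine Finset.sum_congr rfl fun j _ => ?_
  rw [Finset.sum_comm]

theorem posLog_pow' (z : ℂ) (m : ℕ) : Real.posLog ‖z ^ m‖ = m * Real.posLog ‖z‖ := by
  rw [norm_pow]
  show max 0 (Real.log (‖z‖ ^ m)) = m * max 0 (Real.log ‖z‖)
  rw [Real.log_pow, mul_max_of_nonneg _ _ (Nat.cast_nonneg m), mul_zero]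

open Classical in
theorem pair_same (σ : K →+* ℂ) (α : K) (hα : IsIntegral ℤ α)
    (hinj : ∀ m : ℕ, 0 < m → ∀ x ∈ orb α, ∀ y ∈ orb α, x ^ m = y ^ m → x = y)
    (m : ℕ) (hm : 0 < m) (ε : ℝ) :
    0 ≤ ∑ x : {x // x ∈ orb α}, ∑ y : {x // x ∈ orb α},
      if x = y then 0 else ell ε (σ x ^ m) (σ y ^ m) := by
  have h := log_disc_nonneg σ α hα m (hinj m hm)
  refine h.trans (le_of_eq ?_)
  refine (Finset.sum_coe_sort (orb α) _).symm.trans ?_
  refine Finset.sum_congr rfl fun x _ => ?_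
  have h2 : ∑ y : {x // x ∈ orb α}, (if x = y then 0 else ell ε (σ x ^ m) (σ y ^ m)) =
      ∑ y ∈ orb α, (if (x : K) = y then 0 else ell ε (σ x ^ m) (σ y ^ m)) := by
    refine Eq.trans ?_ (Finset.sum_coe_sort (orb α) _)
    refine Finset.sum_congr rfl fun y _ => ?_
    by_cases hxy : x = y
    · rw [if_pos hxy, if_pos (by rw [hxy])]
    · rw [if_neg hxy, if_neg (fun h => hxy (Subtype.ext h))]
  rw [h2, ← Finset.add_sum_erase _ _ x.2, if_pos rfl, zero_add]
  refine Finset.sum_congr rfl fun y hy => ?_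
  have hne : (x : K) ≠ y := (Finset.ne_of_mem_erase hy).symm
  rw [if_neg hne, ell, if_neg]
  intro h3
  rw [← map_pow, ← map_pow] at h3
  exact hne (hinj m hm x x.2 y (Finset.mem_of_mem_erase hy) (σ.injective h3))

theorem pair_diff (σ : K →+* ℂ) (α : K)
    (hne : ∀ p q : ℕ, 0 < p → 0 < q → p ≠ q → ∀ x ∈ orb α, ∀ y ∈ orb α, x ^ p ≠ y ^ q)
    (p q : ℕ) (hp : 0 < p) (hq : 0 < q) (hpq : p ≠ q) (ε : ℝ) :
    ∑ x : {x // x ∈ orb α}, ∑ y : {x // x ∈ orb α}, ell ε (σ x ^ p) (σ y ^ q) =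
      ∑ x ∈ orb α, ∑ y ∈ orb α, Real.log ‖σ x ^ p - σ y ^ q‖ := by
  refine Eq.trans ?_ (Finset.sum_coe_sort (orb α) _)
  refine Finset.sum_congr rfl fun x _ => ?_
  refine Eq.trans ?_ (Finset.sum_coe_sort (orb α) _)
  refine Finset.sum_congr rfl fun y _ => ?_
  rw [ell, if_neg]
  intro h3
  rw [← map_pow, ← map_pow] at h3
  exact hne p q hp hq hpq x x.2 y y.2 (σ.injective h3)

theorem dob_raw (σ : K →+* ℂ) (α : K) (hα : IsIntegral ℤ α) (hn : 1 ≤ (orb α).card)
    (hinj : ∀ m : ℕ, 0 < m → ∀ x ∈ orb α, ∀ y ∈ orb α, x ^ m = y ^ m → x = y)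
    (hne : ∀ p q : ℕ, 0 < p → 0 < q → p ≠ q → ∀ x ∈ orb α, ∀ y ∈ orb α, x ^ p ≠ y ^ q)
    (T : ℕ) (hT : 1 ≤ T) (Q : Finset ℕ) (hQ : ∀ p ∈ Q, p.Prime) :
    2 * T * ∑ p ∈ Q, Real.log p ≤
      ((T : ℝ) ^ 2 + 2 * (T + Q.card)) * Real.log ((orb α).card * (T + Q.card)) +
      2 * (T + Q.card) * ((T + ∑ p ∈ Q, (p : ℝ)) * ∑ x ∈ orb α, Real.posLog ‖σ x‖ + 1) := by
  classical
  set n : ℕ := (orb α).card with hndef
  set s : ℕ := Q.card with hsdef
  have hn' : (1 : ℝ) ≤ n := by exact_mod_cast hn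
  have hT' : (1 : ℝ) ≤ T := by exact_mod_cast hT
  have hs' : (0 : ℝ) ≤ s := Nat.cast_nonneg s
  set N : ℝ := n * (T + s) with hNdef
  have hN1 : 1 ≤ N := by rw [hNdef]; nlinarith
  have hN0 : 0 < N := by linarith
  have hlogN : 0 ≤ Real.log N := Real.log_nonneg hN1
  set ε : ℝ := 1 / N with hεdef
  have hε : 0 < ε := by positivity
  have hε1 : ε ≤ 1 := by rw [hεdef, div_le_one hN0]; exact hN1
  have hlogε : Real.log ε = - Real.log N := by rw [hεdef, one_div, Real.log_inv]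
  -- the exponents
  let e : Fin T ⊕ {p // p ∈ Q} → ℕ := Sum.elim (fun _ => 1) (fun p => (p : ℕ))
  have he : ∀ i, 0 < e i := by
    rintro (i | p)
    · exact one_pos
    · exact (hQ p p.2).pos
  let c : {x // x ∈ orb α} × (Fin T ⊕ {p // p ∈ Q}) → ℂ := fun z => σ z.1 ^ e z.2
  have hen := energy c ε hε hε1
  have hcard : (Fintype.card ({x // x ∈ orb α} × (Fin T ⊕ {p // p ∈ Q})) : ℝ) = N := by
    rw [Fintype.card_prod, Fintype.card_sum, Fintype.card_fin, Fintype.card_coe, Fintype.card_coe]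
    push_cast
    rw [hNdef]
  rw [hcard] at hen
  -- the right side
  have hright : ∑ z, (Real.posLog ‖c z‖ + ε) =
      (T + ∑ p ∈ Q, (p : ℝ)) * ∑ x ∈ orb α, Real.posLog ‖σ x‖ + 1 := by
    rw [Finset.sum_add_distrib, Finset.sum_const, Finset.card_univ, nsmul_eq_mul, hcard,
      Fintype.sum_prod_type_right]
    have h1 : ∀ i : Fin T ⊕ {p // p ∈ Q}, ∑ x : {x // x ∈ orb α}, Real.posLog ‖c (x, i)‖ =
        (e i : ℝ) * ∑ x ∈ orb α, Real.posLog ‖σ x‖ := by
      intro i
      rw [Finset.mul_sum]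
      refine Eq.trans ?_ (Finset.sum_coe_sort (orb α) _)
      exact Finset.sum_congr rfl fun x _ => posLog_pow' _ _
    rw [Finset.sum_congr rfl fun i _ => h1 i, ← Finset.sum_mul, Fintype.sum_sum_type]
    have h2 : ∑ i : Fin T, (e (Sum.inl i) : ℝ) = T := by
      simp [e]
    have h3 : ∑ p : {p // p ∈ Q}, (e (Sum.inr p) : ℝ) = ∑ p ∈ Q, (p : ℝ) :=
      Finset.sum_coe_sort Q (fun p : ℕ => (p : ℝ))
    rw [h2, h3, hεdef, mul_one_div_cancel hN0.ne']
  rw [hright] at hen
  -- the left side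
  have hleft : ∑ i, ∑ j ∈ Finset.univ.erase i, Real.log (if c i = c j then ε else ‖c i - c j‖) =
      ∑ i, ∑ j, ∑ x : {x // x ∈ orb α}, ∑ y : {x // x ∈ orb α},
        if (x, i) = (y, j) then 0 else ell ε (c (x, i)) (c (y, j)) := by
    rw [← sum_prod_swap (fun a b => if a = b then 0 else ell ε (c a) (c b)),
      ← sum_erase_ite (fun a b => ell ε (c a) (c b))]
    rfl
  rw [hleft] at hen
  -- lower bounds
  let L : Fin T ⊕ {p // p ∈ Q} → Fin T ⊕ {p // p ∈ Q} → ℝ := fun i j =>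
    match i, j with
    | Sum.inl _, Sum.inl _ => n * Real.log ε
    | Sum.inl _, Sum.inr p => n * Real.log (p : ℕ)
    | Sum.inr p, Sum.inl _ => n * Real.log (p : ℕ)
    | Sum.inr _, Sum.inr _ => 0
  have hself : ∀ i, 0 ≤ ∑ x : {x // x ∈ orb α}, ∑ y : {x // x ∈ orb α},
      if (x, i) = (y, i) then 0 else ell ε (c (x, i)) (c (y, i)) := by
    intro i
    have h1 := pair_same σ α hα hinj (e i) (he i) ε
    refine h1.trans (le_of_eq ?_)
    refine Finset.sum_congr rfl fun x _ => Finset.sum_congr rfl fun y _ => ?_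
    by_cases hxy : x = y
    · rw [if_pos hxy, if_pos (by rw [hxy])]
    · rw [if_neg hxy, if_neg (fun h => hxy (Prod.ext_iff.mp h).1)]
  have hoff : ∀ i j, i ≠ j → ∑ x : {x // x ∈ orb α}, ∑ y : {x // x ∈ orb α},
      (if (x, i) = (y, j) then 0 else ell ε (c (x, i)) (c (y, j))) =
      ∑ x : {x // x ∈ orb α}, ∑ y : {x // x ∈ orb α}, ell ε (σ x ^ e i) (σ y ^ e j) := by
    intro i j hij
    refine Finset.sum_congr rfl fun x _ => Finset.sum_congr rfl fun y _ => ?_
    rw [if_neg (fun h => hij (Prod.ext_iff.mp h).2)]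
  have hlow : ∀ i j, L i j ≤ ∑ x : {x // x ∈ orb α}, ∑ y : {x // x ∈ orb α},
      if (x, i) = (y, j) then 0 else ell ε (c (x, i)) (c (y, j)) := by
    intro i j
    by_cases hij : i = j
    · subst hij
      refine le_trans ?_ (hself i)
      rcases i with i | p
      · show (n : ℝ) * Real.log ε ≤ 0
        rw [hlogε]
        nlinarith
      · exact le_rfl
    · rw [hoff i j hij]
      rcases i with i | p <;> rcases j with j | q
      · -- two copies
        show (n : ℝ) * Real.log ε ≤ ∑ x : {x // x ∈ orb α}, ∑ y : {x // x ∈ orb α},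
          ell ε (σ x ^ 1) (σ y ^ 1)
        have h1 := pair_same σ α hα hinj 1 one_pos ε
        have h2 : ∑ x : {x // x ∈ orb α}, ∑ y : {x // x ∈ orb α}, ell ε (σ x ^ 1) (σ y ^ 1) =
            n * Real.log ε + ∑ x : {x // x ∈ orb α}, ∑ y : {x // x ∈ orb α},
              if x = y then 0 else ell ε (σ x ^ 1) (σ y ^ 1) := by
          have h3 : ∀ x : {x // x ∈ orb α}, ∑ y : {x // x ∈ orb α}, ell ε (σ x ^ 1) (σ y ^ 1) =
              Real.log ε + ∑ y : {x // x ∈ orb α},
                if x = y then 0 else ell ε (σ x ^ 1) (σ y ^ 1) := by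
            intro x
            rw [← Finset.add_sum_erase Finset.univ
              (fun y : {x // x ∈ orb α} => ell ε (σ x ^ 1) (σ y ^ 1)) (Finset.mem_univ x),
              ← Finset.add_sum_erase Finset.univ
                (fun y : {x // x ∈ orb α} => if x = y then 0 else ell ε (σ x ^ 1) (σ y ^ 1))
                (Finset.mem_univ x)]
            have h4 : ell ε (σ x ^ 1) (σ x ^ 1) = Real.log ε := by rw [ell, if_pos rfl]
            simp only [if_true, zero_add]
            rw [h4]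
            congr 1
            exact Finset.sum_congr rfl fun y hy => by
              rw [if_neg (Finset.ne_of_mem_erase hy).symm]
          rw [Finset.sum_congr rfl fun x _ => h3 x, Finset.sum_add_distrib, Finset.sum_const,
            Finset.card_univ, nsmul_eq_mul, Fintype.card_coe]
        rw [h2]
        linarith
      · -- first order against the prime
        show (n : ℝ) * Real.log (q : ℕ) ≤ ∑ x : {x // x ∈ orb α}, ∑ y : {x // x ∈ orb α},
          ell ε (σ x ^ 1) (σ y ^ (q : ℕ))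
        have hq := hQ q q.2
        rw [pair_diff σ α hne 1 q one_pos hq.pos hq.one_lt.ne ε, Finset.sum_comm]
        have h1 := log_res_prime σ α hα q hq (fun x hx y hy => by
          have := hne q 1 hq.pos one_pos hq.one_lt.ne' x hx y hy
          rwa [pow_one] at this)
        refine h1.trans (le_of_eq ?_)
        refine Finset.sum_congr rfl fun x _ => Finset.sum_congr rfl fun y _ => ?_
        rw [pow_one, norm_sub_rev]
      · show (n : ℝ) * Real.log (p : ℕ) ≤ ∑ x : {x // x ∈ orb α}, ∑ y : {x // x ∈ orb α},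
          ell ε (σ x ^ (p : ℕ)) (σ y ^ 1)
        have hp := hQ p p.2
        rw [pair_diff σ α hne p 1 hp.pos one_pos hp.one_lt.ne' ε]
        have h1 := log_res_prime σ α hα p hp (fun x hx y hy => by
          have := hne p 1 hp.pos one_pos hp.one_lt.ne' x hx y hy
          rwa [pow_one] at this)
        refine h1.trans (le_of_eq ?_)
        refine Finset.sum_congr rfl fun x _ => Finset.sum_congr rfl fun y _ => ?_
        rw [pow_one]
      · show (0 : ℝ) ≤ ∑ x : {x // x ∈ orb α}, ∑ y : {x // x ∈ orb α},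
          ell ε (σ x ^ (p : ℕ)) (σ y ^ (q : ℕ))
        have hp := hQ p p.2
        have hq := hQ q q.2
        have hpq : (p : ℕ) ≠ q := fun h => hij (by rw [Subtype.ext h])
        rw [pair_diff σ α hne p q hp.pos hq.pos hpq ε]
        exact log_res_nonneg σ α hα p q (hne p q hp.pos hq.pos hpq)
  have hsum : ∑ i, ∑ j, L i j ≤ ∑ i, ∑ j, ∑ x : {x // x ∈ orb α}, ∑ y : {x // x ∈ orb α},
      (if (x, i) = (y, j) then 0 else ell ε (c (x, i)) (c (y, j))) :=
    Finset.sum_le_sum fun i _ => Finset.sum_le_sum fun j _ => hlow i j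
  have hLsum : ∑ i, ∑ j, L i j = (T : ℝ) ^ 2 * (n * Real.log ε) +
      2 * T * (n * ∑ p ∈ Q, Real.log p) := by
    have hlogsum : ∑ p : {p // p ∈ Q}, (n : ℝ) * Real.log (p : ℕ) = n * ∑ p ∈ Q, Real.log p := by
      rw [Finset.mul_sum]
      exact Finset.sum_coe_sort Q (fun p : ℕ => (n : ℝ) * Real.log p)
    simp only [Fintype.sum_sum_type, L]
    simp only [Finset.sum_const, Finset.card_univ, Fintype.card_fin, nsmul_eq_mul,
      Finset.sum_add_distrib, mul_zero, add_zero]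
    rw [hlogsum, ← Finset.mul_sum, hlogsum]
    ring
  have hfin := (hLsum ▸ hsum).trans hen
  rw [hlogε] at hfin
  -- divide by n
  have hn0 : (0 : ℝ) < n := by linarith
  refine le_of_mul_le_mul_left ?_ hn0
  set S : ℝ := ∑ x ∈ orb α, Real.posLog ‖σ x‖
  set R : ℝ := (T + ∑ p ∈ Q, (p : ℝ)) * S + 1
  have h5 : (n : ℝ) * (((T : ℝ) ^ 2 + 2 * (T + s)) * Real.log N + 2 * (T + s) * R) =
      (n : ℝ) * (T : ℝ) ^ 2 * Real.log N + 2 * N * Real.log N + 2 * N * R := by
    rw [hNdef]; ring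
  rw [h5]
  nlinarith

end H91.LK
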