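import Pool.Agent.H91.LK.G1a

/-!
# A1: moments

If `n`, `m` have the same relations of size `≤ 2 J` then the mean values over the unit circle of
`|f_n|^(2j)` and `|f_m|^(2j)` agree for `j ≤ J`.

PROOF. On `|z| = 1`: `|f_n(z)|^2 = ∑_{i, i'} a_i a_{i'} z^(n_i) (conj z)^(n_{i'})` (as a complex number), so
`|f_n(z)|^(2j) = ∑_{w : Fin j → Fin k × Fin k} ∏_l (a_{w l 1} a_{w l 2}) z^(∑ n_{w l 1}) (conj z)^(∑ n_{w l 2})`
(`Finset.sum_pow'`/`Fintype.sum_pow`, `Finset.prod_univ_sum`), and the mean of `z^A (conj z)^B` is `1` if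
`A = B` and `0` otherwise. With `c i = #{l | w l 1 = i} - #{l | w l 2 = i}`: `∑ c = 0`, `∑ |c| ≤ 2 j ≤ 2 J`,
`A = B` iff `∑ c_i n_i = 0`.
-/

set_option autoImplicit false

namespace H91.LK

open Polynomial
open scoped ComplexConjugate

/-- evaluation of a sparse polynomial -/
theorem A1_eval {k : ℕ} (a : Fin k → ℤ) (n : Fin k → ℕ) (z : ℂ) :
    (cp a n).eval z = ∑ i, (a i : ℂ) * z ^ n i := by
  simp only [cp, sp, Polynomial.map_sum, Polynomial.map_monomial, eval_finsetSum, eval_monomial,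
    eq_intCast]

/-- the moments in terms of pairs of index words -/
theorem A1_formula {k : ℕ} (a : Fin k → ℤ) (n : Fin k → ℕ) (j : ℕ) :
    ((Real.circleAverage (fun z => (‖(cp a n).eval z‖ ^ 2) ^ j) 0 1 : ℝ) : ℂ) =
      ∑ u ∈ Fintype.piFinset (fun _ : Fin j => (Finset.univ : Finset (Fin k)) ×ˢ Finset.univ),
        (∏ l, ((a (u l).1 : ℂ) * (a (u l).2 : ℂ))) *
          (if ∑ l, n (u l).1 = ∑ l, n (u l).2 then 1 else 0) := by
  have hexp : ∀ z : ℂ, (((‖(cp a n).eval z‖ ^ 2) ^ j : ℝ) : ℂ) =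
      ∑ u ∈ Fintype.piFinset (fun _ : Fin j => (Finset.univ : Finset (Fin k)) ×ˢ Finset.univ),
        (∏ l, ((a (u l).1 : ℂ) * (a (u l).2 : ℂ))) *
          (z ^ (∑ l, n (u l).1) * (conj z) ^ (∑ l, n (u l).2)) := by
    intro z
    rw [A1_eval, G1a_expand]
    refine Finset.sum_congr rfl fun u _ => ?_
    simp only [← Finset.prod_pow_eq_pow_sum, ← Finset.prod_mul_distrib]
    refine Finset.prod_congr rfl fun l _ => ?_
    simp only [map_mul, map_pow, map_intCast]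
    ring
  rw [← G1a_ofReal]
  simp only [hexp]
  rw [G1a_sum]

theorem moment {k J : ℕ} (a : Fin k → ℤ) (n m : Fin k → ℕ) (h : SameRel J n m) (j : ℕ)
    (hj : j ≤ J) :
    Real.circleAverage (fun z => (‖(cp a n).eval z‖ ^ 2) ^ j) 0 1 =
      Real.circleAverage (fun z => (‖(cp a m).eval z‖ ^ 2) ^ j) 0 1 := by
  have key : ((Real.circleAverage (fun z => (‖(cp a n).eval z‖ ^ 2) ^ j) 0 1 : ℝ) : ℂ) =
      ((Real.circleAverage (fun z => (‖(cp a m).eval z‖ ^ 2) ^ j) 0 1 : ℝ) : ℂ) := by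
    rw [A1_formula, A1_formula]
    refine Finset.sum_congr rfl fun u hu => ?_
    congr 1
    have h1 : (∑ l, n (u l).1 = ∑ l, n (u l).2) ↔ (∑ l, m (u l).1 = ∑ l, m (u l).2) :=
      ⟨G1a_rel n m Finset.univ (fun c _ hc hJ hn => (h c hc hJ).1 hn) j hj u hu,
        G1a_rel m n Finset.univ (fun c _ hc hJ hn => (h c hc hJ).2 hn) j hj u hu⟩
    by_cases hA : ∑ l, n (u l).1 = ∑ l, n (u l).2
    · rw [if_pos hA, if_pos (h1.1 hA)]
    · rw [if_neg hA, if_neg (fun h2 => hA (h1.2 h2))]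
  exact_mod_cast key

end H91.LK
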