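import Pool.Agent.H25.Arith.DiscBound
import Pool.Agent.H7.Dob.Circle

/-!
# B1: energy inequality

PROOF. (1) One point: for a finite family of points `a_j ∈ ℂ`, `z ∈ ℂ`, `ε > 0` there is `w` with `|w - z| = ε` and
`∏_j |w - a_j| ≥ ∏_j max ε |z - a_j|`: the polynomial `P(Y) = ∏_j (z + ε Y - a_j)` has Mahler measure
`∏_j max ε |z - a_j|` (`Polynomial.mahlerMeasure_mul`, `mahlerMeasure_C_mul_X_add_C`), and if `|P| < μ` on the whole unit
circle (compact) then its Mahler measure is `< μ`, or `≤ sup < μ`.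
(2) Enumerate the index set: `ι ≃ Fin N`. Replace the centres `c_i` one after the other by points `w_i`,
`|w_i - c_i| = ε`, chosen by (1) against the points `w_j` (`j < i`) and `c_j` (`j > i`). The product
`∏_{i<j<s} |w_i - w_j| · ∏_{i<s≤j} |w_i - c_j| · ∏_{s≤i<j} g(c_i, c_j)`, `g(c, c') = ε` if `c = c'` and `|c - c'|` otherwise, does not
decrease when `s` increases: `max ε |c - c'| ≥ g(c, c')` (also if `c = c'`).
(3) For `s = N`: `∏_{i<j} g(c_i, c_j) ≤ ∏_{i<j} |w_i - w_j| = ‖det vandermonde w‖ ≤ N! ∏_i max(1, |w_i|)^N`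
(`H25.Arith.norm_det_vandermonde_le`), `N! ≤ N^N`, `log max(1, |w_i|) ≤ log⁺ |c_i| + ε`
(`max 1 (x + ε) ≤ (1 + ε) max 1 x`). Take logarithms and double (ordered pairs).
-/

set_option autoImplicit false

namespace H91.LK

open Finset

/-- the pair weight -/
noncomputable def ell (ε : ℝ) (x y : ℂ) : ℝ := Real.log (if x = y then ε else ‖x - y‖)

theorem ell_comm (ε : ℝ) (x y : ℂ) : ell ε x y = ell ε y x := by
  unfold ell
  by_cases h : x = y
  · subst h; rfl
  · rw [if_neg h, if_neg (fun h' => h h'.symm), norm_sub_rev]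

theorem gg_pos {ε : ℝ} (hε : 0 < ε) (x y : ℂ) : 0 < (if x = y then ε else ‖x - y‖) := by
  split_ifs with h
  · exact hε
  · exact norm_pos_iff.mpr (sub_ne_zero.mpr h)

theorem split_sum {ι : Type*} [Fintype ι] [DecidableEq ι] (f : ι → ι → ℝ)
    (hf : ∀ i j, f i j = f j i) (t : ι) :
    ∑ i, ∑ j ∈ univ.erase i, f i j =
      2 * ∑ j ∈ univ.erase t, f t j + ∑ i ∈ univ.erase t, ∑ j ∈ (univ.erase i).erase t, f i j := by
  rw [← Finset.add_sum_erase univ _ (mem_univ t)]
  have h : ∀ i ∈ univ.erase t, ∑ j ∈ univ.erase i, f i j =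
      f t i + ∑ j ∈ (univ.erase i).erase t, f i j := by
    intro i hi
    rw [← Finset.add_sum_erase (univ.erase i) _ (mem_erase.mpr ⟨(ne_of_mem_erase hi).symm, mem_univ t⟩),
      hf i t]
  rw [Finset.sum_congr rfl h, Finset.sum_add_distrib]
  ring

theorem move_step {ι : Type*} [Fintype ι] [DecidableEq ι] (x : ι → ℂ) {ε : ℝ} (hε : 0 < ε) (t : ι) :
    ∃ w : ℂ, ‖w - x t‖ = ε ∧ (∀ s, s ≠ t → w ≠ x s) ∧
      ∑ i, ∑ j ∈ univ.erase i, ell ε (x i) (x j) ≤
      ∑ i, ∑ j ∈ univ.erase i, ell ε (Function.update x t w i) (Function.update x t w j) := by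
  obtain ⟨ξ, h1, h2⟩ := H7.Dob.exists_circle (univ.erase t) (fun s => x t - x s) hε
  set w : ℂ := x t + ε * ξ with hw
  have hw' : ∀ s, x t - x s + ε * ξ = w - x s := fun s => by rw [hw]; ring
  simp only [hw'] at h2
  have hpos : 0 < ∏ s ∈ univ.erase t, ‖w - x s‖ :=
    lt_of_lt_of_le (Finset.prod_pos fun s _ => lt_of_lt_of_le hε (le_max_left _ _)) h2
  have hne : ∀ s, s ≠ t → w ≠ x s := by
    intro s hs h
    have := Finset.prod_ne_zero_iff.mp hpos.ne' s (mem_erase.mpr ⟨hs, mem_univ s⟩)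
    exact this (by rw [h]; simp)
  refine ⟨w, ?_, hne, ?_⟩
  · rw [hw]
    simp [h1, abs_of_pos hε]
  · rw [split_sum (fun i j => ell ε (x i) (x j)) (fun i j => ell_comm _ _ _) t,
      split_sum (fun i j => ell ε (Function.update x t w i) (Function.update x t w j))
        (fun i j => ell_comm _ _ _) t]
    have hrest : ∑ i ∈ univ.erase t, ∑ j ∈ (univ.erase i).erase t,
        ell ε (Function.update x t w i) (Function.update x t w j) =
        ∑ i ∈ univ.erase t, ∑ j ∈ (univ.erase i).erase t, ell ε (x i) (x j) := by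
      refine Finset.sum_congr rfl fun i hi => Finset.sum_congr rfl fun j hj => ?_
      rw [Function.update_of_ne (ne_of_mem_erase hi), Function.update_of_ne (ne_of_mem_erase hj)]
    rw [hrest]
    have hrow : ∑ j ∈ univ.erase t, ell ε (x t) (x j) ≤
        ∑ j ∈ univ.erase t, ell ε (Function.update x t w t) (Function.update x t w j) := by
      have e1 : ∑ j ∈ univ.erase t, ell ε (Function.update x t w t) (Function.update x t w j) =
          ∑ j ∈ univ.erase t, Real.log ‖w - x j‖ := by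
        refine Finset.sum_congr rfl fun j hj => ?_
        rw [Function.update_self, Function.update_of_ne (ne_of_mem_erase hj), ell,
          if_neg (hne j (ne_of_mem_erase hj))]
      rw [e1, ← Real.log_prod (fun j hj => norm_ne_zero_iff.mpr
        (sub_ne_zero.mpr (hne j (ne_of_mem_erase hj))))]
      unfold ell
      rw [← Real.log_prod (fun j _ => (gg_pos hε _ _).ne')]
      refine Real.log_le_log (Finset.prod_pos fun j _ => gg_pos hε _ _) (le_trans ?_ h2)
      refine Finset.prod_le_prod (fun j _ => (gg_pos hε _ _).le) fun j _ => ?_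
      split_ifs with h
      · exact le_max_left _ _
      · exact le_max_right _ _
    linarith

theorem move_all {ι : Type*} [Fintype ι] [DecidableEq ι] (c : ι → ℂ) {ε : ℝ} (hε : 0 < ε) (A : Finset ι) :
    ∃ x : ι → ℂ, (∀ t ∈ A, ‖x t - c t‖ = ε) ∧ (∀ t ∉ A, x t = c t) ∧
      (∀ t ∈ A, ∀ s, s ≠ t → x t ≠ x s) ∧
      ∑ i, ∑ j ∈ univ.erase i, ell ε (c i) (c j) ≤ ∑ i, ∑ j ∈ univ.erase i, ell ε (x i) (x j) := by
  induction A using Finset.induction_on with
  | empty => exact ⟨c, by simp, by simp, by simp, le_rfl⟩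
  | insert t A ht ih =>
    obtain ⟨x, h1, h2, h3, h4⟩ := ih
    obtain ⟨w, hw1, hw2, hw3⟩ := move_step x hε t
    refine ⟨Function.update x t w, ?_, ?_, ?_, h4.trans hw3⟩
    · intro s hs
      by_cases hst : s = t
      · subst hst
        rw [Function.update_self, ← h2 s ht, hw1]
      · rw [Function.update_of_ne hst]
        exact h1 s ((mem_insert.mp hs).resolve_left hst)
    · intro s hs
      have hst : s ≠ t := fun h => hs (h ▸ mem_insert_self t A)
      rw [Function.update_of_ne hst]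
      exact h2 s fun h => hs (mem_insert_of_mem h)
    · intro s hs r hr
      by_cases hst : s = t
      · subst hst
        rw [Function.update_self, Function.update_of_ne hr]
        exact hw2 r hr
      · rw [Function.update_of_ne hst]
        by_cases hrt : r = t
        · subst hrt
          rw [Function.update_self]
          exact (hw2 s hst).symm
        · rw [Function.update_of_ne hrt]
          exact h3 s ((mem_insert.mp hs).resolve_left hst) r hr

theorem log_max_le {z c : ℂ} {ε : ℝ} (hε : 0 < ε) (h : ‖z - c‖ = ε) :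
    Real.log (max 1 ‖z‖) ≤ Real.posLog ‖c‖ + ε := by
  have h1 : ‖z‖ ≤ ‖c‖ + ε := by
    have := norm_add_le c (z - c)
    rw [add_sub_cancel] at this
    linarith
  have h2 : max 1 ‖z‖ ≤ max 1 ‖c‖ * Real.exp ε := by
    have he : 1 + ε ≤ Real.exp ε := by have := Real.add_one_le_exp ε; linarith
    have hm : 1 ≤ max 1 ‖c‖ := le_max_left _ _
    have h3 : max 1 ‖z‖ ≤ max 1 ‖c‖ * (1 + ε) := by
      refine max_le ?_ ?_
      · nlinarith
      · have : ‖c‖ ≤ max 1 ‖c‖ := le_max_right _ _
        nlinarith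
    exact h3.trans (mul_le_mul_of_nonneg_left he (by positivity))
  calc Real.log (max 1 ‖z‖) ≤ Real.log (max 1 ‖c‖ * Real.exp ε) :=
        Real.log_le_log (lt_of_lt_of_le one_pos (le_max_left _ _)) h2
    _ = Real.log (max 1 ‖c‖) + ε := by
        rw [Real.log_mul (lt_of_lt_of_le one_pos (le_max_left _ _)).ne' (Real.exp_pos _).ne',
          Real.log_exp]
    _ = Real.posLog ‖c‖ + ε := by
        rw [Real.posLog_eq_log_max_one (norm_nonneg _)]

theorem sum_log_le_fin {n : ℕ} (x : Fin n → ℂ) (hx : Function.Injective x) :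
    ∑ i, ∑ j ∈ univ.erase i, Real.log ‖x i - x j‖ ≤
      2 * (n : ℝ) * Real.log n + 2 * n * ∑ i, Real.log (max 1 ‖x i‖) := by
  have hdet : ‖(Matrix.vandermonde x).det‖ = ∏ i, ∏ j ∈ Ioi i, ‖x j - x i‖ := by
    rw [Matrix.det_vandermonde, norm_prod]
    exact Finset.prod_congr rfl fun i _ => norm_prod _ _
  have hpos : ∀ i j, i ≠ j → 0 < ‖x i - x j‖ := fun i j h =>
    norm_pos_iff.mpr (sub_ne_zero.mpr (fun h' => h (hx h')))
  have hlog : Real.log ‖(Matrix.vandermonde x).det‖ = ∑ i, ∑ j ∈ Ioi i, Real.log ‖x j - x i‖ := by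
    rw [hdet, Real.log_prod (fun i _ => (Finset.prod_pos fun j hj =>
      hpos j i (mem_Ioi.mp hj).ne').ne')]
    refine Finset.sum_congr rfl fun i _ => Real.log_prod (fun j hj =>
      (hpos j i (mem_Ioi.mp hj).ne').ne')
  have hsum : ∑ i, ∑ j ∈ univ.erase i, Real.log ‖x i - x j‖ =
      2 * Real.log ‖(Matrix.vandermonde x).det‖ := by
    have h := Finset.sum_sum_Ioi_add_eq_sum_sum_off_diag (fun i j : Fin n => Real.log ‖x i - x j‖)
    have h2 : ∀ i : Fin n, univ.erase i = ({i} : Finset (Fin n))ᶜ := by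
      intro i; ext j; simp
    simp only [h2]
    have h3 : ∑ i, ∑ j ∈ ({i} : Finset (Fin n))ᶜ, Real.log ‖x i - x j‖ =
        ∑ i, ∑ j ∈ ({i} : Finset (Fin n))ᶜ, Real.log ‖x j - x i‖ :=
      Finset.sum_congr rfl fun i _ => Finset.sum_congr rfl fun j _ => by rw [norm_sub_rev]
    rw [h3, ← h, hlog, Finset.mul_sum]
    refine Finset.sum_congr rfl fun i _ => ?_
    rw [Finset.mul_sum]
    refine Finset.sum_congr rfl fun j _ => ?_
    rw [norm_sub_rev (x i) (x j)]
    ring
  have hdpos : 0 < ‖(Matrix.vandermonde x).det‖ := by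
    rw [hdet]
    exact Finset.prod_pos fun i _ => Finset.prod_pos fun j hj => hpos j i (mem_Ioi.mp hj).ne'
  have hmax : ∀ i, 0 < max 1 ‖x i‖ := fun i => lt_of_lt_of_le one_pos (le_max_left _ _)
  have hb : Real.log ‖(Matrix.vandermonde x).det‖ ≤
      Real.log (n.factorial : ℝ) + (n : ℝ) * ∑ i, Real.log (max 1 ‖x i‖) := by
    have hf : (0 : ℝ) < n.factorial := by exact_mod_cast n.factorial_pos
    have hp : 0 < ∏ i, (max 1 ‖x i‖) ^ n := Finset.prod_pos fun i _ => pow_pos (hmax i) n
    calc Real.log ‖(Matrix.vandermonde x).det‖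
        ≤ Real.log ((n.factorial : ℝ) * ∏ i, (max 1 ‖x i‖) ^ n) :=
          Real.log_le_log hdpos (H25.Arith.norm_det_vandermonde_le x)
      _ = Real.log (n.factorial : ℝ) + (n : ℝ) * ∑ i, Real.log (max 1 ‖x i‖) := by
          rw [Real.log_mul hf.ne' hp.ne', Real.log_prod (fun i _ => (pow_pos (hmax i) n).ne'),
            Finset.mul_sum]
          congr 1
          exact Finset.sum_congr rfl fun i _ => by rw [Real.log_pow]
  have hfact : Real.log (n.factorial : ℝ) ≤ n * Real.log n := by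
    rcases Nat.eq_zero_or_pos n with h0 | h0
    · subst h0; simp
    · rw [← Real.log_pow]
      exact Real.log_le_log (by exact_mod_cast n.factorial_pos) (by exact_mod_cast n.factorial_le_pow)
  rw [hsum]
  linarith

theorem energy {ι : Type*} [Fintype ι] [DecidableEq ι] (c : ι → ℂ) (ε : ℝ) (hε : 0 < ε)
    (hε1 : ε ≤ 1) :
    ∑ i, ∑ j ∈ Finset.univ.erase i, Real.log (if c i = c j then ε else ‖c i - c j‖) ≤
      2 * (Fintype.card ι : ℝ) * Real.log (Fintype.card ι) +
        2 * (Fintype.card ι : ℝ) * ∑ i, (Real.posLog ‖c i‖ + ε) := by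
  obtain ⟨x, h1, -, h3, h4⟩ := move_all c hε univ
  have hinj : Function.Injective x := by
    intro i j hij
    by_contra hne
    exact h3 i (mem_univ i) j (fun h => hne h.symm) hij
  have e : ι ≃ Fin (Fintype.card ι) := Fintype.equivFin ι
  have hfin := sum_log_le_fin (fun k => x (e.symm k)) (hinj.comp e.symm.injective)
  have hre : ∑ i, ∑ j ∈ univ.erase i, ell ε (x i) (x j) =
      ∑ k, ∑ l ∈ univ.erase k, Real.log ‖x (e.symm k) - x (e.symm l)‖ := by
    rw [← e.symm.sum_comp]
    refine Finset.sum_congr rfl fun k _ => ?_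
    have he : (univ.erase (e.symm k) : Finset ι) = (univ.erase k).map e.symm.toEmbedding := by
      ext j
      simp [Equiv.eq_symm_apply]
    rw [he, Finset.sum_map]
    refine Finset.sum_congr rfl fun l hl => ?_
    have hne : x (e.symm k) ≠ x (e.symm l) := fun h =>
      ne_of_mem_erase hl (e.symm.injective (hinj h)).symm
    simp [ell, hne]
  have hsum : ∑ k, Real.log (max 1 ‖x (e.symm k)‖) ≤ ∑ i, (Real.posLog ‖c i‖ + ε) := by
    rw [e.symm.sum_comp (fun i => Real.log (max 1 ‖x i‖))]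
    exact Finset.sum_le_sum fun i _ => log_max_le hε (h1 i (mem_univ i))
  calc ∑ i, ∑ j ∈ Finset.univ.erase i, Real.log (if c i = c j then ε else ‖c i - c j‖)
      = ∑ i, ∑ j ∈ univ.erase i, ell ε (c i) (c j) := rfl
    _ ≤ ∑ i, ∑ j ∈ univ.erase i, ell ε (x i) (x j) := h4
    _ = _ := hre
    _ ≤ _ := hfin
    _ ≤ _ := by
        have : 0 ≤ 2 * (Fintype.card ι : ℝ) := by positivity
        have := mul_le_mul_of_nonneg_left hsum this
        linarith

end H91.LK
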