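import Pool.Agent.H91.LK.B3
import Pool.Agent.H91.LK.B4

/-!
# B5: a weak form of Dobrowolski's theorem

`log M(f) ≥ c / (log D)^3` for `f ∈ ℤ[X]` of degree `≤ D`, `M(f) > 1`.

PROOF. If `lm f ≥ log 2` clear (`D ≥ 3`). Otherwise `nondegenerate`, `n = #(orb α) ≤ D`, `S = ∑ log⁺ ≤ lm f`, and `dob_raw` with
`Q = primesLE x`, `∑_{p ∈ Q} log p = θ(x) ≥ x/4`, say, for `x` large (`Chebyshev.theta_ge`:
`θ(n) ≥ n log 2 - log (n+1) - 2 √n log n`), `#Q ≤ x`, `∑_{p ∈ Q} p ≤ x²`. With `Λ = log D ≥ 1`: `x = ⌈C₁ Λ²⌉`, `T = ⌈C₂ Λ⌉`,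
`log (n (T + x)) ≤ C₃ Λ`; `2 T θ(x) ≥ T x/2`, and the terms `T² C₃ Λ`, `2 (T + x) C₃ Λ`, `2 (T + x)` are each at most `T x/16` for suitable
constants (`C₂` large for `2 x C₃ Λ ≤ T x/16`: `T ≥ 32 C₃ Λ`; then `C₁` large for `T C₃ Λ ≤ x/16`). So
`T x/4 ≤ 2 (T + x) (T + x²) S`, hence `S ≥ c T x/x³ ≥ c' Λ/Λ⁴ = c' Λ^(-3)`.
-/

set_option autoImplicit false

namespace H91.LK

open Polynomial H25.Arith

theorem B5_theta (x : ℕ) (hx : 3000000 ≤ x) :
    (x : ℝ) / 4 ≤ ∑ p ∈ Nat.primesLE x, Real.log p := by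
  have h1 := Chebyshev.theta_ge x
  rw [Chebyshev.theta_eq_sum_primesLE_log] at h1
  have hxr : (3000000 : ℝ) ≤ x := by exact_mod_cast hx
  set y : ℝ := √√(x : ℝ) with hy
  have hy2 : y ^ 2 = √(x : ℝ) := Real.sq_sqrt (Real.sqrt_nonneg _)
  have hy4 : y ^ 4 = x := by
    have : y ^ 4 = (y ^ 2) ^ 2 := by ring
    rw [this, hy2, Real.sq_sqrt (by linarith)]
  have hy41 : 41 ≤ y := by
    apply Real.le_sqrt_of_sq_le
    apply Real.le_sqrt_of_sq_le
    norm_num
    linarith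
  have hypos : 0 < y := by linarith
  have hlog : Real.log x ≤ 4 * y := by
    rw [← hy4, Real.log_pow]
    have := Real.log_le_sub_one_of_pos hypos
    push_cast
    linarith
  have hlog1 : Real.log (x + 1) ≤ 1 + 4 * y := by
    have h2 : Real.log ((x : ℝ) + 1) ≤ Real.log (2 * x) :=
      Real.log_le_log (by linarith) (by linarith)
    rw [Real.log_mul (by norm_num) (by linarith)] at h2
    have h3 : Real.log 2 ≤ 1 := by
      have := Real.log_two_lt_d9
      linarith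
    linarith
  have hl2 := Real.log_two_gt_d9
  have h5 : 2 * √(x : ℝ) * Real.log x ≤ 8 * y ^ 3 := by
    rw [← hy2]
    have : 2 * y ^ 2 * Real.log x ≤ 2 * y ^ 2 * (4 * y) := by gcongr
    calc 2 * y ^ 2 * Real.log x ≤ 2 * y ^ 2 * (4 * y) := this
      _ = 8 * y ^ 3 := by ring
  have h6 : (x : ℝ) * (69 / 100) ≤ x * Real.log 2 := by
    gcongr
    linarith
  have h7 : (41 : ℝ) * y ^ 3 ≤ x := by
    rw [← hy4]
    have : y ^ 4 = y * y ^ 3 := by ring
    rw [this]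
    gcongr
  have h8 : 41 ^ 2 * y ≤ y ^ 3 := by
    have : y ^ 3 = y ^ 2 * y := by ring
    rw [this]
    gcongr
  linarith

theorem B5_num (Λ T x s L θ P S : ℝ) (hΛ : 1 ≤ Λ) (hT1 : 640 * Λ ≤ T) (hT2 : T ≤ 641 * Λ)
    (hx1 : 3000000 * Λ ^ 2 ≤ x) (hx2 : x ≤ 3000001 * Λ ^ 2) (hs : s ≤ x)
    (hP0 : 0 ≤ P) (hP : P ≤ x ^ 2) (hL0 : 0 ≤ L) (hL : L ≤ 20 * Λ) (hθ : x / 4 ≤ θ)
    (hS : 0 ≤ S)
    (h : 2 * T * θ ≤ (T ^ 2 + 2 * (T + s)) * L + 2 * (T + s) * ((T + P) * S + 1)) :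
    15 / 3000001 ^ 2 / Λ ^ 3 ≤ S := by
  have hΛ2 : Λ ≤ Λ ^ 2 := by nlinarith
  have hTpos : 0 < T := by linarith
  have hxΛ : 3000000 * Λ ≤ x := by linarith
  have hxpos : 0 < x := by linarith
  have hTx : T ≤ x := by linarith
  have h1 : T * L ≤ x / 16 := by
    have : T * L ≤ (641 * Λ) * (20 * Λ) := by gcongr
    nlinarith
  have h2 : T ^ 2 * L ≤ T * x / 16 := by
    have : T ^ 2 * L = T * (T * L) := by ring
    rw [this]
    calc T * (T * L) ≤ T * (x / 16) := by gcongr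
      _ = T * x / 16 := by ring
  have h3 : 2 * (T + s) * L ≤ 2 * (T * x / 16) := by
    have e1 : 2 * (T + s) * L ≤ 2 * (T + x) * (20 * Λ) := by gcongr
    have e2 : 40 * (T * Λ) ≤ T * x / 16 := by
      have : T * (640 * Λ) ≤ T * x := by
        gcongr
        linarith
      linarith
    have e3 : 40 * (x * Λ) ≤ T * x / 16 := by
      have : (640 * Λ) * x ≤ T * x := by gcongr
      linarith
    linarith
  have h4 : 2 * (T + s) ≤ 2 * (T * x / 16) := by
    have e2 : 32 * T ≤ T * x := by nlinarith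
    have e3 : 32 * x ≤ T * x := by nlinarith
    linarith
  have h5 : 2 * (T + s) * ((T + P) * S) ≤ 8 * x ^ 3 * S := by
    have e0 : (1 : ℝ) ≤ x := by linarith
    have e1 : T + P ≤ 2 * x ^ 2 := by
      have : x ≤ x ^ 2 := by nlinarith
      linarith
    have e2 : T + s ≤ 2 * x := by linarith
    have e3 : 2 * (T + s) * ((T + P) * S) ≤ 2 * (2 * x) * ((2 * x ^ 2) * S) := by gcongr
    calc _ ≤ _ := e3
      _ = 8 * x ^ 3 * S := by ring
  have h6 : T * x / 2 ≤ 2 * T * θ := by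
    have : 2 * T * (x / 4) ≤ 2 * T * θ := by gcongr
    linarith
  have h7 : 3 / 16 * (T * x) ≤ 8 * x ^ 3 * S := by
    have e : (T ^ 2 + 2 * (T + s)) * L + 2 * (T + s) * ((T + P) * S + 1) =
      T ^ 2 * L + 2 * (T + s) * L + 2 * (T + s) * ((T + P) * S) + 2 * (T + s) := by ring
    rw [e] at h
    linarith
  have h8 : 3 / 16 * T ≤ 8 * x ^ 2 * S := by
    have e : 3 / 16 * T * x ≤ 8 * x ^ 2 * S * x := by
      calc 3 / 16 * T * x = 3 / 16 * (T * x) := by ring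
        _ ≤ 8 * x ^ 3 * S := h7
        _ = 8 * x ^ 2 * S * x := by ring
    exact le_of_mul_le_mul_right e hxpos
  have h9 : 8 * x ^ 2 * S ≤ 8 * (3000001 * Λ ^ 2) ^ 2 * S := by gcongr
  have h10 : 15 * Λ ≤ 3000001 ^ 2 * (S * Λ ^ 3) * Λ := by
    calc 15 * Λ ≤ (3 / 16 * T) / 8 := by linarith
      _ ≤ (8 * (3000001 * Λ ^ 2) ^ 2 * S) / 8 := by
        have := h8.trans h9
        linarith
      _ = 3000001 ^ 2 * (S * Λ ^ 3) * Λ := by ring
  have h11 := le_of_mul_le_mul_right h10 (by linarith : (0 : ℝ) < Λ)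
  have hΛ3 : 0 < Λ ^ 3 := by positivity
  rw [div_le_iff₀ hΛ3, div_le_iff₀ (by norm_num)]
  linarith

theorem dobrowolski_explicit (f : ℤ[X]) (D : ℝ) (h0 : 0 < lm f) (hD : 3 ≤ D)
    (hdeg : (f.natDegree : ℝ) ≤ D) : 15 / 3000001 ^ 2 / (Real.log D) ^ 3 ≤ lm f := by
  set Λ := Real.log D with hΛdef
  have hΛ : 1 ≤ Λ := by
    rw [hΛdef, Real.le_log_iff_exp_le (by linarith)]
    have := Real.exp_one_lt_d9
    linarith
  have hΛ2 : Λ ≤ Λ ^ 2 := by nlinarith
  by_cases h2 : lm f < Real.log 2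
  · obtain ⟨K, iF, iN, iG, σ, α, hα, hn1, hn2, hS, hinj, hne⟩ := nondegenerate f h0 h2
    refine le_trans ?_ hS
    set T := ⌈640 * Λ⌉₊ with hT
    set x := ⌈3000000 * Λ ^ 2⌉₊ with hx
    have hT1 : 640 * Λ ≤ T := Nat.le_ceil _
    have hT2 : (T : ℝ) ≤ 641 * Λ := by
      have := (Nat.ceil_lt_add_one (by positivity : 0 ≤ 640 * Λ)).le
      linarith
    have hx1 : 3000000 * Λ ^ 2 ≤ x := Nat.le_ceil _
    have hx2 : (x : ℝ) ≤ 3000001 * Λ ^ 2 := by
      have := (Nat.ceil_lt_add_one (by positivity : 0 ≤ 3000000 * Λ ^ 2)).le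
      linarith
    have hTone : 1 ≤ T := by
      have : (1 : ℝ) ≤ T := by linarith
      exact_mod_cast this
    have hxbig : 3000000 ≤ x := by
      have : (3000000 : ℝ) ≤ x := by linarith
      exact_mod_cast this
    have hraw := dob_raw σ α hα hn1 hinj hne T hTone (Nat.primesLE x)
      (fun p hp => (Nat.mem_primesLE.1 hp).2)
    have hs : (Nat.primesLE x).card ≤ x := by
      have h3 : Nat.primesLE x ⊆ Finset.Icc 1 x := by
        intro p hp
        rw [Nat.mem_primesLE] at hp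
        exact Finset.mem_Icc.2 ⟨hp.2.one_lt.le, hp.1⟩
      have h4 := Finset.card_le_card h3
      rw [Nat.card_Icc] at h4
      omega
    have hsr : ((Nat.primesLE x).card : ℝ) ≤ x := by exact_mod_cast hs
    have hP : ∑ p ∈ Nat.primesLE x, (p : ℝ) ≤ (x : ℝ) ^ 2 := by
      have h3 : ∑ p ∈ Nat.primesLE x, (p : ℝ) ≤ ∑ p ∈ Nat.primesLE x, (x : ℝ) := by
        refine Finset.sum_le_sum fun p hp => ?_
        rw [Nat.mem_primesLE] at hp
        exact_mod_cast hp.1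
      rw [Finset.sum_const, nsmul_eq_mul] at h3
      refine h3.trans ?_
      rw [pow_two]
      gcongr
    have hn1' : (1 : ℝ) ≤ (orb α).card := by exact_mod_cast hn1
    have hn2' : ((orb α).card : ℝ) ≤ D := by
      refine le_trans ?_ hdeg
      exact_mod_cast hn2
    have hs0 : (0 : ℝ) ≤ (Nat.primesLE x).card := Nat.cast_nonneg _
    have hTr : (1 : ℝ) ≤ T := by exact_mod_cast hTone
    have hN1 : (1 : ℝ) ≤ (orb α).card * (T + (Nat.primesLE x).card) := by nlinarith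
    have hL : Real.log ((orb α).card * (T + (Nat.primesLE x).card)) ≤ 20 * Λ := by
      have h3 : ((orb α).card : ℝ) * (T + (Nat.primesLE x).card) ≤ D * (3000642 * Λ ^ 2) := by
        have h4 : (T : ℝ) + (Nat.primesLE x).card ≤ 3000642 * Λ ^ 2 := by linarith
        gcongr
      have h5 := Real.log_le_log (by linarith) h3
      have hD0 : D ≠ 0 := by linarith
      have hΛ0 : Λ ≠ 0 := by linarith
      have h5' : Real.log (D * (3000642 * Λ ^ 2)) =
          Real.log D + (Real.log 3000642 + 2 * Real.log Λ) := by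
        rw [Real.log_mul hD0 (mul_ne_zero (by norm_num) (pow_ne_zero _ hΛ0)),
          Real.log_mul (by norm_num) (pow_ne_zero _ hΛ0), Real.log_pow]
        push_cast
        ring
      rw [h5', ← hΛdef] at h5
      have h6 : Real.log 3000642 ≤ 16 := by
        rw [Real.log_le_iff_le_exp (by norm_num)]
        have h7 : Real.exp 16 = Real.exp 1 ^ 16 := by
          rw [← Real.exp_nat_mul]
          norm_num
        rw [h7]
        have h8 := Real.exp_one_gt_d9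
        have h9 : (27 / 10 : ℝ) ^ 16 ≤ Real.exp 1 ^ 16 := by
          gcongr
          linarith
        refine le_trans ?_ h9
        norm_num
      have h7 := Real.log_le_sub_one_of_pos (by linarith : (0 : ℝ) < Λ)
      linarith
    exact B5_num Λ T x (Nat.primesLE x).card _ _ (∑ p ∈ Nat.primesLE x, (p : ℝ)) _ hΛ hT1 hT2 hx1
      hx2 hsr (Finset.sum_nonneg fun p _ => Nat.cast_nonneg p) hP (Real.log_nonneg hN1) hL
      (B5_theta x hxbig) (Finset.sum_nonneg fun y _ => Real.posLog_nonneg) hraw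
  · push Not at h2
    refine le_trans ?_ h2
    have h3 := Real.log_two_gt_d9
    have h4 : (1 : ℝ) ≤ Λ ^ 3 := one_le_pow₀ hΛ
    have h5 : (15 : ℝ) / 3000001 ^ 2 / Λ ^ 3 ≤ 15 / 3000001 ^ 2 := by
      apply div_le_self (by positivity) h4
    have h6 : (15 : ℝ) / 3000001 ^ 2 ≤ 1 / 2 := by norm_num
    linarith

theorem dobrowolski : ∃ c : ℝ, 0 < c ∧ ∀ (f : ℤ[X]) (D : ℝ), 0 < lm f → 3 ≤ D →
    (f.natDegree : ℝ) ≤ D → c / (Real.log D) ^ 3 ≤ lm f :=
  ⟨15 / 3000001 ^ 2, by positivity, fun f D h0 hD hdeg => dobrowolski_explicit f D h0 hD hdeg⟩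

end H91.LK
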