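import Pool.Agent.H25.Arith.Minor
import Pool.Agent.H91.LK.G0

/-!
# D1: a bounded basis of the orthogonal complement of the short relations

PROOF. Let `S` be the finite set of all `c : Fin k → ℤ` with `∑ c = 0`, `∑ |c| ≤ 2 J`, `∑ c_i n_i = 0`, and `A` the
matrix over `ℚ` with rows `S` (entries of absolute value `≤ 2 J`) and columns `Fin k`, `ρ = rank A ≤ k`. There are `ρ`
rows and `ρ` columns (set `I` of columns) with minor `Δ ≠ 0` (compare `H25.Arith.exists_minor_one`,
Pool/Agent/H25/Arith/Minor.lean); `|Δ| ≤ ρ! (2J)^ρ`. For a column `j ∉ I` let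
`w_j = Δ e_j - ∑_{i ∈ I} Δ_{i,j} e_i`, `Δ_{i,j}` = the minor with column `i` replaced by column `j` (Cramer);
`w_j` is orthogonal to the chosen rows, hence (rank!) to all rows `c ∈ S`. `n` is in the kernel of `A`, and so is
`Δ n - ∑_{j ∉ I} n_j w_j`, which is supported in `I`, hence `0`. Put `v_j = w_j + B₀ (1, …, 1)`,
`B₀ = k! (2J)^k`, `q_j = n_j`, `s = B₀ ∑ q_j`, `r = k - ρ`.
-/

set_option autoImplicit false

namespace H91.LK

open Finset Matrix

/-- the vector `Δ e_j - ∑_b Δ_{b,j} e_{g b}` -/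
def crv {k ρ : ℕ} (N : Matrix (Fin ρ) (Fin ρ) ℤ) (g : Fin ρ → Fin k) (y : Fin ρ → ℤ) (j : Fin k) :
    Fin k → ℤ :=
  fun x => (if x = j then N.det else 0) - ∑ b, if x = g b then N.cramer y b else 0

theorem crv_sum {k ρ : ℕ} (N : Matrix (Fin ρ) (Fin ρ) ℤ) (g : Fin ρ → Fin k) (y : Fin ρ → ℤ)
    (j : Fin k) (c : Fin k → ℤ) :
    ∑ x, c x * crv N g y j x = c j * N.det - ∑ b, c (g b) * N.cramer y b := by
  have h1 : ∀ x, c x * crv N g y j x = (if x = j then c x * N.det else 0) -
      ∑ b, if x = g b then c x * N.cramer y b else 0 := by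
    intro x
    rw [crv, mul_sub, Finset.mul_sum]
    congr 1
    · split_ifs <;> simp
    · exact Finset.sum_congr rfl fun b _ => by split_ifs <;> simp
  simp_rw [h1]
  rw [Finset.sum_sub_distrib, Finset.sum_comm]
  simp

theorem det_bound {ρ k J : ℕ} (hρ : ρ ≤ k) (hJ : 1 ≤ J) (N : Matrix (Fin ρ) (Fin ρ) ℤ)
    (h : ∀ a b, |N a b| ≤ 2 * (J : ℤ)) : |N.det| ≤ ((k.factorial * (2 * J) ^ k : ℕ) : ℤ) := by
  have h1 := Matrix.det_le (A := N) (abv := AbsoluteValue.abs) (x := 2 * (J : ℤ))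
    (fun i j => by simpa using h i j)
  simp only [AbsoluteValue.abs_apply, Fintype.card_fin] at h1
  refine h1.trans ?_
  rw [nsmul_eq_mul]
  push_cast
  have h2 : (ρ.factorial : ℤ) ≤ k.factorial := by exact_mod_cast Nat.factorial_le hρ
  have h3 : (2 * (J : ℤ)) ^ ρ ≤ (2 * (J : ℤ)) ^ k :=
    pow_le_pow_right₀ (by omega) hρ
  exact mul_le_mul h2 h3 (by positivity) (by positivity)

theorem crv_bound {k ρ J : ℕ} (hρ : ρ ≤ k) (hJ : 1 ≤ J) (N : Matrix (Fin ρ) (Fin ρ) ℤ)
    (hN : ∀ a b, |N a b| ≤ 2 * (J : ℤ)) (g : Fin ρ → Fin k) (hg : Function.Injective g)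
    (y : Fin ρ → ℤ) (hy : ∀ a, |y a| ≤ 2 * (J : ℤ)) (j : Fin k) (hj : ∀ b, g b ≠ j) (x : Fin k) :
    |crv N g y j x| ≤ ((k.factorial * (2 * J) ^ k : ℕ) : ℤ) := by
  by_cases hx : x = j
  · have h0 : ∑ b, (if x = g b then N.cramer y b else 0) = 0 :=
      Finset.sum_eq_zero fun b _ => by
        rw [if_neg]
        intro h
        exact hj b (h.symm.trans hx)
    rw [crv, h0, if_pos hx, sub_zero]
    exact det_bound hρ hJ N hN
  · rw [crv, if_neg hx, zero_sub, abs_neg]
    by_cases hb : ∃ b, x = g b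
    · obtain ⟨b, rfl⟩ := hb
      have h0 : ∑ b', (if g b = g b' then N.cramer y b' else 0) = N.cramer y b := by
        rw [Finset.sum_eq_single b]
        · simp
        · intro b' _ hne
          rw [if_neg]
          intro h
          exact hne (hg h).symm
        · simp
      rw [h0, Matrix.cramer_apply]
      refine det_bound hρ hJ _ fun a b' => ?_
      rw [Matrix.updateCol_apply]
      split_ifs
      · exact hy a
      · exact hN a b'
    · rw [Finset.sum_eq_zero]
      · rw [abs_zero]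
        positivity
      · intro b _
        rw [if_neg]
        exact fun h => hb ⟨b, h⟩

/-- `lattice` together with a space `V` of dimension at least `r` which satisfies the short
relations -/
theorem lattice' {k : ℕ} (n : Fin k → ℕ) (J : ℕ) (hJ : 1 ≤ J) :
    ∃ (r : ℕ) (v : Fin r → Fin k → ℕ) (q : Fin r → ℤ) (Δ s : ℤ)
      (V : Submodule ℚ (Fin k → ℚ)), (fun _ => (1 : ℚ)) ∈ V ∧ r ≤ Module.finrank ℚ V ∧
      Kills J n V ∧ r ≤ k ∧ Δ ≠ 0 ∧
      (∀ j i, v j i ≤ 2 * (k.factorial * (2 * J) ^ k)) ∧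
      (∀ i, Δ * (n i : ℤ) + s = ∑ j, q j * (v j i : ℤ)) ∧
      ∀ c : Fin k → ℤ, ∑ i, c i = 0 → ∑ i, |c i| ≤ 2 * (J : ℤ) → ∑ i, c i * (n i : ℤ) = 0 →
        ∀ j, ∑ i, c i * (v j i : ℤ) = 0 := by
  classical
  let S : Finset (Fin k → ℤ) :=
    (Fintype.piFinset fun _ => Finset.Icc (-(2 * (J : ℤ))) (2 * (J : ℤ))).filter
      fun c => ∑ i, c i = 0 ∧ ∑ i, c i * (n i : ℤ) = 0
  have hSb : ∀ c ∈ S, ∀ i, |c i| ≤ 2 * (J : ℤ) := by
    intro c hc i
    have h1 := (Finset.mem_filter.mp hc).1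
    rw [Fintype.mem_piFinset] at h1
    have h2 := Finset.mem_Icc.mp (h1 i)
    exact abs_le.mpr h2
  have hS1 : ∀ c ∈ S, ∑ i, c i = 0 := fun c hc => (Finset.mem_filter.mp hc).2.1
  have hS0 : ∀ c ∈ S, ∑ i, c i * (n i : ℤ) = 0 := fun c hc => (Finset.mem_filter.mp hc).2.2
  let M : Matrix S (Fin k) ℚ := fun c i => ((c.1 i : ℤ) : ℚ)
  obtain ⟨ρ, hρdef⟩ : ∃ ρ, ρ = M.rank := ⟨_, rfl⟩
  have hρ : ρ ≤ k := by
    have := Matrix.rank_le_card_width M
    rw [← hρdef] at this
    simpa using this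
  obtain ⟨f, -, hfs, hf⟩ :=
    H25.Arith.ahm_rows M.row ρ ((Matrix.rank_eq_finrank_span_row M).symm.trans hρdef.symm)
  obtain ⟨g, hg⟩ := H25.Arith.ahm_det (M.submatrix f id) hf
  let N : Matrix (Fin ρ) (Fin ρ) ℤ := fun a b => (f a).1 (g b)
  have hNdet : N.det ≠ 0 := by
    intro h
    apply hg
    have h1 : (M.submatrix f id).submatrix id g = N.map (Int.castRingHom ℚ) := by
      ext a b
      rfl
    rw [h1, ← RingHom.mapMatrix_apply, ← RingHom.map_det, h]
    simp
  have hNb : ∀ a b, |N a b| ≤ 2 * (J : ℤ) := fun a b => hSb _ (f a).2 _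
  have hgi : Function.Injective g := by
    intro b b' hbb
    by_contra hne
    apply hNdet
    exact Matrix.det_zero_of_column_eq hne fun a => by simp only [N, hbb]
  set B : ℕ := k.factorial * (2 * J) ^ k with hB
  let Y : Type := {j : Fin k // ∀ b, g b ≠ j}
  let e : Y ≃ Fin (Fintype.card Y) := Fintype.equivFin Y
  let w : Y → Fin k → ℤ := fun j => crv N g (fun a => (f a).1 j.1) j.1
  have hwb : ∀ j x, |w j x| ≤ (B : ℤ) := fun j x =>
    crv_bound hρ hJ N hNb g hgi _ (fun a => hSb _ (f a).2 _) j.1 j.2 x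
  have hwf : ∀ a j, ∑ x, (f a).1 x * w j x = 0 := by
    intro a j
    rw [crv_sum]
    have h1 := congrFun (Matrix.mulVec_cramer N (fun a => (f a).1 j.1)) a
    rw [Matrix.mulVec, dotProduct] at h1
    simp only [Pi.smul_apply, smul_eq_mul] at h1
    have h2 : ∑ b, (f a).1 (g b) * N.cramer (fun a => (f a).1 j.1) b =
        N.det * (f a).1 j.1 := h1
    rw [h2]
    ring
  -- orthogonal to all rows
  have hwS : ∀ c ∈ S, ∀ j, ∑ x, c x * w j x = 0 := by
    intro c hc j
    let φ : (Fin k → ℚ) →ₗ[ℚ] ℚ :=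
      { toFun := fun y => ∑ x, y x * (w j x : ℚ)
        map_add' := fun y z => by
          simp [add_mul, Finset.sum_add_distrib]
        map_smul' := fun a y => by
          simp [Finset.mul_sum, mul_assoc] }
    have hφ : ∀ y ∈ Submodule.span ℚ (Set.range (M.row ∘ f)), φ y = 0 := by
      intro y hy
      have hle : Submodule.span ℚ (Set.range (M.row ∘ f)) ≤ LinearMap.ker φ := by
        rw [Submodule.span_le]
        rintro _ ⟨a, rfl⟩
        rw [SetLike.mem_coe, LinearMap.mem_ker]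
        have h3 := hwf a j
        have h4 : ((∑ x, (f a).1 x * w j x : ℤ) : ℚ) = 0 := by rw [h3]; simp
        push_cast at h4
        exact h4
      exact LinearMap.mem_ker.mp (hle hy)
    have hrow : M.row ⟨c, hc⟩ ∈ Submodule.span ℚ (Set.range (M.row ∘ f)) := by
      rw [hfs]
      exact Submodule.subset_span ⟨⟨c, hc⟩, rfl⟩
    have h5 := hφ _ hrow
    have h6 : (∑ x, (c x : ℚ) * (w j x : ℚ)) = 0 := h5
    exact_mod_cast h6
  -- the identity for `n`
  have hn : ∀ x, N.det * (n x : ℤ) = ∑ j : Y, (n j.1 : ℤ) * w j x := by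
    set u : Fin k → ℤ := fun x => N.det * (n x : ℤ) - ∑ j : Y, (n j.1 : ℤ) * w j x with hu
    have hu0 : ∀ x, (∀ b, g b ≠ x) → u x = 0 := by
      intro x hx
      have h1 : ∑ j : Y, (n j.1 : ℤ) * w j x = (n x : ℤ) * N.det := by
        rw [Finset.sum_eq_single (⟨x, hx⟩ : Y)]
        · congr 1
          simp only [w, crv, if_true]
          rw [Finset.sum_eq_zero, sub_zero]
          intro b _
          rw [if_neg]
          exact fun h => hx b h.symm
        · intro j _ hne
          have h2 : w j x = 0 := by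
            simp only [w, crv]
            rw [if_neg, Finset.sum_eq_zero, sub_zero]
            · intro b _
              rw [if_neg]
              exact fun h => hx b h.symm
            · intro h
              apply hne
              exact Subtype.ext h.symm
          rw [h2, mul_zero]
        · simp
      simp only [hu, h1]
      ring
    have huf : ∀ a, ∑ x, (f a).1 x * u x = 0 := by
      intro a
      have h1 : ∀ x, (f a).1 x * u x = N.det * ((f a).1 x * (n x : ℤ)) -
          ∑ j : Y, (n j.1 : ℤ) * ((f a).1 x * w j x) := by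
        intro x
        simp only [hu, mul_sub, Finset.mul_sum]
        congr 1
        · ring
        · exact Finset.sum_congr rfl fun j _ => by ring
      simp_rw [h1]
      rw [Finset.sum_sub_distrib, ← Finset.mul_sum, hS0 _ (f a).2, mul_zero, zero_sub, neg_eq_zero,
        Finset.sum_comm]
      refine Finset.sum_eq_zero fun j _ => ?_
      rw [← Finset.mul_sum, hwf, mul_zero]
    have hug : N.mulVec (fun b => u (g b)) = 0 := by
      ext a
      rw [Matrix.mulVec, dotProduct, Pi.zero_apply, ← huf a]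
      have h2 : ∑ x, (f a).1 x * u x = ∑ x ∈ Finset.univ.image g, (f a).1 x * u x := by
        symm
        apply Finset.sum_subset (Finset.subset_univ _)
        intro x _ hx
        rw [hu0 x, mul_zero]
        intro b hb
        exact hx (Finset.mem_image.mpr ⟨b, Finset.mem_univ _, hb⟩)
      rw [h2, Finset.sum_image fun a _ b _ h => hgi h]
    have hu1 : (fun b => u (g b)) = 0 := Matrix.eq_zero_of_mulVec_eq_zero hNdet hug
    intro x
    have : u x = 0 := by
      by_cases hx : ∀ b, g b ≠ x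
      · exact hu0 x hx
      · push Not at hx
        obtain ⟨b, rfl⟩ := hx
        exact congrFun hu1 b
    simp only [hu] at this
    linarith
  have hwB : ∀ j x, 0 ≤ w j x + (B : ℤ) ∧ w j x + (B : ℤ) ≤ 2 * (B : ℤ) := by
    intro j x
    have := abs_le.mp (hwb j x)
    constructor <;> linarith [this.1, this.2]
  have hcY : Fintype.card Y + ρ = k := by
    have h1 : Fintype.card Y = (Finset.univ \ Finset.univ.image g).card := by
      rw [Fintype.card_subtype]
      congr 1
      ext j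
      simp
    have h2 := Finset.card_sdiff_add_card_eq_card (Finset.subset_univ (Finset.univ.image g))
    rw [Finset.card_image_of_injective _ hgi, Finset.card_univ, Finset.card_univ,
      Fintype.card_fin, Fintype.card_fin] at h2
    rw [h1, h2]
  have hVr : Fintype.card Y ≤ Module.finrank ℚ (LinearMap.ker M.mulVecLin) := by
    have h1 := LinearMap.finrank_range_add_finrank_ker M.mulVecLin
    have h2 : Module.finrank ℚ (LinearMap.range M.mulVecLin) = ρ := hρdef.symm
    rw [h2, Module.finrank_fin_fun] at h1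
    omega
  have hmem : ∀ c : Fin k → ℤ, ∑ i, c i = 0 → ∑ i, |c i| ≤ 2 * (J : ℤ) →
      ∑ i, c i * (n i : ℤ) = 0 → c ∈ S := by
    intro c hc0 hc1 hc2
    rw [Finset.mem_filter, Fintype.mem_piFinset]
    refine ⟨fun i => ?_, hc0, hc2⟩
    have h1 : |c i| ≤ ∑ i, |c i| :=
      Finset.single_le_sum (f := fun i => |c i|) (fun i _ => abs_nonneg _) (Finset.mem_univ i)
    exact Finset.mem_Icc.mpr (abs_le.mp (h1.trans hc1))
  refine ⟨Fintype.card Y, fun j x => (w (e.symm j) x + B).toNat, fun j => (n (e.symm j).1 : ℤ),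
    N.det, (B : ℤ) * ∑ j : Y, (n j.1 : ℤ), LinearMap.ker M.mulVecLin, ?_, hVr, ?_, ?_, hNdet, ?_,
    ?_, ?_⟩
  · rw [LinearMap.mem_ker, Matrix.mulVecLin_apply]
    ext c
    have h1 : ((∑ i, c.1 i : ℤ) : ℚ) = 0 := by rw [hS1 _ c.2]; simp
    rw [Matrix.mulVec, dotProduct, Pi.zero_apply, ← h1]
    push_cast
    exact Finset.sum_congr rfl fun i _ => mul_one _
  · intro c hc0 hc1 hc2 x hx
    rw [LinearMap.mem_ker, Matrix.mulVecLin_apply] at hx
    have h1 := congrFun hx ⟨c, hmem c hc0 hc1 hc2⟩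
    exact h1
  · have := Fintype.card_subtype_le (fun j : Fin k => ∀ b, g b ≠ j)
    simpa using this
  · intro j x
    have h1 := hwB (e.symm j) x
    have h2 : (((w (e.symm j) x + B).toNat : ℕ) : ℤ) ≤ 2 * (B : ℤ) := by
      rw [Int.toNat_of_nonneg h1.1]
      exact h1.2
    exact_mod_cast h2
  · intro x
    have h1 : ∑ j, (n (e.symm j).1 : ℤ) * (((w (e.symm j) x + B).toNat : ℕ) : ℤ) =
        ∑ j : Y, (n j.1 : ℤ) * (w j x + B) := by
      rw [← Equiv.sum_comp e.symm]
      refine Finset.sum_congr rfl fun j _ => ?_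
      rw [Int.toNat_of_nonneg (hwB _ _).1]
    rw [h1, hn x]
    simp only [mul_add, Finset.sum_add_distrib, ← Finset.sum_mul]
    ring
  · intro c hc0 hc1 hc2 j
    have hcS : c ∈ S := hmem c hc0 hc1 hc2
    have h1 : ∀ x, c x * (((w (e.symm j) x + B).toNat : ℕ) : ℤ) =
        c x * w (e.symm j) x + (B : ℤ) * c x := by
      intro x
      rw [Int.toNat_of_nonneg (hwB _ _).1]
      ring
    simp only [h1, Finset.sum_add_distrib, hwS c hcS, ← Finset.mul_sum, hc0]
    simp

theorem lattice {k : ℕ} (n : Fin k → ℕ) (J : ℕ) (hJ : 1 ≤ J) :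
    ∃ (r : ℕ) (v : Fin r → Fin k → ℕ) (q : Fin r → ℤ) (Δ s : ℤ), r ≤ k ∧ Δ ≠ 0 ∧
      (∀ j i, v j i ≤ 2 * (k.factorial * (2 * J) ^ k)) ∧
      (∀ i, Δ * (n i : ℤ) + s = ∑ j, q j * (v j i : ℤ)) ∧
      ∀ c : Fin k → ℤ, ∑ i, c i = 0 → ∑ i, |c i| ≤ 2 * (J : ℤ) → ∑ i, c i * (n i : ℤ) = 0 →
        ∀ j, ∑ i, c i * (v j i : ℤ) = 0 := by
  obtain ⟨r, v, q, Δ, s, V, -, -, -, h⟩ := lattice' n J hJ
  exact ⟨r, v, q, Δ, s, h⟩

end H91.LK
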