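import Mathlib

/-!
# E1: two small facts on polynomials

* a nonzero root of a polynomial with `k` terms has multiplicity `< k` (characteristic zero);
* if `ζ` is a primitive `N`-th root of unity and `p` is prime to `N` then every integer polynomial which
  vanishes at `ζ` vanishes at `ζ ^ p`.

PROOF of the first: induction on the number of terms. With `t = natDegree f` the polynomial
`X f' - t f` has one term less, and its multiplicity at `ζ` is at least that of `f` minus one.
Second: `IsPrimitiveRoot.minpoly_eq_pow_coprime`, `minpoly.isIntegrallyClosed_dvd`.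
-/

set_option autoImplicit false

namespace H91.LK

open Polynomial

theorem mult_lt_aux (ζ : ℂ) (hζ : ζ ≠ 0) : ∀ (n : ℕ) (f : ℂ[X]), f ≠ 0 → f.support.card = n →
    f.rootMultiplicity ζ < n := by
  intro n
  induction n with
  | zero =>
    intro f hf hc
    exact absurd (Finset.card_eq_zero.mp hc) (by simpa using hf)
  | succ n ih =>
    intro f hf hc
    set t := f.natDegree with ht
    set g : ℂ[X] := X * derivative f - C (t : ℂ) * f with hg
    have hcoef : ∀ i, g.coeff i = ((i : ℂ) - t) * f.coeff i := by
      intro i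
      rw [hg, coeff_sub, coeff_C_mul]
      cases i with
      | zero => simp
      | succ i =>
        rw [coeff_X_mul, coeff_derivative]
        push_cast
        ring
    have hsupp : g.support = f.support.erase t := by
      ext i
      rw [mem_support_iff, hcoef, Finset.mem_erase, mem_support_iff, mul_ne_zero_iff, sub_ne_zero]
      constructor
      · rintro ⟨h1, h2⟩
        exact ⟨fun h => h1 (by rw [h]), h2⟩
      · rintro ⟨h1, h2⟩
        exact ⟨fun h => h1 (by exact_mod_cast h), h2⟩
    have hmem : t ∈ f.support := by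
      rw [mem_support_iff, ht]
      simpa using hf
    have hcard : g.support.card = n := by
      rw [hsupp, Finset.card_erase_of_mem hmem, hc]
      rfl
    by_cases hg0 : g = 0
    · -- a monomial
      have hn : n = 0 := by rw [← hcard, hg0]; simp
      subst hn
      have hs : f.support = {t} := by
        have := Finset.card_eq_one.mp hc
        obtain ⟨a, ha⟩ := this
        rw [ha] at hmem ⊢
        rw [Finset.mem_singleton.mp hmem]
      have hroot : ¬ f.IsRoot ζ := by
        rw [IsRoot.def, eval_eq_sum, sum_def, hs, Finset.sum_singleton]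
        exact mul_ne_zero (by rwa [← mem_support_iff]) (pow_ne_zero _ hζ)
      rw [rootMultiplicity_eq_zero hroot]
      exact Nat.zero_lt_one
    · have h1 := ih g hg0 hcard
      have h2 : f.rootMultiplicity ζ - 1 ≤ g.rootMultiplicity ζ := by
        rw [le_rootMultiplicity_iff hg0, hg]
        refine dvd_sub (Dvd.dvd.mul_left ?_ _) (Dvd.dvd.mul_left ?_ _)
        · exact pow_sub_one_dvd_derivative_of_pow_dvd (pow_rootMultiplicity_dvd f ζ)
        · exact (pow_dvd_pow _ (Nat.sub_le _ _)).trans (pow_rootMultiplicity_dvd f ζ)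
      omega

theorem mult_lt (f : ℂ[X]) (hf : f ≠ 0) (ζ : ℂ) (hζ : ζ ≠ 0) :
    f.rootMultiplicity ζ < f.support.card :=
  mult_lt_aux ζ hζ _ f hf rfl

theorem conj_pow (g : ℤ[X]) (ζ : ℂ) (N : ℕ) (hN : 0 < N) (hζ : IsPrimitiveRoot ζ N) (p : ℕ)
    (hp : p.Coprime N) (h : aeval ζ g = 0) : aeval (ζ ^ p) g = 0 := by
  have h1 : minpoly ℤ ζ ∣ g := minpoly.isIntegrallyClosed_dvd (hζ.isIntegral hN) h
  have h2 : minpoly ℤ ζ = minpoly ℤ (ζ ^ p) := hζ.minpoly_eq_pow_coprime hp
  rw [h2] at h1
  obtain ⟨q, hq⟩ := h1
  rw [hq, map_mul, minpoly.aeval, zero_mul]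

end H91.LK
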