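import Mathlib

/-!
# E2: a small prime which does not divide `N`

If `φ(N) ≤ D` then some prime `p ≤ 100 (log₂ D + 2)^2` does not divide `N`.

PROOF. `φ(N) ≥ 2 ^ (ω(N) - 1)` (the factor `p - 1 ≥ 2` for every prime `p > 2` dividing `N`; e.g. by induction over
`Nat.totient_eq_prod_factorization`, or: `∏_{p ∣ N} (p - 1) ∣ φ(N)`), so `N` has at most `log₂ D + 1` prime
factors. And `π(x) ≥ √x/2`, say, for `x = 100 (l + 2)^2`, `l = Nat.log 2 D` (`Chebyshev.pi_ge` of
Mathlib/NumberTheory/Chebyshev.lean: `π(m) ≥ (m log 2 - log (m+1))/log m`; compare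
Pool/Agent/H25/Arith/PrimeCount.lean), so there are more than `l + 1` primes `≤ x`.
-/

set_option autoImplicit false

namespace H91.LK

theorem two_pow_le_totient (N : ℕ) (hN : 0 < N) : 2 ^ (N.primeFactors.card - 1) ≤ N.totient := by
  rw [Nat.totient_eq_prod_factorization hN.ne', Finsupp.prod]
  have hs : N.factorization.support = N.primeFactors := Nat.support_factorization N
  rw [hs]
  have h1 : ∏ p ∈ N.primeFactors.erase 2, (2 : ℕ) ≤
      ∏ p ∈ N.primeFactors.erase 2, p ^ (N.factorization p - 1) * (p - 1) := by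
    refine Finset.prod_le_prod' fun p hp => ?_
    rw [Finset.mem_erase] at hp
    have hpp := Nat.prime_of_mem_primeFactors hp.2
    have h2 := hpp.two_le
    have h3 : 1 ≤ p ^ (N.factorization p - 1) := Nat.one_le_pow _ _ (by omega)
    have h4 : 2 ≤ p - 1 := by have := hp.1; omega
    calc 2 ≤ p - 1 := h4
      _ = 1 * (p - 1) := (one_mul _).symm
      _ ≤ _ := Nat.mul_le_mul_right _ h3
  have h2 : ∏ p ∈ N.primeFactors.erase 2, p ^ (N.factorization p - 1) * (p - 1) ≤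
      ∏ p ∈ N.primeFactors, p ^ (N.factorization p - 1) * (p - 1) := by
    refine Finset.prod_le_prod_of_subset_of_one_le' (Finset.erase_subset _ _) fun p hp _ => ?_
    have hpp := Nat.prime_of_mem_primeFactors hp
    have h2 := hpp.two_le
    exact Nat.one_le_iff_ne_zero.mpr (Nat.mul_ne_zero (pow_ne_zero _ (by omega)) (by omega))
  rw [Finset.prod_const] at h1
  refine le_trans (Nat.pow_le_pow_right (by norm_num) ?_) (h1.trans h2)
  have := Finset.pred_card_le_card_erase (s := N.primeFactors) (a := 2)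
  exact this

theorem small_pow (m : ℕ) (hm : 2 ≤ m) : 100 * m ^ 2 + 1 < 2 ^ (100 * m) := by
  have h1 : m < 2 ^ m := Nat.lt_two_pow_self
  have h2 : 100 * m ^ 2 + 1 < 128 * (2 ^ m) ^ 2 := by nlinarith
  have h3 : 128 * (2 ^ m) ^ 2 = 2 ^ (7 + 2 * m) := by rw [pow_add, ← pow_mul]; ring
  rw [h3] at h2
  exact h2.trans_le (Nat.pow_le_pow_right (by norm_num) (by omega))

theorem log_lt_of_lt (a k : ℕ) (h : a + 1 < 2 ^ k) : Real.log ((a : ℝ) + 1) < (k : ℝ) * Real.log 2 := by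
  rw [← Real.log_pow]
  refine Real.log_lt_log (by positivity) ?_
  exact_mod_cast h

theorem exists_prime (D N : ℕ) (hN : 0 < N) (hD : N.totient ≤ D) :
    ∃ p, p.Prime ∧ p ≤ 100 * (Nat.log 2 D + 2) ^ 2 ∧ ¬ p ∣ N := by
  by_contra hcon
  push Not at hcon
  set l := Nat.log 2 D with hl
  set m := l + 2 with hm
  have hω : N.primeFactors.card ≤ l + 1 := by
    have h1 := (two_pow_le_totient N hN).trans hD
    have h2 := Nat.log_mono_right (b := 2) h1
    rw [Nat.log_pow (by norm_num)] at h2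
    omega
  have hsub : Nat.primesLE (100 * m ^ 2) ⊆ N.primeFactors := by
    intro p hp
    rw [Nat.mem_primesLE] at hp
    exact Nat.mem_primeFactors.mpr ⟨hp.2, hcon p hp.2 hp.1, hN.ne'⟩
  have hpi : Nat.primeCounting (100 * m ^ 2) ≤ l + 1 := by
    have h := Finset.card_le_card hsub
    rw [Nat.primesLE_card_eq_primeCounting] at h
    omega
  have h1 := Chebyshev.psi_ge (100 * m ^ 2)
  have h2 := Chebyshev.psi_le_primeCounting_mul_log (100 * m ^ 2)
  have hmn : 1 ≤ 100 * m ^ 2 := Nat.one_le_iff_ne_zero.mpr (by positivity)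
  have hmr : (1 : ℝ) ≤ ((100 * m ^ 2 : ℕ) : ℝ) := by exact_mod_cast hmn
  have hlog : Real.log ((100 * m ^ 2 : ℕ) : ℝ) ≤ Real.log (((100 * m ^ 2 : ℕ) : ℝ) + 1) :=
    Real.log_le_log (by linarith) (by linarith)
  have hlog0 : 0 ≤ Real.log ((100 * m ^ 2 : ℕ) : ℝ) := Real.log_nonneg hmr
  have hpir : ((Nat.primeCounting (100 * m ^ 2) : ℕ) : ℝ) ≤ (l : ℝ) + 1 :=
    (Nat.cast_le.mpr hpi).trans (le_of_eq (by push_cast; rfl))
  have h3 : ((100 * m ^ 2 : ℕ) : ℝ) * Real.log 2 ≤ ((l : ℝ) + 2) * Real.log (((100 * m ^ 2 : ℕ) : ℝ) + 1) := by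
    have h4 : ((Nat.primeCounting (100 * m ^ 2) : ℕ) : ℝ) * Real.log ((100 * m ^ 2 : ℕ) : ℝ) ≤
        ((l : ℝ) + 1) * Real.log (((100 * m ^ 2 : ℕ) : ℝ) + 1) :=
      mul_le_mul hpir hlog hlog0 (by positivity)
    linarith
  have hm2 : 2 ≤ m := by rw [hm]; exact Nat.le_add_left 2 l
  have hsp := small_pow m hm2
  have h5 : Real.log (((100 * m ^ 2 : ℕ) : ℝ) + 1) < (100 * m : ℕ) * Real.log 2 := by
    have h8 := log_lt_of_lt (100 * m ^ 2) (100 * m) hsp
    exact h8
  have hmpos : (0 : ℝ) < (l : ℝ) + 2 := lt_of_lt_of_le two_pos (le_add_of_nonneg_left (Nat.cast_nonneg l))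
  have h6 := mul_lt_mul_of_pos_left h5 hmpos
  have h7 : ((l : ℝ) + 2) * (((100 * m : ℕ) : ℝ) * Real.log 2) = ((100 * m ^ 2 : ℕ) : ℝ) * Real.log 2 := by
    rw [Nat.cast_mul, Nat.cast_mul, Nat.cast_pow, hm, Nat.cast_add, Nat.cast_ofNat, Nat.cast_ofNat]
    ring
  linarith

end H91.LK
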