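import Mathlib

/-!
# E3: resultants over a polynomial ring

(a) For a unique factorisation domain `A`, `G ∈ A[Y]` irreducible of positive degree and `Q ∈ A[Y]` not divisible by
`G`, the resultant of `G` and `Q` is not zero.
PROOF. `G` is primitive (irreducible of positive degree), so irreducible over the fraction field `F` of `A`
(`Polynomial.IsPrimitive.irreducible_iff_irreducible_map_fraction_map`), and does not divide `Q` over `F`
(`Polynomial.IsPrimitive.dvd_iff_fraction_map_dvd_fraction_map` or similar, needs `GCDMonoid`/`NormalizedGCDMonoid`: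
choose one with `UniqueFactorizationMonoid.toGCDMonoid`). So `G`, `Q` are coprime over `F` and the resultant is not
zero (`Polynomial.resultant_ne_zero`, `Polynomial.resultant_map_map`).

(b) Degrees: if all the coefficients of `P`, `Q` (polynomials in `Y` over `ℤ[x_0, …, x_{r-1}]`) have degree `≤ b`, `≤ b'` in
`x_i` then the resultant with formal degrees `m`, `m'` has degree `≤ m' b + m b'` in `x_i`.
PROOF. Leibniz formula for the determinant of `Polynomial.sylvester P Q m m'`: of size `m + m'`, `m'` columns (or
rows) with coefficients of `P` and `m` with coefficients of `Q`.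

-/

set_option autoImplicit false

namespace H91.LK

open Polynomial

theorem resultant_ne_zero_of_irreducible {A : Type*} [CommRing A] [IsDomain A]
    [UniqueFactorizationMonoid A] (G Q : A[X]) (hG : Irreducible G) (hd : 0 < G.natDegree)
    (hQ : ¬ G ∣ Q) : Polynomial.resultant G Q G.natDegree Q.natDegree ≠ 0 := by
  classical
  set φ := algebraMap A (FractionRing A) with hφ
  have hinj : Function.Injective φ := IsFractionRing.injective A (FractionRing A)
  have hprim : G.IsPrimitive := hG.isPrimitive hd.ne'
  have hirr : Irreducible (G.map φ) :=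
    (Polynomial.IsPrimitive.irreducible_iff_irreducible_map_fraction_map hprim).1 hG
  have hnd : ¬ G.map φ ∣ Q.map φ := fun h =>
    hQ (hprim.dvd_of_fraction_map_dvd_fraction_map h)
  have hcop : IsCoprime (G.map φ) (Q.map φ) := (hirr.coprime_iff_not_dvd).2 hnd
  have hne := Polynomial.resultant_ne_zero _ _ hcop
  rw [Polynomial.natDegree_map_eq_of_injective hinj, Polynomial.natDegree_map_eq_of_injective hinj,
    Polynomial.resultant_map_map] at hne
  intro h0
  exact hne (by rw [h0, map_zero])

theorem degreeOf_resultant_le {r : ℕ} (P Q : (MvPolynomial (Fin r) ℤ)[X]) (m m' b b' : ℕ)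
    (i : Fin r) (hP : ∀ j, (P.coeff j).degreeOf i ≤ b) (hQ : ∀ j, (Q.coeff j).degreeOf i ≤ b') :
    (Polynomial.resultant P Q m m').degreeOf i ≤ m' * b + m * b' := by
  classical
  rw [Polynomial.resultant, Matrix.det_apply]
  refine (MvPolynomial.degreeOf_sum_le i _ _).trans (Finset.sup_le fun σ _ => ?_)
  have h1 : MvPolynomial.degreeOf i (Equiv.Perm.sign σ •
      ∏ j, sylvester P Q m m' (σ j) j) ≤
      MvPolynomial.degreeOf i (∏ j, sylvester P Q m m' (σ j) j) := by
    rcases Int.units_eq_one_or (Equiv.Perm.sign σ) with h | h
    · rw [h, one_smul]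
    · rw [h, Units.neg_smul, one_smul, MvPolynomial.degreeOf_neg]
  refine h1.trans ((MvPolynomial.degreeOf_prod_le i _ _).trans ?_)
  rw [Fin.sum_univ_add, add_comm (m' * b)]
  refine add_le_add ?_ ?_
  · refine (Finset.sum_le_card_nsmul _ _ b' fun j _ => ?_).trans (by simp)
    simp only [sylvester, Matrix.of_apply, Fin.addCases_left]
    split_ifs
    · exact hQ _
    · simp
  · refine (Finset.sum_le_card_nsmul _ _ b fun j _ => ?_).trans (by simp)
    simp only [sylvester, Matrix.of_apply, Fin.addCases_right]
    split_ifs
    · exact hP _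
    · simp

end H91.LK
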