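import Pool.Agent.H91.LK.Defs

/-!
# E4: Kronecker substitution

`kr K (r+1) G = ∑_j kr K r (coeff_j) X^(K^r j)`, where `coeff_j` are the coefficients of
`MvPolynomial.finSuccEquiv ℤ r G` (a polynomial in `Y = x_0` over `ℤ[x_1, …, x_r]`), degree bound and injectivity on
polynomials of partial degrees `< K`.

PROOF of the first: both sides are ring homomorphisms in `G` (right side: `Polynomial.eval₂ (kr K r) (X^(K^r))` after
`finSuccEquiv`); compare on constants and variables (`MvPolynomial.ringHom_ext`). Degree: induction on `r`.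
Nonvanishing: induction on `r`: with `b < K`, the degrees of the nonzero `kr K r (coeff_j)` are
`≤ b ∑_{i<r} K^i < K^r` (geometric sum, `b ≤ K - 1`), so the supports of the summands for different `j` are
disjoint (or: divide with remainder by `X^(K^r)`; or: the term with the largest `j` has larger degree than all others).
-/

set_option autoImplicit false

namespace H91.LK

open Polynomial

theorem kr_C (K r : ℕ) (a : ℤ) : kr K r (MvPolynomial.C a) = C a := by
  simp [kr]

theorem kr_X (K r : ℕ) (i : Fin r) :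
    kr K r (MvPolynomial.X i) = X ^ K ^ (r - 1 - (i : ℕ)) := by
  simp [kr]

theorem kr_succ (K r : ℕ) (G : MvPolynomial (Fin (r + 1)) ℤ) :
    kr K (r + 1) G = ((MvPolynomial.finSuccEquiv ℤ r G).eval₂ (kr K r) (X ^ K ^ r)) := by
  have h : kr K (r + 1) = (Polynomial.eval₂RingHom (kr K r) (X ^ K ^ r)).comp
      (MvPolynomial.finSuccEquiv ℤ r).toAlgHom.toRingHom := by
    apply MvPolynomial.ringHom_ext
    · intro a
      rw [kr_C]
      have h1 : MvPolynomial.finSuccEquiv ℤ r (MvPolynomial.C a) =
          Polynomial.C (MvPolynomial.C a) := by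
        simp
      change C a = Polynomial.eval₂ (kr K r) (X ^ K ^ r)
        (MvPolynomial.finSuccEquiv ℤ r (MvPolynomial.C a))
      rw [h1, Polynomial.eval₂_C, kr_C]
    · intro i
      rw [kr_X]
      change _ = Polynomial.eval₂ (kr K r) (X ^ K ^ r)
        (MvPolynomial.finSuccEquiv ℤ r (MvPolynomial.X i))
      refine Fin.cases ?_ (fun j => ?_) i
      · rw [MvPolynomial.finSuccEquiv_X_zero, Polynomial.eval₂_X]
        simp
      · rw [MvPolynomial.finSuccEquiv_X_succ, Polynomial.eval₂_C, kr_X]
        congr 2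
        rw [Fin.val_succ]
        omega
  exact congrArg (fun f => f G) h

theorem kr_rename_succ (K r : ℕ) (G : MvPolynomial (Fin r) ℤ) :
    kr K (r + 1) (MvPolynomial.rename Fin.succ G) = kr K r G := by
  have h : (kr K (r + 1)).comp (MvPolynomial.rename Fin.succ :
      MvPolynomial (Fin r) ℤ →ₐ[ℤ] MvPolynomial (Fin (r + 1)) ℤ).toRingHom = kr K r := by
    apply MvPolynomial.ringHom_ext
    · intro a
      rw [kr_C]
      change kr K (r + 1) (MvPolynomial.rename Fin.succ (MvPolynomial.C a)) = _
      rw [MvPolynomial.rename_C, kr_C]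
    · intro i
      rw [kr_X]
      change kr K (r + 1) (MvPolynomial.rename Fin.succ (MvPolynomial.X i)) = _
      rw [MvPolynomial.rename_X, kr_X]
      congr 2
      rw [Fin.val_succ]
      omega
  exact congrArg (fun f => f G) h

/-- the exponent of the image of a monomial -/
def ph (K r : ℕ) (s : Fin r → ℕ) : ℕ := ∑ i : Fin r, s i * K ^ (r - 1 - (i : ℕ))

theorem ph_succ (K r : ℕ) (s : Fin (r + 1) → ℕ) :
    ph K (r + 1) s = s 0 * K ^ r + ph K r (fun i => s i.succ) := by
  unfold ph
  rw [Fin.sum_univ_succ]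
  have h1 : r + 1 - 1 - ((0 : Fin (r + 1)) : ℕ) = r := by simp
  rw [h1]
  refine congrArg (fun z => s 0 * K ^ r + z) (Finset.sum_congr rfl fun i _ => ?_)
  have h2 : r + 1 - 1 - ((i.succ : Fin (r + 1)) : ℕ) = r - 1 - (i : ℕ) := by
    rw [Fin.val_succ]
    omega
  rw [h2]

theorem ph_lt (K : ℕ) : ∀ (r : ℕ) (s : Fin r → ℕ), (∀ i, s i < K) → ph K r s < K ^ r := by
  intro r
  induction r with
  | zero =>
    intro s _
    simp [ph]
  | succ r ih =>
    intro s hs
    rw [ph_succ]
    have h1 := ih (fun i => s i.succ) fun i => hs _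
    have h2 : (s 0 + 1) * K ^ r ≤ K * K ^ r := Nat.mul_le_mul_right _ (hs 0)
    rw [pow_succ']
    rw [add_mul, one_mul] at h2
    omega

theorem ph_inj (K : ℕ) : ∀ (r : ℕ) (s t : Fin r → ℕ), (∀ i, s i < K) → (∀ i, t i < K) →
    ph K r s = ph K r t → s = t := by
  intro r
  induction r with
  | zero =>
    intro s t _ _ _
    exact funext fun i => i.elim0
  | succ r ih =>
    intro s t hs ht h
    rw [ph_succ, ph_succ] at h
    have h1 := ph_lt K r (fun i => s i.succ) fun i => hs _
    have h2 := ph_lt K r (fun i => t i.succ) fun i => ht _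
    have hpos : 0 < K ^ r := by omega
    have e1 : (s 0 * K ^ r + ph K r (fun i => s i.succ)) / K ^ r = s 0 := by
      rw [add_comm, Nat.add_mul_div_right _ _ hpos, Nat.div_eq_of_lt h1, zero_add]
    have e2 : (t 0 * K ^ r + ph K r (fun i => t i.succ)) / K ^ r = t 0 := by
      rw [add_comm, Nat.add_mul_div_right _ _ hpos, Nat.div_eq_of_lt h2, zero_add]
    have e0 : s 0 = t 0 := by rw [← e1, ← e2, h]
    have e3 : ph K r (fun i => s i.succ) = ph K r (fun i => t i.succ) := by
      rw [e0] at h
      omega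
    have e4 := ih _ _ (fun i => hs _) (fun i => ht _) e3
    funext i
    refine Fin.cases e0 (fun j => ?_) i
    exact congrFun e4 j

theorem kr_monomial (K r : ℕ) (s : Fin r →₀ ℕ) (c : ℤ) :
    kr K r (MvPolynomial.monomial s c) = C c * X ^ ph K r s := by
  unfold kr ph
  rw [MvPolynomial.coe_eval₂Hom, MvPolynomial.eval₂_monomial, Finsupp.prod_fintype]
  · congr 1
    rw [← Finset.prod_pow_eq_pow_sum]
    refine Finset.prod_congr rfl fun i _ => ?_
    rw [← pow_mul, mul_comm]
  · intro i
    exact pow_zero _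

theorem kr_eq_sum (K r : ℕ) (R : MvPolynomial (Fin r) ℤ) :
    kr K r R = ∑ s ∈ R.support, C (R.coeff s) * X ^ ph K r s := by
  conv_lhs => rw [← MvPolynomial.support_sum_monomial_coeff R]
  rw [map_sum]
  exact Finset.sum_congr rfl fun s _ => kr_monomial K r s _

theorem natDegree_kr_le (K r b : ℕ) (R : MvPolynomial (Fin r) ℤ) (hb : ∀ i, R.degreeOf i ≤ b) :
    (kr K r R).natDegree ≤ b * ∑ i ∈ Finset.range r, K ^ i := by
  rw [kr_eq_sum]
  apply Polynomial.natDegree_sum_le_of_forall_le
  intro s hs
  refine (Polynomial.natDegree_C_mul_X_pow_le _ _).trans ?_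
  unfold ph
  have h1 : ∑ i ∈ Finset.range r, K ^ i = ∑ i : Fin r, K ^ (r - 1 - (i : ℕ)) := by
    rw [← Finset.sum_range_reflect, Finset.sum_range]
  rw [h1, Finset.mul_sum]
  refine Finset.sum_le_sum fun i _ => Nat.mul_le_mul_right _ ?_
  exact (MvPolynomial.monomial_le_degreeOf i hs).trans (hb i)

theorem kr_ne_zero (K r b : ℕ) (R : MvPolynomial (Fin r) ℤ) (hb : ∀ i, R.degreeOf i ≤ b)
    (hK : b < K) (hR : R ≠ 0) : kr K r R ≠ 0 := by
  obtain ⟨s, hs⟩ := MvPolynomial.ne_zero_iff.1 hR
  intro h0
  have h1 : (kr K r R).coeff (ph K r s) = R.coeff s := by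
    rw [kr_eq_sum, Polynomial.finsetSum_coeff]
    rw [Finset.sum_eq_single s]
    · rw [Polynomial.coeff_C_mul, Polynomial.coeff_X_pow, if_pos rfl, mul_one]
    · intro t ht hts
      rw [Polynomial.coeff_C_mul, Polynomial.coeff_X_pow, if_neg, mul_zero]
      intro he
      apply hts
      have hlt : ∀ t' ∈ R.support, ∀ i, t' i < K := fun t' ht' i =>
        lt_of_le_of_lt ((MvPolynomial.monomial_le_degreeOf i ht').trans (hb i)) hK
      have h2 := ph_inj K r t s (hlt t ht) (hlt s (MvPolynomial.mem_support_iff.2 hs)) he.symm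
      exact DFunLike.coe_injective h2
    · intro h
      exact absurd (MvPolynomial.mem_support_iff.2 hs) h
  rw [h0, Polynomial.coeff_zero] at h1
  exact hs h1.symm

/-- the substitution `x ↦ x^p` corresponds to `X ↦ X^p` -/
theorem kr_expand (K r p : ℕ) (R : MvPolynomial (Fin r) ℤ) :
    kr K r (MvPolynomial.expand p R) = Polynomial.expand ℤ p (kr K r R) := by
  have h : (kr K r).comp (MvPolynomial.expand p :
      MvPolynomial (Fin r) ℤ →ₐ[ℤ] MvPolynomial (Fin r) ℤ).toRingHom =
      (Polynomial.expand ℤ p).toRingHom.comp (kr K r) := by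
    apply MvPolynomial.ringHom_ext
    · intro a
      change kr K r (MvPolynomial.expand p (MvPolynomial.C a)) =
        Polynomial.expand ℤ p (kr K r (MvPolynomial.C a))
      rw [MvPolynomial.expand_C, kr_C, Polynomial.expand_C]
    · intro i
      change kr K r (MvPolynomial.expand p (MvPolynomial.X i)) =
        Polynomial.expand ℤ p (kr K r (MvPolynomial.X i))
      rw [MvPolynomial.expand_X, map_pow, kr_X, map_pow, Polynomial.expand_X, ← pow_mul,
        ← pow_mul, mul_comm]
  exact congrArg (fun f => f R) h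

end H91.LK
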