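import Pool.Agent.H91.LK.E3
import Pool.Agent.H91.LK.E4

/-!
# E5: irreducible polynomials which vanish at too many torsion points

PROOF. Induction on `r`. `r = 0`: `G` is a constant. Step: `Ĝ = finSuccEquiv ℤ r G ∈ A[Y]`, `A = ℤ[x_1, …, x_r]`,
irreducible. If `natDegree Ĝ = 0` then `G = rename Fin.succ G'` with `G' ∈ A` irreducible, `kr K (r+1) G = kr K r G'`
(`kr_rename_succ`), and the induction hypothesis applies (`MvPolynomial.expand` commutes with `rename`).
Let `d = natDegree Ĝ ≥ 1` (`d ≤ B`). If `Ĝ.coeff 0 = 0` then `Y ∣ Ĝ`, so `G` is associated to `X 0`. Suppose `Ĝ.coeff 0 ≠ 0` and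
`G ∤ expand p G` for all primes `p ≤ P0`. Let `Ĝ_p = finSuccEquiv (expand p G)` (coefficients `expand p (coeff_j)` at
`Y^(p j)`; degree `p d`; partial degrees of the coefficients `≤ p B`), `R_p = Res(Ĝ, Ĝ_p) ∈ A`, nonzero
(`resultant_ne_zero_of_irreducible`), partial degrees `≤ 2 p d B ≤ 2 P0 B² < K` (`degreeOf_resultant_le`), so
`kr K r R_p ≠ 0`, of degree `≤ 2 P0 B² S`, `S = ∑_{i<r} K^i`, and `(K - 1) S = K^r - 1`.
Let `g = kr K (r+1) G = ∑_j kr(coeff_j) X^(K^r j)`: `natDegree g ≥ K^r`, and the order of `g` at `0` is `≤ B S` (the term `j = 0` is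
not zero, has degree `≤ B S < K^r`, the other terms are divisible by `X^(K^r)`). So `g` has at least `K^r - B S` nonzero
complex roots with multiplicity, at least `(K^r - B S)/k` distinct ones (`hmult`). For each of them, `ζ`, there
is `p ≤ P0` prime with `g(ζ^p) = 0` (`htor`); then `Ĝ` and `Ĝ_p` specialised by `x_i ↦ ζ^(weight)` have the common root
`Y = ζ^(K^r)` (`kr_expand`), so `R_p` specialised vanishes (`Polynomial.exists_mul_add_mul_eq_C_resultant`), i.e.
`kr K r R_p` vanishes at `ζ`. Number of distinct roots `≤ ∑_{p ≤ P0} 2 P0 B² S ≤ 2 P0² B² S`. So `K^r ≤ B S + 2 k P0² B² S`,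
`S < K^r/(K-1)`... which contradicts `K > 1 + B + 2 k P0² B²`. (For `r = 0` in the step, `S = 0`: contradiction too.)
-/

set_option autoImplicit false

namespace H91.LK

open Polynomial

theorem kr_coeff_ph (K r b : ℕ) (R : MvPolynomial (Fin r) ℤ) (hb : ∀ i, R.degreeOf i ≤ b)
    (hK : b < K) (s : Fin r →₀ ℕ) (hs : s ∈ R.support) :
    (kr K r R).coeff (ph K r s) = R.coeff s := by
  rw [kr_eq_sum, Polynomial.finsetSum_coeff]
  rw [Finset.sum_eq_single s]
  · rw [Polynomial.coeff_C_mul, Polynomial.coeff_X_pow, if_pos rfl, mul_one]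
  · intro t ht hts
    rw [Polynomial.coeff_C_mul, Polynomial.coeff_X_pow, if_neg, mul_zero]
    intro he
    apply hts
    have hlt : ∀ t' ∈ R.support, ∀ i, t' i < K := fun t' ht' i =>
      lt_of_le_of_lt ((MvPolynomial.monomial_le_degreeOf i ht').trans (hb i)) hK
    have h2 := ph_inj K r t s (hlt t ht) (hlt s hs) he.symm
    exact DFunLike.coe_injective h2
  · intro h
    exact absurd hs h

theorem ph_le (K r b : ℕ) (s : Fin r → ℕ) (hs : ∀ i, s i ≤ b) :
    ph K r s ≤ b * ∑ i ∈ Finset.range r, K ^ i := by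
  unfold ph
  have h1 : ∑ i ∈ Finset.range r, K ^ i = ∑ i : Fin r, K ^ (r - 1 - (i : ℕ)) := by
    rw [← Finset.sum_range_reflect, Finset.sum_range]
  rw [h1, Finset.mul_sum]
  exact Finset.sum_le_sum fun i _ => Nat.mul_le_mul_right _ (hs i)

theorem le_natDegree_kr (K r b : ℕ) (G : MvPolynomial (Fin (r + 1)) ℤ)
    (hb : ∀ i, G.degreeOf i ≤ b) (hK : b < K)
    (hd : 0 < (MvPolynomial.finSuccEquiv ℤ r G).natDegree) :
    K ^ r ≤ (kr K (r + 1) G).natDegree := by
  have hG0 : (MvPolynomial.finSuccEquiv ℤ r G).leadingCoeff ≠ 0 := by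
    rw [Ne, Polynomial.leadingCoeff_eq_zero]
    intro h
    rw [h] at hd
    simp at hd
  obtain ⟨m, hm⟩ := MvPolynomial.ne_zero_iff.1 hG0
  have hm1 : m ∈ ((MvPolynomial.finSuccEquiv ℤ r G).coeff
      (MvPolynomial.finSuccEquiv ℤ r G).natDegree).support := MvPolynomial.mem_support_iff.2 hm
  rw [MvPolynomial.mem_support_coeff_finSuccEquiv] at hm1
  have h1 := kr_coeff_ph K (r + 1) b G hb hK _ hm1
  have h2 : (kr K (r + 1) G).coeff (ph K (r + 1)
      (m.cons (MvPolynomial.finSuccEquiv ℤ r G).natDegree)) ≠ 0 := by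
    rw [h1]
    exact MvPolynomial.mem_support_iff.1 hm1
  refine le_trans ?_ (Polynomial.le_natDegree_of_ne_zero h2)
  rw [ph_succ, Finsupp.cons_zero]
  calc K ^ r = 1 * K ^ r := (one_mul _).symm
    _ ≤ (MvPolynomial.finSuccEquiv ℤ r G).natDegree * K ^ r := Nat.mul_le_mul_right _ hd
    _ ≤ _ := Nat.le_add_right _ _

theorem natTrailingDegree_kr_le (K r b : ℕ) (G : MvPolynomial (Fin (r + 1)) ℤ)
    (hb : ∀ i, G.degreeOf i ≤ b) (hK : b < K)
    (hd : (MvPolynomial.finSuccEquiv ℤ r G).coeff 0 ≠ 0) :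
    (kr K (r + 1) G).natTrailingDegree ≤ b * ∑ i ∈ Finset.range r, K ^ i := by
  obtain ⟨m, hm⟩ := MvPolynomial.ne_zero_iff.1 hd
  have hm1 : m ∈ ((MvPolynomial.finSuccEquiv ℤ r G).coeff 0).support :=
    MvPolynomial.mem_support_iff.2 hm
  rw [MvPolynomial.mem_support_coeff_finSuccEquiv] at hm1
  have h1 := kr_coeff_ph K (r + 1) b G hb hK _ hm1
  have h2 : (kr K (r + 1) G).coeff (ph K (r + 1) (m.cons 0)) ≠ 0 := by
    rw [h1]
    exact MvPolynomial.mem_support_iff.1 hm1
  refine (Polynomial.natTrailingDegree_le_of_ne_zero h2).trans ?_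
  rw [ph_succ, Finsupp.cons_zero, zero_mul, zero_add]
  refine ph_le K r b _ fun i => ?_
  exact (MvPolynomial.monomial_le_degreeOf i.succ hm1).trans (hb _)

theorem degreeOf_expand_le {r : ℕ} (p b : ℕ) (G : MvPolynomial (Fin r) ℤ) (i : Fin r)
    (hb : G.degreeOf i ≤ b) : (MvPolynomial.expand p G).degreeOf i ≤ p * b := by
  classical
  rw [MvPolynomial.degreeOf_le_iff]
  intro m hm
  have h1 := MvPolynomial.support_expand_subset G hm
  obtain ⟨s, hs, rfl⟩ := Finset.mem_image.1 h1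
  rw [Finsupp.smul_apply, smul_eq_mul]
  exact Nat.mul_le_mul_left _ ((MvPolynomial.monomial_le_degreeOf i hs).trans hb)

theorem resultant_root (K r : ℕ) (G Q : MvPolynomial (Fin (r + 1)) ℤ) (ζ : ℂ)
    (hd : 0 < (MvPolynomial.finSuccEquiv ℤ r G).natDegree)
    (h1 : aeval ζ (kr K (r + 1) G) = 0) (h2 : aeval ζ (kr K (r + 1) Q) = 0) :
    aeval ζ (kr K r (Polynomial.resultant (MvPolynomial.finSuccEquiv ℤ r G)
      (MvPolynomial.finSuccEquiv ℤ r Q) (MvPolynomial.finSuccEquiv ℤ r G).natDegree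
      (MvPolynomial.finSuccEquiv ℤ r Q).natDegree)) = 0 := by
  set φ : MvPolynomial (Fin r) ℤ →+* ℂ := ((aeval ζ : ℤ[X] →ₐ[ℤ] ℂ) : ℤ[X] →+* ℂ).comp (kr K r)
    with hφ
  have key : ∀ H : MvPolynomial (Fin (r + 1)) ℤ, aeval ζ (kr K (r + 1) H) =
      (MvPolynomial.finSuccEquiv ℤ r H).eval₂ φ (ζ ^ K ^ r) := by
    intro H
    rw [kr_succ]
    have h3 := Polynomial.hom_eval₂ (MvPolynomial.finSuccEquiv ℤ r H) (kr K r)
      ((aeval ζ : ℤ[X] →ₐ[ℤ] ℂ) : ℤ[X] →+* ℂ) (X ^ K ^ r)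
    have h4 : ((aeval ζ : ℤ[X] →ₐ[ℤ] ℂ) : ℤ[X] →+* ℂ) (X ^ K ^ r) = ζ ^ K ^ r := by
      simp
    rw [h4] at h3
    exact h3
  rw [key] at h1 h2
  obtain ⟨p, q, -, -, e⟩ := Polynomial.exists_mul_add_mul_eq_C_resultant
    (MvPolynomial.finSuccEquiv ℤ r G) (MvPolynomial.finSuccEquiv ℤ r Q) le_rfl le_rfl
    (Or.inl hd.ne')
  have h5 := congrArg (Polynomial.eval₂ φ (ζ ^ K ^ r)) e
  rw [Polynomial.eval₂_add, Polynomial.eval₂_mul, Polynomial.eval₂_mul, h1, h2, zero_mul,
    zero_mul, add_zero, Polynomial.eval₂_C] at h5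
  exact h5.symm

theorem natDegree_le_of_roots (g : ℂ[X]) (hg : g ≠ 0) (k : ℕ) (T : Finset ℂ)
    (hm : ∀ z : ℂ, z ≠ 0 → g.rootMultiplicity z ≤ k)
    (hT : ∀ z : ℂ, z ≠ 0 → g.eval z = 0 → z ∈ T) :
    g.natDegree ≤ g.natTrailingDegree + k * T.card := by
  classical
  have h1 : g.natDegree = Multiset.card g.roots :=
    (Polynomial.splits_iff_card_roots.1 (IsAlgClosed.splits g)).symm
  rw [h1, ← Multiset.toFinset_sum_count_eq]
  have h2 : g.roots.toFinset ⊆ insert 0 (T.erase 0) := by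
    intro z hz
    rw [Multiset.mem_toFinset, Polynomial.mem_roots hg] at hz
    by_cases h0 : z = 0
    · rw [h0]
      exact Finset.mem_insert_self _ _
    · exact Finset.mem_insert_of_mem (Finset.mem_erase.2 ⟨h0, hT z h0 hz⟩)
  refine (Finset.sum_le_sum_of_subset h2).trans ?_
  rw [Finset.sum_insert (Finset.notMem_erase 0 T)]
  refine add_le_add ?_ ?_
  · rw [Polynomial.count_roots, Polynomial.rootMultiplicity_eq_natTrailingDegree']
  · refine (Finset.sum_le_card_nsmul _ _ k fun z hz => ?_).trans ?_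
    · rw [Polynomial.count_roots]
      exact hm z (Finset.mem_erase.1 hz).1
    · rw [smul_eq_mul, mul_comm]
      exact Nat.mul_le_mul_left _ (Finset.card_le_card (Finset.erase_subset _ _))

theorem finSuccEquiv_rename_succ {r : ℕ} (G : MvPolynomial (Fin r) ℤ) :
    MvPolynomial.finSuccEquiv ℤ r (MvPolynomial.rename Fin.succ G) = C G := by
  have h : ((MvPolynomial.finSuccEquiv ℤ r).toAlgHom.toRingHom).comp (MvPolynomial.rename Fin.succ :
      MvPolynomial (Fin r) ℤ →ₐ[ℤ] MvPolynomial (Fin (r + 1)) ℤ).toRingHom =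
      (C : MvPolynomial (Fin r) ℤ →+* (MvPolynomial (Fin r) ℤ)[X]) := by
    apply MvPolynomial.ringHom_ext
    · intro a
      change MvPolynomial.finSuccEquiv ℤ r
        (MvPolynomial.rename Fin.succ (MvPolynomial.C a)) = _
      rw [MvPolynomial.rename_C]
      simp
    · intro i
      change MvPolynomial.finSuccEquiv ℤ r
        (MvPolynomial.rename Fin.succ (MvPolynomial.X i)) = _
      rw [MvPolynomial.rename_X, MvPolynomial.finSuccEquiv_X_succ]
  exact congrArg (fun f => f G) h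

theorem counting_step (B P0 k K r : ℕ) (hB : 1 ≤ B) (hP0 : 1 ≤ P0) (hk : 1 ≤ k)
    (hK : 4 * k * P0 ^ 2 * B ^ 2 + B + 2 ≤ K) (G : MvPolynomial (Fin (r + 1)) ℤ)
    (hG : Irreducible G) (hdeg : ∀ i, G.degreeOf i ≤ B)
    (htor : ∀ ζ : ℂ, ζ ≠ 0 → aeval ζ (kr K (r + 1) G) = 0 →
        ∃ p, p.Prime ∧ p ≤ P0 ∧ aeval (ζ ^ p) (kr K (r + 1) G) = 0)
    (hmult : ∀ ζ : ℂ, ζ ≠ 0 →
      ((kr K (r + 1) G).map (Int.castRingHom ℂ)).rootMultiplicity ζ ≤ k)
    (hd : 0 < (MvPolynomial.finSuccEquiv ℤ r G).natDegree)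
    (h0 : (MvPolynomial.finSuccEquiv ℤ r G).coeff 0 ≠ 0)
    (hndvd : ∀ p, p.Prime → p ≤ P0 → ¬ G ∣ MvPolynomial.expand p G) : False := by
  classical
  set S := ∑ i ∈ Finset.range r, K ^ i with hS
  have hPB : 1 ≤ k * P0 ^ 2 * B ^ 2 := Nat.one_le_iff_ne_zero.2 (by positivity)
  have hBK : B < K := by nlinarith
  set Gh := MvPolynomial.finSuccEquiv ℤ r G with hGh
  have hGhirr : Irreducible Gh := (MulEquiv.irreducible_iff
    (MvPolynomial.finSuccEquiv ℤ r)).2 hG
  set Gp : ℕ → (MvPolynomial (Fin r) ℤ)[X] := fun p =>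
    MvPolynomial.finSuccEquiv ℤ r (MvPolynomial.expand p G) with hGp
  set R : ℕ → MvPolynomial (Fin r) ℤ := fun p =>
    Polynomial.resultant Gh (Gp p) Gh.natDegree (Gp p).natDegree with hR
  have hGd : Gh.natDegree ≤ B := by
    rw [hGh, MvPolynomial.natDegree_finSuccEquiv]
    exact hdeg 0
  -- the resultants
  have hRne : ∀ p, p.Prime → p ≤ P0 → R p ≠ 0 := by
    intro p hp hpP
    refine resultant_ne_zero_of_irreducible Gh (Gp p) hGhirr hd fun h => hndvd p hp hpP ?_
    have h1 := map_dvd (MvPolynomial.finSuccEquiv ℤ r).symm h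
    simpa [hGh, hGp] using h1
  have hRdeg : ∀ p, p ≤ P0 → ∀ i, (R p).degreeOf i ≤ 2 * P0 * B ^ 2 := by
    intro p hp i
    have hpd : (Gp p).natDegree ≤ p * B := by
      rw [hGp]
      simp only
      rw [MvPolynomial.natDegree_finSuccEquiv]
      exact degreeOf_expand_le p B G 0 (hdeg 0)
    refine (degreeOf_resultant_le Gh (Gp p) Gh.natDegree (Gp p).natDegree B (p * B) i
      (fun j => (MvPolynomial.degreeOf_coeff_finSuccEquiv G i j).trans (hdeg _))
      (fun j => (MvPolynomial.degreeOf_coeff_finSuccEquiv _ i j).trans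
        (degreeOf_expand_le p B G _ (hdeg _)))).trans ?_
    calc (Gp p).natDegree * B + Gh.natDegree * (p * B) ≤ (P0 * B) * B + B * (P0 * B) := by
          gcongr
          exact hpd.trans (Nat.mul_le_mul_right _ hp)
      _ = 2 * P0 * B ^ 2 := by ring
  have hbK : 2 * P0 * B ^ 2 < K := by
    have : 2 * P0 * B ^ 2 ≤ 4 * k * P0 ^ 2 * B ^ 2 := by
      calc 2 * P0 * B ^ 2 = 2 * 1 * (P0 * 1) * B ^ 2 := by ring
        _ ≤ 4 * k * (P0 * P0) * B ^ 2 := by gcongr; norm_num
        _ = 4 * k * P0 ^ 2 * B ^ 2 := by ring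
    omega
  -- the polynomial
  set g := (kr K (r + 1) G).map (Int.castRingHom ℂ) with hg
  have hinj : Function.Injective (Int.castRingHom ℂ) := Int.cast_injective
  have hg0 : g ≠ 0 := by
    rw [hg, Ne, Polynomial.map_eq_zero_iff hinj]
    exact kr_ne_zero K (r + 1) B G hdeg hBK hG.ne_zero
  set T : Finset ℂ := ((Finset.range (P0 + 1)).filter Nat.Prime).biUnion fun p =>
    ((kr K r (R p)).map (Int.castRingHom ℂ)).roots.toFinset with hT
  have hTcard : T.card ≤ P0 * (2 * P0 * B ^ 2 * S) := by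
    refine Finset.card_biUnion_le.trans ?_
    refine (Finset.sum_le_card_nsmul _ _ (2 * P0 * B ^ 2 * S) fun p hp => ?_).trans ?_
    · refine (Multiset.toFinset_card_le _).trans ?_
      refine (Polynomial.card_roots' _).trans ?_
      refine (Polynomial.natDegree_map_le).trans ?_
      exact natDegree_kr_le K r _ _ (hRdeg p (by
        have := Finset.mem_range.1 (Finset.mem_filter.1 hp).1
        omega))
    · rw [smul_eq_mul]
      refine Nat.mul_le_mul_right _ ?_
      calc _ ≤ (Finset.Icc 1 P0).card := Finset.card_le_card fun p hp => by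
            have h1 := Finset.mem_range.1 (Finset.mem_filter.1 hp).1
            have h2 := (Finset.mem_filter.1 hp).2.pos
            exact Finset.mem_Icc.2 ⟨h2, by omega⟩
        _ = P0 := by simp
  have hTmem : ∀ z : ℂ, z ≠ 0 → g.eval z = 0 → z ∈ T := by
    intro z hz hgz
    have h1 : aeval z (kr K (r + 1) G) = 0 := by
      rw [← hgz, hg, Polynomial.eval_map, Polynomial.aeval_def]
      rfl
    obtain ⟨p, hp, hpP, h2⟩ := htor z hz h1
    have h3 : aeval z (kr K (r + 1) (MvPolynomial.expand p G)) = 0 := by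
      rw [kr_expand, Polynomial.expand_aeval]
      exact h2
    have h4 := resultant_root K r G (MvPolynomial.expand p G) z hd h1 h3
    refine Finset.mem_biUnion.2 ⟨p, Finset.mem_filter.2 ⟨Finset.mem_range.2 (by omega), hp⟩, ?_⟩
    rw [Multiset.mem_toFinset, Polynomial.mem_roots]
    · rw [Polynomial.IsRoot.def, Polynomial.eval_map]
      rw [Polynomial.aeval_def] at h4
      exact h4
    · rw [Ne, Polynomial.map_eq_zero_iff hinj]
      exact kr_ne_zero K r _ _ (hRdeg p hpP) hbK (hRne p hp hpP)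
  have hmain := natDegree_le_of_roots g hg0 k T hmult hTmem
  have h1 : K ^ r ≤ g.natDegree := by
    rw [hg, Polynomial.natDegree_map_eq_of_injective hinj]
    exact le_natDegree_kr K r B G hdeg hBK hd
  have h2 : g.natTrailingDegree ≤ B * S := by
    refine le_trans ?_ (natTrailingDegree_kr_le K r B G hdeg hBK h0)
    have hne : kr K (r + 1) G ≠ 0 := kr_ne_zero K (r + 1) B G hdeg hBK hG.ne_zero
    refine Polynomial.natTrailingDegree_le_of_ne_zero ?_
    rw [hg, Polynomial.coeff_map]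
    have h3 := Polynomial.coeff_natTrailingDegree_ne_zero.2 hne
    simpa using h3
  have h3 : S * (K - 1) + 1 = K ^ r := by
    have hgs := Nat.geomSum_eq (m := K) (by omega) r
    have hgs2 : (K ^ r - 1) = S * (K - 1) := by
      rw [hS, Nat.geomSum_eq (by omega)]
      exact (Nat.div_mul_cancel (Nat.sub_one_dvd_pow_sub_one K r)).symm
    have hpos : 1 ≤ K ^ r := Nat.one_le_pow _ _ (by omega)
    omega
  have h4 : k * T.card ≤ k * (P0 * (2 * P0 * B ^ 2 * S)) := Nat.mul_le_mul_left _ hTcard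
  have h5 : K ^ r ≤ B * S + k * (P0 * (2 * P0 * B ^ 2 * S)) := by omega
  have h6 : B * S + k * (P0 * (2 * P0 * B ^ 2 * S)) = S * (B + 2 * k * P0 ^ 2 * B ^ 2) := by ring
  have h7 : B + 2 * k * P0 ^ 2 * B ^ 2 ≤ K - 1 := by
    have : 2 * k * P0 ^ 2 * B ^ 2 ≤ 4 * k * P0 ^ 2 * B ^ 2 := by
      gcongr
      norm_num
    omega
  have h8 : S * (B + 2 * k * P0 ^ 2 * B ^ 2) ≤ S * (K - 1) := Nat.mul_le_mul_left _ h7
  omega

theorem torsion_irreducible (B P0 k K : ℕ) (hB : 1 ≤ B) (hP0 : 1 ≤ P0) (hk : 1 ≤ k)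
    (hK : 4 * k * P0 ^ 2 * B ^ 2 + B + 2 ≤ K) :
    ∀ (r : ℕ) (G : MvPolynomial (Fin r) ℤ), Irreducible G → (∀ i, G.degreeOf i ≤ B) →
      (∀ ζ : ℂ, ζ ≠ 0 → aeval ζ (kr K r G) = 0 →
        ∃ p, p.Prime ∧ p ≤ P0 ∧ aeval (ζ ^ p) (kr K r G) = 0) →
      (∀ ζ : ℂ, ζ ≠ 0 → ((kr K r G).map (Int.castRingHom ℂ)).rootMultiplicity ζ ≤ k) →
      (∃ p, p.Prime ∧ p ≤ P0 ∧ G ∣ MvPolynomial.expand p G) ∨ (∃ c, G = MvPolynomial.C c) ∨
        ∃ i, Associated G (MvPolynomial.X i) := by
  intro r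
  induction r with
  | zero =>
    intro G _ _ _ _
    exact Or.inr (Or.inl ⟨_, MvPolynomial.eq_C_of_isEmpty G⟩)
  | succ r ih =>
    intro G hG hdeg htor hmult
    by_cases hd : (MvPolynomial.finSuccEquiv ℤ r G).natDegree = 0
    · obtain ⟨G', hG'⟩ : ∃ G' : MvPolynomial (Fin r) ℤ,
          MvPolynomial.finSuccEquiv ℤ r G = C G' := ⟨_, Polynomial.eq_C_of_natDegree_eq_zero hd⟩
      have hGr : G = MvPolynomial.rename Fin.succ G' := by
        apply (MvPolynomial.finSuccEquiv ℤ r).injective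
        rw [hG', finSuccEquiv_rename_succ]
      have hirr : Irreducible G' := by
        have h1 : Irreducible (MvPolynomial.finSuccEquiv ℤ r G) := (MulEquiv.irreducible_iff
          (MvPolynomial.finSuccEquiv ℤ r)).2 hG
        rw [hG'] at h1
        refine ⟨fun h => h1.not_isUnit (Polynomial.isUnit_C.2 h), fun a b hab => ?_⟩
        have h2 := h1.isUnit_or_isUnit (a := C a) (b := C b) (by rw [hab, C_mul])
        rwa [Polynomial.isUnit_C, Polynomial.isUnit_C] at h2
      have hkr : kr K (r + 1) G = kr K r G' := by rw [hGr, kr_rename_succ]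
      have hdeg' : ∀ i, G'.degreeOf i ≤ B := by
        intro i
        have h1 := hdeg i.succ
        rwa [hGr, MvPolynomial.degreeOf_rename_of_injective (Fin.succ_injective r)] at h1
      rw [hkr] at htor hmult
      rcases ih G' hirr hdeg' htor hmult with ⟨p, hp, hpP, hdvd⟩ | ⟨c, hc⟩ | ⟨i, hi⟩
      · left
        refine ⟨p, hp, hpP, ?_⟩
        rw [hGr, ← MvPolynomial.rename_expand]
        exact map_dvd _ hdvd
      · right; left
        exact ⟨c, by rw [hGr, hc, MvPolynomial.rename_C]⟩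
      · right; right
        refine ⟨i.succ, ?_⟩
        have h1 := hi.map (MvPolynomial.rename Fin.succ :
          MvPolynomial (Fin r) ℤ →ₐ[ℤ] MvPolynomial (Fin (r + 1)) ℤ)
        rwa [MvPolynomial.rename_X, ← hGr] at h1
    · by_cases h0 : (MvPolynomial.finSuccEquiv ℤ r G).coeff 0 = 0
      · right; right
        refine ⟨0, ?_⟩
        have h1 : Irreducible (MvPolynomial.finSuccEquiv ℤ r G) := (MulEquiv.irreducible_iff
          (MvPolynomial.finSuccEquiv ℤ r)).2 hG
        have h2 : (X : (MvPolynomial (Fin r) ℤ)[X]) ∣ MvPolynomial.finSuccEquiv ℤ r G :=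
          Polynomial.X_dvd_iff.2 h0
        have h3 : Associated (X : (MvPolynomial (Fin r) ℤ)[X])
            (MvPolynomial.finSuccEquiv ℤ r G) :=
          Polynomial.irreducible_X.associated_of_dvd h1 h2
        have h4 := h3.symm.map (MvPolynomial.finSuccEquiv ℤ r).symm
        have h5 : (MvPolynomial.finSuccEquiv ℤ r).symm X = MvPolynomial.X 0 := by
          rw [AlgEquiv.symm_apply_eq, MvPolynomial.finSuccEquiv_X_zero]
        rwa [AlgEquiv.symm_apply_apply, h5] at h4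
      · left
        by_contra hno
        push Not at hno
        exact counting_step B P0 k K r hB hP0 hk hK G hG hdeg htor hmult (Nat.pos_of_ne_zero hd)
          h0 hno

end H91.LK
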