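import Pool.Agent.H91.LK.E1
import Pool.Agent.H91.LK.E2
import Pool.Agent.H91.LK.E5

/-!
# E6: the specialisation lemma

PROOF. `F = ∑_i a_i ∏_j x_j^(v j i) ∈ ℤ[x_0, …, x_{r-1}]`, `kr K r F = sp a m` (`hm`), `F ≠ 0` (as `m` is injective,
`sp a m ≠ 0`), `degreeOf j F ≤ B`. Every nonzero complex root `ζ` of `sp a m` is a root of unity (`hM`), of order `N`
say, `φ(N) ≤ natDegree (sp a m) ≤ D` (the cyclotomic polynomial is its minimal polynomial, degree `φ(N)`), so by `exists_prime`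
some prime `p ≤ P0 = 100 (log₂ D + 2)^2` does not divide `N`. The multiplicity of `ζ` in `sp a m` is `< k` (`mult_lt`).
For an irreducible factor `G` of `F`: `kr K r G ∣ sp a m`, `degreeOf j G ≤ B`, and if `kr K r G` vanishes at `ζ ≠ 0` then it
vanishes at `ζ^p` (`conj_pow`). So `torsion_irreducible` applies to `G`.
Let `P = (γ^(q j))_j`, `F(P) = 0` by `hzero`. Some irreducible factor `G` of `F` has `G(P) = 0` (factorisation:
`UniqueFactorizationMonoid.exists_prime_factors` or strong induction). `G` is not constant and not associated to a variable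
(`P_j ≠ 0`). So `G ∣ expand p G` for some prime `p`; hence `G(P^(p^l)) = 0` for all `l`, and `F(P^(p^l)) = 0`, i.e.
`h(γ^(p^l)) = 0`, `h(w) = ∑_i a_i w^(e_i)`, `e_i = ∑_j q_j v j i` distinct integers (`hinj`). `h(w) w^s` is a nonzero polynomial
(for `s` large), so it has finitely many zeros: `γ^(p^l) = γ^(p^l')` for some `l < l'`, so `γ` is a root of unity.
-/

set_option autoImplicit false

namespace H91.LK

open Polynomial

/-! ### the polynomial `sp` -/

theorem E6_coeff {k : ℕ} (a : Fin k → ℤ) (e : Fin k → ℕ) (he : Function.Injective e) (i : Fin k) :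
    (sp a e).coeff (e i) = a i := by
  unfold sp
  rw [Polynomial.finsetSum_coeff, Finset.sum_eq_single i]
  · rw [coeff_monomial, if_pos rfl]
  · intro j _ hj
    rw [coeff_monomial, if_neg (fun h => hj (he h))]
  · intro h; exact absurd (Finset.mem_univ _) h

theorem E6_ne {k : ℕ} (hk : 0 < k) (a : Fin k → ℤ) (ha : ∀ i, a i ≠ 0) (e : Fin k → ℕ)
    (he : Function.Injective e) : sp a e ≠ 0 := by
  intro h
  have h1 := E6_coeff a e he ⟨0, hk⟩
  rw [h, coeff_zero] at h1
  exact ha _ h1.symm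

theorem E6_card {k : ℕ} (a : Fin k → ℤ) (e : Fin k → ℕ) :
    ((sp a e).map (Int.castRingHom ℂ)).support.card ≤ k := by
  have h1 : ((sp a e).map (Int.castRingHom ℂ)).support ⊆ Finset.univ.image e := by
    intro d hd
    by_contra hc
    rw [Polynomial.mem_support_iff, Polynomial.coeff_map] at hd
    apply hd
    have h2 : (sp a e).coeff d = 0 := by
      unfold sp
      rw [Polynomial.finsetSum_coeff]
      refine Finset.sum_eq_zero fun i _ => ?_
      rw [coeff_monomial, if_neg]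
      intro h
      exact hc (Finset.mem_image.2 ⟨i, Finset.mem_univ _, h⟩)
    rw [h2, map_zero]
  refine (Finset.card_le_card h1).trans (Finset.card_image_le.trans ?_)
  rw [Finset.card_univ, Fintype.card_fin]

/-! ### the polynomial in several variables -/

/-- the polynomial `∑_i a_i ∏_j x_j^(v j i)` -/
noncomputable def E6_F {k r : ℕ} (a : Fin k → ℤ) (v : Fin r → Fin k → ℕ) :
    MvPolynomial (Fin r) ℤ :=
  ∑ i, MvPolynomial.monomial (Finsupp.equivFunOnFinite.symm fun j => v j i) (a i)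

theorem E6_kr {k r : ℕ} (a : Fin k → ℤ) (v : Fin r → Fin k → ℕ) (K : ℕ) (m : Fin k → ℕ)
    (hm : ∀ i, m i = ∑ j : Fin r, K ^ (r - 1 - (j : ℕ)) * v j i) :
    kr K r (E6_F a v) = sp a m := by
  unfold E6_F sp
  rw [map_sum]
  refine Finset.sum_congr rfl fun i _ => ?_
  rw [kr_monomial, hm i, ← C_mul_X_pow_eq_monomial]
  congr 2
  unfold ph
  exact Finset.sum_congr rfl fun j _ => mul_comm _ _

theorem E6_deg {k r : ℕ} (a : Fin k → ℤ) (ha : ∀ i, a i ≠ 0) (v : Fin r → Fin k → ℕ) (B : ℕ)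
    (hB : ∀ j i, v j i ≤ B) (j : Fin r) : (E6_F a v).degreeOf j ≤ B := by
  unfold E6_F
  refine (MvPolynomial.degreeOf_sum_le _ _ _).trans (Finset.sup_le fun i _ => ?_)
  rw [MvPolynomial.degreeOf_monomial_eq _ _ (ha i)]
  exact hB j i

/-- evaluation at the point `(w^(q j))_j` -/
noncomputable def E6_ev {r : ℕ} (q : Fin r → ℤ) (w : ℂ) : MvPolynomial (Fin r) ℤ →+* ℂ :=
  MvPolynomial.eval₂Hom (Int.castRingHom ℂ) fun j => w ^ q j

theorem E6_ev_X {r : ℕ} (q : Fin r → ℤ) (w : ℂ) (j : Fin r) :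
    E6_ev q w (MvPolynomial.X j) = w ^ q j := by
  unfold E6_ev
  simp

theorem E6_ev_C {r : ℕ} (q : Fin r → ℤ) (w : ℂ) (c : ℤ) :
    E6_ev q w (MvPolynomial.C c) = (c : ℂ) := by
  unfold E6_ev
  simp

theorem E6_ev_expand {r : ℕ} (q : Fin r → ℤ) (w : ℂ) (p : ℕ) (G : MvPolynomial (Fin r) ℤ) :
    E6_ev q w (MvPolynomial.expand p G) = E6_ev q (w ^ p) G := by
  have h : (E6_ev q w).comp (MvPolynomial.expand p :
      MvPolynomial (Fin r) ℤ →ₐ[ℤ] MvPolynomial (Fin r) ℤ).toRingHom = E6_ev q (w ^ p) := by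
    apply MvPolynomial.ringHom_ext
    · intro c
      change E6_ev q w (MvPolynomial.expand p (MvPolynomial.C c)) = _
      rw [MvPolynomial.expand_C, E6_ev_C, E6_ev_C]
    · intro j
      change E6_ev q w (MvPolynomial.expand p (MvPolynomial.X j)) = _
      rw [MvPolynomial.expand_X, map_pow, E6_ev_X, E6_ev_X, ← zpow_natCast, ← zpow_natCast,
        ← zpow_mul, ← zpow_mul, mul_comm]
  exact congrArg (fun f => f G) h

theorem E6_prod_zpow {ι : Type*} (s : Finset ι) (w : ℂ) (hw : w ≠ 0) (x : ι → ℤ) :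
    ∏ j ∈ s, w ^ x j = w ^ ∑ j ∈ s, x j := by
  classical
  induction s using Finset.induction_on with
  | empty => simp
  | insert j s hj ih => rw [Finset.prod_insert hj, Finset.sum_insert hj, zpow_add₀ hw, ih]

theorem E6_ev_F {k r : ℕ} (a : Fin k → ℤ) (v : Fin r → Fin k → ℕ) (q : Fin r → ℤ) (w : ℂ)
    (hw : w ≠ 0) : E6_ev q w (E6_F a v) = ∑ i, (a i : ℂ) * w ^ (∑ j, q j * (v j i : ℤ)) := by
  unfold E6_F
  rw [map_sum]
  refine Finset.sum_congr rfl fun i _ => ?_
  unfold E6_ev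
  rw [MvPolynomial.coe_eval₂Hom, MvPolynomial.eval₂_monomial, Finsupp.prod_fintype]
  · congr 1
    rw [← E6_prod_zpow _ w hw]
    refine Finset.prod_congr rfl fun j _ => ?_
    rw [zpow_mul, zpow_natCast]
    rfl
  · intro j
    exact pow_zero _

/-- some irreducible factor vanishes -/
theorem E6_factor {r : ℕ} (φ : MvPolynomial (Fin r) ℤ →+* ℂ) (F : MvPolynomial (Fin r) ℤ)
    (hF : F ≠ 0) (h : φ F = 0) : ∃ G, Irreducible G ∧ G ∣ F ∧ φ G = 0 := by
  obtain ⟨s, hs, u, hu⟩ := WfDvdMonoid.exists_factors F hF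
  have h1 : φ s.prod = 0 := by
    have h2 : φ s.prod * φ (u : MvPolynomial (Fin r) ℤ) = 0 := by
      rw [← map_mul, hu, h]
    rcases mul_eq_zero.1 h2 with h3 | h3
    · exact h3
    · exact absurd h3 ((u.isUnit.map φ).ne_zero)
  rw [map_multiset_prod, Multiset.prod_eq_zero_iff, Multiset.mem_map] at h1
  obtain ⟨G, hG, hG0⟩ := h1
  exact ⟨G, hs G hG, (Multiset.dvd_prod hG).trans ⟨u, hu.symm⟩, hG0⟩

/-- an exponential sum with distinct integer exponents has finitely many zeros -/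
theorem E6_finite {k : ℕ} (hk : 0 < k) (a : Fin k → ℤ) (ha : ∀ i, a i ≠ 0) (e : Fin k → ℤ)
    (he : Function.Injective e) :
    {w : ℂ | w ≠ 0 ∧ ∑ i, (a i : ℂ) * w ^ e i = 0}.Finite := by
  set s : ℕ := ∑ i, (e i).natAbs with hs
  have hle : ∀ i, 0 ≤ e i + s := by
    intro i
    have h1 : (e i).natAbs ≤ s := Finset.single_le_sum (f := fun i => (e i).natAbs)
      (fun _ _ => Nat.zero_le _) (Finset.mem_univ i)
    omega
  set d : Fin k → ℕ := fun i => (e i + s).toNat with hd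
  have hdi : Function.Injective d := by
    intro i j h
    apply he
    have h1 := hle i
    have h2 := hle j
    simp only [hd] at h
    omega
  have hne := E6_ne hk a ha d hdi
  have hne' : (sp a d).map (Int.castRingHom ℂ) ≠ 0 := by
    rw [Ne, Polynomial.map_eq_zero_iff (RingHom.injective_int _)]
    exact hne
  refine Set.Finite.subset ((sp a d).map (Int.castRingHom ℂ)).roots.toFinset.finite_toSet ?_
  rintro w ⟨hw, hw0⟩
  rw [Finset.mem_coe, Multiset.mem_toFinset, Polynomial.mem_roots hne', Polynomial.IsRoot.def,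
    Polynomial.eval_map]
  have h1 : (sp a d).eval₂ (Int.castRingHom ℂ) w = w ^ s * ∑ i, (a i : ℂ) * w ^ e i := by
    unfold sp
    rw [Polynomial.eval₂_finsetSum, Finset.mul_sum]
    refine Finset.sum_congr rfl fun i _ => ?_
    rw [Polynomial.eval₂_monomial]
    have h2 : w ^ d i = w ^ s * w ^ e i := by
      have h3 : ((d i : ℕ) : ℤ) = s + e i := by
        simp only [hd]
        rw [Int.toNat_of_nonneg (hle i)]
        ring
      rw [← zpow_natCast, h3, zpow_add₀ hw, zpow_natCast]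
    rw [h2]
    simp only [eq_intCast]
    ring
  rw [h1, hw0, mul_zero]

theorem special {k r : ℕ} (hk : 0 < k) (a : Fin k → ℤ) (ha : ∀ i, a i ≠ 0)
    (v : Fin r → Fin k → ℕ) (B K D : ℕ) (hB1 : 1 ≤ B) (hB : ∀ j i, v j i ≤ B)
    (m : Fin k → ℕ) (hm : ∀ i, m i = ∑ j : Fin r, K ^ (r - 1 - (j : ℕ)) * v j i)
    (hmi : Function.Injective m) (hD : (sp a m).natDegree ≤ D)
    (hK : 4 * k * (100 * (Nat.log 2 D + 2) ^ 2) ^ 2 * B ^ 2 + B + 2 ≤ K)
    (hM : ∀ ζ : ℂ, ζ ≠ 0 → aeval ζ (sp a m) = 0 → ∃ N, 0 < N ∧ ζ ^ N = 1)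
    (q : Fin r → ℤ) (hinj : Function.Injective fun i => ∑ j, q j * (v j i : ℤ))
    (γ : ℂ) (hγ : γ ≠ 0) (hzero : ∑ i, (a i : ℂ) * γ ^ (∑ j, q j * (v j i : ℤ)) = 0) :
    ∃ N, 0 < N ∧ γ ^ N = 1 := by
  set P0 : ℕ := 100 * (Nat.log 2 D + 2) ^ 2 with hP0
  have hspne := E6_ne hk a ha m hmi
  have hkr := E6_kr a v K m hm
  have hFne : E6_F a v ≠ 0 := by
    intro h
    rw [h, map_zero] at hkr
    exact hspne hkr.symm
  have hmapne : (sp a m).map (Int.castRingHom ℂ) ≠ 0 := by
    rw [Ne, Polynomial.map_eq_zero_iff (RingHom.injective_int _)]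
    exact hspne
  -- an irreducible factor which vanishes at the point
  obtain ⟨G, hGi, ⟨H, hGH⟩, hG0⟩ := E6_factor (E6_ev q γ) (E6_F a v) hFne
    (by rw [E6_ev_F a v q γ hγ]; exact hzero)
  have hHne : H ≠ 0 := by
    rintro rfl
    rw [mul_zero] at hGH
    exact hFne hGH
  have hdvd : kr K r G ∣ sp a m := ⟨kr K r H, by rw [← map_mul, ← hGH, hkr]⟩
  have htor := torsion_irreducible B P0 k K hB1 (by rw [hP0]; exact Nat.succ_le_of_lt (by positivity)) hk hK r G hGi
    (by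
      intro j
      have h1 := E6_deg a ha v B hB j
      rw [hGH, MvPolynomial.degreeOf_mul_eq hGi.ne_zero hHne] at h1
      omega)
    (by
      intro ζ hζ h0
      have h1 : aeval ζ (sp a m) = 0 := by
        obtain ⟨R, hR⟩ := hdvd
        rw [hR, map_mul, h0, zero_mul]
      obtain ⟨N', hN', hN1⟩ := hM ζ hζ h1
      have hfin : IsOfFinOrder ζ := isOfFinOrder_iff_pow_eq_one.2 ⟨N', hN', hN1⟩
      have hpos : 0 < orderOf ζ := hfin.orderOf_pos
      have hprim : IsPrimitiveRoot ζ (orderOf ζ) := IsPrimitiveRoot.orderOf ζ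
      have htot : (orderOf ζ).totient ≤ D := by
        have h2 : minpoly ℤ ζ ∣ sp a m :=
          minpoly.isIntegrallyClosed_dvd (hprim.isIntegral hpos) h1
        rw [← Polynomial.cyclotomic_eq_minpoly hprim hpos] at h2
        have h3 := Polynomial.natDegree_le_of_dvd h2 hspne
        rw [Polynomial.natDegree_cyclotomic] at h3
        exact h3.trans hD
      obtain ⟨p, hp, hpP, hpN⟩ := exists_prime D (orderOf ζ) hpos htot
      exact ⟨p, hp, hpP, conj_pow _ ζ _ hpos hprim p ((Nat.Prime.coprime_iff_not_dvd hp).2 hpN) h0⟩)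
    (by
      intro ζ hζ
      have h1 := Polynomial.rootMultiplicity_le_rootMultiplicity_of_dvd hmapne
        (Polynomial.map_dvd (Int.castRingHom ℂ) hdvd) ζ
      have h2 := mult_lt _ hmapne ζ hζ
      have h3 := E6_card a m
      omega)
  rcases htor with ⟨p, hp, _, hGp⟩ | ⟨c, hc⟩ | ⟨i, hi⟩
  · -- the factor vanishes at all powers
    have hstep : ∀ w : ℂ, E6_ev q w G = 0 → E6_ev q (w ^ p) G = 0 := by
      intro w hw
      obtain ⟨R, hR⟩ := hGp
      rw [← E6_ev_expand, hR, map_mul, hw, zero_mul]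
    have hall : ∀ l : ℕ, E6_ev q (γ ^ p ^ l) G = 0 := by
      intro l
      induction l with
      | zero => rw [pow_zero, pow_one]; exact hG0
      | succ l ih =>
        rw [pow_succ, pow_mul]
        exact hstep _ ih
    have hmem : ∀ l : ℕ, γ ^ p ^ l ∈ {w : ℂ | w ≠ 0 ∧
        ∑ i, (a i : ℂ) * w ^ (∑ j, q j * (v j i : ℤ)) = 0} := by
      intro l
      have h1 : γ ^ p ^ l ≠ 0 := pow_ne_zero _ hγ
      refine ⟨h1, ?_⟩
      rw [← E6_ev_F a v q _ h1, hGH, map_mul, hall l, zero_mul]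
    have hfin := E6_finite hk a ha (fun i => ∑ j, q j * (v j i : ℤ)) hinj
    obtain ⟨l, -, l', -, hll, heq⟩ := Set.infinite_univ.exists_ne_map_eq_of_mapsTo
      (f := fun l : ℕ => γ ^ p ^ l) (fun l _ => hmem l) hfin
    have hkey : ∀ x y : ℕ, x < y → γ ^ p ^ x = γ ^ p ^ y → ∃ N, 0 < N ∧ γ ^ N = 1 := by
      intro x y hxy h
      have h1 : p ^ x < p ^ y := Nat.pow_lt_pow_right hp.one_lt hxy
      refine ⟨p ^ y - p ^ x, by omega, ?_⟩
      have h2 : γ ^ p ^ x * γ ^ (p ^ y - p ^ x) = γ ^ p ^ x := by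
        rw [← pow_add, Nat.add_sub_cancel' h1.le]
        exact h.symm
      exact mul_left_cancel₀ (pow_ne_zero _ hγ) (by rw [h2, mul_one])
    rcases lt_or_gt_of_ne hll with h | h
    · exact hkey l l' h heq
    · exact hkey l' l h heq.symm
  · exfalso
    rw [hc, E6_ev_C, Int.cast_eq_zero] at hG0
    rw [hG0, MvPolynomial.C_0] at hc
    exact hGi.ne_zero hc
  · exfalso
    obtain ⟨u, hu⟩ := hi
    have h1 := E6_ev_X q γ i
    rw [← hu, map_mul, hG0, zero_mul] at h1
    exact zpow_ne_zero _ hγ h1.symm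

end H91.LK
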