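import Pool.Agent.H91.LK.A3
import Pool.Agent.H91.LK.C1
import Pool.Agent.H91.LK.D1
import Pool.Agent.H91.LK.E6

/-!
# F1: an explicit model of bounded degree, raw form

PROOF. Given `f` with `k = t + 1 ≥ 2` terms, `f = sp a n`, `n` strictly increasing enumeration of the support, all `a i ≠ 0`. `lattice n J`
gives `v` (entries `≤ B = 2 (k! (2J)^k)`), `q`, `Δ`, `s`. Put `m i = ∑_j K^(r-1-j) v j i`. If `K > 4 J B` (here from `hK`) then
`SameRel J n m`: `c·n = 0 → c·v_j = 0 → c·m = 0`; conversely `c·m = ∑_j K^(r-1-j) (c·v_j) = 0` with `|c·v_j| ≤ 2 J B < K/2` gives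
`c·v_j = 0` for all `j` (uniqueness of the expansion), so `Δ c·n = c·(Δ n + s) = ∑ q_j c·v_j = 0`. `m` is injective (`c = e_i - e_l`,
`J ≥ 1`). `compare` in both directions (SameRel is symmetric) gives the two inequalities.
`natDegree (sp a m) ≤ B ∑_j K^(r-1-j) ≤ B K^k ≤ D`.
If `lm (sp a m) = 0` then all the nonzero roots of `sp a m` are roots of unity (`Polynomial.pow_eq_one_of_mahlerMeasure_eq_one` in
Mathlib/NumberTheory/MahlerMeasure.lean). Let `α ≠ 0` be a complex root of `f` and `γ^Δ = α` (`Δ` may be negative). With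
`e_i = ∑_j q_j v j i = Δ n_i + s`: `∑ a_i γ^(e_i) = γ^s f(α) = 0`, `e` is injective as `Δ ≠ 0`; so `γ`, hence `α`, is a root of unity (`special`).
Then `M(f) = |leading coefficient|` is an integer, `1` or `≥ 2`: contradiction to `0 < lm f < log 2`.
-/

set_option autoImplicit false

namespace H91.LK

open Polynomial Pool.Agent.H61.Sparse

/-- enumeration of the support -/
theorem F1_enum {t : ℕ} (f : ℤ[X]) (hf : f.support.card = t + 1) :
    ∃ (a : Fin (t + 1) → ℤ) (n : Fin (t + 1) → ℕ), Function.Injective n ∧ (∀ i, a i ≠ 0) ∧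
      f = sp a n ∧ ∑ i, |(a i : ℝ)| = f.sum fun _ c => |(c : ℝ)| := by
  have himg := Finset.image_orderEmbOfFin_univ f.support hf
  have hinj : Function.Injective (f.support.orderEmbOfFin hf) :=
    (f.support.orderEmbOfFin hf).injective
  refine ⟨fun i => f.coeff (f.support.orderEmbOfFin hf i), f.support.orderEmbOfFin hf, hinj,
    fun i => ?_, ?_, ?_⟩
  · exact mem_support_iff.1 (Finset.orderEmbOfFin_mem f.support hf i)
  · unfold sp
    conv_lhs => rw [f.as_sum_support]
    have h1 := Finset.sum_image (f := fun e => monomial e (f.coeff e))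
      (s := (Finset.univ : Finset (Fin (t + 1)))) (g := f.support.orderEmbOfFin hf)
      (fun x _ y _ h => hinj h)
    rw [himg] at h1
    exact h1
  · have h1 := Finset.sum_image (f := fun e => |((f.coeff e : ℤ) : ℝ)|)
      (s := (Finset.univ : Finset (Fin (t + 1)))) (g := f.support.orderEmbOfFin hf)
      (fun x _ y _ h => hinj h)
    rw [himg] at h1
    rw [← h1]
    rfl

/-- uniqueness of the balanced expansion in base `K` -/
theorem F1_expand (K : ℤ) : ∀ (r : ℕ) (x : Fin r → ℤ), (∀ j, |x j| < K) →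
    ∑ j : Fin r, K ^ (r - 1 - (j : ℕ)) * x j = 0 → ∀ j, x j = 0 := by
  intro r
  induction r with
  | zero => intro x _ _ j; exact j.elim0
  | succ r ih =>
    intro x hx h
    have hK : 0 < K := (abs_nonneg _).trans_lt (hx (Fin.last r))
    rw [Fin.sum_univ_castSucc] at h
    have h1 : ∑ j : Fin r, K ^ (r + 1 - 1 - ((Fin.castSucc j : Fin (r + 1)) : ℕ)) *
        x (Fin.castSucc j) = K * ∑ j : Fin r, K ^ (r - 1 - (j : ℕ)) * x (Fin.castSucc j) := by
      rw [Finset.mul_sum]
      refine Finset.sum_congr rfl fun j _ => ?_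
      have h2 : r + 1 - 1 - ((Fin.castSucc j : Fin (r + 1)) : ℕ) = (r - 1 - (j : ℕ)) + 1 := by
        have h3 := j.2
        rw [Fin.val_castSucc]
        omega
      rw [h2, pow_succ]
      ring
    have h4 : r + 1 - 1 - ((Fin.last r : Fin (r + 1)) : ℕ) = 0 := by
      rw [Fin.val_last]
      omega
    rw [h1, h4, pow_zero, one_mul] at h
    have h5 : x (Fin.last r) = 0 := by
      apply Int.eq_zero_of_abs_lt_dvd (m := K)
      · exact ⟨-∑ j : Fin r, K ^ (r - 1 - (j : ℕ)) * x (Fin.castSucc j), by linarith⟩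
      · exact hx _
    rw [h5, add_zero] at h
    have h6 := (mul_eq_zero.1 h).resolve_left hK.ne'
    have h7 := ih (fun j => x (Fin.castSucc j)) (fun j => hx _) h6
    intro j
    refine Fin.lastCases ?_ (fun i => ?_) j
    · exact h5
    · exact h7 i

theorem F1_geom (K : ℕ) (hK : 2 ≤ K) : ∀ r : ℕ, ∑ j : Fin r, K ^ (r - 1 - (j : ℕ)) + 1 ≤ K ^ r := by
  intro r
  induction r with
  | zero => simp
  | succ r ih =>
    rw [Fin.sum_univ_castSucc]
    have h1 : ∑ j : Fin r, K ^ (r + 1 - 1 - ((Fin.castSucc j : Fin (r + 1)) : ℕ)) =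
        K * ∑ j : Fin r, K ^ (r - 1 - (j : ℕ)) := by
      rw [Finset.mul_sum]
      refine Finset.sum_congr rfl fun j _ => ?_
      have h2 : r + 1 - 1 - ((Fin.castSucc j : Fin (r + 1)) : ℕ) = (r - 1 - (j : ℕ)) + 1 := by
        have h3 := j.2
        rw [Fin.val_castSucc]
        omega
      rw [h2, pow_succ]
      ring
    have h4 : r + 1 - 1 - ((Fin.last r : Fin (r + 1)) : ℕ) = 0 := by
      rw [Fin.val_last]
      omega
    rw [h1, h4, pow_zero, pow_succ]
    have h5 := Nat.mul_le_mul_right K ih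
    nlinarith

theorem F1_coeff {k : ℕ} (a : Fin k → ℤ) (m : Fin k → ℕ) (hm : Function.Injective m)
    (i : Fin k) : (sp a m).coeff (m i) = a i := by
  unfold sp
  rw [finsetSum_coeff, Finset.sum_eq_single i]
  · simp
  · intro j _ hj
    rw [coeff_monomial, if_neg]
    exact fun h => hj (hm h)
  · intro h
    exact absurd (Finset.mem_univ i) h

theorem F1_support {k : ℕ} (a : Fin k → ℤ) (ha : ∀ i, a i ≠ 0) (m : Fin k → ℕ)
    (hm : Function.Injective m) : (sp a m).support = Finset.univ.image m := by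
  ext e
  rw [mem_support_iff]
  constructor
  · intro he
    by_contra hcon
    apply he
    unfold sp
    rw [finsetSum_coeff, Finset.sum_eq_zero]
    intro j _
    rw [coeff_monomial, if_neg]
    intro h
    exact hcon (Finset.mem_image.2 ⟨j, Finset.mem_univ j, h⟩)
  · intro he
    obtain ⟨i, -, rfl⟩ := Finset.mem_image.1 he
    rw [F1_coeff a m hm]
    exact ha i

theorem F1_swap {k r : ℕ} (K : ℕ) (v : Fin r → Fin k → ℕ) (m : Fin k → ℕ)
    (hm : ∀ i, m i = ∑ j : Fin r, K ^ (r - 1 - (j : ℕ)) * v j i) (c : Fin k → ℤ) :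
    ∑ i, c i * (m i : ℤ) =
      ∑ j : Fin r, (K : ℤ) ^ (r - 1 - (j : ℕ)) * ∑ i, c i * (v j i : ℤ) := by
  simp_rw [Finset.mul_sum]
  rw [Finset.sum_comm]
  refine Finset.sum_congr rfl fun i _ => ?_
  rw [hm i]
  push_cast
  rw [Finset.mul_sum]
  refine Finset.sum_congr rfl fun j _ => ?_
  ring

/-- the Mahler measure of a nonzero integer polynomial whose nonzero roots have modulus `1` is an
integer -/
theorem F1_lm (f : ℤ[X])
    (hr : ∀ α : ℂ, α ≠ 0 → aeval α f = 0 → ∃ N, 0 < N ∧ α ^ N = 1) :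
    lm f = Real.log |(f.leadingCoeff : ℝ)| := by
  unfold lm
  rw [logMahlerMeasure_eq_log_leadingCoeff_add_sum_log_roots,
    leadingCoeff_map_of_injective (Int.castRingHom ℂ).injective_int, Multiset.sum_eq_zero]
  · simp
  · intro x hx
    rw [Multiset.mem_map] at hx
    obtain ⟨α, hα, rfl⟩ := hx
    by_cases h0 : α = 0
    · rw [h0]
      simp
    · have h1 : aeval α f = 0 := by
        have h2 := (mem_roots'.1 hα).2
        rw [IsRoot.def, eval_map] at h2
        rw [aeval_def]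
        exact h2
      obtain ⟨N, hN, hN1⟩ := hr α h0 h1
      have h3 : ‖α‖ = 1 := by
        have h4 : ‖α‖ ^ N = 1 := by rw [← norm_pow, hN1, norm_one]
        exact (pow_eq_one_iff_of_nonneg (norm_nonneg _) hN.ne').1 h4
      rw [h3]
      simp

/-- **explicit model of bounded degree**, in terms of a bound `R` for the dimension of the space of
all vectors which satisfy the short relations -/
theorem model_sp (t : ℕ) (ht : 0 < t) (a : Fin (t + 1) → ℤ) (ha : ∀ i, a i ≠ 0)
    (n : Fin (t + 1) → ℕ) (hn : Function.Injective n) (h0 : 0 < lm (sp a n))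
    (h2 : lm (sp a n) < Real.log 2) (J : ℕ) (hJ : 1 ≤ J) (L η : ℝ) (hL1 : 1 ≤ L)
    (hL : ∑ i, |(a i : ℝ)| ≤ L) (hη : 0 < η) (hη1 : η ≤ 1) (B K D R : ℕ)
    (hB : B = 2 * ((t + 1).factorial * (2 * J) ^ (t + 1))) (hK1 : 8 * J * B ≤ K)
    (hR : ∀ V : Submodule ℚ (Fin (t + 1) → ℚ), Kills J n V → Module.finrank ℚ V ≤ R)
    (hD : B * K ^ R ≤ D)
    (hK2 : 4 * (t + 1) * (100 * (Nat.log 2 D + 2) ^ 2) ^ 2 * B ^ 2 + B + 2 ≤ K) :
    ∃ m : Fin (t + 1) → ℕ, Function.Injective m ∧ SameRel J n m ∧ (sp a m).natDegree ≤ D ∧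
      0 < lm (sp a m) ∧
      lm (sp a m) ≤ lm (sp a n) +
        (GG t η + L ^ 2 / η ^ 2 * Real.exp (-(J * η ^ 2 / (2 * L ^ 2)))) ∧
      lm (sp a n) ≤ lm (sp a m) +
        (GG t η + L ^ 2 / η ^ 2 * Real.exp (-(J * η ^ 2 / (2 * L ^ 2)))) := by
  obtain ⟨r, v, q, Δ, s, V, -, hrV, hV, hrk, hΔ, hvB, hid, horth⟩ := lattice' n J hJ
  rw [← hB] at hvB
  have hB1 : 1 ≤ B := by
    rw [hB]
    have h1 : 0 < (t + 1).factorial * (2 * J) ^ (t + 1) := by positivity
    omega
  have hK0 : 2 ≤ K := by omega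
  have hKJ : 2 * J * B < K := by
    have h1 : 0 < J * B := Nat.mul_pos hJ hB1
    nlinarith
  obtain ⟨m, hm⟩ : ∃ m : Fin (t + 1) → ℕ, ∀ i, m i = ∑ j : Fin r, K ^ (r - 1 - (j : ℕ)) * v j i :=
    ⟨_, fun _ => rfl⟩
  have hswap := F1_swap K v m hm
  have hback : ∀ c : Fin (t + 1) → ℤ, ∑ i, |c i| ≤ 2 * (J : ℤ) → ∑ i, c i * (m i : ℤ) = 0 →
      ∀ j, ∑ i, c i * (v j i : ℤ) = 0 := by
    intro c hc h
    rw [hswap] at h
    refine F1_expand (K : ℤ) r (fun j => ∑ i, c i * (v j i : ℤ)) (fun j => ?_) h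
    have h1 : |∑ i, c i * (v j i : ℤ)| ≤ ∑ i, |c i| * (B : ℤ) := by
      refine (Finset.abs_sum_le_sum_abs _ _).trans (Finset.sum_le_sum fun i _ => ?_)
      rw [abs_mul]
      apply mul_le_mul_of_nonneg_left _ (abs_nonneg _)
      rw [abs_of_nonneg (by positivity)]
      exact_mod_cast hvB j i
    rw [← Finset.sum_mul] at h1
    have h2 : (∑ i, |c i|) * (B : ℤ) ≤ 2 * (J : ℤ) * B :=
      mul_le_mul_of_nonneg_right hc (by positivity)
    have h3 : (2 * (J : ℤ) * B) < K := by exact_mod_cast hKJ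
    show |∑ i, c i * (v j i : ℤ)| < (K : ℤ)
    linarith
  have hrel : SameRel J n m := by
    intro c hc0 hc1
    constructor
    · intro h
      rw [hswap]
      refine Finset.sum_eq_zero fun j _ => ?_
      rw [horth c hc0 hc1 h j, mul_zero]
    · intro h
      have h1 := hback c hc1 h
      have h2 : Δ * ∑ i, c i * (n i : ℤ) = ∑ j, q j * ∑ i, c i * (v j i : ℤ) := by
        have h3 : Δ * ∑ i, c i * (n i : ℤ) = ∑ i, c i * (Δ * (n i : ℤ) + s) := by
          simp_rw [mul_add]
          rw [Finset.sum_add_distrib, ← Finset.sum_mul, hc0, zero_mul, add_zero, Finset.mul_sum]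
          exact Finset.sum_congr rfl fun i _ => by ring
        rw [h3]
        simp_rw [hid, Finset.mul_sum]
        rw [Finset.sum_comm]
        exact Finset.sum_congr rfl fun j _ => Finset.sum_congr rfl fun i _ => by ring
      have h5 : ∑ j, q j * ∑ i, c i * (v j i : ℤ) = 0 :=
        Finset.sum_eq_zero fun j _ => by rw [h1 j, mul_zero]
      rw [h5] at h2
      exact (mul_eq_zero.1 h2).resolve_left hΔ
  have hmi : Function.Injective m := by
    intro i l hil
    by_contra hne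
    have h1 : ∀ e : Fin (t + 1) → ℤ,
        ∑ x, ((if x = i then 1 else 0) - (if x = l then 1 else 0) : ℤ) * e x = e i - e l := by
      intro e
      simp_rw [sub_mul, ite_mul, one_mul, zero_mul]
      rw [Finset.sum_sub_distrib]
      simp
    have h2 := hrel (fun x => (if x = i then 1 else 0) - (if x = l then 1 else 0)) ?_ ?_
    · rw [h1, h1] at h2
      have h3 : (m i : ℤ) - (m l : ℤ) = 0 := by rw [hil]; ring
      have h4 := h2.2 h3
      have h5 : n i = n l := by exact_mod_cast sub_eq_zero.1 h4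
      exact hne (hn h5)
    · simp
    · have h6 : ∀ x : Fin (t + 1), |((if x = i then 1 else 0) - (if x = l then 1 else 0) : ℤ)| ≤
          (if x = i then 1 else 0) + (if x = l then 1 else 0) := by
        intro x
        split_ifs <;> simp
      refine (Finset.sum_le_sum fun x _ => h6 x).trans ?_
      rw [Finset.sum_add_distrib]
      simp only [Finset.sum_ite_eq', Finset.mem_univ, if_true]
      have h7 : (1 : ℤ) ≤ J := by exact_mod_cast hJ
      linarith
  have hrel2 : SameRel J m n := fun c hc0 hc1 => (hrel c hc0 hc1).symm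
  have hcmp1 := compare t ht le_rfl (Nat.succ_pos t) a ha n m hn hmi J hrel L η hL1 hL hη hη1
  have hcmp2 := compare t ht le_rfl (Nat.succ_pos t) a ha m n hmi hn J hrel2 L η hL1 hL hη hη1
  have hsupp := F1_support a ha m hmi
  have hcard : (sp a m).support.card = t + 1 := by
    rw [hsupp, Finset.card_image_of_injective _ hmi, Finset.card_univ, Fintype.card_fin]
  have hne : sp a m ≠ 0 := by
    intro h
    rw [h] at hcard
    simp at hcard
  have hdeg : (sp a m).natDegree ≤ D := by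
    have h1 : (sp a m).natDegree ∈ (sp a m).support := natDegree_mem_support_of_nonzero hne
    rw [hsupp] at h1
    obtain ⟨i, -, hi⟩ := Finset.mem_image.1 h1
    rw [← hi, hm i]
    have h2 : ∑ j : Fin r, K ^ (r - 1 - (j : ℕ)) * v j i ≤
        ∑ j : Fin r, K ^ (r - 1 - (j : ℕ)) * B :=
      Finset.sum_le_sum fun j _ => Nat.mul_le_mul_left _ (hvB j i)
    rw [← Finset.sum_mul] at h2
    have h3 := F1_geom K hK0 r
    have h4 : K ^ r ≤ K ^ R := Nat.pow_le_pow_right (by omega) (hrV.trans (hR V hV))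
    calc _ ≤ (∑ j : Fin r, K ^ (r - 1 - (j : ℕ))) * B := h2
      _ ≤ K ^ R * B := Nat.mul_le_mul_right _ (by omega)
      _ = B * K ^ R := Nat.mul_comm _ _
      _ ≤ D := hD
  have hpos : 0 < lm (sp a m) := by
    by_contra hcon
    have hM1 : ((sp a m).map (Int.castRingHom ℂ)).mahlerMeasure = 1 := by
      have h1 := one_le_mahlerMeasure_of_ne_zero hne
      apply le_antisymm _ h1
      have h3 : Real.log ((sp a m).map (Int.castRingHom ℂ)).mahlerMeasure ≤ 0 := by
        rw [← logMahlerMeasure_eq_log_MahlerMeasure]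
        exact not_lt.1 hcon
      by_contra h4
      exact absurd (Real.log_pos (not_le.1 h4)) (not_lt.2 h3)
    have hroots : ∀ ζ : ℂ, ζ ≠ 0 → aeval ζ (sp a m) = 0 → ∃ N, 0 < N ∧ ζ ^ N = 1 := by
      intro ζ h1 h3
      exact pow_eq_one_of_mahlerMeasure_eq_one hM1 h1 (mem_aroots.2 ⟨hne, h3⟩)
    have hinj : Function.Injective fun i => ∑ j, q j * (v j i : ℤ) := by
      intro i l hil
      have h1 : Δ * (n i : ℤ) + s = Δ * (n l : ℤ) + s := by
        rw [hid i, hid l]
        exact hil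
      have h3 : Δ * (n i : ℤ) = Δ * (n l : ℤ) := by linarith
      have h4 : n i = n l := by exact_mod_cast mul_left_cancel₀ hΔ h3
      exact hn h4
    have hfr : ∀ α : ℂ, α ≠ 0 → aeval α (sp a n) = 0 → ∃ N, 0 < N ∧ α ^ N = 1 := by
      intro α hα h1
      have hΔn : 0 < Δ.natAbs := Int.natAbs_pos.2 hΔ
      obtain ⟨γ, hγ0, hγ⟩ : ∃ γ : ℂ, γ ≠ 0 ∧ γ ^ Δ = α := by
        obtain ⟨z, hz⟩ := IsAlgClosed.exists_pow_nat_eq α hΔn
        have hz0 : z ≠ 0 := by
          intro h
          rw [h, zero_pow hΔn.ne'] at hz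
          exact hα hz.symm
        rcases Int.natAbs_eq Δ with h3 | h3
        · refine ⟨z, hz0, ?_⟩
          rw [h3, zpow_natCast]
          exact hz
        · refine ⟨z⁻¹, inv_ne_zero hz0, ?_⟩
          rw [h3, zpow_neg, zpow_natCast, inv_pow, inv_inv]
          exact hz
      have hzero : ∑ i, (a i : ℂ) * γ ^ (∑ j, q j * (v j i : ℤ)) = 0 := by
        have h3 : ∀ i, (a i : ℂ) * γ ^ (∑ j, q j * (v j i : ℤ)) =
            ((a i : ℂ) * α ^ (n i)) * γ ^ s := by
          intro i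
          rw [← hid i, zpow_add₀ hγ0, zpow_mul, hγ, zpow_natCast]
          ring
        simp_rw [h3]
        rw [← Finset.sum_mul]
        have h4 : ∑ i, (a i : ℂ) * α ^ (n i) = 0 := by
          rw [← h1]
          unfold sp
          rw [map_sum]
          refine Finset.sum_congr rfl fun i _ => ?_
          rw [aeval_monomial]
          simp
        rw [h4, zero_mul]
      obtain ⟨N, hN, hN1⟩ := special (Nat.succ_pos t) a ha v B K D hB1 hvB m hm hmi hdeg
        hK2 hroots q hinj γ hγ0 hzero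
      refine ⟨N, hN, ?_⟩
      rw [← hγ, ← zpow_natCast, ← zpow_mul, mul_comm, zpow_mul, zpow_natCast, hN1, one_zpow]
    have hf0' : sp a n ≠ 0 := by
      intro h
      have h1 := F1_coeff a n hn 0
      rw [h, coeff_zero] at h1
      exact ha 0 h1.symm
    have h3 := F1_lm (sp a n) hfr
    have hlc : (sp a n).leadingCoeff ≠ 0 := leadingCoeff_ne_zero.2 hf0'
    have h4 : 1 ≤ |(sp a n).leadingCoeff| := Int.one_le_abs hlc
    rcases h4.eq_or_lt with h5 | h5
    · have h6 : |((sp a n).leadingCoeff : ℝ)| = 1 := by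
        have : ((|(sp a n).leadingCoeff| : ℤ) : ℝ) = 1 := by rw [← h5]; simp
        rw [← this, Int.cast_abs]
      rw [h3, h6, Real.log_one] at h0
      exact lt_irrefl _ h0
    · have h6 : (2 : ℝ) ≤ |((sp a n).leadingCoeff : ℝ)| := by
        have h7 : (2 : ℤ) ≤ |(sp a n).leadingCoeff| := h5
        rw [← Int.cast_abs]
        exact_mod_cast h7
      have h7 : Real.log 2 ≤ lm (sp a n) := by
        rw [h3]
        exact Real.log_le_log (by norm_num) h6
      linarith
  refine ⟨m, hmi, hrel, hdeg, hpos, ?_, ?_⟩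
  · linarith
  · linarith

theorem model_raw (t : ℕ) (ht : 0 < t) (f : ℤ[X]) (hf : f.support.card = t + 1) (h0 : 0 < lm f)
    (h2 : lm f < Real.log 2) (J : ℕ) (hJ : 1 ≤ J) (L η : ℝ) (hL1 : 1 ≤ L)
    (hL : f.sum (fun _ c => |(c : ℝ)|) ≤ L) (hη : 0 < η) (hη1 : η ≤ 1) (B K D : ℕ)
    (hB : B = 2 * ((t + 1).factorial * (2 * J) ^ (t + 1))) (hK1 : 8 * J * B ≤ K)
    (hD : B * K ^ (t + 1) ≤ D)
    (hK2 : 4 * (t + 1) * (100 * (Nat.log 2 D + 2) ^ 2) ^ 2 * B ^ 2 + B + 2 ≤ K) :
    ∃ g : ℤ[X], 0 < lm g ∧ g.natDegree ≤ D ∧ g.support.card = t + 1 ∧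
      lm g ≤ lm f + (GG t η + L ^ 2 / η ^ 2 * Real.exp (-(J * η ^ 2 / (2 * L ^ 2)))) ∧
      lm f ≤ lm g + (GG t η + L ^ 2 / η ^ 2 * Real.exp (-(J * η ^ 2 / (2 * L ^ 2)))) := by
  obtain ⟨a, n, hn, ha, hfa, hsum⟩ := F1_enum f hf
  rw [hfa] at h0 h2 ⊢
  rw [← hsum] at hL
  obtain ⟨m, hmi, -, hdeg, hpos, h3, h4⟩ := model_sp t ht a ha n hn h0 h2 J hJ L η hL1 hL hη hη1
    B K D (t + 1) hB hK1 (fun V _ => by simpa using Submodule.finrank_le V) hD hK2
  refine ⟨sp a m, hpos, hdeg, ?_, h3, h4⟩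
  rw [F1_support a ha m hmi, Finset.card_image_of_injective _ hmi, Finset.card_univ,
    Fintype.card_fin]

end H91.LK
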