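import Pool.Agent.H91.LK.G6
import Pool.Agent.H91.LK.B5

/-!
# F3a: the common core of F3 and F4
-/

set_option autoImplicit false

namespace H91.LK

open Polynomial

theorem F3a_exp : ∀ E c : ℝ, 0 < E → 0 < c → ∃ s : ℝ, 2 ≤ s ∧
    2 * Real.exp (-s) * (E * (1 + s) ^ 3) ≤ c := by
  intro E c hE hc
  refine ⟨2 + 384 * E / c, ?_, ?_⟩
  · have : 0 ≤ 384 * E / c := by positivity
    linarith
  set s : ℝ := 2 + 384 * E / c with hs
  have h0 : 0 ≤ 384 * E / c := by positivity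
  have hs2 : 2 ≤ s := by linarith
  have hs0 : 0 < s := by linarith
  have h4 : s ^ 4 / 24 ≤ Real.exp s := by
    have := Real.pow_div_factorial_le_exp s hs0.le 4
    simpa [Nat.factorial] using this
  have h5 : (1 + s) ^ 3 ≤ 8 * s ^ 3 := by
    have : 1 + s ≤ 2 * s := by linarith
    calc (1 + s) ^ 3 ≤ (2 * s) ^ 3 := pow_le_pow_left₀ (by linarith) this 3
      _ = 8 * s ^ 3 := by ring
  have h6 : 384 * E ≤ c * s := by
    have : 384 * E / c ≤ s := by linarith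
    rw [div_le_iff₀ hc] at this
    linarith
  rw [Real.exp_neg]
  have hex : 0 < Real.exp s := Real.exp_pos s
  have h7 : 2 * (Real.exp s)⁻¹ * (E * (1 + s) ^ 3) = 2 * (E * (1 + s) ^ 3) / Real.exp s := by
    field_simp
  rw [h7, div_le_iff₀ hex]
  calc 2 * (E * (1 + s) ^ 3) ≤ 2 * (E * (8 * s ^ 3)) := by
        have := mul_le_mul_of_nonneg_left h5 hE.le
        linarith
    _ = 16 * E * s ^ 3 := by ring
    _ ≤ c * s ^ 4 / 24 := by
        have h8 : 384 * E * s ^ 3 ≤ c * s * s ^ 3 :=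
          mul_le_mul_of_nonneg_right h6 (by positivity)
        nlinarith
    _ ≤ c * Real.exp s := by
        have := mul_le_mul_of_nonneg_left h4 hc.le
        linarith

/-- `W` is `k ^ 10` or `(k log k) ^ 6`, `L` is `log D` -/
theorem F3a_num (E c : ℝ) (hE : 0 < E) (hc : 0 < c) : ∃ s : ℝ, 2 ≤ s ∧ ∀ W L : ℝ, 0 < W → 0 < L →
    L ^ 3 ≤ E * W * (1 + s) ^ 3 → 2 * (Real.exp (-s) / W) ≤ c / L ^ 3 := by
  obtain ⟨s, hs, h⟩ := F3a_exp E c hE hc
  refine ⟨s, hs, ?_⟩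
  intro W L hW hL hLW
  rw [le_div_iff₀ (by positivity)]
  have h1 : 2 * (Real.exp (-s) / W) * L ^ 3 ≤ 2 * (Real.exp (-s) / W) * (E * W * (1 + s) ^ 3) :=
    mul_le_mul_of_nonneg_left hLW (by positivity)
  have h2 : 2 * (Real.exp (-s) / W) * (E * W * (1 + s) ^ 3)
      = 2 * Real.exp (-s) * (E * (1 + s) ^ 3) := by
    field_simp
  linarith

theorem F3a_c (s : ℝ) (hs : 2 ≤ s) : Real.exp (-s) ≤ 1 / 5 := by
  have h1 : Real.exp (-s) ≤ Real.exp (-2) := Real.exp_le_exp.2 (by linarith)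
  have h2 : Real.exp (-2) ≤ 1 / 5 := by
    have h3 : (2.7182818283 : ℝ) < Real.exp 1 := Real.exp_one_gt_d9
    have h4 : Real.exp 2 = Real.exp 1 * Real.exp 1 := by
      rw [← Real.exp_add]
      norm_num
    rw [Real.exp_neg, h4, one_div]
    apply inv_anti₀ (by norm_num)
    nlinarith
  linarith

theorem F3a_log127 : (1 : ℝ) / 5 ≤ Real.log (127 / 100) := by
  have h4 : 1 - (127 / 100 : ℝ)⁻¹ ≤ Real.log (127 / 100) :=
    Real.one_sub_inv_le_log_of_pos (by norm_num)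
  norm_num at h4
  linarith

theorem F3a_log127_lt : Real.log (127 / 100) < Real.log 2 :=
  Real.log_lt_log (by norm_num) (by norm_num)

/-- from the model to the bound -/
theorem F3a_step (c : ℝ) (hd : ∀ (f : ℤ[X]) (D : ℝ), 0 < lm f → 3 ≤ D →
    (f.natDegree : ℝ) ≤ D → c / (Real.log D) ^ 3 ≤ lm f) (f g : ℤ[X]) (ε A : ℝ)
    (hg : 0 < lm g) (h1 : |lm g - lm f| ≤ ε) (h2 : Real.log (g.natDegree + 1) + 2 ≤ A)
    (h3 : ∀ L : ℝ, 0 < L → L ≤ A → 2 * ε ≤ c / L ^ 3) : ε ≤ lm f := by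
  have hD : (3 : ℝ) ≤ (g.natDegree : ℝ) + 3 := by
    have : (0 : ℝ) ≤ g.natDegree := Nat.cast_nonneg _
    linarith
  have hL : Real.log ((g.natDegree : ℝ) + 3) ≤ A := by
    have h4 : (g.natDegree : ℝ) + 3 ≤ 3 * ((g.natDegree : ℝ) + 1) := by
      have : (0 : ℝ) ≤ g.natDegree := Nat.cast_nonneg _
      linarith
    have h5 : Real.log ((g.natDegree : ℝ) + 3) ≤ Real.log (3 * ((g.natDegree : ℝ) + 1)) :=
      Real.log_le_log (by linarith) h4
    rw [Real.log_mul (by norm_num) (by positivity)] at h5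
    have h6 : Real.log 3 ≤ 2 := by
      have := Real.log_le_sub_one_of_pos (show (0 : ℝ) < 3 by norm_num)
      linarith
    linarith
  have hL0 : 0 < Real.log ((g.natDegree : ℝ) + 3) := Real.log_pos (by linarith)
  have h7 := hd g ((g.natDegree : ℝ) + 3) hg hD (by linarith)
  have h8 := h3 _ hL0 hL
  have h9 := (abs_le.1 h1).2
  linarith

theorem F3a_sp (f : ℤ[X]) : ∃ (a : Fin f.support.card → ℤ) (n : Fin f.support.card → ℕ),
    (∀ i, a i ≠ 0) ∧ Function.Injective n ∧ sp a n = f := by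
  classical
  let e := f.support.equivFin
  refine ⟨fun i => f.coeff (e.symm i), fun i => (e.symm i : ℕ), ?_, ?_, ?_⟩
  · intro i
    exact Polynomial.mem_support_iff.1 (e.symm i).2
  · intro i j hij
    exact e.symm.injective (Subtype.ext hij)
  · unfold sp
    have h1 : ∑ i, monomial ((e.symm i : ℕ)) (f.coeff (e.symm i))
        = ∑ x : f.support, monomial (x : ℕ) (f.coeff x) :=
      Equiv.sum_comp e.symm (fun x : f.support => monomial (x : ℕ) (f.coeff x))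
    rw [h1, Finset.sum_coe_sort f.support (fun x => monomial x (f.coeff x))]
    exact (f.as_sum_support).symm

theorem F3a_sp' (f : ℤ[X]) : ∃ (k : ℕ) (a : Fin k → ℤ) (n : Fin k → ℕ),
    (∀ i, a i ≠ 0) ∧ Function.Injective n ∧ sp a n = f ∧ f.support.card = k := by
  obtain ⟨a, n, ha, hn, h⟩ := F3a_sp f
  exact ⟨_, a, n, ha, hn, h, rfl⟩

theorem F3a_one (f : ℤ[X]) (h : f.support.card ≤ 1) (hf : 0 < lm f) : Real.log 2 ≤ lm f := by
  rcases Nat.lt_or_ge f.support.card 1 with h0 | h1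
  · have : f = 0 := by
      rw [← Polynomial.card_support_eq_zero]
      omega
    rw [this] at hf
    unfold lm at hf
    simp at hf
  · obtain ⟨m, a, ha, rfl⟩ := Polynomial.card_support_eq_one.1 (le_antisymm h h1)
    have h2 : lm (C a * X ^ m) = Real.log ‖(a : ℂ)‖ := by
      unfold lm
      rw [C_mul_X_pow_eq_monomial, Polynomial.map_monomial]
      exact logMahlerMeasure_monomial m _
    rw [h2] at hf ⊢
    have h3 : ‖(a : ℂ)‖ = ((|a| : ℤ) : ℝ) := by
      rw [Complex.norm_intCast]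
      push_cast
      rfl
    rw [h3] at hf ⊢
    have h4 : 2 ≤ |a| := by
      by_contra hlt
      have h5 : |a| ≤ 1 := by omega
      have h6 : ((|a| : ℤ) : ℝ) ≤ 1 := by exact_mod_cast h5
      have h7 : Real.log ((|a| : ℤ) : ℝ) ≤ 0 :=
        Real.log_nonpos (by positivity) h6
      linarith
    apply Real.log_le_log (by norm_num)
    exact_mod_cast h4

/-- the model statement of F2 -/
def ModelR : Prop := ∃ C₀ : ℕ, ∀ C₁ : ℕ, C₀ ≤ C₁ → ∃ C : ℝ, 0 < C ∧ ∀ (k R : ℕ), 2 ≤ k → 1 ≤ R →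
    ∀ (a : Fin k → ℤ), (∀ i, a i ≠ 0) → ∀ n : Fin k → ℕ, Function.Injective n →
    0 < lm (sp a n) → lm (sp a n) < Real.log 2 → ∀ ε : ℝ, 0 < ε → ε ≤ 1 / 2 →
    (∀ V : Submodule ℚ (Fin k → ℚ), Kills ⌈((k : ℝ) / ε) ^ (C₁ * k)⌉₊ n V →
      Module.finrank ℚ V ≤ R) →
    ∃ m : Fin k → ℕ, Function.Injective m ∧ 0 < lm (sp a m) ∧ |lm (sp a m) - lm (sp a n)| ≤ ε ∧
      Real.log ((sp a m).natDegree + 1) ≤ C * R * k ^ 2 * Real.log (k / ε)

theorem F3a_main (hMR : ModelR) : ∃ c : ℝ, 0 < c ∧ ∀ f : ℤ[X], 0 < lm f →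
    c / (f.support.card : ℝ) ^ 10 ≤ lm f := by
  obtain ⟨C₀, hM⟩ := hMR
  obtain ⟨C, hC, hM⟩ := hM C₀ le_rfl
  obtain ⟨c, hc, hd⟩ := dobrowolski
  obtain ⟨s, hs, hnum⟩ := F3a_num (6 * (4 + 11 * C) ^ 3) c (by positivity) hc
  have hc5 := F3a_c s hs
  have hlog2 : (1 : ℝ) / 2 ≤ Real.log 2 := by
    have := Real.log_two_gt_d9
    linarith
  refine ⟨Real.exp (-s), Real.exp_pos _, ?_⟩
  intro f hf
  have hsc : 1 ≤ f.support.card := by
    by_contra h0
    have : f = 0 := by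
      rw [← Polynomial.card_support_eq_zero]
      omega
    rw [this] at hf
    unfold lm at hf
    simp at hf
  have hk1 : (1 : ℝ) ≤ (f.support.card : ℝ) := by exact_mod_cast hsc
  have hsmall : Real.exp (-s) / (f.support.card : ℝ) ^ 10 ≤ 1 / 5 := by
    rw [div_le_iff₀ (by positivity)]
    have : (1 : ℝ) ≤ (f.support.card : ℝ) ^ 10 := one_le_pow₀ hk1
    linarith
  by_cases hl2 : Real.log 2 ≤ lm f
  · linarith
  push Not at hl2
  have hk2 : 2 ≤ f.support.card := by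
    by_contra hlt
    have := F3a_one f (by omega) hf
    linarith
  obtain ⟨k, a, n, ha, hn, hsp, hkdef⟩ := F3a_sp' f
  rw [hkdef] at hk2 hk1 hsmall ⊢
  have hK : (2 : ℝ) ≤ k := by exact_mod_cast hk2
  have hK0 : (0 : ℝ) < k := by linarith
  set ε : ℝ := Real.exp (-s) / (k : ℝ) ^ 10 with hε
  have hε0 : 0 < ε := by positivity
  rw [← hsp] at hf hl2 ⊢
  obtain ⟨m, hm, hm0, hmε, hmd⟩ := hM k k hk2 (by omega) a ha n hn hf hl2 ε hε0 (by linarith)
    (fun V _ => by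
      have := Submodule.finrank_le V
      rwa [Module.finrank_fin_fun] at this)
  have hLk : (1 : ℝ) / 2 ≤ Real.log k := by
    have : Real.log 2 ≤ Real.log k := Real.log_le_log (by norm_num) hK
    linarith
  have hlogε : Real.log (k / ε) = 11 * Real.log k + s := by
    rw [hε, Real.log_div hK0.ne' (by positivity), Real.log_div (by positivity) (by positivity),
      Real.log_exp, Real.log_pow]
    push_cast
    ring
  have hlogε2 : Real.log (k / ε) ≤ 11 * Real.log k * (1 + s) := by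
    rw [hlogε]
    nlinarith
  set A : ℝ := (4 + 11 * C) * (k : ℝ) ^ 3 * Real.log k * (1 + s) with hA
  have hk3 : (1 : ℝ) ≤ (k : ℝ) ^ 3 := one_le_pow₀ hk1
  apply F3a_step c hd (sp a n) (sp a m) ε A hm0 hmε
  · have h1 : C * (k : ℝ) * (k : ℝ) ^ 2 * Real.log (k / ε)
        ≤ C * (k : ℝ) * (k : ℝ) ^ 2 * (11 * Real.log k * (1 + s)) :=
      mul_le_mul_of_nonneg_left hlogε2 (by positivity)
    have h2 : (2 : ℝ) ≤ 4 * (k : ℝ) ^ 3 * Real.log k * (1 + s) := by
      have h3 : (1 : ℝ) / 2 ≤ (k : ℝ) ^ 3 * Real.log k := by nlinarith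
      have h4 : (k : ℝ) ^ 3 * Real.log k ≤ (k : ℝ) ^ 3 * Real.log k * (1 + s) := by
        nlinarith
      nlinarith
    rw [hA]
    calc Real.log ((sp a m).natDegree + 1) + 2
        ≤ C * (k : ℝ) * (k : ℝ) ^ 2 * (11 * Real.log k * (1 + s))
          + 4 * (k : ℝ) ^ 3 * Real.log k * (1 + s) := by linarith
      _ = (4 + 11 * C) * (k : ℝ) ^ 3 * Real.log k * (1 + s) := by ring
  · intro L hL0 hL
    apply hnum ((k : ℝ) ^ 10) L (by positivity) hL0
    have h3 : Real.log k ^ 3 ≤ 6 * k := by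
      have h4 := Real.pow_div_factorial_le_exp (Real.log k) (by linarith) 3
      rw [Real.exp_log hK0] at h4
      have h5 : ((Nat.factorial 3 : ℕ) : ℝ) = 6 := by norm_num [Nat.factorial]
      rw [h5] at h4
      linarith
    calc L ^ 3 ≤ A ^ 3 := pow_le_pow_left₀ hL0.le hL 3
      _ = (4 + 11 * C) ^ 3 * (k : ℝ) ^ 9 * (1 + s) ^ 3 * Real.log k ^ 3 := by rw [hA]; ring
      _ ≤ (4 + 11 * C) ^ 3 * (k : ℝ) ^ 9 * (1 + s) ^ 3 * (6 * k) :=
          mul_le_mul_of_nonneg_left h3 (by positivity)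
      _ = 6 * (4 + 11 * C) ^ 3 * (k : ℝ) ^ 10 * (1 + s) ^ 3 := by ring

theorem F3a_rank (CG : ℕ) (hG : ∀ (k : ℕ), 2 ≤ k → ∀ (a : Fin k → ℤ), (∀ i, a i ≠ 0) →
    ∀ (n : Fin k → ℕ), Function.Injective n →
    ∀ (J : ℕ), k ^ (CG * k) ≤ J →
    ∀ (V : Submodule ℚ (Fin k → ℚ)), (fun _ => (1 : ℚ)) ∈ V → Kills J n V →
    k < 2 ^ (Module.finrank ℚ V - 1) → Real.log (127 / 100) ≤ lm (sp a n))
    (k : ℕ) (hk : 2 ≤ k) (a : Fin k → ℤ) (ha : ∀ i, a i ≠ 0) (n : Fin k → ℕ)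
    (hn : Function.Injective n) (J : ℕ) (hJ : k ^ (CG * k) ≤ J)
    (hlm : lm (sp a n) < Real.log (127 / 100)) (V : Submodule ℚ (Fin k → ℚ))
    (hV : Kills J n V) : Module.finrank ℚ V ≤ 1 + Nat.log 2 k := by
  set V' : Submodule ℚ (Fin k → ℚ) := V ⊔ Submodule.span ℚ {fun _ => (1 : ℚ)} with hV'
  have h1 : (fun _ => (1 : ℚ)) ∈ V' :=
    Submodule.mem_sup_right (Submodule.mem_span_singleton_self _)
  have hK : Kills J n V' := by
    intro c h0 hc hn0 x hx
    rw [hV', Submodule.mem_sup] at hx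
    obtain ⟨y, hy, z, hz, rfl⟩ := hx
    obtain ⟨r, rfl⟩ := Submodule.mem_span_singleton.1 hz
    have h2 := hV c h0 hc hn0 y hy
    have h3 : ∑ i, (c i : ℚ) = 0 := by exact_mod_cast h0
    simp only [Pi.add_apply, Pi.smul_apply, smul_eq_mul, mul_one, mul_add,
      Finset.sum_add_distrib, ← Finset.sum_mul]
    rw [h2, h3]
    simp
  have h4 : ¬ k < 2 ^ (Module.finrank ℚ V' - 1) := by
    intro h
    have := hG k hk a ha n hn J hJ V' h1 hK h
    linarith
  have h5 : Module.finrank ℚ V ≤ Module.finrank ℚ V' := Submodule.finrank_mono le_sup_left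
  have h6 : Module.finrank ℚ V' - 1 ≤ Nat.log 2 k :=
    Nat.le_log_of_pow_le (by norm_num) (by omega)
  omega

theorem F3a_main6 (hMR : ModelR) : ∃ c : ℝ, 0 < c ∧ ∀ f : ℤ[X], 0 < lm f →
    2 ≤ f.support.card →
    c / ((f.support.card : ℝ) * Real.log f.support.card) ^ 6 ≤ lm f := by
  obtain ⟨CG, hG⟩ := generic
  obtain ⟨C₀, hM⟩ := hMR
  obtain ⟨C, hC, hM⟩ := hM (max C₀ CG) (le_max_left _ _)
  obtain ⟨c, hc, hd⟩ := dobrowolski
  obtain ⟨s, hs, hnum⟩ := F3a_num ((2 + 39 * C) ^ 3) c (by positivity) hc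
  have hc5 := F3a_c s hs
  refine ⟨Real.exp (-s), Real.exp_pos _, ?_⟩
  intro f hf hk2
  obtain ⟨k, a, n, ha, hn, hsp, hkdef⟩ := F3a_sp' f
  rw [hkdef] at hk2 ⊢
  have hK : (2 : ℝ) ≤ k := by exact_mod_cast hk2
  have hK0 : (0 : ℝ) < k := by linarith
  have hlog2 : (0.6931 : ℝ) ≤ Real.log 2 := by
    have := Real.log_two_gt_d9
    linarith
  have hLk2 : Real.log 2 ≤ Real.log k := Real.log_le_log (by norm_num) hK
  have hLk : (0.6931 : ℝ) ≤ Real.log k := by linarith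
  have hLk0 : 0 < Real.log (k : ℝ) := by linarith
  have hkL : 1 ≤ (k : ℝ) * Real.log k := by nlinarith
  have hkL0 : 0 < (k : ℝ) * Real.log k := by linarith
  have hsmall : Real.exp (-s) / ((k : ℝ) * Real.log k) ^ 6 ≤ 1 / 5 := by
    rw [div_le_iff₀ (by positivity)]
    have : (1 : ℝ) ≤ ((k : ℝ) * Real.log k) ^ 6 := one_le_pow₀ hkL
    linarith
  by_cases hl : Real.log (127 / 100) ≤ lm f
  · have := F3a_log127
    linarith
  push Not at hl
  set ε : ℝ := Real.exp (-s) / ((k : ℝ) * Real.log k) ^ 6 with hε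
  have hε0 : 0 < ε := by positivity
  have hε1 : ε ≤ 1 := by linarith
  rw [← hsp] at hf hl ⊢
  have hJ : k ^ (CG * k) ≤ ⌈((k : ℝ) / ε) ^ (max C₀ CG * k)⌉₊ := by
    have h1 : ((k ^ (CG * k) : ℕ) : ℝ) ≤ ((k : ℝ) / ε) ^ (max C₀ CG * k) := by
      push_cast
      have h2 : (k : ℝ) ≤ (k : ℝ) / ε := by
        rw [le_div_iff₀ hε0]
        nlinarith
      calc (k : ℝ) ^ (CG * k) ≤ (k : ℝ) ^ (max C₀ CG * k) :=
            pow_le_pow_right₀ (by linarith) (Nat.mul_le_mul_right _ (le_max_right _ _))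
        _ ≤ ((k : ℝ) / ε) ^ (max C₀ CG * k) := pow_le_pow_left₀ hK0.le h2 _
    exact_mod_cast h1.trans (Nat.le_ceil _)
  set R := 1 + Nat.log 2 k with hR
  obtain ⟨m, hm, hm0, hmε, hmd⟩ := hM k R hk2 (by omega) a ha n hn hf
    (lt_trans hl F3a_log127_lt) ε hε0 (by linarith)
    (fun V hV => F3a_rank CG hG k hk2 a ha n hn _ hJ hl V hV)
  have hRle : (R : ℝ) ≤ 3 * Real.log k := by
    have h1 : 2 ^ Nat.log 2 k ≤ k := Nat.pow_log_le_self 2 (by omega)
    have h2 : (2 : ℝ) ^ Nat.log 2 k ≤ k := by exact_mod_cast h1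
    have h3 : (Nat.log 2 k : ℝ) * Real.log 2 ≤ Real.log k := by
      have := Real.log_le_log (by positivity) h2
      rwa [Real.log_pow] at this
    have h4 : (0 : ℝ) ≤ (Nat.log 2 k : ℝ) := Nat.cast_nonneg _
    rw [hR]
    push_cast
    nlinarith
  have hlogL : Real.log (Real.log k) ≤ Real.log k := by
    have := Real.log_le_sub_one_of_pos hLk0
    linarith
  have hlogε : Real.log (k / ε) = Real.log k + 6 * (Real.log k + Real.log (Real.log k)) + s := by
    rw [hε, Real.log_div hK0.ne' (by positivity), Real.log_div (by positivity) (by positivity),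
      Real.log_exp, Real.log_pow, Real.log_mul hK0.ne' hLk0.ne']
    push_cast
    ring
  have hlogε2 : Real.log (k / ε) ≤ 13 * Real.log k * (1 + s) := by
    rw [hlogε]
    nlinarith
  have hlogε0 : 0 ≤ 13 * Real.log k * (1 + s) := by positivity
  set A : ℝ := (2 + 39 * C) * ((k : ℝ) * Real.log k) ^ 2 * (1 + s) with hA
  apply F3a_step c hd (sp a n) (sp a m) ε A hm0 hmε
  · have h1 : C * (R : ℝ) * (k : ℝ) ^ 2 * Real.log (k / ε)
        ≤ C * (3 * Real.log k) * (k : ℝ) ^ 2 * (13 * Real.log k * (1 + s)) := by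
      calc C * (R : ℝ) * (k : ℝ) ^ 2 * Real.log (k / ε)
          ≤ C * (R : ℝ) * (k : ℝ) ^ 2 * (13 * Real.log k * (1 + s)) :=
            mul_le_mul_of_nonneg_left hlogε2 (by positivity)
        _ ≤ C * (3 * Real.log k) * (k : ℝ) ^ 2 * (13 * Real.log k * (1 + s)) := by
            apply mul_le_mul_of_nonneg_right _ hlogε0
            apply mul_le_mul_of_nonneg_right _ (by positivity)
            exact mul_le_mul_of_nonneg_left hRle hC.le
    have h2 : (2 : ℝ) ≤ 2 * ((k : ℝ) * Real.log k) ^ 2 * (1 + s) := by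
      have h3 : 1 ≤ ((k : ℝ) * Real.log k) ^ 2 := one_le_pow₀ hkL
      nlinarith
    rw [hA]
    calc Real.log ((sp a m).natDegree + 1) + 2
        ≤ C * (3 * Real.log k) * (k : ℝ) ^ 2 * (13 * Real.log k * (1 + s))
          + 2 * ((k : ℝ) * Real.log k) ^ 2 * (1 + s) := by linarith
      _ = (2 + 39 * C) * ((k : ℝ) * Real.log k) ^ 2 * (1 + s) := by ring
  · intro L hL0 hL
    apply hnum (((k : ℝ) * Real.log k) ^ 6) L (by positivity) hL0
    calc L ^ 3 ≤ A ^ 3 := pow_le_pow_left₀ hL0.le hL 3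
      _ = (2 + 39 * C) ^ 3 * ((k : ℝ) * Real.log k) ^ 6 * (1 + s) ^ 3 := by rw [hA]; ring

end H91.LK
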