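import Pool.Agent.H91.LK.F2
import Pool.Agent.H91.LK.F3a

/-!
# F3: the theorem

PROOF. If `k = 1`: `M(f) = |a| ≥ 2`. If `lm f ≥ log 2` clear. Otherwise `model` with `ε = c₁ k^(-10)` and `dobrowolski` for `g` with
`log D = C k³ log (k/ε) + 2`: `lm g ≥ c (log D)^(-3) ≥ 2 ε` if `c₁` is small enough, since
`(log D)^3 ≤ C' k^9 (log (k/ε))^3`, `log (k/ε) = 11 log k + log (1/c₁)` and `(log (k/ε))^3 ≤ C'' k (1 + log (1/c₁))^3`. So
`lm f ≥ lm g - ε ≥ ε`.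
-/

set_option autoImplicit false

namespace H91.LK

open Polynomial

theorem main : ∃ c : ℝ, 0 < c ∧ ∀ f : ℤ[X], 0 < lm f →
    c / (f.support.card : ℝ) ^ 10 ≤ lm f :=
  F3a_main model_R

end H91.LK
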