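import Pool.Agent.H91.LK.F2
import Pool.Agent.H91.LK.F3a

/-!
# F4: the final bound

PROOF. `f = sp a n` with `k = f.support.card ≥ 2` (enumerate the support). If `lm f ≥ log 1.27` clear. Otherwise (G6 `generic`, `J = ⌈(k/ε)^(C₁ k)⌉₊`,
`C₁` at least the constants of `generic` and of `model_R`) every `V` killed by the short relations has `finrank V ≤ R := 1 + Nat.log 2 k` (apply
`generic` to the largest such `V`, which contains `(1, …, 1)`; `k < 2^(finrank V - 1)` is impossible, so `2^(finrank V - 1) ≤ k`).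
`model_R` with `ε = c₁ (k log k)^(-6)` gives `m` with `log (deg + 1) ≤ C R k² log (k/ε) ≤ C' (k log k)² (1 + log (1/c₁))`, and
`dobrowolski` gives `lm (sp a m) ≥ c (log D)^(-3) ≥ 2 ε` for `c₁` small. So `lm f ≥ ε`.
-/

set_option autoImplicit false

namespace H91.LK

open Polynomial

theorem main6 : ∃ c : ℝ, 0 < c ∧ ∀ f : ℤ[X], 0 < lm f → 2 ≤ f.support.card →
    c / ((f.support.card : ℝ) * Real.log f.support.card) ^ 6 ≤ lm f :=
  F3a_main6 model_R

end H91.LK
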