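import Pool.Agent.H91.LK.G0

/-!
# G1a: moments in two variables

PROOF. Compare A1 (helper44). For `|x| = |y| = 1` and `F(x, y) = ∑_{i ∈ I} a_i x^(n_i) y^(w_i)`:
`|F|^(2j) = ∑_{u, u' : Fin j → I} ∏_l (a_{u l} a_{u' l}) x^(∑ n_u) (conj x)^(∑ n_{u'}) y^(∑ w_u) (conj y)^(∑ w_{u'})`. The mean over `y` keeps the
terms with `∑ w_u = ∑ w_{u'}` (a continuous function of `x`, a finite sum), then the mean over `x` those with
`∑ n_u = ∑ n_{u'}`; with `c = ∑ e_{u l} - ∑ e_{u' l}`: `∑ c = 0`, `∑ |c| ≤ 2 j`, supported in `I`, so by `hw` the second condition implies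
the first, and the result is the mean of `|f(z)|^(2j)`, `f = ∑_{i ∈ I} a_i z^(n_i)`.
-/

set_option autoImplicit false

namespace H91.LK

open scoped ComplexConjugate

/-- the mean of a real function, as a complex number -/
theorem G1a_ofReal (g : ℂ → ℝ) :
    Real.circleAverage (fun z => ((g z : ℝ) : ℂ)) 0 1 = ((Real.circleAverage g 0 1 : ℝ) : ℂ) := by
  rw [Real.circleAverage_def, Real.circleAverage_def, intervalIntegral.integral_ofReal]
  rw [Complex.real_smul, smul_eq_mul]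
  push_cast
  ring

/-- orthogonality -/
theorem G1a_orth (A B : ℕ) :
    Real.circleAverage (fun z : ℂ => z ^ A * (conj z) ^ B) 0 1 = if A = B then 1 else 0 := by
  have hpi : (0 : ℝ) < 2 * Real.pi := Real.two_pi_pos
  have h1 : ∀ θ : ℝ, (circleMap 0 1 θ) ^ A * (conj (circleMap 0 1 θ)) ^ B =
      Complex.exp ((((A : ℂ) - B) * Complex.I) * θ) := by
    intro θ
    have h2 : circleMap 0 1 θ = Complex.exp (θ * Complex.I) := by
      simp [circleMap]
    rw [h2, ← Complex.exp_conj, ← Complex.exp_nat_mul, ← Complex.exp_nat_mul, ← Complex.exp_add]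
    congr 1
    simp only [map_mul, Complex.conj_ofReal, Complex.conj_I]
    ring
  rw [Real.circleAverage_def]
  by_cases h : A = B
  · subst h
    rw [if_pos rfl]
    have h3 : ∀ θ : ℝ, (circleMap 0 1 θ) ^ A * (conj (circleMap 0 1 θ)) ^ A = 1 := by
      intro θ
      rw [h1 θ]
      simp
    simp only [h3]
    rw [intervalIntegral.integral_const, sub_zero, smul_smul, inv_mul_cancel₀ hpi.ne', one_smul]
  · rw [if_neg h]
    simp only [h1]
    have hne : ((A : ℂ) - B) * Complex.I ≠ 0 := by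
      refine mul_ne_zero ?_ Complex.I_ne_zero
      rw [sub_ne_zero]
      exact_mod_cast h
    rw [integral_exp_mul_complex hne]
    have h4 : Complex.exp ((((A : ℂ) - B) * Complex.I) * ((2 * Real.pi : ℝ) : ℂ)) = 1 := by
      rw [Complex.exp_eq_one_iff]
      refine ⟨(A : ℤ) - B, ?_⟩
      push_cast
      ring
    rw [h4]
    simp

/-- the mean of a finite combination of monomials `z ^ A * conj z ^ B` -/
theorem G1a_sum {ι : Type*} (s : Finset ι) (C : ι → ℂ) (A B : ι → ℕ) :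
    Real.circleAverage (fun z : ℂ => ∑ u ∈ s, C u * (z ^ A u * (conj z) ^ B u)) 0 1 =
      ∑ u ∈ s, C u * (if A u = B u then 1 else 0) := by
  rw [Real.circleAverage_fun_sum]
  · refine Finset.sum_congr rfl fun u _ => ?_
    have h := Real.circleAverage_fun_smul (a := C u) (c := (0 : ℂ)) (R := (1 : ℝ))
      (f := fun z : ℂ => z ^ A u * (conj z) ^ B u)
    simp only [smul_eq_mul] at h
    rw [h, G1a_orth]
  · intro u _
    have hc : Continuous fun z : ℂ => C u * (z ^ A u * (conj z) ^ B u) := by fun_prop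
    exact (hc.comp (continuous_circleMap 0 1)).intervalIntegrable _ _

/-- expansion of `‖∑ b_i‖ ^ (2 j)` -/
theorem G1a_expand {k : ℕ} (I : Finset (Fin k)) (b : Fin k → ℂ) (j : ℕ) :
    (((‖∑ i ∈ I, b i‖ ^ 2) ^ j : ℝ) : ℂ) =
      ∑ u ∈ Fintype.piFinset (fun _ : Fin j => I ×ˢ I),
        ∏ l, (b (u l).1 * conj (b (u l).2)) := by
  have h1 : (((‖∑ i ∈ I, b i‖ ^ 2 : ℝ)) : ℂ) = ∑ p ∈ I ×ˢ I, b p.1 * conj (b p.2) := by
    rw [← Complex.normSq_eq_norm_sq, ← Complex.mul_conj, map_sum, Finset.sum_mul_sum,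
      Finset.sum_product]
  rw [Complex.ofReal_pow, h1]
  have h2 := Finset.prod_univ_sum (fun _ : Fin j => I ×ˢ I)
    (fun (_ : Fin j) (p : Fin k × Fin k) => b p.1 * conj (b p.2))
  rw [Finset.prod_const, Finset.card_univ, Fintype.card_fin] at h2
  exact h2

/-- the relation of a pair of index words -/
theorem G1a_rel {k J : ℕ} (n w : Fin k → ℕ) (I : Finset (Fin k))
    (hw : ∀ c : Fin k → ℤ, (∀ i, i ∉ I → c i = 0) → ∑ i, c i = 0 → ∑ i, |c i| ≤ 2 * (J : ℤ) →
      ∑ i, c i * (n i : ℤ) = 0 → ∑ i, c i * (w i : ℤ) = 0) (j : ℕ) (hj : j ≤ J)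
    (u : Fin j → Fin k × Fin k) (hu : u ∈ Fintype.piFinset (fun _ : Fin j => I ×ˢ I))
    (h : ∑ l, n (u l).1 = ∑ l, n (u l).2) : ∑ l, w (u l).1 = ∑ l, w (u l).2 := by
  have hmem : ∀ l, (u l).1 ∈ I ∧ (u l).2 ∈ I := by
    intro l
    have := Fintype.mem_piFinset.1 hu l
    exact Finset.mem_product.1 this
  set c : Fin k → ℤ := fun i => ∑ l, ((if (u l).1 = i then (1 : ℤ) else 0) -
    (if (u l).2 = i then (1 : ℤ) else 0)) with hc
  have key : ∀ g : Fin k → ℤ, ∑ i, c i * g i = ∑ l, (g (u l).1 - g (u l).2) := by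
    intro g
    simp only [hc, Finset.sum_mul]
    rw [Finset.sum_comm]
    refine Finset.sum_congr rfl fun l _ => ?_
    simp only [sub_mul, Finset.sum_sub_distrib, ite_mul, one_mul, zero_mul, Finset.sum_ite_eq,
      Finset.mem_univ, if_true]
  have h1 : ∀ i, i ∉ I → c i = 0 := by
    intro i hi
    simp only [hc]
    refine Finset.sum_eq_zero fun l _ => ?_
    rw [if_neg, if_neg, sub_zero]
    · intro h2
      exact hi (h2 ▸ (hmem l).2)
    · intro h2
      exact hi (h2 ▸ (hmem l).1)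
  have h2 : ∑ i, c i = 0 := by
    have := key (fun _ => 1)
    simpa using this
  have h3 : ∑ i, |c i| ≤ 2 * (J : ℤ) := by
    calc ∑ i, |c i| ≤ ∑ i, ∑ l, ((if (u l).1 = i then (1 : ℤ) else 0) +
          (if (u l).2 = i then (1 : ℤ) else 0)) := by
          refine Finset.sum_le_sum fun i _ => ?_
          simp only [hc]
          refine (Finset.abs_sum_le_sum_abs _ _).trans (Finset.sum_le_sum fun l _ => ?_)
          split_ifs <;> simp
      _ = ∑ l : Fin j, (1 + 1 : ℤ) := by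
          rw [Finset.sum_comm]
          refine Finset.sum_congr rfl fun l _ => ?_
          simp only [Finset.sum_add_distrib, Finset.sum_ite_eq, Finset.mem_univ, if_true]
      _ = 2 * (j : ℤ) := by
          rw [Finset.sum_const, Finset.card_univ, Fintype.card_fin, nsmul_eq_mul]
          ring
      _ ≤ 2 * (J : ℤ) := by
          have : (j : ℤ) ≤ J := by exact_mod_cast hj
          linarith
  have h4 : ∑ i, c i * (n i : ℤ) = 0 := by
    rw [key (fun i => (n i : ℤ)), Finset.sum_sub_distrib]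
    have : (∑ l, (n (u l).1 : ℤ)) = ∑ l, (n (u l).2 : ℤ) := by exact_mod_cast h
    rw [this, sub_self]
  have h5 := hw c h1 h2 h3 h4
  rw [key (fun i => (w i : ℤ)), Finset.sum_sub_distrib, sub_eq_zero] at h5
  exact_mod_cast h5

theorem moment_two {k J : ℕ} (a : Fin k → ℤ) (n w : Fin k → ℕ) (I : Finset (Fin k))
    (hw : ∀ c : Fin k → ℤ, (∀ i, i ∉ I → c i = 0) → ∑ i, c i = 0 → ∑ i, |c i| ≤ 2 * (J : ℤ) →
      ∑ i, c i * (n i : ℤ) = 0 → ∑ i, c i * (w i : ℤ) = 0) (j : ℕ) (hj : j ≤ J) :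
    CircleIntegrable (fun x : ℂ => Real.circleAverage
      (fun y : ℂ => (‖∑ i ∈ I, (a i : ℂ) * x ^ n i * y ^ w i‖ ^ 2) ^ j) 0 1) 0 1 ∧
    Real.circleAverage (fun x : ℂ => Real.circleAverage
      (fun y : ℂ => (‖∑ i ∈ I, (a i : ℂ) * x ^ n i * y ^ w i‖ ^ 2) ^ j) 0 1) 0 1 =
      Real.circleAverage (fun z : ℂ => (‖∑ i ∈ I, (a i : ℂ) * z ^ n i‖ ^ 2) ^ j) 0 1 := by
  classical
  set S := Fintype.piFinset (fun _ : Fin j => I ×ˢ I) with hS
  set C : (Fin j → Fin k × Fin k) → ℂ := fun u => ∏ l, ((a (u l).1 : ℂ) * (a (u l).2 : ℂ)) with hC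
  set A : (Fin j → Fin k × Fin k) → ℕ := fun u => ∑ l, n (u l).1 with hA
  set B : (Fin j → Fin k × Fin k) → ℕ := fun u => ∑ l, n (u l).2 with hB
  set A' : (Fin j → Fin k × Fin k) → ℕ := fun u => ∑ l, w (u l).1 with hA'
  set B' : (Fin j → Fin k × Fin k) → ℕ := fun u => ∑ l, w (u l).2 with hB'
  -- expansion in two variables
  have hexp : ∀ x y : ℂ, (((‖∑ i ∈ I, (a i : ℂ) * x ^ n i * y ^ w i‖ ^ 2) ^ j : ℝ) : ℂ) =
      ∑ u ∈ S, (C u * (x ^ A u * (conj x) ^ B u)) * (y ^ A' u * (conj y) ^ B' u) := by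
    intro x y
    rw [G1a_expand]
    refine Finset.sum_congr rfl fun u _ => ?_
    simp only [hC, hA, hB, hA', hB', ← Finset.prod_pow_eq_pow_sum, ← Finset.prod_mul_distrib]
    refine Finset.prod_congr rfl fun l _ => ?_
    simp only [map_mul, map_pow, map_intCast]
    ring
  have hexp1 : ∀ z : ℂ, (((‖∑ i ∈ I, (a i : ℂ) * z ^ n i‖ ^ 2) ^ j : ℝ) : ℂ) =
      ∑ u ∈ S, C u * (z ^ A u * (conj z) ^ B u) := by
    intro z
    rw [G1a_expand]
    refine Finset.sum_congr rfl fun u _ => ?_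
    simp only [hC, hA, hB, ← Finset.prod_pow_eq_pow_sum, ← Finset.prod_mul_distrib]
    refine Finset.prod_congr rfl fun l _ => ?_
    simp only [map_mul, map_pow, map_intCast]
    ring
  -- the inner mean
  have hin : ∀ x : ℂ, ((Real.circleAverage
      (fun y : ℂ => (‖∑ i ∈ I, (a i : ℂ) * x ^ n i * y ^ w i‖ ^ 2) ^ j) 0 1 : ℝ) : ℂ) =
      ∑ u ∈ S, (C u * (if A' u = B' u then 1 else 0)) * (x ^ A u * (conj x) ^ B u) := by
    intro x
    rw [← G1a_ofReal]
    have h1 : (fun y : ℂ => (((‖∑ i ∈ I, (a i : ℂ) * x ^ n i * y ^ w i‖ ^ 2) ^ j : ℝ) : ℂ)) =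
        fun y => ∑ u ∈ S, (C u * (x ^ A u * (conj x) ^ B u)) * (y ^ A' u * (conj y) ^ B' u) := by
      funext y
      exact hexp x y
    rw [h1, G1a_sum]
    refine Finset.sum_congr rfl fun u _ => ?_
    ring
  have hcont : Continuous fun x : ℂ => Real.circleAverage
      (fun y : ℂ => (‖∑ i ∈ I, (a i : ℂ) * x ^ n i * y ^ w i‖ ^ 2) ^ j) 0 1 := by
    have h1 : (fun x : ℂ => Real.circleAverage
        (fun y : ℂ => (‖∑ i ∈ I, (a i : ℂ) * x ^ n i * y ^ w i‖ ^ 2) ^ j) 0 1) =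
        fun x => (∑ u ∈ S, (C u * (if A' u = B' u then 1 else 0)) *
          (x ^ A u * (conj x) ^ B u)).re := by
      funext x
      rw [← hin x, Complex.ofReal_re]
    rw [h1]
    fun_prop
  refine ⟨(hcont.comp (continuous_circleMap 0 1)).intervalIntegrable _ _, ?_⟩
  have hleft : ((Real.circleAverage (fun x : ℂ => Real.circleAverage
      (fun y : ℂ => (‖∑ i ∈ I, (a i : ℂ) * x ^ n i * y ^ w i‖ ^ 2) ^ j) 0 1) 0 1 : ℝ) : ℂ) =
      ∑ u ∈ S, (C u * (if A' u = B' u then 1 else 0)) * (if A u = B u then 1 else 0) := by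
    rw [← G1a_ofReal]
    simp only [hin]
    rw [G1a_sum]
  have hright : ((Real.circleAverage (fun z : ℂ => (‖∑ i ∈ I, (a i : ℂ) * z ^ n i‖ ^ 2) ^ j) 0 1 : ℝ) : ℂ) =
      ∑ u ∈ S, C u * (if A u = B u then 1 else 0) := by
    rw [← G1a_ofReal]
    simp only [hexp1]
    rw [G1a_sum]
  have hfin : ((Real.circleAverage (fun x : ℂ => Real.circleAverage
      (fun y : ℂ => (‖∑ i ∈ I, (a i : ℂ) * x ^ n i * y ^ w i‖ ^ 2) ^ j) 0 1) 0 1 : ℝ) : ℂ) =
      ((Real.circleAverage (fun z : ℂ => (‖∑ i ∈ I, (a i : ℂ) * z ^ n i‖ ^ 2) ^ j) 0 1 : ℝ) : ℂ) := by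
    rw [hleft, hright]
    refine Finset.sum_congr rfl fun u hu => ?_
    by_cases h : A u = B u
    · have h' : A' u = B' u := G1a_rel n w I hw j hj u hu h
      rw [if_pos h, if_pos h', mul_one]
    · rw [if_neg h, mul_zero, mul_zero]
  exact_mod_cast hfin

end H91.LK
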