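import Pool.Agent.H91.LK.Defs
import Pool.Agent.H61.Sparse.Compare

/-!
# G2: the golden inequality

PROOF. `φ = (1 + √5)/2`. (1) For `0 < x < 1`: `log (1 - x) + φ⁻¹ log x ≤ -√5 log φ`: the tangent inequalities
`log (1 - x) ≤ log (1 - x₀) - (x - x₀)/(1 - x₀)`, `log x ≤ log x₀ + (x - x₀)/x₀` at `x₀ = φ⁻²`, `1 - x₀ = φ⁻¹`, the linear
terms cancel (`φ⁻¹/x₀ = φ = 1/(1 - x₀)`), `log (1-x₀) + φ⁻¹ log x₀ = -(1 + 2/φ) log φ = -√5 log φ`.
(2) Let `|z| = 1`, `A = log |T(z)|`, `C = log |B(z)|`, `m = max A C`, `T(z), B(z) ≠ 0`, `|T(z)| ≠ |B(z)|`. With `x = exp (-2 |A - C|)`,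
`log | |T|^2 - |B|^2 | = 2 m + log (1 - x) ≤ 2 m - √5 log φ + (2/φ) |A - C|` and `|A - C| = 2 m - A - C`.
(3) `P = T · reflect N T - B · reflect N B ∈ ℤ[X]` (`N` ≥ both degrees) has `|P(z)| = | |T(z)|^2 - |B(z)|^2 |` on the circle, is not zero
by `h`, so its mean of `log |P|` is `≥ 0` (`Polynomial.one_le_mahlerMeasure_of_ne_zero`), as are those of `A`, `C`. Means of (2) (off
finitely many points, `Pool.Agent.H61.Sparse.avg_mono_off` with the polynomial `T B P`): `0 ≤ (2 + 4/φ) E m - √5 log φ - (2/φ)(E A + E C)`,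
so `E m ≥ √5 log φ/(2 + 4/φ) = (log φ)/2` as `1 + 2/φ = √5`.
-/

set_option autoImplicit false

namespace H91.LK

open Polynomial

/-- tangent inequality at `x₀ = φ⁻²` -/
theorem G2_tangent {x : ℝ} (h0 : 0 < x) (h1 : x < 1) :
    Real.log (1 - x) + (√5 - 1) / 2 * Real.log x ≤ -(√5 * Real.log ((1 + √5) / 2)) := by
  have h5 : √5 ^ 2 = 5 := Real.sq_sqrt (by norm_num)
  have hs : 2 < √5 := by
    rw [Real.lt_sqrt (by norm_num)]
    norm_num
  set s := √5 with hsdef
  set p : ℝ := (1 + s) / 2 with hp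
  have hp0 : 0 < p := by rw [hp]; linarith
  have hpp : p ^ 2 = p + 1 := by rw [hp]; nlinarith
  have h2 : Real.log (1 - x) ≤ -Real.log p + (1 - x) * p - 1 := by
    have := Real.log_le_sub_one_of_pos (x := (1 - x) * p) (mul_pos (by linarith) hp0)
    rw [Real.log_mul (by linarith) hp0.ne'] at this
    linarith
  have h3 : Real.log x ≤ -(2 * Real.log p) + x * p ^ 2 - 1 := by
    have := Real.log_le_sub_one_of_pos (x := x * p ^ 2) (mul_pos h0 (pow_pos hp0 2))
    rw [Real.log_mul h0.ne' (pow_pos hp0 2).ne', Real.log_pow] at this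
    push_cast at this
    linarith
  have h4 : (s - 1) / 2 * Real.log x ≤ (s - 1) / 2 * (-(2 * Real.log p) + x * p ^ 2 - 1) :=
    mul_le_mul_of_nonneg_left h3 (by linarith)
  have h6 : (s - 1) / 2 * (-(2 * Real.log p) + x * p ^ 2 - 1) =
      -((s - 1) * Real.log p) + x * p - (s - 1) / 2 := by
    have : (s - 1) / 2 * p ^ 2 = p := by
      rw [hp]; nlinarith
    linear_combination x * this
  have h7 : -Real.log p + (1 - x) * p - 1 + (-((s - 1) * Real.log p) + x * p - (s - 1) / 2) =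
      -(s * Real.log p) := by
    have : p - 1 - (s - 1) / 2 = 0 := by rw [hp]; ring
    linear_combination this
  linarith

/-- the pointwise inequality, case `b < a` -/
theorem G2_point {a b : ℝ} (hb : 0 < b) (hab : b < a) :
    Real.log (a ^ 2 - b ^ 2) ≤ 2 * √5 * max (Real.log a) (Real.log b)
      - √5 * Real.log ((1 + √5) / 2) - (√5 - 1) * (Real.log a + Real.log b) := by
  have ha : 0 < a := hb.trans hab
  have hm : max (Real.log a) (Real.log b) = Real.log a :=
    max_eq_left (Real.log_le_log hb hab.le)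
  have hx1 : b ^ 2 / a ^ 2 < 1 := by
    rw [div_lt_one (by positivity)]
    exact pow_lt_pow_left₀ hab hb.le (by norm_num)
  have key := G2_tangent (x := b ^ 2 / a ^ 2) (by positivity) hx1
  have h1 : Real.log (a ^ 2 - b ^ 2) = 2 * Real.log a + Real.log (1 - b ^ 2 / a ^ 2) := by
    have : a ^ 2 - b ^ 2 = a ^ 2 * (1 - b ^ 2 / a ^ 2) := by
      field_simp
    rw [this, Real.log_mul (by positivity) (by linarith), Real.log_pow]
    push_cast
    ring
  have h2 : Real.log (b ^ 2 / a ^ 2) = 2 * Real.log b - 2 * Real.log a := by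
    rw [Real.log_div (by positivity) (by positivity), Real.log_pow, Real.log_pow]
    push_cast
    ring
  rw [h2] at key
  rw [h1, hm]
  nlinarith [key]

theorem G2_point' {a b : ℝ} (ha : 0 < a) (hb : 0 < b) (hab : a ≠ b) :
    Real.log |a ^ 2 - b ^ 2| ≤ 2 * √5 * max (Real.log a) (Real.log b)
      - √5 * Real.log ((1 + √5) / 2) - (√5 - 1) * (Real.log a + Real.log b) := by
  rcases lt_or_gt_of_ne hab with h | h
  · have := G2_point ha h
    rw [Real.log_abs, ← Real.log_neg_eq_log, neg_sub]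
    rw [max_comm, add_comm (Real.log a)]
    exact this
  · rw [Real.log_abs]
    exact G2_point hb h

/-- the reflected polynomial on the unit circle -/
theorem G2_reflect (f : ℤ[X]) {N : ℕ} (hf : f.natDegree ≤ N) {z : ℂ} (hz : ‖z‖ = 1) :
    aeval z (reflect N f) = z ^ N * (starRingEnd ℂ) (aeval z f) := by
  have hz0 : z ≠ 0 := by
    rintro rfl
    simp at hz
  have hc : (starRingEnd ℂ) (aeval z f) = aeval z⁻¹ f := by
    have h1 : (starRingEnd ℂ) z = z⁻¹ := by
      rw [Complex.inv_def, Complex.normSq_eq_norm_sq, hz]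
      simp
    rw [← h1, aeval_def, aeval_def]
    simp only [eval₂_eq_sum_range, map_sum, map_mul, map_pow]
    apply Finset.sum_congr rfl
    intro i _
    simp
  rw [hc]
  let _ : Invertible (z⁻¹) := invertibleOfNonzero (inv_ne_zero hz0)
  have h2 := eval₂_reflect_mul_pow (algebraMap ℤ ℂ) z⁻¹ N f hf
  rw [invOf_eq_inv, inv_inv] at h2
  rw [aeval_def, aeval_def, ← h2]
  rw [inv_pow]
  field_simp

theorem G2_logM_nonneg {P : ℤ[X]} (hP : P ≠ 0) :
    0 ≤ Real.circleAverage (fun z : ℂ => Real.log ‖aeval z P‖) 0 1 := by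
  have h1 := one_le_mahlerMeasure_of_ne_zero (p := P) hP
  have h2 : 0 ≤ (P.map (Int.castRingHom ℂ)).logMahlerMeasure := by
    rw [logMahlerMeasure_eq_log_MahlerMeasure]
    exact Real.log_nonneg h1
  rw [logMahlerMeasure_def] at h2
  convert h2 using 3 with z
  simp [aeval_def, eval_map, algebraMap_int_eq]

theorem G2_int (P : ℤ[X]) : CircleIntegrable (fun z : ℂ => Real.log ‖aeval z P‖) 0 1 := by
  have := Pool.Agent.H61.Sparse.circleIntegrable_log_eval (P.map (Int.castRingHom ℂ))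
  convert this using 3 with z
  simp [aeval_def, eval_map, algebraMap_int_eq]

theorem G2_int_max {f g : ℂ → ℝ} (hf : CircleIntegrable f 0 1) (hg : CircleIntegrable g 0 1) :
    CircleIntegrable (fun z => max (f z) (g z)) 0 1 := by
  have h : (fun z => max (f z) (g z)) = fun z => (1 / 2 : ℝ) • (f z + g z + |f z - g z|) := by
    funext z
    rw [smul_eq_mul]
    rcases le_total (f z) (g z) with h | h
    · rw [max_eq_right h, abs_of_nonpos (by linarith)]; ring
    · rw [max_eq_left h, abs_of_nonneg (by linarith)]; ring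
  rw [h]
  exact ((hf.add hg).add (hf.sub hg).abs).const_smul

theorem golden (T B : ℤ[X]) (hT : T ≠ 0) (hB : B ≠ 0)
    (h : ¬ ∀ z : ℂ, ‖z‖ = 1 → ‖aeval z T‖ = ‖aeval z B‖) :
    Real.log ((1 + √5) / 2) / 2 ≤
      Real.circleAverage (fun z : ℂ => max (Real.log ‖aeval z T‖) (Real.log ‖aeval z B‖)) 0 1 := by
  set N : ℕ := max T.natDegree B.natDegree with hN
  set P : ℤ[X] := T * reflect N T - B * reflect N B with hPdef
  have habs : ∀ z : ℂ, ‖z‖ = 1 → ‖aeval z P‖ = |‖aeval z T‖ ^ 2 - ‖aeval z B‖ ^ 2| := by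
    intro z hz
    have h1 : aeval z P = z ^ N * ((‖aeval z T‖ ^ 2 - ‖aeval z B‖ ^ 2 : ℝ) : ℂ) := by
      rw [hPdef, map_sub, map_mul, map_mul, G2_reflect T (le_max_left _ _) hz,
        G2_reflect B (le_max_right _ _) hz]
      push_cast
      rw [← Complex.mul_conj', ← Complex.mul_conj']
      ring
    rw [h1, norm_mul, norm_pow, hz, one_pow, one_mul, Complex.norm_real, Real.norm_eq_abs]
  have hP : P ≠ 0 := by
    intro h0
    apply h
    intro z hz
    have h1 := habs z hz
    rw [h0, map_zero, norm_zero] at h1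
    have h2 := abs_eq_zero.1 h1.symm
    have h3 : ‖aeval z T‖ ^ 2 = ‖aeval z B‖ ^ 2 := by linarith
    exact (pow_left_inj₀ (norm_nonneg _) (norm_nonneg _) two_ne_zero).1 h3
  have hIT := G2_int T
  have hIB := G2_int B
  have hIm := G2_int_max hIT hIB
  have hIP := G2_int P
  set c : ℝ := √5 * Real.log ((1 + √5) / 2) with hc
  have hmap : ∀ Q : ℤ[X], Q ≠ 0 → Q.map (Int.castRingHom ℂ) ≠ 0 := fun Q hQ =>
    (Polynomial.map_ne_zero_iff (RingHom.injective_int _)).2 hQ
  have hev : ∀ (Q : ℤ[X]) (z : ℂ), (Q.map (Int.castRingHom ℂ)).eval z = aeval z Q := by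
    intro Q z
    simp [aeval_def, eval_map, algebraMap_int_eq]
  have hI1 : CircleIntegrable
      (fun z : ℂ => 2 * √5 * max (Real.log ‖aeval z T‖) (Real.log ‖aeval z B‖)) 0 1 :=
    hIm.const_smul (a := 2 * √5)
  have hI2 : CircleIntegrable (fun _ : ℂ => c) 0 1 := circleIntegrable_const _ _ _
  have hI3 : CircleIntegrable
      (fun z : ℂ => Real.log ‖aeval z T‖ + Real.log ‖aeval z B‖) 0 1 := hIT.add hIB
  have hI4 : CircleIntegrable
      (fun z : ℂ => (√5 - 1) * (Real.log ‖aeval z T‖ + Real.log ‖aeval z B‖)) 0 1 :=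
    hI3.const_smul (a := √5 - 1)
  have h1 := Pool.Agent.H61.Sparse.avg_mono_off
    ((T * B * P).map (Int.castRingHom ℂ)) (hmap _ (mul_ne_zero (mul_ne_zero hT hB) hP))
    hIP ((hI1.sub hI2).sub hI4) (by
      intro z hz hne
      rw [hev, map_mul, map_mul, mul_ne_zero_iff, mul_ne_zero_iff] at hne
      obtain ⟨⟨h1, h2⟩, h3⟩ := hne
      have h4 : ‖aeval z T‖ ≠ ‖aeval z B‖ := by
        intro he
        apply h3
        rw [← norm_eq_zero, habs z hz, he, sub_self, abs_zero]
      simp only [Pi.sub_apply]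
      rw [habs z hz]
      exact G2_point' (norm_pos_iff.2 h1) (norm_pos_iff.2 h2) h4)
  have h2 : Real.circleAverage
      ((fun z : ℂ => 2 * √5 * max (Real.log ‖aeval z T‖) (Real.log ‖aeval z B‖)) -
        (fun _ : ℂ => c) - fun z : ℂ => (√5 - 1) *
          (Real.log ‖aeval z T‖ + Real.log ‖aeval z B‖)) 0 1 =
      2 * √5 * Real.circleAverage
        (fun z : ℂ => max (Real.log ‖aeval z T‖) (Real.log ‖aeval z B‖)) 0 1 - c -
      (√5 - 1) * (Real.circleAverage (fun z : ℂ => Real.log ‖aeval z T‖) 0 1 +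
        Real.circleAverage (fun z : ℂ => Real.log ‖aeval z B‖) 0 1) := by
    rw [Real.circleAverage_sub (hI1.sub hI2) hI4, Real.circleAverage_sub hI1 hI2,
      Real.circleAverage_const]
    have e1 := Real.circleAverage_fun_smul (c := (0:ℂ)) (R := 1) (a := 2 * √5)
      (f := fun z : ℂ => max (Real.log ‖aeval z T‖) (Real.log ‖aeval z B‖))
    have e2 := Real.circleAverage_fun_smul (c := (0:ℂ)) (R := 1) (a := √5 - 1)
      (f := fun z : ℂ => Real.log ‖aeval z T‖ + Real.log ‖aeval z B‖)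
    simp only [smul_eq_mul] at e1 e2
    rw [e1, e2, Real.circleAverage_fun_add hIT hIB]
  rw [h2] at h1
  have h3 := G2_logM_nonneg hP
  have h4 := G2_logM_nonneg hT
  have h5 := G2_logM_nonneg hB
  have hs : 2 < √5 := by
    rw [Real.lt_sqrt (by norm_num)]
    norm_num
  have h6 : 0 ≤ (√5 - 1) * (Real.circleAverage (fun z : ℂ => Real.log ‖aeval z T‖) 0 1 +
        Real.circleAverage (fun z : ℂ => Real.log ‖aeval z B‖) 0 1) :=
    mul_nonneg (by linarith) (add_nonneg h4 h5)
  have h7 : √5 * Real.log ((1 + √5) / 2) ≤ √5 * (2 * Real.circleAverage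
        (fun z : ℂ => max (Real.log ‖aeval z T‖) (Real.log ‖aeval z B‖)) 0 1) := by
    rw [← hc]
    linarith
  have h8 := le_of_mul_le_mul_left h7 (by linarith)
  linarith

end H91.LK
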