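import Mathlib

/-!
# G3: facets

PROOF. Among the `w ∈ V` which are not constant on `I` choose one for which the set `I_w = {i ∈ I | w i = max_I w}` has the
largest number of elements. Suppose `x ∈ V` is constant on `I_w` but not of the form `α + β w` on `I`. Subtract constants
(`1 ∈ V`): `x = 0`, `w = 0` on `I_w`, `w < 0` on `I \ I_w`. `x` is not `0` on `I`; replacing `x` by `-x` we may assume `x_i > 0` for some `i ∈ I`.
Let `τ = min {-w_i/x_i : i ∈ I, x_i > 0} > 0` and `w' = w + τ x`: `w' ≤ 0` on `I`, `w' = 0` on `I_w` and at one more element of `I`, and `w'` is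
not constant on `I` (otherwise `w' = 0` on `I`, `x = -w/τ`). Contradiction. Integer form: multiply `w` by a common denominator
(of all the values on `I`), subtract the minimum over `I` and take `Int.toNat`.
-/

set_option autoImplicit false

namespace H91.LK

/-- the elements of `I` where `y` is maximal -/
noncomputable def amx {k : ℕ} (I : Finset (Fin k)) (y : Fin k → ℚ) : Finset (Fin k) :=
  I.filter fun i => ∀ j ∈ I, y j ≤ y i

theorem mem_amx {k : ℕ} (I : Finset (Fin k)) (y : Fin k → ℚ) (i : Fin k) :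
    i ∈ amx I y ↔ i ∈ I ∧ ∀ j ∈ I, y j ≤ y i := by
  rw [amx, Finset.mem_filter]

theorem amx_step {k : ℕ} (V : Submodule ℚ (Fin k → ℚ)) (I : Finset (Fin k))
    (y : Fin k → ℚ) (hy : y ∈ V) (hy0 : ∀ i ∈ I, y i ≤ 0) (i₀ : Fin k) (hi₀ : i₀ ∈ I)
    (hyi₀ : y i₀ = 0) (hmax : ∀ z ∈ V, (∃ i ∈ I, ∃ j ∈ I, z i ≠ z j) →
      (amx I z).card ≤ (amx I y).card)
    (x : Fin k → ℚ) (hx : x ∈ V) (hx0 : ∀ i ∈ I, y i = 0 → x i = 0)
    (hpos : ∃ i ∈ I, 0 < x i) : ∃ β : ℚ, ∀ i ∈ I, x i = β * y i := by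
  classical
  obtain ⟨i₂, hi₂, hx₂⟩ := hpos
  set P : Finset (Fin k) := I.filter fun i => 0 < x i with hP
  have hPne : P.Nonempty := ⟨i₂, Finset.mem_filter.mpr ⟨hi₂, hx₂⟩⟩
  obtain ⟨i₁, hi₁, hmin⟩ := P.exists_min_image (fun i => -y i / x i) hPne
  obtain ⟨hi₁I, hx₁⟩ := Finset.mem_filter.mp hi₁
  have hy₁ : y i₁ < 0 := by
    refine lt_of_le_of_ne (hy0 i₁ hi₁I) fun h => ?_
    rw [hx0 i₁ hi₁I h] at hx₁
    exact lt_irrefl _ hx₁
  set τ : ℚ := -y i₁ / x i₁ with hτ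
  have hτ0 : 0 < τ := div_pos (by linarith) hx₁
  set z : Fin k → ℚ := y + τ • x with hz
  have hzV : z ∈ V := V.add_mem hy (V.smul_mem τ hx)
  have hzi : ∀ i, z i = y i + τ * x i := fun i => by simp [hz]
  have hz0 : ∀ i ∈ I, z i ≤ 0 := by
    intro i hi
    rw [hzi]
    by_cases hxi : 0 < x i
    · have h1 : τ ≤ -y i / x i := hmin i (Finset.mem_filter.mpr ⟨hi, hxi⟩)
      have h2 : τ * x i ≤ -y i / x i * x i := mul_le_mul_of_nonneg_right h1 hxi.le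
      rw [div_mul_cancel₀ _ hxi.ne'] at h2
      linarith
    · have h1 : τ * x i ≤ 0 := mul_nonpos_of_nonneg_of_nonpos hτ0.le (not_lt.mp hxi)
      linarith [hy0 i hi]
  have hz₁ : z i₁ = 0 := by
    rw [hzi, hτ, div_mul_cancel₀ _ hx₁.ne']
    ring
  have hzz : ∀ i ∈ I, y i = 0 → z i = 0 := by
    intro i hi h
    rw [hzi, h, hx0 i hi h]
    ring
  by_cases hc : ∃ i ∈ I, ∃ j ∈ I, z i ≠ z j
  · exfalso
    have h1 := hmax z hzV hc
    have h2 : insert i₁ (amx I y) ⊆ amx I z := by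
      intro i hi
      rw [Finset.mem_insert] at hi
      rw [mem_amx]
      rcases hi with rfl | hi
      · exact ⟨hi₁I, fun j hj => by rw [hz₁]; exact hz0 j hj⟩
      · rw [mem_amx] at hi
        have h3 : y i = 0 := le_antisymm (hy0 i hi.1) (by rw [← hyi₀]; exact hi.2 i₀ hi₀)
        exact ⟨hi.1, fun j hj => by rw [hzz i hi.1 h3]; exact hz0 j hj⟩
    have h3 : i₁ ∉ amx I y := by
      rw [mem_amx]
      rintro ⟨-, h⟩
      have := h i₀ hi₀
      rw [hyi₀] at this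
      linarith
    have h4 := Finset.card_le_card h2
    rw [Finset.card_insert_of_notMem h3] at h4
    omega
  · push Not at hc
    refine ⟨-τ⁻¹, fun i hi => ?_⟩
    have h1 : z i = 0 := by
      rw [hc i hi i₀ hi₀]
      exact hzz i₀ hi₀ hyi₀
    rw [hzi] at h1
    have h2 : x i = -(y i) / τ := by
      rw [eq_div_iff hτ0.ne']
      linarith
    rw [h2]
    field_simp

theorem amx_span {k : ℕ} (V : Submodule ℚ (Fin k → ℚ)) (h1 : (fun _ => (1 : ℚ)) ∈ V)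
    (I : Finset (Fin k)) (y : Fin k → ℚ) (hy : y ∈ V) (hmax : ∀ z ∈ V,
      (∃ i ∈ I, ∃ j ∈ I, z i ≠ z j) → (amx I z).card ≤ (amx I y).card)
    (i₀ : Fin k) (hi₀ : i₀ ∈ amx I y) (x : Fin k → ℚ) (hx : x ∈ V)
    (hxc : ∀ i ∈ amx I y, x i = x i₀) : ∃ α β : ℚ, ∀ i ∈ I, x i = α + β * y i := by
  have hi₀' := (mem_amx I y i₀).mp hi₀
  set y' : Fin k → ℚ := y - (y i₀) • (fun _ => (1 : ℚ)) with hy'
  have hy'i : ∀ i, y' i = y i - y i₀ := fun i => by simp [hy']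
  have hy'V : y' ∈ V := V.sub_mem hy (V.smul_mem _ h1)
  have ham : amx I y' = amx I y := by
    ext i
    rw [mem_amx, mem_amx]
    simp only [hy'i]
    constructor
    · rintro ⟨a, b⟩
      exact ⟨a, fun j hj => by linarith [b j hj]⟩
    · rintro ⟨a, b⟩
      exact ⟨a, fun j hj => by linarith [b j hj]⟩
  set x' : Fin k → ℚ := x - (x i₀) • (fun _ => (1 : ℚ)) with hx'
  have hx'i : ∀ i, x' i = x i - x i₀ := fun i => by simp [hx']
  have hx'V : x' ∈ V := V.sub_mem hx (V.smul_mem _ h1)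
  have hy0 : ∀ i ∈ I, y' i ≤ 0 := fun i hi => by
    rw [hy'i]
    linarith [hi₀'.2 i hi]
  have hz : ∀ i ∈ I, y' i = 0 → x' i = 0 := by
    intro i hi h
    rw [hy'i] at h
    rw [hx'i, hxc i, sub_self]
    rw [mem_amx]
    refine ⟨hi, fun j hj => ?_⟩
    have := hi₀'.2 j hj
    linarith
  have hmax' : ∀ z ∈ V, (∃ i ∈ I, ∃ j ∈ I, z i ≠ z j) → (amx I z).card ≤ (amx I y').card := by
    rw [ham]
    exact hmax
  have hy'0 : y' i₀ = 0 := by rw [hy'i, sub_self]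
  have hmain : ∃ β : ℚ, ∀ i ∈ I, x' i = β * y' i := by
    by_cases hp : ∃ i ∈ I, 0 < x' i
    · exact amx_step V I y' hy'V hy0 i₀ hi₀'.1 hy'0 hmax' x' hx'V hz hp
    · by_cases hn : ∃ i ∈ I, 0 < (-x') i
      · obtain ⟨β, hβ⟩ := amx_step V I y' hy'V hy0 i₀ hi₀'.1 hy'0 hmax' (-x')
          (V.neg_mem hx'V) (fun i hi h => by simp [hz i hi h]) hn
        refine ⟨-β, fun i hi => ?_⟩
        have := hβ i hi
        rw [Pi.neg_apply] at this
        linarith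
      · push Not at hp hn
        refine ⟨0, fun i hi => ?_⟩
        have h2 := hp i hi
        have h3 := hn i hi
        rw [Pi.neg_apply] at h3
        linarith
  obtain ⟨β, hβ⟩ := hmain
  refine ⟨x i₀ - β * y i₀, β, fun i hi => ?_⟩
  have := hβ i hi
  rw [hx'i, hy'i] at this
  linarith

theorem facet {k : ℕ} (V : Submodule ℚ (Fin k → ℚ)) (h1 : (fun _ => (1 : ℚ)) ∈ V)
    (I : Finset (Fin k)) (hne : ∃ x ∈ V, ∃ i ∈ I, ∃ j ∈ I, x i ≠ x j) :
    ∃ (w : Fin k → ℕ) (W : ℕ), 0 < W ∧ (∃ x₀ ∈ V, ∀ i ∈ I, x₀ i = w i) ∧ (∀ i ∈ I, w i ≤ W) ∧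
      (∃ i ∈ I, w i = W) ∧ (∃ i ∈ I, w i = 0) ∧
      ∀ x ∈ V, (∀ i ∈ I, ∀ j ∈ I, w i = W → w j = W → x i = x j) →
        ∃ α β : ℚ, ∀ i ∈ I, x i = α + β * w i := by
  classical
  let T : Type := {y : Fin k → ℚ // y ∈ V ∧ ∃ i ∈ I, ∃ j ∈ I, y i ≠ y j}
  obtain ⟨x, hx, hxne⟩ := hne
  have : Nonempty T := ⟨⟨x, hx, hxne⟩⟩
  let F : T → ℕ := fun y => I.card - (amx I y.1).card
  let Y : T := Function.argmin F
  obtain ⟨y, hy, i₃, hi₃, j₃, hj₃, hne₃⟩ : ∃ y ∈ V, ∃ i ∈ I, ∃ j ∈ I, y i ≠ y j :=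
    ⟨Y.1, Y.2.1, Y.2.2⟩
  have hYmax : ∀ z ∈ V, (∃ i ∈ I, ∃ j ∈ I, z i ≠ z j) → (amx I z).card ≤ (amx I Y.1).card := by
    intro z hz hzne
    have h2 : F Y ≤ F ⟨z, hz, hzne⟩ := Function.argmin_le F _
    have h3 : (amx I z).card ≤ I.card := Finset.card_le_card (Finset.filter_subset _ _)
    have h4 : (amx I Y.1).card ≤ I.card := Finset.card_le_card (Finset.filter_subset _ _)
    simp only [F] at h2
    omega
  clear hne₃ hj₃ j₃ hi₃ i₃ hy y
  obtain ⟨y, hy, hyne, hmax⟩ : ∃ y ∈ V, (∃ i ∈ I, ∃ j ∈ I, y i ≠ y j) ∧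
      ∀ z ∈ V, (∃ i ∈ I, ∃ j ∈ I, z i ≠ z j) → (amx I z).card ≤ (amx I y).card :=
    ⟨Y.1, Y.2.1, Y.2.2, hYmax⟩
  obtain ⟨i₃, hi₃, j₃, hj₃, hne₃⟩ := hyne
  obtain ⟨i₀, hi₀, hi₀m⟩ := I.exists_max_image y ⟨i₃, hi₃⟩
  obtain ⟨i₂, hi₂, hi₂m⟩ := I.exists_min_image y ⟨i₃, hi₃⟩
  have hlt : y i₂ < y i₀ := by
    rcases lt_or_gt_of_ne hne₃ with h | h
    · exact (hi₂m _ hi₃).trans_lt (h.trans_le (hi₀m _ hj₃))
    · exact (hi₂m _ hj₃).trans_lt (h.trans_le (hi₀m _ hi₃))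
  set D : ℕ := ∏ i ∈ I, (y i - y i₂).den with hD
  have hDpos : 0 < D := Finset.prod_pos fun i _ => (y i - y i₂).den_pos
  have hDq : (0 : ℚ) < D := by exact_mod_cast hDpos
  have hex : ∀ i, ∃ n : ℕ, i ∈ I → (D : ℚ) * (y i - y i₂) = n := by
    intro i
    by_cases hi : i ∈ I
    · obtain ⟨q, hq⟩ := Finset.dvd_prod_of_mem (fun i => (y i - y i₂).den) hi
      have hnum : 0 ≤ (y i - y i₂).num := by
        rw [Rat.num_nonneg]
        linarith [hi₂m i hi]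
      refine ⟨(y i - y i₂).num.toNat * q, fun _ => ?_⟩
      have h2 : ((y i - y i₂).num.toNat : ℚ) = ((y i - y i₂).num : ℚ) := by
        have := Int.toNat_of_nonneg hnum
        exact_mod_cast congrArg (fun z : ℤ => (z : ℚ)) this
      rw [hD, hq]
      push_cast
      rw [h2]
      have h3 : ((y i - y i₂).den : ℚ) * (y i - y i₂) = (y i - y i₂).num := by
        rw [mul_comm]
        exact Rat.mul_den_eq_num _
      calc ((y i - y i₂).den : ℚ) * q * (y i - y i₂)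
          = ((y i - y i₂).den : ℚ) * (y i - y i₂) * q := by ring
        _ = _ := by rw [h3]
    · exact ⟨0, fun h => absurd h hi⟩
  choose w hw using hex
  have hle : ∀ i ∈ I, w i ≤ w i₀ := by
    intro i hi
    have h2 : (w i : ℚ) ≤ w i₀ := by
      rw [← hw i hi, ← hw i₀ hi₀]
      exact mul_le_mul_of_nonneg_left (by linarith [hi₀m i hi]) hDq.le
    exact_mod_cast h2
  refine ⟨w, w i₀, ?_, ?_, hle, ⟨i₀, hi₀, rfl⟩, ⟨i₂, hi₂, ?_⟩, ?_⟩
  · have h2 : (0 : ℚ) < w i₀ := by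
      rw [← hw i₀ hi₀]
      exact mul_pos hDq (by linarith)
    exact_mod_cast h2
  · refine ⟨(D : ℚ) • (y - (y i₂) • (fun _ => (1 : ℚ))),
      V.smul_mem _ (V.sub_mem hy (V.smul_mem _ h1)), fun i hi => ?_⟩
    rw [← hw i hi]
    simp
  · have h2 : (w i₂ : ℚ) = 0 := by
      rw [← hw i₂ hi₂]
      simp
    exact_mod_cast h2
  · intro x hx hxc
    have hi₀A : i₀ ∈ amx I y := (mem_amx I y i₀).mpr ⟨hi₀, fun j hj => hi₀m j hj⟩
    have hxc' : ∀ i ∈ amx I y, x i = x i₀ := by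
      intro i hi
      rw [mem_amx] at hi
      have h2 : y i = y i₀ := le_antisymm (hi₀m i hi.1) (hi.2 i₀ hi₀)
      refine hxc i hi.1 i₀ hi₀ ?_ rfl
      have h3 : (w i : ℚ) = w i₀ := by rw [← hw i hi.1, ← hw i₀ hi₀, h2]
      exact_mod_cast h3
    obtain ⟨α, β, hαβ⟩ := amx_span V h1 I y hy hmax i₀ hi₀A x hx hxc'
    refine ⟨α + β * y i₂, β / D, fun i hi => ?_⟩
    rw [hαβ i hi, ← hw i hi]
    field_simp
    ring

end H91.LK
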