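import Pool.Agent.H91.LK.G0

/-!
# G4: equal absolute values on the circle imply equal dimensions

PROOF. `T = fp a n IT`, `B = fp a n IB`. From `h`: `T · reflect N T = B · reflect N B` in `ℤ[X]` for `N` large (equal at infinitely many
points of the circle, where `reflect N T` has the value `z^N conj (T z)`); coefficientwise, for all `d : ℤ`:
`∑_{i, j ∈ IT, n_i - n_j = d} a_i a_j = ∑_{i, j ∈ IB, n_i - n_j = d} a_i a_j`.
Suppose `x ∈ V` is not constant on `IT`, `M`, `m` its maximum and minimum over `IT`. The polynomials `T⁺ = fp a n {i ∈ IT | x_i = M}`,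
`T⁻ = fp a n {i ∈ IT | x_i = m}` are not zero (`n` injective), so `T⁺ · reflect N T⁻ ≠ 0` has a nonzero coefficient, at the difference `d`
say. Every pair `(i', j') ∈ IT²` with `n_{i'} - n_{j'} = d` has `x_{i'} - x_{j'} = M - m`: compare with a pair `(i, j)`, `x_i = M`, `x_j = m`,
`n_i - n_j = d`, through the relation `c = e_i - e_j - e_{i'} + e_{j'}` (`∑ c = 0`, `∑ |c| ≤ 4 ≤ 2 J`); hence `x_{i'} = M`, `x_{j'} = m`. So the
sum over `IT` for this `d` is the coefficient of `T⁺ · reflect N T⁻`, not zero. So the sum over `IB` is not zero and there are `i', j' ∈ IB` with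
`n_{i'} - n_{j'} = d`, so `x_{i'} - x_{j'} = M - m ≠ 0` by the same relation: `x` is not constant on `IB`.
-/

set_option autoImplicit false

namespace H91.LK

open Polynomial

/-- the reversed part `∑_{i ∈ I} a_i X ^ (N - n_i)` -/
noncomputable def G4_rp {k : ℕ} (a : Fin k → ℤ) (n : Fin k → ℕ) (N : ℕ) (I : Finset (Fin k)) : ℤ[X] :=
  ∑ i ∈ I, monomial (N - n i) (a i)

theorem G4_coeff {k : ℕ} (a : Fin k → ℤ) (n : Fin k → ℕ) (N : ℕ) (I I' : Finset (Fin k)) (d : ℕ) :
    (fp a n I * G4_rp a n N I').coeff d =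
      ∑ i ∈ I, ∑ j ∈ I', if n i + (N - n j) = d then a i * a j else 0 := by
  unfold fp G4_rp
  rw [Finset.sum_mul_sum, finsetSum_coeff]
  refine Finset.sum_congr rfl fun i _ => ?_
  rw [finsetSum_coeff]
  refine Finset.sum_congr rfl fun j _ => ?_
  rw [monomial_mul_monomial, coeff_monomial]

theorem G4_fp_ne {k : ℕ} (a : Fin k → ℤ) (ha : ∀ i, a i ≠ 0) (n : Fin k → ℕ)
    (hn : Function.Injective n) (I : Finset (Fin k)) {i : Fin k} (hi : i ∈ I) : fp a n I ≠ 0 := by
  intro h
  have h1 : (fp a n I).coeff (n i) = a i := by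
    unfold fp
    rw [finsetSum_coeff, Finset.sum_eq_single i]
    · rw [coeff_monomial, if_pos rfl]
    · intro j _ hj
      rw [coeff_monomial, if_neg]
      exact fun h2 => hj (hn h2)
    · exact fun h2 => absurd hi h2
  rw [h, coeff_zero] at h1
  exact ha i h1.symm

theorem G4_rp_ne {k : ℕ} (a : Fin k → ℤ) (ha : ∀ i, a i ≠ 0) (n : Fin k → ℕ)
    (hn : Function.Injective n) (N : ℕ) (hN : ∀ i, n i ≤ N) (I : Finset (Fin k)) {i : Fin k}
    (hi : i ∈ I) : G4_rp a n N I ≠ 0 := by
  intro h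
  have h1 : (G4_rp a n N I).coeff (N - n i) = a i := by
    unfold G4_rp
    rw [finsetSum_coeff, Finset.sum_eq_single i]
    · rw [coeff_monomial, if_pos rfl]
    · intro j _ hj
      rw [coeff_monomial, if_neg]
      intro h2
      apply hj
      apply hn
      have h3 := hN i
      have h4 := hN j
      omega
    · exact fun h2 => absurd hi h2
  rw [h, coeff_zero] at h1
  exact ha i h1.symm

/-- the reversed part on the circle -/
theorem G4_rp_eval {k : ℕ} (a : Fin k → ℤ) (n : Fin k → ℕ) (N : ℕ) (hN : ∀ i, n i ≤ N)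
    (I : Finset (Fin k)) (z : ℂ) (hz : ‖z‖ = 1) :
    aeval z (fp a n I * G4_rp a n N I) = z ^ N * ((‖aeval z (fp a n I)‖ ^ 2 : ℝ) : ℂ) := by
  have hzz : z * (starRingEnd ℂ) z = 1 := by
    rw [Complex.mul_conj, Complex.normSq_eq_norm_sq, hz]
    simp
  have h1 : aeval z (G4_rp a n N I) = z ^ N * (starRingEnd ℂ) (aeval z (fp a n I)) := by
    unfold G4_rp fp
    rw [map_sum, map_sum, map_sum, Finset.mul_sum]
    refine Finset.sum_congr rfl fun i _ => ?_
    rw [aeval_monomial, aeval_monomial, map_mul, map_pow]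
    have h2 : z ^ N = z ^ (N - n i) * z ^ n i := by
      rw [← pow_add, Nat.sub_add_cancel (hN i)]
    have h3 : z ^ n i * (starRingEnd ℂ) z ^ n i = 1 := by
      rw [← mul_pow, hzz, one_pow]
    have h4 : (starRingEnd ℂ) ((algebraMap ℤ ℂ) (a i)) = (algebraMap ℤ ℂ) (a i) := by
      simp
    rw [h4, h2]
    calc (algebraMap ℤ ℂ) (a i) * z ^ (N - n i)
        = (algebraMap ℤ ℂ) (a i) * z ^ (N - n i) * (z ^ n i * (starRingEnd ℂ) z ^ n i) := by
          rw [h3, mul_one]
      _ = _ := by ring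
  rw [map_mul, h1, ← Complex.normSq_eq_norm_sq, ← Complex.mul_conj]
  ring

/-- the circle is infinite -/
theorem G4_inf : {z : ℂ | ‖z‖ = 1}.Infinite := by
  refine Set.infinite_of_injective_forall_mem
    (f := fun m : ℕ => (⟨1 / ((m : ℝ) + 1), √(1 - (1 / ((m : ℝ) + 1)) ^ 2)⟩ : ℂ)) ?_ ?_
  · intro m m' h
    have h1 := congrArg Complex.re h
    simp only at h1
    have h2 : (0 : ℝ) < (m : ℝ) + 1 := by positivity
    have h3 : (0 : ℝ) < (m' : ℝ) + 1 := by positivity
    rw [div_eq_div_iff h2.ne' h3.ne'] at h1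
    have h4 : (m : ℝ) = m' := by linarith
    exact_mod_cast h4
  · intro m
    have h2 : (0 : ℝ) < (m : ℝ) + 1 := by positivity
    have h3 : 1 / ((m : ℝ) + 1) ≤ 1 := by
      rw [div_le_one h2]
      have : (0 : ℝ) ≤ m := Nat.cast_nonneg m
      linarith
    have h4 : 0 ≤ 1 / ((m : ℝ) + 1) := by positivity
    have h5 : (0 : ℝ) ≤ 1 - (1 / ((m : ℝ) + 1)) ^ 2 := by nlinarith
    have h6 : ‖(⟨1 / ((m : ℝ) + 1), √(1 - (1 / ((m : ℝ) + 1)) ^ 2)⟩ : ℂ)‖ ^ 2 = 1 := by
      rw [← Complex.normSq_eq_norm_sq, Complex.normSq_mk, Real.mul_self_sqrt h5]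
      ring
    exact (pow_eq_one_iff_of_nonneg (norm_nonneg _) two_ne_zero).1 h6

/-- equal differences of exponents give equal differences of `x` -/
theorem G4_diff {k J : ℕ} (hJ : 2 ≤ J) (n : Fin k → ℕ) (V : Submodule ℚ (Fin k → ℚ))
    (hV : Kills J n V) (x : Fin k → ℚ) (hx : x ∈ V) (i j i' j' : Fin k)
    (h : n i + n j' = n i' + n j) : x i - x j = x i' - x j' := by
  classical
  have key : ∀ (R : Type) [CommRing R] (g : Fin k → R),
      ∑ l, (((Pi.single i (1 : ℤ) + Pi.single j' 1 - Pi.single i' 1 - Pi.single j 1 :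
        Fin k → ℤ) l : ℤ) : R) * g l = g i + g j' - g i' - g j := by
    intro R _ g
    simp only [Pi.sub_apply, Pi.add_apply, Int.cast_sub, Int.cast_add, sub_mul, add_mul,
      Finset.sum_sub_distrib, Finset.sum_add_distrib, Pi.single_apply, Int.cast_ite, Int.cast_one,
      Int.cast_zero, ite_mul, one_mul, zero_mul, Finset.sum_ite_eq', Finset.mem_univ, if_true]
  have h1 := hV (Pi.single i (1 : ℤ) + Pi.single j' 1 - Pi.single i' 1 - Pi.single j 1) ?_ ?_ ?_ x hx
  · rw [key ℚ x] at h1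
    linarith
  · have := key ℤ (fun _ => 1)
    simpa using this
  · calc ∑ l, |(Pi.single i (1 : ℤ) + Pi.single j' 1 - Pi.single i' 1 - Pi.single j 1 :
          Fin k → ℤ) l|
        ≤ ∑ l, ((Pi.single i (1 : ℤ) : Fin k → ℤ) l + (Pi.single j' (1 : ℤ) : Fin k → ℤ) l +
          (Pi.single i' (1 : ℤ) : Fin k → ℤ) l + (Pi.single j (1 : ℤ) : Fin k → ℤ) l) := by
          refine Finset.sum_le_sum fun l _ => ?_
          have hp : ∀ u : Fin k, 0 ≤ (Pi.single u (1 : ℤ) : Fin k → ℤ) l := by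
            intro u
            rw [Pi.single_apply]
            split_ifs <;> norm_num
          simp only [Pi.sub_apply, Pi.add_apply]
          have h2 := hp i
          have h3 := hp j
          have h4 := hp i'
          have h5 := hp j'
          rw [abs_le]
          constructor <;> linarith
      _ = 4 := by
          simp [Finset.sum_add_distrib]
      _ ≤ 2 * (J : ℤ) := by
          have : (2 : ℤ) ≤ J := by exact_mod_cast hJ
          linarith
  · have h6 := key ℤ (fun l => (n l : ℤ))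
    simp only [Int.cast_id] at h6
    rw [h6]
    have h7 : (n i : ℤ) + n j' = n i' + n j := by exact_mod_cast h
    linarith

theorem const_of_eq {k J : ℕ} (hJ : 2 ≤ J) (a : Fin k → ℤ) (ha : ∀ i, a i ≠ 0) (n : Fin k → ℕ)
    (hn : Function.Injective n) (V : Submodule ℚ (Fin k → ℚ)) (hV : Kills J n V)
    (IT IB : Finset (Fin k))
    (h : ∀ z : ℂ, ‖z‖ = 1 → ‖aeval z (fp a n IT)‖ = ‖aeval z (fp a n IB)‖)
    (x : Fin k → ℚ) (hx : x ∈ V) (hxB : ∀ i ∈ IB, ∀ j ∈ IB, x i = x j) :
    ∀ i ∈ IT, ∀ j ∈ IT, x i = x j := by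
  classical
  by_contra hcon
  push Not at hcon
  obtain ⟨i₀, hi₀, j₀, hj₀, hne⟩ := hcon
  obtain ⟨N, hN⟩ : ∃ N, ∀ i, n i ≤ N :=
    ⟨∑ i, n i, fun i => Finset.single_le_sum (fun _ _ => Nat.zero_le _) (Finset.mem_univ i)⟩
  have hne' : IT.Nonempty := ⟨i₀, hi₀⟩
  obtain ⟨p, hp, hpmax⟩ := IT.exists_max_image x hne'
  obtain ⟨q, hq, hqmin⟩ := IT.exists_min_image x hne'
  have hpq : x q < x p := by
    have h1 := hpmax i₀ hi₀
    have h2 := hpmax j₀ hj₀
    have h3 := hqmin i₀ hi₀
    have h4 := hqmin j₀ hj₀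
    rcases lt_or_gt_of_ne hne with h5 | h5 <;> linarith
  -- equality of the polynomials
  have heq : fp a n IT * G4_rp a n N IT = fp a n IB * G4_rp a n N IB := by
    apply Polynomial.map_injective (algebraMap ℤ ℂ) (RingHom.injective_int _)
    apply Polynomial.eq_of_infinite_eval_eq
    refine G4_inf.mono ?_
    intro z hz
    have hz' : ‖z‖ = 1 := hz
    simp only [Set.mem_ofPred_eq, eval_map_algebraMap]
    rw [G4_rp_eval a n N hN IT z hz', G4_rp_eval a n N hN IB z hz', h z hz']
  -- the extreme parts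
  set I1 := IT.filter fun i => x i = x p with hI1
  set I2 := IT.filter fun i => x i = x q with hI2
  have hp1 : p ∈ I1 := Finset.mem_filter.2 ⟨hp, rfl⟩
  have hq2 : q ∈ I2 := Finset.mem_filter.2 ⟨hq, rfl⟩
  have hprod : fp a n I1 * G4_rp a n N I2 ≠ 0 :=
    mul_ne_zero (G4_fp_ne a ha n hn I1 hp1) (G4_rp_ne a ha n hn N hN I2 hq2)
  obtain ⟨d, hd⟩ : ∃ d, (fp a n I1 * G4_rp a n N I2).coeff d ≠ 0 := by
    by_contra hall
    push Not at hall
    exact hprod (Polynomial.ext fun d => by rw [hall d, coeff_zero])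
  -- a pair of indices with the difference `d`
  obtain ⟨i, hi, j, hj, hij⟩ : ∃ i ∈ I1, ∃ j ∈ I2, n i + (N - n j) = d := by
    by_contra hall
    push Not at hall
    apply hd
    rw [G4_coeff]
    refine Finset.sum_eq_zero fun i hi => Finset.sum_eq_zero fun j hj => ?_
    rw [if_neg (hall i hi j hj)]
  have hxi : x i = x p := (Finset.mem_filter.1 hi).2
  have hxj : x j = x q := (Finset.mem_filter.1 hj).2
  have hpair : ∀ i' j' : Fin k, n i' + (N - n j') = d → x i' - x j' = x p - x q := by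
    intro i' j' h1
    have h2 := hN j
    have h3 := hN j'
    rw [← hxi, ← hxj]
    refine (G4_diff hJ n V hV x hx i j i' j' ?_).symm
    omega
  have hcoef : (fp a n IT * G4_rp a n N IT).coeff d = (fp a n I1 * G4_rp a n N I2).coeff d := by
    rw [G4_coeff, G4_coeff, hI1, hI2, Finset.sum_filter]
    refine Finset.sum_congr rfl fun i' hi' => ?_
    by_cases h1 : x i' = x p
    · rw [if_pos h1, Finset.sum_filter]
      refine Finset.sum_congr rfl fun j' hj' => ?_
      by_cases h2 : x j' = x q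
      · rw [if_pos h2]
      · rw [if_neg h2, if_neg]
        intro h3
        apply h2
        have := hpair i' j' h3
        linarith
    · rw [if_neg h1]
      refine Finset.sum_eq_zero fun j' hj' => ?_
      rw [if_neg]
      intro h3
      apply h1
      have h4 := hpair i' j' h3
      have h5 := hpmax i' hi'
      have h6 := hqmin j' hj'
      linarith
  have hB : (fp a n IB * G4_rp a n N IB).coeff d ≠ 0 := by
    rw [← heq, hcoef]
    exact hd
  rw [G4_coeff] at hB
  apply hB
  refine Finset.sum_eq_zero fun i' hi' => Finset.sum_eq_zero fun j' hj' => ?_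
  rw [if_neg]
  intro h3
  have h4 := hpair i' j' h3
  have h5 := hxB i' hi' j' hj'
  linarith

end H91.LK
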