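import Pool.Agent.H91.LK.G1
import Pool.Agent.H91.LK.G2
import Pool.Agent.H91.LK.G3
import Pool.Agent.H91.LK.G4

/-!
# G5: the induction

PROOF. Induction on `r`. `r = 0`: `I = ∅`, `ZZ ∅ = ⊤`, so `finrank V + 1 ≤ finrank V`, impossible. Step `r + 1`: some `x ∈ V` is not constant
on `I` (otherwise `V = V ⊓ ZZ I + ℚ 1`, of dimension `≤ finrank (V ⊓ ZZ I) + 1`). `facet` gives `w`, `W`; `IT = {i ∈ I | w i = W}`,
`IB = {i ∈ I | w i = 0}`, disjoint. `hw` of `extreme`: for a relation `c` supported in `I`, `∑ c_i w_i = ∑ c_i x₀_i = 0`. If `|T| ≠ |B|` somewhere on the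
circle: `golden` and `extreme` (and `r * Er ≥ 0`). Otherwise the mean of the maximum is `lm (fp a n IT) = lm (fp a n IB)`. One of `IT`, `IB` has at
most `#I/2 < 2^r` elements, and both have `finrank (V ⊓ ZZ IT) ≤ finrank (V ⊓ ZZ I) + 1`: an `x ∈ V` which vanishes on `IT` is `α + β w` on `I`
(`facet`) with `α + β W = 0`, so `x - β (x₀ - W) ∈ V ⊓ ZZ I`; an `x ∈ V` which vanishes on `IB` is constant on `IT` (`const_of_eq`), so again
`α + β w` on `I`, with `α = 0`. Induction hypothesis for `IT` or `IB`, then `extreme`.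
-/

set_option autoImplicit false

namespace H91.LK

open Polynomial

theorem G5_Er_nonneg (t J : ℕ) (L η : ℝ) (hη : 0 < η) : 0 ≤ Er t J L η := by
  unfold Er Pool.Agent.H61.Sparse.GG
  positivity

theorem G5_lm_eq (f : ℤ[X]) :
    lm f = Real.circleAverage (fun z : ℂ => Real.log ‖aeval z f‖) 0 1 := by
  rw [lm, Polynomial.logMahlerMeasure_def]
  congr 1
  funext z
  rw [Polynomial.aeval_def, Polynomial.eval₂_eq_eval_map, algebraMap_int_eq]

theorem G5_avg_left (T B : ℤ[X])
    (h : ∀ z : ℂ, ‖z‖ = 1 → ‖aeval z T‖ = ‖aeval z B‖) :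
    Real.circleAverage (fun z : ℂ => max (Real.log ‖aeval z T‖) (Real.log ‖aeval z B‖)) 0 1 =
      lm T := by
  rw [G5_lm_eq]
  apply Real.circleAverage_congr_sphere
  intro z hz
  have hz1 : ‖z‖ = 1 := by simpa using hz
  simp only [h z hz1, max_self]

theorem G5_avg_right (T B : ℤ[X])
    (h : ∀ z : ℂ, ‖z‖ = 1 → ‖aeval z T‖ = ‖aeval z B‖) :
    Real.circleAverage (fun z : ℂ => max (Real.log ‖aeval z T‖) (Real.log ‖aeval z B‖)) 0 1 =
      lm B := by
  rw [G5_lm_eq]
  apply Real.circleAverage_congr_sphere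
  intro z hz
  have hz1 : ‖z‖ = 1 := by simpa using hz
  simp only [h z hz1, max_self]

theorem G5_fp_ne_zero {k : ℕ} (a : Fin k → ℤ) (ha : ∀ i, a i ≠ 0) (n : Fin k → ℕ)
    (hn : Function.Injective n) (I : Finset (Fin k)) (i : Fin k) (hi : i ∈ I) :
    fp a n I ≠ 0 := by
  intro h0
  have h1 : (fp a n I).coeff (n i) = a i := by
    rw [fp, Polynomial.finsetSum_coeff, Finset.sum_eq_single i]
    · simp
    · intro j _ hj
      rw [Polynomial.coeff_monomial, if_neg]
      intro h
      exact hj (hn h)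
    · intro h
      exact absurd hi h
  rw [h0, Polynomial.coeff_zero] at h1
  exact ha i h1.symm

theorem G5_finrank {k : ℕ} (A B : Submodule ℚ (Fin k → ℚ)) (y : Fin k → ℚ)
    (h : ∀ x ∈ A, ∃ β : ℚ, x - β • y ∈ B) :
    Module.finrank ℚ ↥A ≤ Module.finrank ℚ ↥B + 1 := by
  have h1 : A ≤ B ⊔ Submodule.span ℚ {y} := by
    intro x hx
    obtain ⟨β, hβ⟩ := h x hx
    have : x = (x - β • y) + β • y := by abel
    rw [this]
    exact Submodule.add_mem_sup hβ (Submodule.smul_mem _ _ (Submodule.mem_span_singleton_self y))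
  have h2 := Submodule.finrank_mono h1
  have h3 := Submodule.finrank_add_le_finrank_add_finrank B (Submodule.span ℚ {y})
  have h4 : Module.finrank ℚ ↥(Submodule.span ℚ {y}) ≤ 1 := by
    have := finrank_span_le_card (R := ℚ) ({y} : Set (Fin k → ℚ))
    simpa using this
  omega

theorem generic_ind {k J : ℕ} (hJ : 2 ≤ J) (t : ℕ) (ht : 0 < t) (hk : k ≤ t + 1)
    (a : Fin k → ℤ) (ha : ∀ i, a i ≠ 0) (n : Fin k → ℕ) (hn : Function.Injective n)
    (V : Submodule ℚ (Fin k → ℚ)) (h1 : (fun _ => (1 : ℚ)) ∈ V) (hV : Kills J n V)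
    (L η : ℝ) (hL1 : 1 ≤ L) (hL : ∑ i, |(a i : ℝ)| ≤ L) (hη : 0 < η) (hη1 : η ≤ 1) :
    ∀ (r : ℕ) (I : Finset (Fin k)),
      Module.finrank ℚ ↥(V ⊓ ZZ I) + r + 1 ≤ Module.finrank ℚ V → I.card < 2 ^ r →
      Real.log ((1 + √5) / 2) / 2 ≤ lm (fp a n I) + r * Er t J L η := by
  intro r
  induction r with
  | zero =>
    intro I hI hc
    exfalso
    have hI0 : I = ∅ := by
      rw [pow_zero, Nat.lt_one_iff, Finset.card_eq_zero] at hc
      exact hc
    subst hI0
    have hle : V ≤ V ⊓ ZZ (∅ : Finset (Fin k)) := by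
      intro x hx
      refine ⟨hx, ?_⟩
      intro i hi
      simp at hi
    have := Submodule.finrank_mono hle
    omega
  | succ r ih =>
    intro I hI hc
    have hEr := G5_Er_nonneg t J L η hη
    -- some vector of `V` is not constant on `I`
    have hne : ∃ x ∈ V, ∃ i ∈ I, ∃ j ∈ I, x i ≠ x j := by
      by_contra hcon
      push Not at hcon
      have h2 : Module.finrank ℚ ↥V ≤ Module.finrank ℚ ↥(V ⊓ ZZ I) + 1 := by
        apply G5_finrank V (V ⊓ ZZ I) (fun _ => (1 : ℚ))
        intro x hx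
        rcases I.eq_empty_or_nonempty with hI0 | ⟨i, hi⟩
        · refine ⟨0, ?_⟩
          subst hI0
          refine ⟨by simpa using hx, ?_⟩
          intro i hi
          simp at hi
        · refine ⟨x i, Submodule.sub_mem _ hx (Submodule.smul_mem _ _ h1), ?_⟩
          intro j hj
          simp [hcon x hx j hj i hi]
      omega
    obtain ⟨w, W, hW0, ⟨x₀, hx₀, hx₀w⟩, hwW, hTe, hBe, hfac⟩ := facet V h1 I hne
    set IT := I.filter fun i => w i = W with hIT
    set IB := I.filter fun i => w i = 0 with hIB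
    obtain ⟨iT, hiT, hwT⟩ := hTe
    obtain ⟨iB, hiB, hwB⟩ := hBe
    have hiT' : iT ∈ IT := Finset.mem_filter.2 ⟨hiT, hwT⟩
    have hiB' : iB ∈ IB := Finset.mem_filter.2 ⟨hiB, hwB⟩
    have hIcard : I.card ≤ t + 1 := by
      have : I.card ≤ Fintype.card (Fin k) := Finset.card_le_univ I
      rw [Fintype.card_fin] at this
      omega
    have hw : ∀ c : Fin k → ℤ, (∀ i, i ∉ I → c i = 0) → ∑ i, c i = 0 →
        ∑ i, |c i| ≤ 2 * (J : ℤ) → ∑ i, c i * (n i : ℤ) = 0 → ∑ i, c i * (w i : ℤ) = 0 := by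
      intro c hcI hc0 hcJ hcn
      have h2 := hV c hc0 hcJ hcn x₀ hx₀
      have h3 : ∑ i, (c i : ℚ) * x₀ i = ((∑ i, c i * (w i : ℤ) : ℤ) : ℚ) := by
        push_cast
        refine Finset.sum_congr rfl fun i _ => ?_
        by_cases hi : i ∈ I
        · rw [hx₀w i hi]
        · rw [hcI i hi]
          simp
      rw [h3] at h2
      exact_mod_cast h2
    have hext := extreme (J := J) t ht a ha n w hn I hIcard hw W hwW ⟨iT, hiT, hwT⟩
      ⟨iB, hiB, hwB⟩ L η hL1 hL hη hη1
    rw [← hIT, ← hIB] at hext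
    by_cases hTB : ∀ z : ℂ, ‖z‖ = 1 → ‖aeval z (fp a n IT)‖ = ‖aeval z (fp a n IB)‖
    · -- equal absolute values
      have hlmT : lm (fp a n IT) ≤ lm (fp a n I) + Er t J L η := by
        rw [← G5_avg_left _ _ hTB]
        exact hext
      have hlmB : lm (fp a n IB) ≤ lm (fp a n I) + Er t J L η := by
        rw [← G5_avg_right _ _ hTB]
        exact hext
      have hdisj : Disjoint IT IB := by
        rw [Finset.disjoint_left]
        intro i hi hi'
        have e1 := (Finset.mem_filter.1 hi).2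
        have e2 := (Finset.mem_filter.1 hi').2
        omega
      have hcard : IT.card + IB.card ≤ I.card := by
        rw [← Finset.card_union_of_disjoint hdisj]
        apply Finset.card_le_card
        intro i hi
        rcases Finset.mem_union.1 hi with h | h
        · exact (Finset.mem_filter.1 h).1
        · exact (Finset.mem_filter.1 h).1
      have hfT : Module.finrank ℚ ↥(V ⊓ ZZ IT) ≤ Module.finrank ℚ ↥(V ⊓ ZZ I) + 1 := by
        apply G5_finrank _ _ (x₀ - (W : ℚ) • fun _ => (1 : ℚ))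
        rintro x ⟨hxV, hxZ⟩
        have hconst : ∀ i ∈ I, ∀ j ∈ I, w i = W → w j = W → x i = x j := by
          intro i hi j hj hwi hwj
          rw [hxZ i (Finset.mem_filter.2 ⟨hi, hwi⟩), hxZ j (Finset.mem_filter.2 ⟨hj, hwj⟩)]
        obtain ⟨α, β, hαβ⟩ := hfac x hxV hconst
        refine ⟨β, Submodule.sub_mem _ hxV (Submodule.smul_mem _ _
          (Submodule.sub_mem _ hx₀ (Submodule.smul_mem _ _ h1))), ?_⟩
        have h0 : α + β * W = 0 := by
          have e1 := hαβ iT hiT
          rw [hxZ iT hiT', hwT] at e1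
          exact e1.symm
        intro i hi
        have e2 := hαβ i hi
        have e3 := hx₀w i hi
        simp only [Pi.sub_apply, Pi.smul_apply, smul_eq_mul, mul_one, e2, e3]
        linear_combination h0
      have hfB : Module.finrank ℚ ↥(V ⊓ ZZ IB) ≤ Module.finrank ℚ ↥(V ⊓ ZZ I) + 1 := by
        apply G5_finrank _ _ x₀
        rintro x ⟨hxV, hxZ⟩
        have hB0 : ∀ i ∈ IB, ∀ j ∈ IB, x i = x j := by
          intro i hi j hj
          rw [hxZ i hi, hxZ j hj]
        have hT0 := const_of_eq hJ a ha n hn V hV IT IB hTB x hxV hB0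
        have hconst : ∀ i ∈ I, ∀ j ∈ I, w i = W → w j = W → x i = x j := by
          intro i hi j hj hwi hwj
          exact hT0 i (Finset.mem_filter.2 ⟨hi, hwi⟩) j (Finset.mem_filter.2 ⟨hj, hwj⟩)
        obtain ⟨α, β, hαβ⟩ := hfac x hxV hconst
        refine ⟨β, Submodule.sub_mem _ hxV (Submodule.smul_mem _ _ hx₀), ?_⟩
        have h0 : α = 0 := by
          have e1 := hαβ iB hiB
          rw [hxZ iB hiB', hwB] at e1
          simpa using e1.symm
        intro i hi
        have e2 := hαβ i hi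
        have e3 := hx₀w i hi
        simp only [Pi.sub_apply, Pi.smul_apply, smul_eq_mul, e2, e3, h0]
        ring
      have hpow : 2 ^ (r + 1) = 2 * 2 ^ r := by rw [pow_succ, mul_comm]
      rcases Nat.lt_or_ge IT.card (2 ^ r) with hlt | hge
      · have h5 := ih IT (by omega) hlt
        push_cast
        linarith
      · have h5 := ih IB (by omega) (by omega)
        push_cast
        linarith
    · -- different absolute values somewhere: the golden inequality
      have hg := golden (fp a n IT) (fp a n IB) (G5_fp_ne_zero a ha n hn IT iT hiT')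
        (G5_fp_ne_zero a ha n hn IB iB hiB') hTB
      have h6 : (0 : ℝ) ≤ r * Er t J L η := by positivity
      push_cast
      linarith

theorem generic_raw {k J : ℕ} (hJ : 2 ≤ J) (t : ℕ) (ht : 0 < t) (hk : k ≤ t + 1)
    (a : Fin k → ℤ) (ha : ∀ i, a i ≠ 0) (n : Fin k → ℕ) (hn : Function.Injective n)
    (V : Submodule ℚ (Fin k → ℚ)) (h1 : (fun _ => (1 : ℚ)) ∈ V) (hV : Kills J n V)
    (L η : ℝ) (hL1 : 1 ≤ L) (hL : ∑ i, |(a i : ℝ)| ≤ L) (hη : 0 < η) (hη1 : η ≤ 1)
    (r : ℕ) (hr : r + 1 ≤ Module.finrank ℚ V) (hkr : k < 2 ^ r) :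
    Real.log ((1 + √5) / 2) / 2 ≤ lm (sp a n) + r * Er t J L η := by
  have h0 : V ⊓ ZZ (Finset.univ : Finset (Fin k)) = ⊥ := by
    rw [eq_bot_iff]
    rintro x ⟨_, hx⟩
    rw [Submodule.mem_bot]
    funext i
    exact hx i (Finset.mem_univ i)
  have h := generic_ind hJ t ht hk a ha n hn V h1 hV L η hL1 hL hη hη1 r Finset.univ
    (by rw [h0, finrank_bot]; omega) (by simpa using hkr)
  exact h

end H91.LK
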