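import Pool.Agent.H91.LK.G6
import Pool.Agent.H25.SmythWeak

/-!
# G7: the faces of a sparse polynomial of small Mahler measure are symmetric

`f = ∑ a_i X^(n_i)` with `k` terms, `V` a space of vectors killed by the short relations of the exponents, `w ∈ V`,
`face w = {i | w i = max w}`. If `M(f) < 1.28` then

* `lm (face) ≤ lm f + 10^(-4)` (`extreme`, one step), so `M(face) < (1 + √17)/4`;
* the face is symmetric: there are `s` and `e = ± 1` such that every `i ∈ face w` has a partner `j ∈ face w` with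
  `n_i + n_j = s`, `a_j = e a_i` (the weak Smyth theorem `Pool.Agent.H25.smyth_weak` for the face divided by a power
  of `X`);
* `2 ^ (dim V - 1) ≤ k`: for a face `I` let `r = dim V|I - 1`; by induction on `r`, `2^r ≤ #I`. A facet `IT` of `I` (`facet`)
  is a face again (direction `N w + x₀`), `dim V|IT = dim V|I - 1`. If `σ` is the symmetry of `I`,
  `n_i + n_{σ i} = n_j + n_{σ j}` is a short relation, so `x₀ i + x₀ (σ i)` is constant on `I`, and `σ` maps `IT` into the opposite
  facet: `#I ≥ 2 #IT ≥ 2^(r+1)`.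
-/

set_option autoImplicit false

namespace H91.LK

open Polynomial

/-- the face in the direction `w` -/
def face {k : ℕ} (w : Fin k → ℚ) : Finset (Fin k) := Finset.univ.filter fun i => ∀ j, w j ≤ w i

theorem mem_face {k : ℕ} {w : Fin k → ℚ} {i : Fin k} : i ∈ face w ↔ ∀ j, w j ≤ w i := by
  unfold face
  rw [Finset.mem_filter]
  exact ⟨fun h => h.2, fun h => ⟨Finset.mem_univ i, h⟩⟩

theorem face_nonempty {k : ℕ} (hk : 0 < k) (w : Fin k → ℚ) : (face w).Nonempty := by
  have : (Finset.univ : Finset (Fin k)).Nonempty := ⟨⟨0, hk⟩, Finset.mem_univ _⟩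
  obtain ⟨i, -, hi⟩ := Finset.exists_max_image Finset.univ w this
  exact ⟨i, mem_face.2 fun j => hi j (Finset.mem_univ j)⟩

/-- an integral form of a rational vector -/
theorem exists_nat {k : ℕ} (hk : 0 < k) (w : Fin k → ℚ) :
    ∃ (u : Fin k → ℕ) (D m : ℚ), 0 < D ∧ (∀ i, (u i : ℚ) = D * (w i - m)) ∧ ∃ i, u i = 0 := by
  have hne : (Finset.univ : Finset (Fin k)).Nonempty := ⟨⟨0, hk⟩, Finset.mem_univ _⟩
  obtain ⟨i₀, -, hi₀⟩ := Finset.exists_min_image Finset.univ w hne
  set D : ℕ := ∏ j, (w j - w i₀).den with hD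
  have hD0 : 0 < D := Finset.prod_pos fun j _ => (w j - w i₀).den_pos
  have hex : ∀ i, ∃ u : ℕ, (u : ℚ) = D * (w i - w i₀) := by
    intro i
    obtain ⟨q, hq⟩ : (w i - w i₀).den ∣ D := Finset.dvd_prod_of_mem _ (Finset.mem_univ i)
    have h1 : 0 ≤ (w i - w i₀).num := by
      rw [Rat.num_nonneg]
      linarith [hi₀ i (Finset.mem_univ i)]
    obtain ⟨v, hv⟩ := Int.eq_ofNat_of_zero_le h1
    refine ⟨q * v, ?_⟩
    have h3 : ((w i - w i₀).den : ℚ) * (w i - w i₀) = v := by
      rw [mul_comm, Rat.mul_den_eq_num, hv]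
      simp
    rw [hq]
    push_cast
    rw [← h3]
    ring
  choose u hu using hex
  refine ⟨u, D, w i₀, by exact_mod_cast hD0, hu, i₀, ?_⟩
  have h2 : (u i₀ : ℚ) = 0 := by
    rw [hu i₀]
    ring
  exact_mod_cast h2

theorem G7_num (k t : ℕ) (hk : 2 ≤ k) (ht : t + 1 = k) : ∃ L η : ℝ, 1 ≤ L ∧ 0 < η ∧ η ≤ 1 ∧
    (k : ℝ) * Real.exp (Real.log (128 / 100) + 2 * t * (1 + Real.log (1 + 26 * t))) ≤ L ∧
    ∀ J : ℕ, k ^ (264 * k) ≤ J → Er t J L η ≤ 2 / (10000 * (k : ℝ)) := by
  have hK : (2 : ℝ) ≤ k := by exact_mod_cast hk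
  have hK0 : (0 : ℝ) < k := by linarith
  have ht1 : 1 ≤ t := by omega
  have hT1 : (1 : ℝ) ≤ t := by exact_mod_cast ht1
  have hL := G6_L k t hk ht
  have hE := G6_eta k t hk ht
  have hy : 0 ≤ 2 * (t : ℝ) * (1 + Real.log (1 + 26 * t)) := by
    have : 0 ≤ Real.log (1 + 26 * (t : ℝ)) := Real.log_nonneg (by linarith)
    positivity
  set y : ℝ := 2 * (t : ℝ) * (1 + Real.log (1 + 26 * t)) with hydef
  set z : ℝ := 10000 * (k : ℝ) * (2 * t * (1 + 26 * t)) with hzdef
  have hz1 : 1 ≤ z := by
    have h1 : (1 : ℝ) ≤ 2 * t * (1 + 26 * t) := by nlinarith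
    have h2 : (1 : ℝ) ≤ 10000 * (k : ℝ) := by linarith
    rw [hzdef]
    exact one_le_mul_of_one_le_of_one_le h2 h1
  have hz0 : 0 < z := by linarith
  have hexp1 : 1 ≤ Real.exp y := Real.one_le_exp hy
  refine ⟨2 * k * Real.exp y, (1 / z) ^ (2 * t), ?_, by positivity, ?_, ?_, ?_⟩
  · nlinarith
  · apply pow_le_one₀ (by positivity)
    rw [div_le_one hz0]
    exact hz1
  · rw [Real.exp_add, Real.exp_log (by norm_num)]
    have h0 : 0 < Real.exp y := Real.exp_pos y
    have : (k : ℝ) * (128 / 100 * Real.exp y) = 128 / 100 * (k * Real.exp y) := by ring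
    rw [this]
    have h2 : 2 * (k : ℝ) * Real.exp y = 2 * (k * Real.exp y) := by ring
    rw [h2]
    apply mul_le_mul_of_nonneg_right (by norm_num) (by positivity)
  · intro J hJ
    have hJR : (k : ℝ) ^ (264 * k) ≤ J := by exact_mod_cast hJ
    unfold Er
    have hGG : Pool.Agent.H61.Sparse.GG t ((1 / z) ^ (2 * t)) = 1 / (10000 * (k : ℝ)) := by
      unfold Pool.Agent.H61.Sparse.GG
      have h1 : ((1 / z) ^ (2 * t)) ^ (1 / (2 * (t : ℝ))) = 1 / z := by
        rw [← Real.rpow_natCast, ← Real.rpow_mul (by positivity)]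
        have : ((2 * t : ℕ) : ℝ) * (1 / (2 * (t : ℝ))) = 1 := by
          push_cast
          field_simp
        rw [this, Real.rpow_one]
      rw [h1, hzdef]
      field_simp
    rw [hGG]
    set L : ℝ := 2 * k * Real.exp y with hLdef
    set η : ℝ := (1 / z) ^ (2 * t) with hηdef
    have hL0 : 0 < L := by positivity
    have hη0 : 0 < η := by positivity
    have hηinv : 1 / η ≤ (k : ℝ) ^ (46 * k) := by
      have : 1 / η = z ^ (2 * t) := by
        rw [hηdef, one_div_pow]
        simp
      rw [this]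
      exact hE
    set x : ℝ := L ^ 2 / η ^ 2 with hxdef
    have hx0 : 0 < x := by positivity
    have hxle : x ≤ (k : ℝ) ^ (124 * k) := by
      have h1 : x = L ^ 2 * (1 / η) ^ 2 := by
        rw [hxdef]
        field_simp
      rw [h1]
      calc L ^ 2 * (1 / η) ^ 2 ≤ ((k : ℝ) ^ (16 * k)) ^ 2 * ((k : ℝ) ^ (46 * k)) ^ 2 := by
            apply mul_le_mul
            · exact pow_le_pow_left₀ hL0.le hL 2
            · exact pow_le_pow_left₀ (by positivity) hηinv 2
            · positivity
            · positivity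
        _ = (k : ℝ) ^ (124 * k) := by
            rw [← pow_mul, ← pow_mul, ← pow_add]
            congr 1
            ring
    have hJ0 : (0 : ℝ) < J := lt_of_lt_of_le (by positivity) hJR
    have hkey : 20000 * (k : ℝ) * x ^ 2 ≤ J := by
      calc 20000 * (k : ℝ) * x ^ 2 ≤ (k : ℝ) ^ 16 * ((k : ℝ) ^ (124 * k)) ^ 2 := by
            apply mul_le_mul
            · have : (20000 : ℝ) ≤ (k : ℝ) ^ 15 := by
                calc (20000 : ℝ) ≤ 2 ^ 15 := by norm_num
                  _ ≤ (k : ℝ) ^ 15 := pow_le_pow_left₀ (by norm_num) hK 15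
              calc 20000 * (k : ℝ) ≤ (k : ℝ) ^ 15 * k :=
                    mul_le_mul_of_nonneg_right this hK0.le
                _ = (k : ℝ) ^ 16 := by ring
            · exact pow_le_pow_left₀ hx0.le hxle 2
            · positivity
            · positivity
        _ = (k : ℝ) ^ (16 + 124 * k * 2) := by rw [← pow_mul, ← pow_add]
        _ ≤ (k : ℝ) ^ (264 * k) := by
            apply pow_le_pow_right₀ (by linarith)
            omega
        _ ≤ J := hJR
    have hu : (J : ℝ) * η ^ 2 / (2 * L ^ 2) = J / (2 * x) := by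
      rw [hxdef]
      field_simp
    rw [hu]
    have hexp : Real.exp (-((J : ℝ) / (2 * x))) ≤ 2 * x / J := by
      rw [Real.exp_neg]
      have h1 : (J : ℝ) / (2 * x) ≤ Real.exp ((J : ℝ) / (2 * x)) := by
        have := Real.add_one_le_exp ((J : ℝ) / (2 * x))
        linarith
      have h2 : 0 < (J : ℝ) / (2 * x) := by positivity
      calc (Real.exp ((J : ℝ) / (2 * x)))⁻¹ ≤ ((J : ℝ) / (2 * x))⁻¹ := inv_anti₀ h2 h1
        _ = 2 * x / J := by rw [inv_div]
    have h3 : x * Real.exp (-((J : ℝ) / (2 * x))) ≤ 1 / (10000 * (k : ℝ)) := by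
      calc x * Real.exp (-((J : ℝ) / (2 * x))) ≤ x * (2 * x / J) :=
            mul_le_mul_of_nonneg_left hexp hx0.le
        _ = 2 * x ^ 2 / J := by ring
        _ ≤ 1 / (10000 * (k : ℝ)) := by
            rw [div_le_div_iff₀ hJ0 (by positivity)]
            linarith
    have h4 : (2 : ℝ) / (10000 * (k : ℝ)) = 1 / (10000 * (k : ℝ)) + 1 / (10000 * (k : ℝ)) := by
      ring
    rw [h4]
    linarith


/-- the Mahler measure of a face -/
theorem face_lm {k J : ℕ} (t : ℕ) (ht : 0 < t) (hk : t + 1 = k) (a : Fin k → ℤ)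
    (ha : ∀ i, a i ≠ 0) (n : Fin k → ℕ) (hn : Function.Injective n)
    (V : Submodule ℚ (Fin k → ℚ)) (hV : Kills J n V) (L η : ℝ) (hL1 : 1 ≤ L)
    (hL : ∑ i, |(a i : ℝ)| ≤ L) (hη : 0 < η) (hη1 : η ≤ 1) (w : Fin k → ℚ) (hw : w ∈ V) :
    lm (fp a n (face w)) ≤ lm (sp a n) + Er t J L η := by
  obtain ⟨u, D, m, hD, hu, i₀, hi₀⟩ := exists_nat (by omega) w
  obtain ⟨iT, hiT⟩ := face_nonempty (by omega) w
  have hiT' := mem_face.1 hiT
  have hle : ∀ i, u i ≤ u iT := by
    intro i
    have h1 : (u i : ℚ) ≤ u iT := by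
      rw [hu i, hu iT]
      exact mul_le_mul_of_nonneg_left (by linarith [hiT' i]) hD.le
    exact_mod_cast h1
  have hface : (Finset.univ.filter fun i => u i = u iT) = face w := by
    ext i
    rw [Finset.mem_filter, mem_face]
    constructor
    · rintro ⟨-, h1⟩ j
      have h2 : (u i : ℚ) = u iT := by exact_mod_cast h1
      rw [hu i, hu iT] at h2
      have h3 := mul_left_cancel₀ hD.ne' h2
      linarith [hiT' j]
    · intro h1
      refine ⟨Finset.mem_univ i, ?_⟩
      have h2 : w i = w iT := le_antisymm (hiT' i) (h1 iT)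
      have h3 : (u i : ℚ) = u iT := by rw [hu i, hu iT, h2]
      exact_mod_cast h3
  have hrel : ∀ c : Fin k → ℤ, (∀ i, i ∉ (Finset.univ : Finset (Fin k)) → c i = 0) →
      ∑ i, c i = 0 → ∑ i, |c i| ≤ 2 * (J : ℤ) → ∑ i, c i * (n i : ℤ) = 0 →
      ∑ i, c i * (u i : ℤ) = 0 := by
    intro c _ h0 h1 h2
    have h3 := hV c h0 h1 h2 w hw
    have h4 : (∑ i, (c i : ℚ)) = 0 := by exact_mod_cast h0
    have h5 : ((∑ i, c i * (u i : ℤ) : ℤ) : ℚ) = 0 := by
      push_cast
      calc ∑ i, (c i : ℚ) * (u i : ℚ) = ∑ i, (D * ((c i : ℚ) * w i) - D * m * (c i : ℚ)) :=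
            Finset.sum_congr rfl fun i _ => by rw [hu i]; ring
        _ = D * ∑ i, (c i : ℚ) * w i - D * m * ∑ i, (c i : ℚ) := by
            rw [Finset.sum_sub_distrib, ← Finset.mul_sum, ← Finset.mul_sum]
        _ = 0 := by rw [h3, h4]; ring
    exact_mod_cast h5
  have hcard : (Finset.univ : Finset (Fin k)).card ≤ t + 1 := by
    rw [Finset.card_univ, Fintype.card_fin]
    omega
  have hext := extreme (J := J) t ht a ha n u hn Finset.univ hcard hrel (u iT)
    (fun i _ => hle i) ⟨iT, Finset.mem_univ _, rfl⟩ ⟨i₀, Finset.mem_univ _, hi₀⟩ L η hL1 hL hη hη1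
  rw [hface] at hext
  have hsp : fp a n Finset.univ = sp a n := rfl
  rw [hsp] at hext
  refine le_trans ?_ hext
  rw [G5_lm_eq]
  apply Real.circleAverage_mono (G2_int _) (G2_int_max (G2_int _) (G2_int _))
  intro z _
  exact le_max_left _ _

/-- `X ^ s * g` has the same measure as `g` -/
theorem lm_X_pow_mul (s : ℕ) (g : ℤ[X]) (hg : g ≠ 0) : lm (X ^ s * g) = lm g := by
  have hX : (X : ℤ[X]) ≠ 0 := X_ne_zero
  unfold lm
  have hg' : g.map (Int.castRingHom ℂ) ≠ 0 :=
    (Polynomial.map_ne_zero_iff (RingHom.injective_int _)).2 hg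
  rw [Polynomial.map_mul, Polynomial.map_pow, map_X,
    logMahlerMeasure_mul_eq_add_logMahlerMeasure (mul_ne_zero (pow_ne_zero _ X_ne_zero) hg')]
  have h1 : ((X : ℂ[X]) ^ s).logMahlerMeasure = 0 := by
    rw [X_pow_eq_monomial, logMahlerMeasure_monomial]
    simp
  rw [h1, zero_add]

/-- a part of small measure is symmetric -/
theorem sym_of_lm {k : ℕ} (a : Fin k → ℤ) (ha : ∀ i, a i ≠ 0) (n : Fin k → ℕ)
    (hn : Function.Injective n) (I : Finset (Fin k)) (hI : I.Nonempty)
    (h : lm (fp a n I) < Real.log (12805 / 10000)) :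
    ∃ (s : ℕ) (e : ℤ), (e = 1 ∨ e = -1) ∧ ∀ i ∈ I, ∃ j ∈ I, n i + n j = s ∧ a j = e * a i := by
  classical
  obtain ⟨i₀, hi₀, hmin⟩ := I.exists_min_image n hI
  set g : ℤ[X] := ∑ i ∈ I, monomial (n i - n i₀) (a i) with hg
  have hcoef : ∀ i ∈ I, g.coeff (n i - n i₀) = a i := by
    intro i hi
    rw [hg, finsetSum_coeff, Finset.sum_eq_single i]
    · rw [coeff_monomial, if_pos rfl]
    · intro j hj hji
      rw [coeff_monomial, if_neg]
      intro h1
      apply hji
      apply hn
      have h2 := hmin i hi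
      have h3 := hmin j hj
      omega
    · exact fun h1 => absurd hi h1
  have hcoef' : ∀ d, g.coeff d ≠ 0 → ∃ j ∈ I, n j - n i₀ = d := by
    intro d hd
    by_contra hcon
    push Not at hcon
    apply hd
    rw [hg, finsetSum_coeff]
    refine Finset.sum_eq_zero fun j hj => ?_
    rw [coeff_monomial, if_neg (hcon j hj)]
  have hg0 : g.coeff 0 ≠ 0 := by
    have h1 := hcoef i₀ hi₀
    rw [Nat.sub_self] at h1
    rw [h1]
    exact ha i₀
  have hgne : g ≠ 0 := by
    intro h1
    rw [h1, coeff_zero] at hg0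
    exact hg0 rfl
  have hfg : fp a n I = X ^ n i₀ * g := by
    rw [hg, Finset.mul_sum]
    unfold fp
    refine Finset.sum_congr rfl fun i hi => ?_
    rw [X_pow_mul_monomial, Nat.sub_add_cancel (hmin i hi)]
  rw [hfg, lm_X_pow_mul _ _ hgne] at h
  have hM : lm g = Real.log (N60ffa576.mahlerMeasureZ g) := by
    unfold lm N60ffa576.mahlerMeasureZ
    rw [logMahlerMeasure_eq_log_MahlerMeasure, algebraMap_int_eq]
  have hM0 : 0 < N60ffa576.mahlerMeasureZ g :=
    lt_of_lt_of_le one_pos (Pool.Agent.H25.one_le_mmZ hgne)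
  have hMlt : N60ffa576.mahlerMeasureZ g < 12805 / 10000 := by
    rw [hM] at h
    exact (Real.log_lt_log_iff hM0 (by norm_num)).1 h
  have hrev : ∃ e : ℤ, (e = 1 ∨ e = -1) ∧ g.reverse = C e * g := by
    by_contra hcon
    push Not at hcon
    have h1 : g.reverse ≠ g := by
      have := hcon 1 (Or.inl rfl)
      simpa using this
    have h2 : g.reverse ≠ -g := by
      have := hcon (-1) (Or.inr rfl)
      simpa using this
    obtain ⟨-, h4⟩ := Pool.Agent.H25.smyth_weak g hg0 h1 h2
    nlinarith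
  obtain ⟨e, he, hrev⟩ := hrev
  have hee : e * e = 1 := by rcases he with rfl | rfl <;> norm_num
  refine ⟨g.natDegree + 2 * n i₀, e, he, fun i hi => ?_⟩
  have hdi : n i - n i₀ ≤ g.natDegree := by
    apply le_natDegree_of_ne_zero
    rw [hcoef i hi]
    exact ha i
  have h5 : g.reverse.coeff (g.natDegree - (n i - n i₀)) = a i := by
    rw [coeff_reverse, revAt_le (Nat.sub_le _ _), Nat.sub_sub_self hdi, hcoef i hi]
  rw [hrev, coeff_C_mul] at h5
  have h6 : g.coeff (g.natDegree - (n i - n i₀)) ≠ 0 := by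
    intro h7
    rw [h7, mul_zero] at h5
    exact ha i h5.symm
  obtain ⟨j, hj, hji⟩ := hcoef' _ h6
  refine ⟨j, hj, ?_, ?_⟩
  · have h7 := hmin i hi
    have h8 := hmin j hj
    omega
  · rw [← hji, hcoef j hj] at h5
    rw [← h5, ← mul_assoc, hee, one_mul]

/-- sums over the faces -/
theorem card_ge {k J : ℕ} (hk : 0 < k) (hJ : 2 ≤ J) (n : Fin k → ℕ)
    (hn : Function.Injective n) (V : Submodule ℚ (Fin k → ℚ)) (h1 : (fun _ => (1 : ℚ)) ∈ V)
    (hV : Kills J n V)
    (hsym : ∀ w ∈ V, ∃ s : ℕ, ∀ i ∈ face w, ∃ j ∈ face w, n i + n j = s) :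
    2 ^ (Module.finrank ℚ V - 1) ≤ k := by
  classical
  have main : ∀ (r : ℕ) (w : Fin k → ℚ), w ∈ V →
      Module.finrank ℚ ↥(V ⊓ ZZ (face w)) + r + 1 ≤ Module.finrank ℚ V →
      2 ^ r ≤ (face w).card := by
    intro r
    induction r with
    | zero =>
      intro w _ _
      rw [pow_zero]
      exact Finset.card_pos.2 (face_nonempty hk w)
    | succ r ih =>
      intro w hwV hfr
      obtain ⟨iw, hiw⟩ := face_nonempty hk w
      have hne : ∃ x ∈ V, ∃ i ∈ face w, ∃ j ∈ face w, x i ≠ x j := by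
        by_contra hcon
        push Not at hcon
        have h2 : Module.finrank ℚ ↥V ≤ Module.finrank ℚ ↥(V ⊓ ZZ (face w)) + 1 := by
          apply G5_finrank V (V ⊓ ZZ (face w)) (fun _ => (1 : ℚ))
          intro x hx
          refine ⟨x iw, Submodule.sub_mem _ hx (Submodule.smul_mem _ _ h1), ?_⟩
          intro j hj
          simp [hcon x hx j hj iw hiw]
        omega
      obtain ⟨u, U, hU0, ⟨x₀, hx₀, hx₀u⟩, huU, ⟨iT, hiT, huT⟩, ⟨iB, hiB, huB⟩, hfac⟩ :=
        facet V h1 (face w) hne
      -- the facet is a face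
      obtain ⟨N, hN⟩ : ∃ N : ℕ, ∀ i, i ∉ face w → x₀ i - x₀ iT < N * (w iT - w i) := by
        have hex : ∀ i, ∃ N : ℕ, i ∉ face w → x₀ i - x₀ iT < N * (w iT - w i) := by
          intro i
          by_cases hi : i ∈ face w
          · exact ⟨0, fun h => absurd hi h⟩
          · have h2 : w i < w iT := by
              by_contra h3
              push Not at h3
              exact hi (mem_face.2 fun j => (mem_face.1 hiT j).trans h3)
            obtain ⟨N, hN⟩ := exists_nat_gt ((x₀ i - x₀ iT) / (w iT - w i))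
            refine ⟨N, fun _ => ?_⟩
            rwa [div_lt_iff₀ (by linarith)] at hN
        choose M hM using hex
        refine ⟨∑ i, M i, fun i hi => ?_⟩
        have h2 : w i < w iT := by
          by_contra h3
          push Not at h3
          exact hi (mem_face.2 fun j => (mem_face.1 hiT j).trans h3)
        refine (hM i hi).trans_le (mul_le_mul_of_nonneg_right ?_ (by linarith))
        exact_mod_cast Finset.single_le_sum (f := M) (fun _ _ => Nat.zero_le _) (Finset.mem_univ i)
      have hw'V : (N : ℚ) • w + x₀ ∈ V := V.add_mem (V.smul_mem _ hwV) hx₀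
      have hx₀T : x₀ iT = U := by rw [hx₀u iT hiT, huT]
      have hfaceT : face ((N : ℚ) • w + x₀) = (face w).filter fun i => u i = U := by
        ext i
        rw [mem_face, Finset.mem_filter]
        have hval : ∀ j, ((N : ℚ) • w + x₀) j = N * w j + x₀ j := fun j => rfl
        have hwiT : ∀ j ∈ face w, w j = w iT := fun j hj =>
          le_antisymm (mem_face.1 hiT j) (mem_face.1 hj iT)
        constructor
        · intro h2
          have h3 := h2 iT
          rw [hval, hval] at h3
          have h4 : i ∈ face w := by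
            by_contra h5
            have h6 := hN i h5
            rw [mul_sub] at h6
            linarith
          refine ⟨h4, ?_⟩
          rw [hwiT i h4] at h3
          have h7 : (U : ℚ) ≤ u i := by
            rw [← hx₀u i h4, ← hx₀T]
            linarith
          have h8 : U ≤ u i := by exact_mod_cast h7
          exact le_antisymm (huU i h4) h8
        · rintro ⟨h2, h3⟩ j
          rw [hval, hval, hwiT i h2, hx₀u i h2, h3, ← hx₀T]
          by_cases hj : j ∈ face w
          · rw [hwiT j hj, hx₀u j hj, hx₀T]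
            have h4 : (u j : ℚ) ≤ U := by exact_mod_cast huU j hj
            linarith
          · have h6 := hN j hj
            rw [mul_sub] at h6
            linarith
      have hiTT : iT ∈ (face w).filter fun i => u i = U := Finset.mem_filter.2 ⟨hiT, huT⟩
      have hfT : Module.finrank ℚ ↥(V ⊓ ZZ ((face w).filter fun i => u i = U)) ≤
          Module.finrank ℚ ↥(V ⊓ ZZ (face w)) + 1 := by
        apply G5_finrank _ _ (x₀ - (U : ℚ) • fun _ => (1 : ℚ))
        rintro x ⟨hxV, hxZ⟩
        have hconst : ∀ i ∈ face w, ∀ j ∈ face w, u i = U → u j = U → x i = x j := by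
          intro i hi j hj hwi hwj
          rw [hxZ i (Finset.mem_filter.2 ⟨hi, hwi⟩), hxZ j (Finset.mem_filter.2 ⟨hj, hwj⟩)]
        obtain ⟨α, β, hαβ⟩ := hfac x hxV hconst
        refine ⟨β, Submodule.sub_mem _ hxV (Submodule.smul_mem _ _
          (Submodule.sub_mem _ hx₀ (Submodule.smul_mem _ _ h1))), ?_⟩
        have h0 : α + β * U = 0 := by
          have e1 := hαβ iT hiT
          rw [hxZ iT hiTT, huT] at e1
          exact e1.symm
        intro i hi
        have e2 := hαβ i hi
        have e3 := hx₀u i hi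
        simp only [Pi.sub_apply, Pi.smul_apply, smul_eq_mul, mul_one, e2, e3]
        linear_combination h0
      have hT := ih ((N : ℚ) • w + x₀) hw'V (by rw [hfaceT]; omega)
      rw [hfaceT] at hT
      -- the symmetry
      obtain ⟨s, hs⟩ := hsym w hwV
      have hex : ∀ i, ∃ j, i ∈ face w → j ∈ face w ∧ n i + n j = s := by
        intro i
        by_cases hi : i ∈ face w
        · obtain ⟨j, hj, hij⟩ := hs i hi
          exact ⟨j, fun _ => ⟨hj, hij⟩⟩
        · exact ⟨i, fun h => absurd h hi⟩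
      choose σ hσ using hex
      have hcst : ∀ i ∈ face w, ∀ j ∈ face w, x₀ i + x₀ (σ i) = x₀ j + x₀ (σ j) := by
        intro i hi j hj
        have h2 := G4_diff hJ n V hV x₀ hx₀ i j (σ j) (σ i) (by
          have h3 := (hσ i hi).2
          have h4 := (hσ j hj).2
          omega)
        linarith
      have hσB : x₀ (σ iB) ≤ U := by
        rw [hx₀u _ (hσ iB hiB).1]
        exact_mod_cast huU _ (hσ iB hiB).1
      have hmaps : ∀ i ∈ (face w).filter fun i => u i = U,
          σ i ∈ (face w).filter fun i => u i = 0 := by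
        intro i hi
        obtain ⟨hi1, hi2⟩ := Finset.mem_filter.1 hi
        refine Finset.mem_filter.2 ⟨(hσ i hi1).1, ?_⟩
        have h2 := hcst i hi1 iB hiB
        rw [hx₀u i hi1, hi2, hx₀u _ (hσ i hi1).1, hx₀u iB hiB, huB] at h2
        have h3 : (u (σ i) : ℚ) ≤ 0 := by
          push_cast at h2
          linarith
        have h4 : u (σ i) ≤ 0 := by exact_mod_cast h3
        omega
      have hinj : Set.InjOn σ ((face w).filter fun i => u i = U : Finset (Fin k)) := by
        intro i hi j hj hij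
        have hi1 := (Finset.mem_filter.1 (Finset.mem_coe.1 hi)).1
        have hj1 := (Finset.mem_filter.1 (Finset.mem_coe.1 hj)).1
        apply hn
        have h3 := (hσ i hi1).2
        have h4 := (hσ j hj1).2
        rw [hij] at h3
        omega
      have hle := Finset.card_le_card_of_injOn σ hmaps hinj
      have hdisj : Disjoint ((face w).filter fun i => u i = U)
          ((face w).filter fun i => u i = 0) := by
        rw [Finset.disjoint_left]
        intro i hi hi'
        have e1 := (Finset.mem_filter.1 hi).2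
        have e2 := (Finset.mem_filter.1 hi').2
        omega
      have hcard : ((face w).filter fun i => u i = U).card +
          ((face w).filter fun i => u i = 0).card ≤ (face w).card := by
        rw [← Finset.card_union_of_disjoint hdisj]
        apply Finset.card_le_card
        intro i hi
        rcases Finset.mem_union.1 hi with h | h
        · exact (Finset.mem_filter.1 h).1
        · exact (Finset.mem_filter.1 h).1
      rw [pow_succ]
      omega
  have hfr : 1 ≤ Module.finrank ℚ V := by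
    by_contra h0
    have h00 : Module.finrank ℚ V = 0 := by omega
    have h01 : V = ⊥ := Submodule.finrank_eq_zero.1 h00
    rw [h01, Submodule.mem_bot] at h1
    have := congrFun h1 ⟨0, hk⟩
    simp at this
  have hf0 : face (0 : Fin k → ℚ) = Finset.univ := by
    ext i
    rw [mem_face]
    simp
  have h0 : V ⊓ ZZ (face (0 : Fin k → ℚ)) = ⊥ := by
    rw [hf0, eq_bot_iff]
    rintro x ⟨_, hx⟩
    rw [Submodule.mem_bot]
    funext i
    exact hx i (Finset.mem_univ i)
  have h := main (Module.finrank ℚ V - 1) 0 V.zero_mem (by rw [h0, finrank_bot]; omega)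
  rw [hf0, Finset.card_univ, Fintype.card_fin] at h
  exact h

/-- faces of sparse polynomials of small measure -/
theorem faces_264 (k : ℕ) (hk : 2 ≤ k) (a : Fin k → ℤ) (ha : ∀ i, a i ≠ 0)
    (n : Fin k → ℕ) (hn : Function.Injective n) (J : ℕ) (hJ : k ^ (264 * k) ≤ J)
    (V : Submodule ℚ (Fin k → ℚ)) (hV : Kills J n V)
    (h128 : lm (sp a n) < Real.log (128 / 100)) (w : Fin k → ℚ) (hw : w ∈ V) :
    lm (fp a n (face w)) ≤ lm (sp a n) + 1 / 10000 ∧
    ∃ (s : ℕ) (e : ℤ), (e = 1 ∨ e = -1) ∧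
      ∀ i ∈ face w, ∃ j ∈ face w, n i + n j = s ∧ a j = e * a i := by
  obtain ⟨t, ht⟩ : ∃ t, t + 1 = k := ⟨k - 1, by omega⟩
  have ht0 : 0 < t := by omega
  obtain ⟨L, η, hL1, hη0, hη1, hLk, hEr⟩ := G7_num k t hk ht
  have hK : (2 : ℝ) ≤ k := by exact_mod_cast hk
  have hsum : ∑ i, |(a i : ℝ)| ≤ L := by
    have hi : ∀ i : Fin k, |(a i : ℝ)| ≤
        Real.exp (Real.log (128 / 100) + 2 * t * (1 + Real.log (1 + 26 * t))) := by
      intro i
      have hcard : (sp a n).support.card ≤ t + 1 := by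
        rw [ht]
        exact G6_card a n
      have h := coeff_bound t ht0 (sp a n) hcard (n i)
      rw [G6_coeff a n hn i] at h
      refine h.trans (Real.exp_le_exp.2 ?_)
      linarith
    calc ∑ i, |(a i : ℝ)| ≤ ∑ _i : Fin k,
          Real.exp (Real.log (128 / 100) + 2 * t * (1 + Real.log (1 + 26 * t))) :=
          Finset.sum_le_sum fun i _ => hi i
      _ = (k : ℝ) * Real.exp (Real.log (128 / 100) + 2 * t * (1 + Real.log (1 + 26 * t))) := by
          simp
      _ ≤ L := hLk
  have hface := face_lm (J := J) t ht0 ht a ha n hn V hV L η hL1 hsum hη0 hη1 w hw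
  have hE := hEr J hJ
  have hE' : Er t J L η ≤ 1 / 10000 := by
    refine hE.trans ?_
    rw [div_le_div_iff₀ (by positivity) (by norm_num)]
    linarith
  have hlm : lm (fp a n (face w)) ≤ lm (sp a n) + 1 / 10000 := by linarith
  refine ⟨hlm, sym_of_lm a ha n hn (face w) (face_nonempty (by omega) w) ?_⟩
  have h2 : Real.log (12805 / 10000) = Real.log (128 / 100) + Real.log (12805 / 12800) := by
    rw [← Real.log_mul (by norm_num) (by norm_num)]
    norm_num
  have h4 : 1 - (12805 / 12800 : ℝ)⁻¹ ≤ Real.log (12805 / 12800) :=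
    Real.one_sub_inv_le_log_of_pos (by norm_num)
  norm_num at h4
  rw [h2]
  linarith

/-- the number of terms -/
theorem dim_264 (k : ℕ) (hk : 2 ≤ k) (a : Fin k → ℤ) (ha : ∀ i, a i ≠ 0)
    (n : Fin k → ℕ) (hn : Function.Injective n) (J : ℕ) (hJ : k ^ (264 * k) ≤ J)
    (V : Submodule ℚ (Fin k → ℚ)) (h1 : (fun _ => (1 : ℚ)) ∈ V) (hV : Kills J n V)
    (h128 : lm (sp a n) < Real.log (128 / 100)) : 2 ^ (Module.finrank ℚ V - 1) ≤ k := by
  have hJ2 : 2 ≤ J := by
    refine le_trans ?_ hJ
    calc 2 ≤ k := hk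
      _ = k ^ 1 := (pow_one k).symm
      _ ≤ k ^ (264 * k) := Nat.pow_le_pow_right (by omega) (by omega)
  refine card_ge (by omega) hJ2 n hn V h1 hV fun w hw => ?_
  obtain ⟨-, s, e, -, h⟩ := faces_264 k hk a ha n hn J hJ V hV h128 w hw
  refine ⟨s, fun i hi => ?_⟩
  obtain ⟨j, hj, hij, -⟩ := h i hi
  exact ⟨j, hj, hij⟩

end H91.LK
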